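import Mathlib

/-!
# MP_d3656f_al, block GB : definitions (FIXED, do not edit)

`FF n` is the free group on `xx 0, …, xx (n-1)`. For a finite set `S` of indices `Av S` is the free
factor generated by the basis elements whose index is not in `S` (it avoids `S`). For
`w ∈ Av {i}` the automorphism `lam i w` maps `xx i` to `w⁻¹ * xx i` and `rho i w` maps it to
`xx i * w`; all other basis elements are fixed. Both are homomorphisms in `w`. The product
`con i w` conjugates `xx i` by `w`. `gam H k` is the lower central series of a subgroup, with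
`gam H 0 = H`.
-/

set_option autoImplicit false

namespace Pool.Agent.Work.MP_d3656f_al.GB

open scoped commutatorElement

/-- The free group on `xx 0, …, xx (n-1)`. -/
abbrev FF (n : ℕ) : Type := FreeGroup (Fin n)

/-- The basis elements. -/
abbrev xx {n : ℕ} (i : Fin n) : FF n := FreeGroup.of i

/-- The free factor generated by the basis elements `xx j`, `j ∉ S`. -/
def Av {n : ℕ} (S : Finset (Fin n)) : Subgroup (FF n) :=
  Subgroup.closure {y | ∃ j, j ∉ S ∧ y = xx j}

/-- The endomorphism `xx i ↦ w⁻¹ * xx i`. -/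
def lamE {n : ℕ} (i : Fin n) (w : FF n) : FF n →* FF n :=
  FreeGroup.lift fun j => if j = i then w⁻¹ * xx i else xx j

/-- The endomorphism `xx i ↦ xx i * w`. -/
def rhoE {n : ℕ} (i : Fin n) (w : FF n) : FF n →* FF n :=
  FreeGroup.lift fun j => if j = i then xx i * w else xx j

theorem xx_mem_Av {n : ℕ} {S : Finset (Fin n)} {j : Fin n} (h : j ∉ S) : xx j ∈ Av S :=
  Subgroup.subset_closure ⟨j, h, rfl⟩

theorem Av_anti {n : ℕ} {S T : Finset (Fin n)} (h : S ⊆ T) : Av T ≤ Av S := by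
  refine (Subgroup.closure_le _).2 ?_
  rintro y ⟨j, hj, rfl⟩
  exact xx_mem_Av (fun h' => hj (h h'))

theorem lamE_self {n : ℕ} (i : Fin n) (w : FF n) : lamE i w (xx i) = w⁻¹ * xx i := by
  simp [lamE]

theorem lamE_ne {n : ℕ} {i j : Fin n} (w : FF n) (h : j ≠ i) : lamE i w (xx j) = xx j := by
  simp [lamE, h]

theorem rhoE_self {n : ℕ} (i : Fin n) (w : FF n) : rhoE i w (xx i) = xx i * w := by
  simp [rhoE]

theorem rhoE_ne {n : ℕ} {i j : Fin n} (w : FF n) (h : j ≠ i) : rhoE i w (xx j) = xx j := by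
  simp [rhoE, h]

/-- Two homomorphisms which agree on the basis elements outside `S` agree on `Av S`. -/
theorem hom_eqOn {n : ℕ} {G : Type*} [Group G] {S : Finset (Fin n)} {f f' : FF n →* G}
    (h : ∀ j, j ∉ S → f (xx j) = f' (xx j)) {y : FF n} (hy : y ∈ Av S) : f y = f' y := by
  have : Set.EqOn f f' (Av S : Set (FF n)) := by
    refine MonoidHom.eqOn_closure ?_
    rintro z ⟨j, hj, rfl⟩
    exact h j hj
  exact this hy

theorem lamE_fix {n : ℕ} (i : Fin n) (w : FF n) {y : FF n} (hy : y ∈ Av {i}) : lamE i w y = y := by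
  have := hom_eqOn (f := lamE i w) (f' := MonoidHom.id _) (S := {i})
    (fun j hj => by rw [lamE_ne w (by simpa using hj)]; rfl) hy
  simpa using this

theorem rhoE_fix {n : ℕ} (i : Fin n) (w : FF n) {y : FF n} (hy : y ∈ Av {i}) : rhoE i w y = y := by
  have := hom_eqOn (f := rhoE i w) (f' := MonoidHom.id _) (S := {i})
    (fun j hj => by rw [rhoE_ne w (by simpa using hj)]; rfl) hy
  simpa using this

theorem lamE_comp {n : ℕ} (i : Fin n) {w : FF n} (hw : w ∈ Av {i}) (v : FF n) :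
    (lamE i v).comp (lamE i w) = lamE i (v * w) := by
  ext j
  by_cases h : j = i
  · subst h
    simp only [MonoidHom.comp_apply, lamE_self, map_mul, map_inv]
    rw [lamE_fix j v hw]
    group
  · rw [MonoidHom.comp_apply, lamE_ne _ h, lamE_ne _ h, lamE_ne _ h]

theorem rhoE_comp {n : ℕ} (i : Fin n) {w : FF n} (hw : w ∈ Av {i}) (v : FF n) :
    (rhoE i v).comp (rhoE i w) = rhoE i (v * w) := by
  ext j
  by_cases h : j = i
  · subst h
    simp only [MonoidHom.comp_apply, rhoE_self, map_mul]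
    rw [rhoE_fix j v hw]
    group
  · rw [MonoidHom.comp_apply, rhoE_ne _ h, rhoE_ne _ h, rhoE_ne _ h]

theorem lamE_one {n : ℕ} (i : Fin n) : lamE i (1 : FF n) = MonoidHom.id _ := by
  ext j
  by_cases h : j = i
  · subst h
    rw [lamE_self]
    simp
  · rw [lamE_ne _ h]
    simp

theorem rhoE_one {n : ℕ} (i : Fin n) : rhoE i (1 : FF n) = MonoidHom.id _ := by
  ext j
  by_cases h : j = i
  · subst h
    rw [rhoE_self]
    simp
  · rw [rhoE_ne _ h]
    simp

open Classical in
/-- The automorphism `xx i ↦ w⁻¹ * xx i` (the identity if `w ∉ Av {i}`). -/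
noncomputable def lam {n : ℕ} (i : Fin n) (w : FF n) : MulAut (FF n) :=
  if h : w ∈ Av {i} then
    MonoidHom.toMulEquiv (lamE i w) (lamE i w⁻¹)
      (by rw [lamE_comp i h, inv_mul_cancel, lamE_one])
      (by rw [lamE_comp i ((Av {i}).inv_mem h), mul_inv_cancel, lamE_one])
  else 1

open Classical in
/-- The automorphism `xx i ↦ xx i * w` (the identity if `w ∉ Av {i}`). -/
noncomputable def rho {n : ℕ} (i : Fin n) (w : FF n) : MulAut (FF n) :=
  if h : w ∈ Av {i} then
    MonoidHom.toMulEquiv (rhoE i w) (rhoE i w⁻¹)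
      (by rw [rhoE_comp i h, inv_mul_cancel, rhoE_one])
      (by rw [rhoE_comp i ((Av {i}).inv_mem h), mul_inv_cancel, rhoE_one])
  else 1

/-- The automorphism `xx i ↦ w⁻¹ * xx i * w`. -/
noncomputable def con {n : ℕ} (i : Fin n) (w : FF n) : MulAut (FF n) := lam i w * rho i w

theorem lam_apply {n : ℕ} {i : Fin n} {w : FF n} (hw : w ∈ Av {i}) (y : FF n) :
    lam i w y = lamE i w y := by
  rw [lam, dif_pos hw]
  rfl

theorem rho_apply {n : ℕ} {i : Fin n} {w : FF n} (hw : w ∈ Av {i}) (y : FF n) :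
    rho i w y = rhoE i w y := by
  rw [rho, dif_pos hw]
  rfl

theorem lam_self {n : ℕ} {i : Fin n} {w : FF n} (hw : w ∈ Av {i}) :
    lam i w (xx i) = w⁻¹ * xx i := by
  rw [lam_apply hw, lamE_self]

theorem rho_self {n : ℕ} {i : Fin n} {w : FF n} (hw : w ∈ Av {i}) :
    rho i w (xx i) = xx i * w := by
  rw [rho_apply hw, rhoE_self]

theorem lam_fix {n : ℕ} (i : Fin n) (w : FF n) {y : FF n} (hy : y ∈ Av {i}) : lam i w y = y := by
  by_cases hw : w ∈ Av {i}
  · rw [lam_apply hw, lamE_fix i w hy]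
  · rw [lam, dif_neg hw]
    rfl

theorem rho_fix {n : ℕ} (i : Fin n) (w : FF n) {y : FF n} (hy : y ∈ Av {i}) : rho i w y = y := by
  by_cases hw : w ∈ Av {i}
  · rw [rho_apply hw, rhoE_fix i w hy]
  · rw [rho, dif_neg hw]
    rfl

theorem lam_ne {n : ℕ} {i j : Fin n} (w : FF n) (h : j ≠ i) : lam i w (xx j) = xx j :=
  lam_fix i w (xx_mem_Av (by simpa using h))

theorem rho_ne {n : ℕ} {i j : Fin n} (w : FF n) (h : j ≠ i) : rho i w (xx j) = xx j :=
  rho_fix i w (xx_mem_Av (by simpa using h))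

/-- Automorphisms which agree on the basis are equal. -/
theorem aut_ext {n : ℕ} {α β : MulAut (FF n)} (h : ∀ j, α (xx j) = β (xx j)) : α = β := by
  apply MulEquiv.toMonoidHom_injective
  ext j
  exact h j

theorem lam_mul {n : ℕ} {i : Fin n} {v w : FF n} (hv : v ∈ Av {i}) (hw : w ∈ Av {i}) :
    lam i (v * w) = lam i v * lam i w := by
  apply aut_ext
  intro j
  rw [MulAut.mul_apply, lam_apply (mul_mem hv hw), lam_apply hw, lam_apply hv,
    ← lamE_comp i hw v, MonoidHom.comp_apply]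

theorem rho_mul {n : ℕ} {i : Fin n} {v w : FF n} (hv : v ∈ Av {i}) (hw : w ∈ Av {i}) :
    rho i (v * w) = rho i v * rho i w := by
  apply aut_ext
  intro j
  rw [MulAut.mul_apply, rho_apply (mul_mem hv hw), rho_apply hw, rho_apply hv,
    ← rhoE_comp i hw v, MonoidHom.comp_apply]

theorem lam_one {n : ℕ} (i : Fin n) : lam i (1 : FF n) = 1 := by
  apply aut_ext
  intro j
  rw [lam_apply (one_mem _), lamE_one]
  rfl

theorem rho_one {n : ℕ} (i : Fin n) : rho i (1 : FF n) = 1 := by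
  apply aut_ext
  intro j
  rw [rho_apply (one_mem _), rhoE_one]
  rfl

theorem lam_inv {n : ℕ} {i : Fin n} {w : FF n} (hw : w ∈ Av {i}) : lam i w⁻¹ = (lam i w)⁻¹ := by
  rw [eq_inv_iff_mul_eq_one, ← lam_mul (inv_mem hw) hw, inv_mul_cancel, lam_one]

theorem rho_inv {n : ℕ} {i : Fin n} {w : FF n} (hw : w ∈ Av {i}) : rho i w⁻¹ = (rho i w)⁻¹ := by
  rw [eq_inv_iff_mul_eq_one, ← rho_mul (inv_mem hw) hw, inv_mul_cancel, rho_one]

theorem lam_comm_rho {n : ℕ} {i : Fin n} {v w : FF n} (hv : v ∈ Av {i}) (hw : w ∈ Av {i}) :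
    lam i v * rho i w = rho i w * lam i v := by
  apply aut_ext
  intro j
  by_cases h : j = i
  · subst h
    rw [MulAut.mul_apply, MulAut.mul_apply, rho_self hw, lam_self hv, map_mul, map_mul,
      lam_self hv, rho_self hw, lam_fix j v hw, map_inv, rho_fix j w hv]
    group
  · rw [MulAut.mul_apply, MulAut.mul_apply, rho_ne w h, lam_ne v h, rho_ne w h]

theorem con_self {n : ℕ} {i : Fin n} {w : FF n} (hw : w ∈ Av {i}) :
    con i w (xx i) = w⁻¹ * xx i * w := by
  rw [con, MulAut.mul_apply, rho_self hw, map_mul, lam_self hw, lam_fix i w hw]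

theorem con_fix {n : ℕ} (i : Fin n) (w : FF n) {y : FF n} (hy : y ∈ Av {i}) : con i w y = y := by
  rw [con, MulAut.mul_apply, rho_fix i w hy, lam_fix i w hy]

theorem con_ne {n : ℕ} {i j : Fin n} (w : FF n) (h : j ≠ i) : con i w (xx j) = xx j :=
  con_fix i w (xx_mem_Av (by simpa using h))

theorem con_mul {n : ℕ} {i : Fin n} {v w : FF n} (hv : v ∈ Av {i}) (hw : w ∈ Av {i}) :
    con i (v * w) = con i v * con i w := by
  rw [con, con, con, lam_mul hv hw, rho_mul hv hw]
  have := lam_comm_rho (i := i) hw hv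
  calc lam i v * lam i w * (rho i v * rho i w)
      = lam i v * (lam i w * rho i v) * rho i w := by group
    _ = lam i v * (rho i v * lam i w) * rho i w := by rw [this]
    _ = _ := by group

theorem con_one {n : ℕ} (i : Fin n) : con i (1 : FF n) = 1 := by
  rw [con, lam_one, rho_one, one_mul]

theorem con_inv {n : ℕ} {i : Fin n} {w : FF n} (hw : w ∈ Av {i}) : con i w⁻¹ = (con i w)⁻¹ := by
  rw [eq_inv_iff_mul_eq_one, ← con_mul (inv_mem hw) hw, inv_mul_cancel, con_one]

/-- `α` fixes `xx i` and preserves `Av {i}`. -/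
structure Pr {n : ℕ} (i : Fin n) (α : MulAut (FF n)) : Prop where
  fix : α (xx i) = xx i
  map : ∀ y ∈ Av {i}, α y ∈ Av {i}
  inv : ∀ y ∈ Av {i}, α⁻¹ y ∈ Av {i}

theorem pr_one {n : ℕ} (i : Fin n) : Pr i (1 : MulAut (FF n)) :=
  ⟨rfl, fun _ h => h, fun _ h => by simpa using h⟩

theorem Pr.mul {n : ℕ} {i : Fin n} {α β : MulAut (FF n)} (hα : Pr i α) (hβ : Pr i β) :
    Pr i (α * β) :=
  ⟨by rw [MulAut.mul_apply, hβ.fix, hα.fix], fun y h => hα.map _ (hβ.map _ h), fun y h => by
    rw [mul_inv_rev]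
    exact hβ.inv _ (hα.inv _ h)⟩

theorem Pr.inv' {n : ℕ} {i : Fin n} {α : MulAut (FF n)} (hα : Pr i α) : Pr i α⁻¹ :=
  ⟨by
    have h := congrArg (fun z => α⁻¹ z) hα.fix
    simpa using h.symm, hα.inv, fun y h => by
    rw [inv_inv]
    exact hα.map _ h⟩

/-- A homomorphism which maps the generators of `Av S` into `H` maps `Av S` into `H`. -/
theorem map_mem {n : ℕ} {G : Type*} [Group G] {S : Finset (Fin n)} {H : Subgroup G}
    {f : FF n →* G} (h : ∀ j, j ∉ S → f (xx j) ∈ H) {y : FF n} (hy : y ∈ Av S) : f y ∈ H := by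
  have : Av S ≤ H.comap f := by
    refine (Subgroup.closure_le _).2 ?_
    rintro z ⟨j, hj, rfl⟩
    exact h j hj
  exact this hy

theorem aut_mem {n : ℕ} {S : Finset (Fin n)} {H : Subgroup (FF n)}
    {α : MulAut (FF n)} (h : ∀ j, j ∉ S → α (xx j) ∈ H) {y : FF n} (hy : y ∈ Av S) : α y ∈ H :=
  map_mem (f := α.toMonoidHom) h hy

theorem pr_of_gens {n : ℕ} {i : Fin n} {α : MulAut (FF n)} (h0 : α (xx i) = xx i)
    (h1 : ∀ j, j ≠ i → α (xx j) ∈ Av {i}) (h2 : ∀ j, j ≠ i → α⁻¹ (xx j) ∈ Av {i}) : Pr i α :=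
  ⟨h0, fun _ h => aut_mem (fun j hj => h1 j (by simpa using hj)) h,
    fun _ h => aut_mem (fun j hj => h2 j (by simpa using hj)) h⟩

/-- `lam j w` fixes `xx i` and preserves `Av {i}` if `w` avoids `i` and `j`. -/
theorem pr_lam {n : ℕ} {i j : Fin n} (hij : i ≠ j) {w : FF n} (hw : w ∈ Av {i, j}) :
    Pr i (lam j w) := by
  have hj : w ∈ Av {j} := Av_anti (by simp) hw
  have hi : w ∈ Av {i} := Av_anti (by simp) hw
  refine pr_of_gens (lam_ne w hij) (fun k hk => ?_) (fun k hk => ?_)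
  · by_cases h : k = j
    · subst h
      rw [lam_self hj]
      exact mul_mem (inv_mem hi) (xx_mem_Av (by simpa using hk))
    · rw [lam_ne w h]
      exact xx_mem_Av (by simpa using hk)
  · rw [← lam_inv hj]
    by_cases h : k = j
    · subst h
      rw [lam_self (inv_mem hj), inv_inv]
      exact mul_mem hi (xx_mem_Av (by simpa using hk))
    · rw [lam_ne _ h]
      exact xx_mem_Av (by simpa using hk)

theorem pr_rho {n : ℕ} {i j : Fin n} (hij : i ≠ j) {w : FF n} (hw : w ∈ Av {i, j}) :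
    Pr i (rho j w) := by
  have hj : w ∈ Av {j} := Av_anti (by simp) hw
  have hi : w ∈ Av {i} := Av_anti (by simp) hw
  refine pr_of_gens (rho_ne w hij) (fun k hk => ?_) (fun k hk => ?_)
  · by_cases h : k = j
    · subst h
      rw [rho_self hj]
      exact mul_mem (xx_mem_Av (by simpa using hk)) hi
    · rw [rho_ne w h]
      exact xx_mem_Av (by simpa using hk)
  · rw [← rho_inv hj]
    by_cases h : k = j
    · subst h
      rw [rho_self (inv_mem hj)]
      exact mul_mem (xx_mem_Av (by simpa using hk)) (inv_mem hi)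
    · rw [rho_ne _ h]
      exact xx_mem_Av (by simpa using hk)

theorem pr_con {n : ℕ} {i j : Fin n} (hij : i ≠ j) {w : FF n} (hw : w ∈ Av {i, j}) :
    Pr i (con j w) := (pr_lam hij hw).mul (pr_rho hij hw)

/-- The transformation rule. -/
theorem lam_conj {n : ℕ} {i : Fin n} {α : MulAut (FF n)} (hα : Pr i α) {w : FF n}
    (hw : w ∈ Av {i}) : α * lam i w * α⁻¹ = lam i (α w) := by
  apply aut_ext
  intro j
  rw [MulAut.mul_apply, MulAut.mul_apply]
  by_cases h : j = i
  · subst h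
    rw [hα.inv'.fix, lam_self hw, map_mul, map_inv, hα.fix, lam_self (hα.map _ hw)]
  · have hj : xx j ∈ Av {i} := xx_mem_Av (by simpa using h)
    rw [lam_fix i w (hα.inv _ hj), lam_ne _ h, ← MulAut.mul_apply, mul_inv_cancel,
      MulAut.one_apply]

theorem rho_conj {n : ℕ} {i : Fin n} {α : MulAut (FF n)} (hα : Pr i α) {w : FF n}
    (hw : w ∈ Av {i}) : α * rho i w * α⁻¹ = rho i (α w) := by
  apply aut_ext
  intro j
  rw [MulAut.mul_apply, MulAut.mul_apply]
  by_cases h : j = i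
  · subst h
    rw [hα.inv'.fix, rho_self hw, map_mul, hα.fix, rho_self (hα.map _ hw)]
  · have hj : xx j ∈ Av {i} := xx_mem_Av (by simpa using h)
    rw [rho_fix i w (hα.inv _ hj), rho_ne _ h, ← MulAut.mul_apply, mul_inv_cancel,
      MulAut.one_apply]

theorem con_conj {n : ℕ} {i : Fin n} {α : MulAut (FF n)} (hα : Pr i α) {w : FF n}
    (hw : w ∈ Av {i}) : α * con i w * α⁻¹ = con i (α w) := by
  rw [con, con, ← lam_conj hα hw, ← rho_conj hα hw]
  group

/-- The elementary automorphisms: permutations of the basis, inversions of one basis element,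
and the transvections `xx i ↦ (xx j)⁻¹ * xx i`. -/
def El (n : ℕ) : Set (MulAut (FF n)) :=
  {α | (∃ σ : Equiv.Perm (Fin n), ∀ i, α (xx i) = xx (σ i)) ∨
    (∃ i, α (xx i) = (xx i)⁻¹ ∧ ∀ j, j ≠ i → α (xx j) = xx j) ∨
    ∃ i j, i ≠ j ∧ α (xx i) = (xx j)⁻¹ * xx i ∧ ∀ k, k ≠ i → α (xx k) = xx k}

/-- The lower central series of a subgroup, `gam H 0 = H`. -/
def gam {G : Type*} [Group G] (H : Subgroup G) : ℕ → Subgroup G
  | 0 => H
  | k + 1 => ⁅gam H k, H⁆

/-- The left normed commutator of a list of elements. -/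
def lcom {G : Type*} [Group G] : List G → G
  | [] => 1
  | a :: l => l.foldl (fun u b => ⁅u, b⁆) a

end Pool.Agent.Work.MP_d3656f_al.GB
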