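import Mathlib
import Pool.Agent.Work.MP_d3656f_al.GB.Defs

/-!
# MP_d3656f_al, block GB : more definitions (FIXED, do not edit)

`tr true = lam`, `tr false = rho`. `flp i` inverts `xx i`. `sw i m` maps `xx i ↦ xx m`,
`xx m ↦ (xx i)⁻¹`. `pm σ` permutes the basis. `HK φ k`: `φ` kills `tr b i w` for all `w` in
`gam (Av {i}) k`. `Qg n`, `Qs n`: the generators of the group `IA_n` and the subgroup generated by
them. `Cq φ y`: `y` commutes with the image of `Qs n`.
-/

set_option autoImplicit false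

namespace Pool.Agent.Work.MP_d3656f_al.GB

open scoped commutatorElement

/-- Left (`true`) or right (`false`) multiplication. -/
noncomputable def tr {n : ℕ} (b : Bool) (i : Fin n) (w : FF n) : MulAut (FF n) :=
  match b with
  | true => lam i w
  | false => rho i w

theorem tr_true {n : ℕ} (i : Fin n) (w : FF n) : tr true i w = lam i w := rfl

theorem tr_false {n : ℕ} (i : Fin n) (w : FF n) : tr false i w = rho i w := rfl

theorem tr_fix {n : ℕ} (b : Bool) (i : Fin n) (w : FF n) {y : FF n} (hy : y ∈ Av {i}) :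
    tr b i w y = y := by
  cases b
  · exact rho_fix i w hy
  · exact lam_fix i w hy

theorem tr_ne {n : ℕ} (b : Bool) {i j : Fin n} (w : FF n) (h : j ≠ i) :
    tr b i w (xx j) = xx j := tr_fix b i w (xx_mem_Av (by simpa using h))

theorem tr_mul {n : ℕ} (b : Bool) {i : Fin n} {v w : FF n} (hv : v ∈ Av {i}) (hw : w ∈ Av {i}) :
    tr b i (v * w) = tr b i v * tr b i w := by
  cases b
  · exact rho_mul hv hw
  · exact lam_mul hv hw

theorem tr_one {n : ℕ} (b : Bool) (i : Fin n) : tr b i (1 : FF n) = 1 := by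
  cases b
  · exact rho_one i
  · exact lam_one i

theorem tr_inv {n : ℕ} (b : Bool) {i : Fin n} {w : FF n} (hw : w ∈ Av {i}) :
    tr b i w⁻¹ = (tr b i w)⁻¹ := by
  cases b
  · exact rho_inv hw
  · exact lam_inv hw

theorem pr_tr {n : ℕ} (b : Bool) {i j : Fin n} (hij : i ≠ j) {w : FF n} (hw : w ∈ Av {i, j}) :
    Pr i (tr b j w) := by
  cases b
  · exact pr_rho hij hw
  · exact pr_lam hij hw

/-- The transformation rule. -/
theorem tr_conj {n : ℕ} (b : Bool) {i : Fin n} {α : MulAut (FF n)} (hα : Pr i α) {w : FF n}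
    (hw : w ∈ Av {i}) : α * tr b i w * α⁻¹ = tr b i (α w) := by
  cases b
  · exact rho_conj hα hw
  · exact lam_conj hα hw

/-- The homomorphism `tr b i` on `Av {i}`. -/
noncomputable def trH {n : ℕ} (b : Bool) (i : Fin n) : Av {i} →* MulAut (FF n) where
  toFun w := tr b i w
  map_one' := tr_one b i
  map_mul' v w := tr_mul b v.2 w.2

theorem trH_apply {n : ℕ} (b : Bool) (i : Fin n) (w : Av {i}) : trH b i w = tr b i w := rfl

/-- The homomorphism `con i` on `Av {i}`. -/
noncomputable def conH {n : ℕ} (i : Fin n) : Av {i} →* MulAut (FF n) where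
  toFun w := con i w
  map_one' := con_one i
  map_mul' v w := con_mul v.2 w.2

theorem conH_apply {n : ℕ} (i : Fin n) (w : Av {i}) : conH i w = con i w := rfl

/-- The endomorphism inverting `xx i`. -/
def flpE {n : ℕ} (i : Fin n) : FF n →* FF n :=
  FreeGroup.lift fun j => if j = i then (xx i)⁻¹ else xx j

theorem flpE_self {n : ℕ} (i : Fin n) : flpE i (xx i) = (xx i)⁻¹ := by
  simp [flpE]

theorem flpE_ne {n : ℕ} {i j : Fin n} (h : j ≠ i) : flpE i (xx j) = xx j := by
  simp [flpE, h]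

theorem flpE_ivE {n : ℕ} (i : Fin n) : (flpE i).comp (flpE i) = MonoidHom.id (FF n) := by
  ext j
  by_cases h : j = i
  · subst h
    rw [MonoidHom.comp_apply, flpE_self, map_inv, flpE_self, inv_inv]
    rfl
  · rw [MonoidHom.comp_apply, flpE_ne h, flpE_ne h]
    rfl

/-- The inversion of `xx i`. -/
def flp {n : ℕ} (i : Fin n) : MulAut (FF n) :=
  MonoidHom.toMulEquiv (flpE i) (flpE i) (flpE_ivE i) (flpE_ivE i)

theorem flp_self {n : ℕ} (i : Fin n) : flp i (xx i) = (xx i)⁻¹ := flpE_self i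

theorem flp_ne {n : ℕ} {i j : Fin n} (h : j ≠ i) : flp i (xx j) = xx j := flpE_ne h

theorem flp_inv {n : ℕ} (i : Fin n) : (flp i : MulAut (FF n))⁻¹ = flp i := by
  rw [inv_eq_iff_mul_eq_one]
  apply aut_ext
  intro j
  exact DFunLike.congr_fun (flpE_ivE i) (xx j)

theorem flp_fix {n : ℕ} {i : Fin n} {y : FF n} (hy : y ∈ Av {i}) : flp i y = y := by
  have := hom_eqOn (f := (flp i).toMonoidHom) (f' := MonoidHom.id _) (S := {i})
    (fun j hj => by
      show flp i (xx j) = xx j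
      exact flp_ne (by simpa using hj)) hy
  simpa using this

theorem flp_lam {n : ℕ} {i : Fin n} {w : FF n} (hw : w ∈ Av {i}) :
    flp i * lam i w * (flp i)⁻¹ = rho i w := by
  rw [flp_inv]
  apply aut_ext
  intro j
  by_cases h : j = i
  · subst h
    rw [MulAut.mul_apply, MulAut.mul_apply, flp_self, map_inv, map_inv, lam_self hw, rho_self hw,
      map_mul, map_inv, flp_fix hw, flp_self]
    group
  · rw [MulAut.mul_apply, MulAut.mul_apply, flp_ne h, lam_ne w h, rho_ne w h, flp_ne h]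

theorem flp_rho {n : ℕ} {i : Fin n} {w : FF n} (hw : w ∈ Av {i}) :
    flp i * rho i w * (flp i)⁻¹ = lam i w := by
  rw [← flp_lam hw, flp_inv]
  have h : (flp i : MulAut (FF n)) * flp i = 1 := by
    have := flp_inv (n := n) i
    rw [inv_eq_iff_mul_eq_one] at this
    exact this
  calc flp i * (flp i * lam i w * flp i) * flp i = (flp i * flp i) * lam i w * (flp i * flp i) := by group
    _ = lam i w := by rw [h, one_mul, mul_one]

/-- The permutation of the basis. -/
def pm {n : ℕ} (σ : Equiv.Perm (Fin n)) : MulAut (FF n) := FreeGroup.freeGroupCongr σ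

theorem pm_apply {n : ℕ} (σ : Equiv.Perm (Fin n)) (j : Fin n) : pm σ (xx j) = xx (σ j) := by
  show FreeGroup.freeGroupCongr σ (FreeGroup.of j) = FreeGroup.of (σ j)
  simp

/-- The automorphism `xx i ↦ xx m`, `xx m ↦ (xx i)⁻¹`. -/
noncomputable def sw {n : ℕ} (i m : Fin n) : MulAut (FF n) :=
  lam m (xx i) * rho i (xx m) * (rho m (xx i))⁻¹

theorem sw_left {n : ℕ} {i m : Fin n} (h : i ≠ m) : sw i m (xx i) = xx m := by
  have hi : (xx i : FF n) ∈ Av {m} := xx_mem_Av (by simpa using h)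
  have hm : (xx m : FF n) ∈ Av {i} := xx_mem_Av (by simpa using h.symm)
  rw [sw, ← rho_inv hi, MulAut.mul_apply, MulAut.mul_apply, rho_ne _ h, rho_self hm, map_mul,
    lam_ne _ h, lam_self hi]
  group

theorem sw_right {n : ℕ} {i m : Fin n} (h : i ≠ m) : sw i m (xx m) = (xx i)⁻¹ := by
  have hi : (xx i : FF n) ∈ Av {m} := xx_mem_Av (by simpa using h)
  have hm : (xx m : FF n) ∈ Av {i} := xx_mem_Av (by simpa using h.symm)
  rw [sw, ← rho_inv hi, MulAut.mul_apply, MulAut.mul_apply, rho_self (inv_mem hi), map_mul,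
    map_inv, rho_ne _ h.symm, rho_self hm, map_mul, map_inv, map_mul, lam_self hi, lam_ne _ h]
  group

theorem sw_ne {n : ℕ} {i m j : Fin n} (h : i ≠ m) (h1 : j ≠ i) (h2 : j ≠ m) :
    sw i m (xx j) = xx j := by
  have hi : (xx i : FF n) ∈ Av {m} := xx_mem_Av (by simpa using h)
  rw [sw, ← rho_inv hi, MulAut.mul_apply, MulAut.mul_apply, rho_ne _ h2, rho_ne _ h1, lam_ne _ h2]

theorem sw_fix {n : ℕ} {i m : Fin n} (h : i ≠ m) {y : FF n} (hy : y ∈ Av {i, m}) :
    sw i m y = y := by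
  have := hom_eqOn (f := (sw i m).toMonoidHom) (f' := MonoidHom.id _) (S := {i, m})
    (fun j hj => by
      simp only [Finset.mem_insert, Finset.mem_singleton, not_or] at hj
      show sw i m (xx j) = xx j
      exact sw_ne h hj.1 hj.2) hy
  simpa using this

theorem sw_mem {n : ℕ} {i m : Fin n} (h : i ≠ m) {w : FF n} (hw : w ∈ Av {i}) :
    sw i m w ∈ Av {m} := by
  refine aut_mem (fun j hj => ?_) hw
  have hji : j ≠ i := by simpa using hj
  by_cases hjm : j = m
  · subst hjm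
    rw [sw_right h]
    exact inv_mem (xx_mem_Av (by simpa using h))
  · rw [sw_ne h hji hjm]
    exact xx_mem_Av (by simpa using hjm)

/-- Values of the inverse. -/
theorem inv_app {n : ℕ} {α : MulAut (FF n)} {y z : FF n} (h : α y = z) : α⁻¹ z = y := by
  rw [← h, ← MulAut.mul_apply, inv_mul_cancel, MulAut.one_apply]

theorem sw_inv_left {n : ℕ} {i m : Fin n} (h : i ≠ m) : (sw i m)⁻¹ (xx m) = xx i :=
  inv_app (sw_left h)

theorem sw_inv_right {n : ℕ} {i m : Fin n} (h : i ≠ m) : (sw i m)⁻¹ (xx i) = (xx m)⁻¹ :=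
  inv_app (by rw [map_inv, sw_right h, inv_inv])

theorem sw_inv_ne {n : ℕ} {i m j : Fin n} (h : i ≠ m) (h1 : j ≠ i) (h2 : j ≠ m) :
    (sw i m)⁻¹ (xx j) = xx j := inv_app (sw_ne h h1 h2)

/-- `tr b i w` becomes `tr b m (sw i m w)`. -/
theorem sw_tr {n : ℕ} (b : Bool) {i m : Fin n} (h : i ≠ m) {w : FF n} (hw : w ∈ Av {i}) :
    sw i m * tr b i w * (sw i m)⁻¹ = tr b m (sw i m w) := by
  have hw' := sw_mem h hw
  apply aut_ext
  intro j
  rw [MulAut.mul_apply, MulAut.mul_apply]
  by_cases hjm : j = m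
  · subst hjm
    rw [sw_inv_left h]
    cases b
    · rw [tr_false, tr_false, rho_self hw, rho_self hw', map_mul, sw_left h]
    · rw [tr_true, tr_true, lam_self hw, lam_self hw', map_mul, map_inv, sw_left h]
  · rw [tr_ne b _ hjm]
    by_cases hji : j = i
    · subst hji
      rw [sw_inv_right h, map_inv, map_inv, tr_ne b _ h.symm, sw_right h, inv_inv]
    · rw [sw_inv_ne h hji hjm, tr_ne b _ hji, sw_ne h hji hjm]

theorem sw_con {n : ℕ} {i m : Fin n} (h : i ≠ m) {w : FF n} (hw : w ∈ Av {i}) :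
    sw i m * con i w * (sw i m)⁻¹ = con m (sw i m w) := by
  rw [con, con, ← tr_true, ← tr_true, ← tr_false, ← tr_false, ← sw_tr true h hw,
    ← sw_tr false h hw]
  group

/-- `rho m (xx i)` becomes `lam i (xx m)`. -/
theorem sw_rho' {n : ℕ} {i m : Fin n} (h : i ≠ m) :
    sw i m * rho m (xx i) * (sw i m)⁻¹ = lam i (xx m) := by
  have hi : (xx i : FF n) ∈ Av {m} := xx_mem_Av (by simpa using h)
  have hm : (xx m : FF n) ∈ Av {i} := xx_mem_Av (by simpa using h.symm)
  apply aut_ext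
  intro j
  rw [MulAut.mul_apply, MulAut.mul_apply]
  by_cases hji : j = i
  · subst hji
    rw [sw_inv_right h, map_inv, rho_self hi, mul_inv_rev, map_mul, map_inv, map_inv, sw_left h,
      sw_right h, inv_inv, lam_self hm]
  · rw [lam_ne _ hji]
    by_cases hjm : j = m
    · subst hjm
      rw [sw_inv_left h, rho_ne _ h, sw_left h]
    · rw [sw_inv_ne h hji hjm, rho_ne _ hjm, sw_ne h hji hjm]

/-- `lam m (xx i)` becomes `rho i (xx m)`. -/
theorem sw_lam' {n : ℕ} {i m : Fin n} (h : i ≠ m) :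
    sw i m * lam m (xx i) * (sw i m)⁻¹ = rho i (xx m) := by
  have hi : (xx i : FF n) ∈ Av {m} := xx_mem_Av (by simpa using h)
  have hm : (xx m : FF n) ∈ Av {i} := xx_mem_Av (by simpa using h.symm)
  apply aut_ext
  intro j
  rw [MulAut.mul_apply, MulAut.mul_apply]
  by_cases hji : j = i
  · subst hji
    rw [sw_inv_right h, map_inv, lam_self hi, mul_inv_rev, inv_inv, map_mul, map_inv, sw_left h,
      sw_right h, inv_inv, rho_self hm]
  · rw [rho_ne _ hji]
    by_cases hjm : j = m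
    · subst hjm
      rw [sw_inv_left h, lam_ne _ h, sw_left h]
    · rw [sw_inv_ne h hji hjm, lam_ne _ hjm, sw_ne h hji hjm]

/-- `sw i m` fixes `xx j` and preserves `Av {j}` for the other indices. -/
theorem pr_sw {n : ℕ} {i m j : Fin n} (h : i ≠ m) (h1 : j ≠ i) (h2 : j ≠ m) : Pr j (sw i m) := by
  refine pr_of_gens (sw_ne h h1 h2) (fun k hk => ?_) (fun k hk => ?_)
  · by_cases hki : k = i
    · subst hki
      rw [sw_left h]
      exact xx_mem_Av (by simpa using h2.symm)
    · by_cases hkm : k = m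
      · subst hkm
        rw [sw_right h]
        exact inv_mem (xx_mem_Av (by simpa using h1.symm))
      · rw [sw_ne h hki hkm]
        exact xx_mem_Av (by simpa using hk)
  · by_cases hki : k = i
    · subst hki
      rw [sw_inv_right h]
      exact inv_mem (xx_mem_Av (by simpa using h2.symm))
    · by_cases hkm : k = m
      · subst hkm
        rw [sw_inv_left h]
        exact xx_mem_Av (by simpa using h1.symm)
      · rw [sw_inv_ne h hki hkm]
        exact xx_mem_Av (by simpa using hk)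

/-- `φ` kills `tr b i w` for `w ∈ gam (Av {i}) k`. -/
def HK {n : ℕ} {M : Type} [Group M] (φ : MulAut (FF n) →* M) (k : ℕ) : Prop :=
  ∀ (b : Bool) (i : Fin n), ∀ w ∈ gam (Av {i}) k, φ (tr b i w) = 1

/-- The generators of `IA_n` (Magnus). -/
def Qg (n : ℕ) : Set (MulAut (FF n)) :=
  {s | ∃ i a b : Fin n, a ≠ i ∧ b ≠ i ∧
    (s = lam i ⁅(xx a)⁻¹, (xx b)⁻¹⁆ ∨ s = rho i ⁅(xx a)⁻¹, (xx b)⁻¹⁆ ∨ s = con i (xx a))}

/-- The subgroup generated by `Qg n`. -/
def Qs (n : ℕ) : Subgroup (MulAut (FF n)) := Subgroup.closure (Qg n)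

/-- `y` commutes with the image of `Qs n`. -/
def Cq {n : ℕ} {M : Type} [Group M] (φ : MulAut (FF n) →* M) (y : M) : Prop :=
  ∀ s ∈ Qs n, Commute y (φ s)

/-- `xx p ↦ u⁻¹ * xx p`, `u = [l₁, xx i, l₂]` (left normed commutator). -/
noncomputable def Xu {n : ℕ} (p i : Fin n) (l₁ l₂ : List (FF n)) : MulAut (FF n) :=
  lam p (lcom (l₁ ++ xx i :: l₂))

/-- `xx i ↦ [(xx p)⁻¹, z⁻¹]⁻¹ * xx i`. -/
noncomputable def Tv {n : ℕ} (p i : Fin n) (z : FF n) : MulAut (FF n) :=
  lam i ⁅(xx p)⁻¹, z⁻¹⁆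

/-- The commutator of the images of `Xu` and `Tv`. -/
noncomputable def CC {n : ℕ} {M : Type} [Group M] (φ : MulAut (FF n) →* M) (p i : Fin n)
    (l₁ l₂ : List (FF n)) (z : FF n) : M := ⁅φ (Xu p i l₁ l₂), φ (Tv p i z)⁆

/-- The standing hypotheses of the block: the entries of `l₁`, `l₂` avoid `S`, `p ≠ i` are in
`S`, the commutator has length `d + 1` with `d ≥ 1`, and `φ` kills `γ_{d+2}`. -/
structure Cx {n : ℕ} {M : Type} [Group M] (φ : MulAut (FF n) →* M) (d : ℕ) (S : Finset (Fin n))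
    (p i : Fin n) (l₁ l₂ : List (FF n)) : Prop where
  hK : HK φ (d + 1)
  hd : 1 ≤ d
  len : l₁.length + l₂.length = d
  h₁ : ∀ y ∈ l₁, y ∈ Av S
  h₂ : ∀ y ∈ l₂, y ∈ Av S
  hp : p ∈ S
  hi : i ∈ S
  ne : p ≠ i

/-- The sum of binomial coefficients `C(m,1) + … + C(m,c)`. -/
def sb (m c : ℕ) : ℕ := ∑ j ∈ Finset.Icc 1 c, m.choose j

end Pool.Agent.Work.MP_d3656f_al.GB
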