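import Mathlib
import Pool.Agent.Work.MP_d3656f_al.GB.Defs

/-!
# GB/Ga1 : the lower central series of a subgroup

`gam H 0 = H`, `gam H (k+1) = ⁅gam H k, H⁆`. All statements are classical.
`gam_norm`: `h w h⁻¹ = ⁅h, w⁆ w` and `⁅h, w⁆ = ⁅w, h⁆⁻¹ ∈ gam H (k+1) ≤ gam H k`
(prove `gam_succ_le` and `gam_norm` together by induction on `k`: a commutator `⁅u, h⁆`,
`u ∈ gam H k`, is `u * (h u⁻¹ h⁻¹)`; a conjugate of a generator `⁅u, h⁆` by `g ∈ H` is
`⁅g u g⁻¹, g h g⁻¹⁆`). `gam_map`: `Subgroup.map_commutator`.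
`gam_comm`: pass to the subgroup `H` as a group (`gam H k = (gam ⊤ k).map H.subtype`, and
`gam ⊤ k = lowerCentralSeries H k`); the inclusion `⁅Γ_a, Γ_b⁆ ≤ Γ_(a+b+1)` is proved by induction
on `b` with the three subgroups lemma (`Subgroup.commutator_commutator_eq_bot_of_rotate` applied in
the quotient by the normal subgroup `Γ_(a+b+2)`), or directly with the Hall-Witt identity.
-/

set_option autoImplicit false

namespace Pool.Agent.Work.MP_d3656f_al.GB

open scoped commutatorElement

variable {G : Type*} [Group G]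

private theorem gam_eq (H : Subgroup G) (k : ℕ) : gam H k = H.lowerCentralSeries k := by
  induction k with
  | zero => rfl
  | succ k ih => rw [gam, ih, Subgroup.lowerCentralSeries_succ]

theorem gam_succ_le (H : Subgroup G) (k : ℕ) : gam H (k + 1) ≤ gam H k := by
  rw [gam_eq, gam_eq]
  exact H.lowerCentralSeries_antitone (Nat.le_succ k)

theorem gam_anti (H : Subgroup G) {j k : ℕ} (h : j ≤ k) : gam H k ≤ gam H j := by
  rw [gam_eq, gam_eq]
  exact H.lowerCentralSeries_antitone h

theorem gam_le (H : Subgroup G) (k : ℕ) : gam H k ≤ H := by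
  rw [gam_eq]
  exact H.lowerCentralSeries_le_self k

theorem gam_mono {H K : Subgroup G} (h : H ≤ K) (k : ℕ) : gam H k ≤ gam K k := by
  rw [gam_eq, gam_eq]
  exact Subgroup.lowerCentralSeries_mono k h

theorem gam_norm (H : Subgroup G) (k : ℕ) {h w : G} (hh : h ∈ H) (hw : w ∈ gam H k) :
    h * w * h⁻¹ ∈ gam H k := by
  rw [gam_eq] at hw ⊢
  have h1 := H.self_le_normalizer_lowerCentralSeries k hh
  exact (Subgroup.mem_normalizer_iff.mp h1 w).mp hw

theorem gam_norm' (H : Subgroup G) (k : ℕ) {h w : G} (hh : h ∈ H) (hw : w ∈ gam H k) :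
    h⁻¹ * w * h ∈ gam H k := by
  have := gam_norm H k (H.inv_mem hh) hw
  rwa [inv_inv] at this

theorem gam_map {G' : Type*} [Group G'] (f : G →* G') (H : Subgroup G) (k : ℕ) :
    (gam H k).map f = gam (H.map f) k := by
  rw [gam_eq, gam_eq, Subgroup.map_lowerCentralSeries]

private theorem gam_top_normal (k : ℕ) : (gam (⊤ : Subgroup G) k).Normal := by
  constructor
  intro n hn g
  exact gam_norm ⊤ k (Subgroup.mem_top g) hn

private theorem gam_top_comm (b : ℕ) : ∀ a : ℕ,
    ⁅gam (⊤ : Subgroup G) a, gam (⊤ : Subgroup G) b⁆ ≤ gam (⊤ : Subgroup G) (a + b + 1) := by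
  induction b with
  | zero => intro a; exact le_refl _
  | succ b ih =>
    intro a
    have := gam_top_normal (G := G) (a + (b + 1) + 1)
    set N := gam (⊤ : Subgroup G) (a + (b + 1) + 1) with hN
    have hker : ∀ K : Subgroup G, K ≤ N ↔ K.map (QuotientGroup.mk' N) = ⊥ := by
      intro K
      rw [Subgroup.map_eq_bot_iff, QuotientGroup.ker_mk']
    rw [hker]
    have h1 : ⁅⁅(⊤ : Subgroup G), gam (⊤ : Subgroup G) a⁆, gam (⊤ : Subgroup G) b⁆ ≤ N := by
      rw [Subgroup.commutator_comm ⊤ (gam ⊤ a)]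
      have := ih (a + 1)
      rw [show a + 1 + b + 1 = a + (b + 1) + 1 by ring] at this
      exact this
    have h2 : ⁅⁅gam (⊤ : Subgroup G) a, gam (⊤ : Subgroup G) b⁆, (⊤ : Subgroup G)⁆ ≤ N := by
      have h3 := Subgroup.commutator_mono (ih a) (le_refl (⊤ : Subgroup G))
      refine h3.trans ?_
      rw [hN, show a + (b + 1) + 1 = (a + b + 1) + 1 by ring]
      exact le_refl _
    rw [hker] at h1 h2
    rw [Subgroup.map_commutator, Subgroup.map_commutator] at h1 h2
    rw [Subgroup.map_commutator, gam, Subgroup.map_commutator, Subgroup.commutator_comm]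
    exact Subgroup.commutator_commutator_eq_bot_of_rotate h1 h2

theorem gam_comm (H : Subgroup G) {a b : ℕ} {u v : G} (hu : u ∈ gam H a) (hv : v ∈ gam H b) :
    ⁅u, v⁆ ∈ gam H (a + b + 1) := by
  have key : ∀ k, gam H k = (gam (⊤ : Subgroup H) k).map H.subtype := by
    intro k
    rw [gam_map]
    congr 1
    rw [← MonoidHom.range_eq_map, Subgroup.range_subtype]
  rw [key] at hu hv ⊢
  obtain ⟨u', hu', rfl⟩ := hu
  obtain ⟨v', hv', rfl⟩ := hv
  refine ⟨⁅u', v'⁆, gam_top_comm b a (Subgroup.commutator_mem_commutator hu' hv'), ?_⟩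
  rw [map_commutatorElement]

end Pool.Agent.Work.MP_d3656f_al.GB
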