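import Mathlib
import Pool.Agent.Work.MP_d3656f_al.GB.Ga1

/-!
# GB/Ga2 : congruences modulo the lower central series

`cong_gam`: induction on `b`. `b = 0` is the hypothesis. Step: the elements `u` of `gam H (b+1)`
with `f u * (g u)⁻¹ ∈ gam K (a+b+1)` form a subgroup (`f u, g u ∈ K`, and `gam K _` is normal in
`K`: `gam_norm`), so let `u = ⁅v, h⁆`, `v ∈ gam H b`, `h ∈ H`. Then `f v = v' * g v` with
`v' ∈ gam K (a+b)`, `f h = h' * g h` with `h' ∈ gam K a`, `g v ∈ gam K b` (`gam_map`, `gam_mono`)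
and `⁅v' x, h' y⁆ ⁅x, y⁆⁻¹ ∈ gam K (a+b+1)` for `x = g v`, `y = g h`: modulo the normal (in `K`)
subgroup `gam K (a+b+1)` the element `v'` is central in `K` and `h'` commutes with `gam K b`
(`gam_comm`).
`cong_gens`: the set of `y` with `g y ∈ K` and `f y * (g y)⁻¹ ∈ gam K a` is a subgroup.
`cong_aut`: `f = α`, `g = id`, `H = K = Av S` and `cong_gens`. `aut_gam`: `gam_map`, `gam_mono`.
-/

set_option autoImplicit false

namespace Pool.Agent.Work.MP_d3656f_al.GB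

open scoped commutatorElement

private theorem ga2_gens {G G' : Type*} [Group G] [Group G'] {S : Set G} {K : Subgroup G'}
    {f g : G →* G'} {a : ℕ} (hg : ∀ y ∈ S, g y ∈ K) (h : ∀ y ∈ S, f y * (g y)⁻¹ ∈ gam K a)
    {y : G} (hy : y ∈ Subgroup.closure S) : g y ∈ K ∧ f y * (g y)⁻¹ ∈ gam K a := by
  induction hy using Subgroup.closure_induction with
  | mem x hx => exact ⟨hg x hx, h x hx⟩
  | one => simp [one_mem]
  | mul x y _ _ hx hy =>
    refine ⟨by rw [map_mul]; exact mul_mem hx.1 hy.1, ?_⟩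
    have e : f (x * y) * (g (x * y))⁻¹
        = (f x * (g x)⁻¹) * (g x * (f y * (g y)⁻¹) * (g x)⁻¹) := by
      rw [map_mul, map_mul]; group
    rw [e]
    exact mul_mem hx.2 (gam_norm K a hx.1 hy.2)
  | inv x _ hx =>
    refine ⟨by rw [map_inv]; exact inv_mem hx.1, ?_⟩
    have e : f x⁻¹ * (g x⁻¹)⁻¹ = (g x)⁻¹ * (f x * (g x)⁻¹)⁻¹ * g x := by
      rw [map_inv, map_inv]; group
    rw [e]
    exact gam_norm' K a hx.1 (inv_mem hx.2)

private theorem ga2_key {G' : Type*} [Group G'] {K : Subgroup G'} {a b : ℕ} {v' h' x y : G'}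
    (hv : v' ∈ gam K (a + b)) (hh : h' ∈ gam K a) (hx : x ∈ gam K b) (hy : y ∈ K) :
    ⁅v' * x, h' * y⁆ * ⁅x, y⁆⁻¹ ∈ gam K (a + b + 1) := by
  have hx0 : x ∈ K := gam_le K b hx
  have hh0 : h' ∈ K := gam_le K a hh
  have hz : h' * y ∈ gam K 0 := mul_mem hh0 hy
  have hxz : ⁅x, h' * y⁆ ∈ gam K 0 := gam_le K _ (gam_comm K hx hz)
  have hxy : ⁅x, y⁆ ∈ gam K (b + 0 + 1) := gam_comm K hx (b := 0) hy
  have h1 : ⁅v', ⁅x, h' * y⁆⁆ ∈ gam K (a + b + 1) :=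
    gam_comm K (a := a + b) (b := 0) hv hxz
  have h2 : ⁅v', h' * y⁆ ∈ gam K (a + b + 1) :=
    gam_comm K (a := a + b) (b := 0) hv hz
  have h3 : ⁅x, h'⁆ ∈ gam K (a + b + 1) := by
    have := gam_comm K hx hh
    rwa [show b + a + 1 = a + b + 1 by omega] at this
  have h4 : ⁅h', ⁅x, y⁆⁆ ∈ gam K (a + b + 1) :=
    gam_anti K (by omega) (gam_comm K hh hxy)
  have e : ⁅v' * x, h' * y⁆ * ⁅x, y⁆⁻¹
      = ⁅v', ⁅x, h' * y⁆⁆ * (⁅x, h' * y⁆ * ⁅v', h' * y⁆ * ⁅x, h' * y⁆⁻¹)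
        * (⁅x, h'⁆ * ⁅h', ⁅x, y⁆⁆) := by
    simp only [commutatorElement_def]
    group
  rw [e]
  exact mul_mem (mul_mem h1 (gam_norm K _ hxz h2)) (mul_mem h3 h4)

private theorem ga2_image {G G' : Type*} [Group G] [Group G'] {H : Subgroup G} {K : Subgroup G'}
    {g : G →* G'} (hg : ∀ y ∈ H, g y ∈ K) (b : ℕ) {u : G} (hu : u ∈ gam H b) :
    g u ∈ gam K b := by
  have h1 : H.map g ≤ K := by
    rintro _ ⟨y, hy, rfl⟩
    exact hg y hy
  have h2 : g u ∈ (gam H b).map g := ⟨u, hu, rfl⟩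
  rw [gam_map] at h2
  exact gam_mono h1 b h2

theorem cong_gam {G G' : Type*} [Group G] [Group G'] {H : Subgroup G} {K : Subgroup G'}
    {f g : G →* G'} {a : ℕ} (hg : ∀ y ∈ H, g y ∈ K) (h : ∀ y ∈ H, f y * (g y)⁻¹ ∈ gam K a)
    (b : ℕ) {u : G} (hu : u ∈ gam H b) : f u * (g u)⁻¹ ∈ gam K (a + b) := by
  induction b generalizing u with
  | zero => exact h u hu
  | succ b ih =>
    have hu' : u ∈ Subgroup.closure {z : G | ∃ v ∈ gam H b, ∃ w ∈ H, ⁅v, w⁆ = z} := hu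
    refine (ga2_gens (f := f) (g := g) (K := K) (a := a + (b + 1)) ?_ ?_ hu').2
    · rintro _ ⟨v, hv, w, hw, rfl⟩
      rw [map_commutatorElement]
      have h1 : g v ∈ gam K b := ga2_image hg b hv
      exact gam_le K _ (gam_comm K h1 (b := 0) (hg w hw))
    · rintro _ ⟨v, hv, w, hw, rfl⟩
      rw [map_commutatorElement, map_commutatorElement]
      have h1 : g v ∈ gam K b := ga2_image hg b hv
      have h2 := ga2_key (ih hv) (h w hw) h1 (hg w hw)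
      rw [inv_mul_cancel_right, inv_mul_cancel_right] at h2
      exact h2

theorem cong_gens {G G' : Type*} [Group G] [Group G'] {S : Set G} {K : Subgroup G'}
    {f g : G →* G'} {a : ℕ} (hg : ∀ y ∈ S, g y ∈ K) (h : ∀ y ∈ S, f y * (g y)⁻¹ ∈ gam K a)
    {y : G} (hy : y ∈ Subgroup.closure S) : g y ∈ K ∧ f y * (g y)⁻¹ ∈ gam K a :=
  ga2_gens hg h hy

theorem cong_aut {n : ℕ} {S : Finset (Fin n)} {α : MulAut (FF n)} {a : ℕ}
    (h : ∀ j, j ∉ S → α (xx j) * (xx j)⁻¹ ∈ gam (Av S) a) (b : ℕ) {u : FF n}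
    (hu : u ∈ gam (Av S) b) : α u * u⁻¹ ∈ gam (Av S) (a + b) := by
  refine cong_gam (H := Av S) (K := Av S) (f := α.toMonoidHom) (g := MonoidHom.id _)
    (fun y hy => hy) (fun y hy => ?_) b hu
  refine (ga2_gens (f := α.toMonoidHom) (g := MonoidHom.id _) (K := Av S) (a := a)
    (S := {y | ∃ j, j ∉ S ∧ y = xx j}) ?_ ?_ hy).2
  · rintro _ ⟨j, hj, rfl⟩
    exact xx_mem_Av hj
  · rintro _ ⟨j, hj, rfl⟩
    exact h j hj

theorem aut_gam {n : ℕ} {S T : Finset (Fin n)} {α : MulAut (FF n)}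
    (h : ∀ j, j ∉ S → α (xx j) ∈ Av T) (b : ℕ) {u : FF n} (hu : u ∈ gam (Av S) b) :
    α u ∈ gam (Av T) b :=
  ga2_image (g := α.toMonoidHom) (fun _ hy => aut_mem h hy) b hu

end Pool.Agent.Work.MP_d3656f_al.GB
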