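import Mathlib
import Pool.Agent.Work.MP_d3656f_al.GB.DefsB
import Pool.Agent.Work.MP_d3656f_al.GB.Ga2

/-!
# GB/Nt : triangular commutation relations

`cg`, `cg_con`: `v = (v w⁻¹) w`, `tr_mul`, `HK`. `con i w = tr true i w * tr false i w`.
All others: for `α` with `Pr i α` the conjugate of `tr b i w` is `tr b i (α w)` (`tr_conj`), and
`α w * w⁻¹` is in `gam (Av {i}) (d+1)` by `cong_aut`; then `cg`.
* `t1`: `α = tr b p u` is `Pr i` (`pr_tr`), moves only `xx p`, and
  `α (xx p) * (xx p)⁻¹` is `u⁻¹` or `xx p * u * (xx p)⁻¹`, in `gam (Av {i}) d`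
  (`gam_mono`, `gam_norm`); `W ∈ gam 1`, so `α W * W⁻¹ ∈ gam (Av {i}) (d+1)`.
* `t2`: conjugate `tr b p u` by `α = tr b' i W`, which is `Pr p` and moves only `xx i`,
  `α (xx i) * (xx i)⁻¹ ∈ gam (Av {p}) 1`.
* `t3`: exact, `tr_conj` and `tr_fix` (`Av_anti`).
* `t4`: `b ≠ b'`: `lam_comm_rho`. `b = b'`: `⁅u, w⁆ ∈ gam (Av {p}) (d+1)` by `gam_comm`.
* `t5`: conjugate `tr b p u` by `con i w` (`pr_con`), which moves only `xx i`, and
  `w⁻¹ * xx i * w * (xx i)⁻¹` is a commutator of elements of `Av {p}`, in `gam (Av {p}) 1`.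
* `t6`: exact, `con_conj` for `α = lam p u`, `con_mul`, `con_inv`.
-/

set_option autoImplicit false

namespace Pool.Agent.Work.MP_d3656f_al.GB

open scoped commutatorElement

variable {n : ℕ} {M : Type} [Group M] {φ : MulAut (FF n) →* M} {d : ℕ}


theorem cg {k : ℕ} (h : HK φ k) (b : Bool) {i : Fin n} {v w : FF n} (hw : w ∈ Av {i})
    (e : v * w⁻¹ ∈ gam (Av {i}) k) : φ (tr b i v) = φ (tr b i w) := by
  have h1 : v = (v * w⁻¹) * w := by group
  rw [h1, tr_mul b (gam_le _ _ e) hw, map_mul, h b i _ e, one_mul]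

theorem cg_con {k : ℕ} (h : HK φ k) {i : Fin n} {v w : FF n} (hw : w ∈ Av {i})
    (e : v * w⁻¹ ∈ gam (Av {i}) k) : φ (con i v) = φ (con i w) := by
  have h1 := cg h true hw e
  have h2 := cg h false hw e
  rw [con, con, map_mul, map_mul, ← tr_true, ← tr_true, ← tr_false, ← tr_false, h1, h2]

/-- conjugation of a transvection by an element which moves its argument trivially -/
private theorem nt_conj (h : HK φ (d + 1)) (b : Bool) {i : Fin n} {α : MulAut (FF n)}
    (hα : Pr i α) {w : FF n} (hw : w ∈ Av {i}) (e : α w * w⁻¹ ∈ gam (Av {i}) (d + 1)) :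
    Commute (φ α) (φ (tr b i w)) := by
  have h1 : φ (α * tr b i w * α⁻¹) = φ (tr b i w) := by
    rw [tr_conj b hα hw]
    exact cg h b hw e
  rw [map_mul, map_mul, map_inv, mul_inv_eq_iff_eq_mul] at h1
  exact h1

private theorem nt_in1 {p i : Fin n} (S : Finset (Fin n)) (h : i ∈ S) : Av S ≤ (Av {i} : Subgroup (FF n)) :=
  Av_anti (by simpa using h)

theorem t1 (h : HK φ (d + 1)) {p i : Fin n} (hpi : p ≠ i) {u W : FF n}
    (hu : u ∈ gam (Av {p, i}) d) (hW : W ∈ gam (Av {i}) 1) (b b' : Bool) :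
    Commute (φ (tr b p u)) (φ (tr b' i W)) := by
  have hu' : u ∈ Av {i, p} := by
    have := gam_le _ _ hu
    rwa [Finset.pair_comm] at this
  have hup : u ∈ Av {p} := Av_anti (by simp) hu'
  have hW' : W ∈ Av {i} := gam_le _ _ hW
  have hui : u ∈ gam (Av {i}) d := gam_mono (Av_anti (by simp)) d hu
  refine nt_conj h b' (pr_tr b hpi.symm hu') hW' ?_
  have h1 : ∀ j, j ∉ ({i} : Finset (Fin n)) → tr b p u (xx j) * (xx j)⁻¹ ∈ gam (Av {i}) d := by
    intro j hj
    by_cases hjp : j = p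
    · subst hjp
      cases b
      · rw [tr_false, rho_self hup]
        exact gam_norm _ _ (xx_mem_Av hj) hui
      · rw [tr_true, lam_self hup]
        have e : u⁻¹ * xx j * (xx j)⁻¹ = u⁻¹ := by group
        rw [e]
        exact inv_mem hui
    · rw [tr_ne b u hjp, mul_inv_cancel]
      exact one_mem _
  exact cong_aut h1 1 hW

theorem t2 (h : HK φ (d + 1)) {p i : Fin n} (hpi : p ≠ i) {u W : FF n}
    (hu : u ∈ gam (Av {p}) d) (hW : W ∈ gam (Av {p, i}) 1) (b b' : Bool) :
    Commute (φ (tr b p u)) (φ (tr b' i W)) := by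
  have hW' : W ∈ Av {p, i} := gam_le _ _ hW
  have hWi : W ∈ Av {i} := Av_anti (by simp) hW'
  have hWp : W ∈ gam (Av {p}) 1 := gam_mono (Av_anti (by simp)) 1 hW
  have hu' : u ∈ Av {p} := gam_le _ _ hu
  refine (nt_conj h b (pr_tr b' hpi hW') hu' ?_).symm
  have h1 : ∀ j, j ∉ ({p} : Finset (Fin n)) → tr b' i W (xx j) * (xx j)⁻¹ ∈ gam (Av {p}) 1 := by
    intro j hj
    by_cases hji : j = i
    · subst hji
      cases b'
      · rw [tr_false, rho_self hWi]
        exact gam_norm _ _ (xx_mem_Av hj) hWp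
      · rw [tr_true, lam_self hWi]
        have e : W⁻¹ * xx j * (xx j)⁻¹ = W⁻¹ := by group
        rw [e]
        exact inv_mem hWp
    · rw [tr_ne b' W hji, mul_inv_cancel]
      exact one_mem _
  have := cong_aut h1 d hu
  rwa [add_comm] at this

omit [Group M] in
theorem t3 {p i : Fin n} (hpi : p ≠ i) {u z : FF n} (hu : u ∈ Av {p, i}) (hz : z ∈ Av {p, i})
    (b b' : Bool) : Commute (tr b p u) (tr b' i z) := by
  have hz' : z ∈ Av {i} := Av_anti (by simp) hz
  have hzp : z ∈ Av {p} := Av_anti (by simp) hz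
  have hu' : u ∈ Av {i, p} := by rwa [Finset.pair_comm] at hu
  have h1 := tr_conj b' (pr_tr b hpi.symm hu') hz'
  rw [tr_fix b p u hzp, mul_inv_eq_iff_eq_mul] at h1
  exact h1

theorem t4 (h : HK φ (d + 1)) {p : Fin n} {u w : FF n} (hu : u ∈ gam (Av {p}) d)
    (hw : w ∈ Av {p}) (b b' : Bool) : Commute (φ (tr b p u)) (φ (tr b' p w)) := by
  have hu' : u ∈ Av {p} := gam_le _ _ hu
  have same : ∀ b : Bool, Commute (φ (tr b p u)) (φ (tr b p w)) := by
    intro b
    have h1 : φ (tr b p (u * w)) = φ (tr b p (w * u)) := by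
      refine cg h b (mul_mem hw hu') ?_
      have e : u * w * (w * u)⁻¹ = ⁅u, w⁆ := by
        rw [commutatorElement_def]
        group
      rw [e]
      exact Subgroup.commutator_mem_commutator hu hw
    rw [tr_mul b hu' hw, tr_mul b hw hu', map_mul, map_mul] at h1
    exact h1
  cases b
  · cases b'
    · exact same false
    · have := (lam_comm_rho (i := p) hw hu')
      show φ (rho p u) * φ (lam p w) = φ (lam p w) * φ (rho p u)
      rw [← map_mul, ← map_mul, this]
  · cases b'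
    · have := (lam_comm_rho (i := p) hu' hw)
      show φ (lam p u) * φ (rho p w) = φ (rho p w) * φ (lam p u)
      rw [← map_mul, ← map_mul, this]
    · exact same true

theorem t5 (h : HK φ (d + 1)) {p i : Fin n} (hpi : p ≠ i) {u w : FF n}
    (hu : u ∈ gam (Av {p}) d) (hw : w ∈ Av {p, i}) (b : Bool) :
    Commute (φ (tr b p u)) (φ (con i w)) := by
  have hwi : w ∈ Av {i} := Av_anti (by simp) hw
  have hwp : w ∈ Av {p} := Av_anti (by simp) hw
  have hu' : u ∈ Av {p} := gam_le _ _ hu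
  refine (nt_conj h b (pr_con hpi hw) hu' ?_).symm
  have h1 : ∀ j, j ∉ ({p} : Finset (Fin n)) → con i w (xx j) * (xx j)⁻¹ ∈ gam (Av {p}) 1 := by
    intro j hj
    by_cases hji : j = i
    · subst hji
      rw [con_self hwi]
      have e : w⁻¹ * xx j * w * (xx j)⁻¹ = ⁅w⁻¹, xx j⁆ := by
        rw [commutatorElement_def, inv_inv]
      rw [e]
      exact Subgroup.commutator_mem_commutator (inv_mem hwp) (xx_mem_Av hj)
    · rw [con_ne w hji, mul_inv_cancel]
      exact one_mem _
  have := cong_aut h1 d hu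
  rwa [add_comm] at this

omit [Group M] in
theorem t6 {p i : Fin n} (hpi : p ≠ i) {u : FF n} (hu : u ∈ Av {p, i}) :
    lam p u * con i (xx p) * (lam p u)⁻¹ = (con i u)⁻¹ * con i (xx p) := by
  have hu' : u ∈ Av {i, p} := by rwa [Finset.pair_comm] at hu
  have hup : u ∈ Av {p} := Av_anti (by simp) hu
  have hui : u ∈ Av {i} := Av_anti (by simp) hu
  have hp : (xx p : FF n) ∈ Av {i} := xx_mem_Av (by simpa using hpi)
  rw [con_conj (pr_lam hpi.symm hu') hp, lam_self hup, con_mul (inv_mem hui) hp, con_inv hui]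

end Pool.Agent.Work.MP_d3656f_al.GB
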