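import Mathlib
import Pool.Agent.Work.MP_d3656f_al.GB.Nt

/-!
# GB/Ncz : automorphisms close to the identity commute with transvections of a fresh target

`comm_z`: `α * tr b m y * α⁻¹ = tr b m (α y)` and `α y * y⁻¹ ∈ gam (Av {m}) k` by `cong_aut`
(`b = 0`); `cg`.
-/

set_option autoImplicit false

namespace Pool.Agent.Work.MP_d3656f_al.GB

open scoped commutatorElement

variable {n : ℕ} {M : Type} [Group M] {φ : MulAut (FF n) →* M} {d : ℕ}


theorem comm_z {k : ℕ} (h : HK φ k) {m : Fin n} {α : MulAut (FF n)} (hα : Pr m α)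
    (ha : ∀ j, j ≠ m → α (xx j) * (xx j)⁻¹ ∈ gam (Av {m}) k) (b : Bool) {y : FF n}
    (hy : y ∈ Av {m}) : Commute (φ α) (φ (tr b m y)) := by
  have e : α y * y⁻¹ ∈ gam (Av {m}) (k + 0) :=
    cong_aut (S := {m}) (fun j hj => ha j (by simpa using hj)) 0 hy
  have h1 : φ (α * tr b m y * α⁻¹) = φ (tr b m y) := by
    rw [tr_conj b hα hy]
    exact cg h b hy e
  rw [map_mul, map_mul, map_inv] at h1
  show φ α * φ (tr b m y) = φ (tr b m y) * φ α
  calc φ α * φ (tr b m y) = (φ α * φ (tr b m y) * (φ α)⁻¹) * φ α := by group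
    _ = _ := by rw [h1]

end Pool.Agent.Work.MP_d3656f_al.GB
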