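import Mathlib
import Pool.Agent.Work.MP_d3656f_al.GB.DefsB
import Pool.Agent.Work.MP_d3656f_al.GB.Ga1

/-!
# GB/Qb : the generators of `IA_n` and the relation `Cq`

`IsQ t a b s`: `s` is one of the three generators with target `t` and letters `a`, `b`.
`qg_pr`: `pr_lam`, `pr_rho`, `pr_con` (`⁅(xx a)⁻¹, (xx b)⁻¹⁆ ∈ Av {m, t}`).
`qg_triv`: for `j ≠ t` the difference is `1`; for `j = t` it is (with `c = ⁅(xx a)⁻¹, (xx b)⁻¹⁆`)
`c⁻¹`, `xx t * c * (xx t)⁻¹`, or `⁅(xx a)⁻¹, xx t⁆`, in `gam (Av T) 1` since `a, b, t ∉ T`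
(`Subgroup.commutator_mem_commutator`, `gam_norm`).
`Cq`: closure under products, inverses, and under conjugation by `φ α` if `Qs n` is normal:
`φ α * y * φ α⁻¹` commutes with `φ s` iff `y` commutes with `φ (α⁻¹ s α)`. `cq_gens`: closure
induction.
-/

set_option autoImplicit false

namespace Pool.Agent.Work.MP_d3656f_al.GB

open scoped commutatorElement

/-- `s` is a generator with target `t` and letters `a`, `b`. -/
def IsQ {n : ℕ} (t a b : Fin n) (s : MulAut (FF n)) : Prop :=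
  a ≠ t ∧ b ≠ t ∧ (s = lam t ⁅(xx a)⁻¹, (xx b)⁻¹⁆ ∨ s = rho t ⁅(xx a)⁻¹, (xx b)⁻¹⁆ ∨
    s = con t (xx a))

theorem isQ_iff {n : ℕ} {s : MulAut (FF n)} : s ∈ Qg n ↔ ∃ t a b, IsQ t a b s := Iff.rfl

private theorem qb_comm_mem {n : ℕ} {a b : Fin n} {S : Finset (Fin n)} (ha : a ∉ S)
    (hb : b ∉ S) : (⁅(xx a)⁻¹, (xx b)⁻¹⁆ : FF n) ∈ Av S := by
  rw [commutatorElement_def]
  exact mul_mem (mul_mem (mul_mem (inv_mem (xx_mem_Av ha)) (inv_mem (xx_mem_Av hb)))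
    (inv_mem (inv_mem (xx_mem_Av ha)))) (inv_mem (inv_mem (xx_mem_Av hb)))

theorem qg_pr {n : ℕ} {t a b m : Fin n} {s : MulAut (FF n)} (h : IsQ t a b s) (h1 : m ≠ t)
    (h2 : m ≠ a) (h3 : m ≠ b) : Pr m s := by
  obtain ⟨hat, hbt, h⟩ := h
  have ha : a ∉ ({m, t} : Finset (Fin n)) := by
    simp only [Finset.mem_insert, Finset.mem_singleton, not_or]
    exact ⟨h2.symm, hat⟩
  have hb : b ∉ ({m, t} : Finset (Fin n)) := by
    simp only [Finset.mem_insert, Finset.mem_singleton, not_or]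
    exact ⟨h3.symm, hbt⟩
  rcases h with rfl | rfl | rfl
  · exact pr_lam h1 (qb_comm_mem ha hb)
  · exact pr_rho h1 (qb_comm_mem ha hb)
  · exact pr_con h1 (xx_mem_Av ha)

theorem qg_triv {n : ℕ} {t a b : Fin n} {s : MulAut (FF n)} (h : IsQ t a b s)
    {T : Finset (Fin n)} (ha : a ∉ T) (hb : b ∉ T) (j : Fin n) (hj : j ∉ T) :
    s (xx j) * (xx j)⁻¹ ∈ gam (Av T) 1 := by
  obtain ⟨hat, hbt, h⟩ := h
  have ha' : a ∉ ({t} : Finset (Fin n)) := by simpa using hat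
  have hb' : b ∉ ({t} : Finset (Fin n)) := by simpa using hbt
  have hc : (⁅(xx a)⁻¹, (xx b)⁻¹⁆ : FF n) ∈ gam (Av T) 1 :=
    Subgroup.commutator_mem_commutator (inv_mem (xx_mem_Av ha)) (inv_mem (xx_mem_Av hb))
  have hc' : (⁅(xx a)⁻¹, (xx b)⁻¹⁆ : FF n) ∈ Av {t} := qb_comm_mem ha' hb'
  by_cases hjt : j = t
  · subst hjt
    rcases h with rfl | rfl | rfl
    · rw [lam_self hc']
      have e : (⁅(xx a)⁻¹, (xx b)⁻¹⁆ : FF n)⁻¹ * xx j * (xx j)⁻¹ =
          (⁅(xx a)⁻¹, (xx b)⁻¹⁆ : FF n)⁻¹ := by group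
      rw [e]
      exact inv_mem hc
    · rw [rho_self hc']
      exact gam_norm _ _ (xx_mem_Av hj) hc
    · rw [con_self (xx_mem_Av ha')]
      have e : (xx a)⁻¹ * xx j * xx a * (xx j)⁻¹ = (⁅(xx a)⁻¹, xx j⁆ : FF n) := by
        rw [commutatorElement_def, inv_inv]
      rw [e]
      exact Subgroup.commutator_mem_commutator (inv_mem (xx_mem_Av ha)) (xx_mem_Av hj)
  · have e : s (xx j) = xx j := by
      rcases h with rfl | rfl | rfl
      · exact lam_ne _ hjt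
      · exact rho_ne _ hjt
      · exact con_ne _ hjt
    rw [e, mul_inv_cancel]
    exact one_mem _

theorem qg_fix {n : ℕ} {t a b : Fin n} {s : MulAut (FF n)} (h : IsQ t a b s) {y : FF n}
    (hy : y ∈ Av {t}) : s y = y := by
  obtain ⟨hat, hbt, h⟩ := h
  rcases h with rfl | rfl | rfl
  · exact lam_fix _ _ hy
  · exact rho_fix _ _ hy
  · exact con_fix _ _ hy

variable {n : ℕ} {M : Type} [Group M] {φ : MulAut (FF n) →* M}

theorem cq_gens {y : M} (h : ∀ t a b s, IsQ t a b s → Commute y (φ s)) : Cq φ y := by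
  intro s hs
  induction hs using Subgroup.closure_induction with
  | mem x hx =>
    obtain ⟨t, a, b, hx'⟩ := hx
    exact h t a b x hx'
  | one =>
    rw [map_one]
    exact Commute.one_right y
  | mul x z _ _ hx hz =>
    rw [map_mul]
    exact hx.mul_right hz
  | inv x _ hx =>
    rw [map_inv]
    exact hx.inv_right

theorem cq_one : Cq φ (1 : M) := by
  intro s _
  exact Commute.one_left _

theorem cq_mul {y z : M} (hy : Cq φ y) (hz : Cq φ z) : Cq φ (y * z) := by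
  intro s hs
  exact (hy s hs).mul_left (hz s hs)

theorem cq_inv {y : M} (hy : Cq φ y) : Cq φ y⁻¹ := by
  intro s hs
  exact (hy s hs).inv_left

theorem cq_conj (hQ : (Qs n).Normal) {y : M} (hy : Cq φ y) (α : MulAut (FF n)) :
    Cq φ (φ α * y * (φ α)⁻¹) := by
  intro s hs
  have h1 : α⁻¹ * s * α ∈ Qs n := by
    have := hQ.conj_mem s hs α⁻¹
    rwa [inv_inv] at this
  have h2 := hy _ h1
  rw [map_mul, map_mul, map_inv] at h2
  have h3 : y * ((φ α)⁻¹ * φ s * φ α) = ((φ α)⁻¹ * φ s * φ α) * y := h2.eq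
  show φ α * y * (φ α)⁻¹ * φ s = φ s * (φ α * y * (φ α)⁻¹)
  calc φ α * y * (φ α)⁻¹ * φ s
      = φ α * (y * ((φ α)⁻¹ * φ s * φ α)) * (φ α)⁻¹ := by group
    _ = φ α * (((φ α)⁻¹ * φ s * φ α) * y) * (φ α)⁻¹ := by rw [h3]
    _ = φ s * (φ α * y * (φ α)⁻¹) := by group

theorem cq_conj' (hQ : (Qs n).Normal) {y : M} (hy : Cq φ y) (α : MulAut (FF n)) :
    Cq φ ((φ α)⁻¹ * y * φ α) := by
  have := cq_conj hQ hy α⁻¹
  rwa [map_inv, inv_inv] at this

end Pool.Agent.Work.MP_d3656f_al.GB
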