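import Mathlib
import Pool.Agent.Work.MP_d3656f_al.GB.Ncz
import Pool.Agent.Work.MP_d3656f_al.GB.Qb

/-!
# GB/Ncon : conjugations of one basis element by elements of `gam d`

`con_sw`: let `h = φ (con i U)`. It commutes with `φ (sw i m)`, hence
`h = φ (sw i m * con i U * (sw i m)⁻¹) = φ (con m (sw i m U)) = φ (con m U)` (`sw_con`, `sw_fix`).
`sw i m = lam m (xx i) * rho i (xx m) * (rho m (xx i))⁻¹`, so it suffices:
* `h` commutes with `φ (tr b m (xx i))`: `con i U` is `Pr m` (`pr_con`), it maps `xx i` to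
  `U⁻¹ * xx i * U`, and `U⁻¹ * xx i * U * (xx i)⁻¹ = ⁅U⁻¹, xx i⁆ ∈ gam (Av {m}) (d+1)`; `cg`.
* `h` commutes with `φ (rho i (xx m))`: `con i U = lam i U * rho i U`, `lam_comm_rho`, and
  `⁅xx m, U⁆ ∈ gam (Av {i}) (d+1)` gives that `φ (rho i (xx m))` and `φ (rho i U)` commute.
`con_cen`: let `s` be a generator with target `t` and letters `a`, `b` (`cq_gens`). As
`4 ≤ S.card` there is `m ∈ S` with `m ≠ t, a, b`. `φ (con i U) = φ (con m U)` (`con_sw` if
`m ≠ i`), `s` is `Pr m` (`qg_pr`), `s * con m U * s⁻¹ = con m (s U)` and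
`s U * U⁻¹ ∈ gam (Av {m}) (1 + d)` by `cong_aut` and `qg_triv` (`T = {m}`); `cg_con`.
-/

set_option autoImplicit false

namespace Pool.Agent.Work.MP_d3656f_al.GB

open scoped commutatorElement

variable {n : ℕ} {M : Type} [Group M] {φ : MulAut (FF n) →* M} {d : ℕ}


theorem con_sw (h : HK φ (d + 1)) {i m : Fin n} (him : i ≠ m) {U : FF n}
    (hU : U ∈ gam (Av {i, m}) d) : φ (con i U) = φ (con m U) := by
  have hUa : U ∈ Av {i, m} := gam_le _ _ hU
  have hUi : U ∈ Av {i} := Av_anti (by simp) hUa
  have hUgi : U ∈ gam (Av {i}) d := gam_mono (Av_anti (by simp)) d hU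
  have hUgm : U ∈ gam (Av {m}) d := gam_mono (Av_anti (by simp)) d hU
  have hmi : (xx m : FF n) ∈ Av {i} := xx_mem_Av (by simpa using him.symm)
  have him' : (xx i : FF n) ∈ Av {m} := xx_mem_Av (by simpa using him)
  have hPr : Pr m (con i U) := pr_con him.symm (Av_anti (by
    intro x hx
    simp only [Finset.mem_insert, Finset.mem_singleton] at hx ⊢
    tauto) hUa)
  have c1 : ∀ b : Bool, Commute (φ (con i U)) (φ (tr b m (xx i))) := by
    intro b
    refine comm_z h hPr (fun j hj => ?_) b him'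
    by_cases hji : j = i
    · subst hji
      rw [con_self hUi]
      have e : U⁻¹ * xx j * U * (xx j)⁻¹ = ⁅U⁻¹, xx j⁆ := by
        rw [commutatorElement_def, inv_inv]
      rw [e]
      exact Subgroup.commutator_mem_commutator (inv_mem hUgm) him'
    · rw [con_ne U hji, mul_inv_cancel]
      exact one_mem _
  have c2 : Commute (φ (con i U)) (φ (rho i (xx m))) := by
    have e : φ (con i U) = φ (tr true i U) * φ (tr false i U) := by
      rw [← map_mul]
      rfl
    rw [e]
    exact (t4 h hUgi hmi true false).mul_left (t4 h hUgi hmi false false)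
  have c3 : Commute (φ (con i U)) (φ (sw i m)) := by
    have e : φ (sw i m) = φ (tr true m (xx i)) * φ (rho i (xx m)) * (φ (tr false m (xx i)))⁻¹ := by
      rw [← map_inv, ← map_mul, ← map_mul]
      rfl
    rw [e]
    exact ((c1 true).mul_right c2).mul_right (c1 false).inv_right
  have e1 : sw i m * con i U * (sw i m)⁻¹ = con m U := by
    rw [sw_con him hUi, sw_fix him hUa]
  have e2 := congrArg φ e1
  rw [map_mul, map_mul, map_inv, ← c3.eq, mul_inv_cancel_right] at e2
  exact e2

theorem con_cen (h : HK φ (d + 1)) {S : Finset (Fin n)} (hS : 4 ≤ S.card) {i : Fin n}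
    (hi : i ∈ S) {U : FF n} (hU : U ∈ gam (Av S) d) : Cq φ (φ (con i U)) := by
  refine cq_gens fun t a b s hs => ?_
  obtain ⟨m, hmS, hmT⟩ : ∃ m ∈ S, m ∉ ({t, a, b} : Finset (Fin n)) := by
    refine Finset.exists_mem_notMem_of_card_lt_card ?_
    exact lt_of_le_of_lt Finset.card_le_three (by omega)
  simp only [Finset.mem_insert, Finset.mem_singleton, not_or] at hmT
  obtain ⟨hmt, hma, hmb⟩ := hmT
  have hUm : U ∈ gam (Av {m}) d := gam_mono (Av_anti (by simpa using hmS)) d hU
  have e1 : φ (con i U) = φ (con m U) := by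
    by_cases him : i = m
    · rw [him]
    · refine con_sw h him (gam_mono (Av_anti ?_) d hU)
      intro x hx
      simp only [Finset.mem_insert, Finset.mem_singleton] at hx
      rcases hx with hx | hx
      · rw [hx]
        exact hi
      · rw [hx]
        exact hmS
  rw [e1]
  have hPr : Pr m s := qg_pr hs hmt hma hmb
  have hc := cong_aut (S := {m}) (α := s) (a := 1)
    (fun j hj => qg_triv hs (by simpa using Ne.symm hma) (by simpa using Ne.symm hmb) j hj) d hUm
  rw [add_comm] at hc
  have e2 : φ (con m (s U)) = φ (con m U) := cg_con h (gam_le _ _ hUm) hc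
  rw [← con_conj hPr (gam_le _ _ hUm), map_mul, map_mul, map_inv] at e2
  have e3 : φ s * φ (con m U) = φ (con m U) * φ s := by
    rw [mul_inv_eq_iff_eq_mul] at e2
    exact e2
  exact e3.symm

end Pool.Agent.Work.MP_d3656f_al.GB
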