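import Mathlib
import Pool.Agent.Work.MP_d3656f_al.GB.Nt
import Pool.Agent.Work.MP_d3656f_al.GB.Ncon

/-!
# GB/Bs1 : the case `HK φ 1`, conjugations of one basis element

Now `φ (tr b i v)` only depends on `v` modulo commutators, and `φ (tr b i v)`, `φ (tr b' i w)`
commute (`t4` with `d = 0`).
`bs_comm`: `y` is a product of letters `xx l`, `l ≠ t` (closure induction, `tr_mul`), so let
`y = xx l`. `con i (xx j) = lam i (xx j) * rho i (xx j)`.
* `t = i`: `t4`.
* `t ≠ i`, `l ≠ i`: `con i (xx j)` is `Pr t` (`t ≠ j`) and fixes `xx l`: exact commutation.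
* `t ≠ i`, `l = i`: `con i (xx j) * tr b t (xx i) * (con i (xx j))⁻¹ =
  tr b t ((xx j)⁻¹ * xx i * xx j)`, `cg` (the difference to `xx i` is a commutator in `Av {t}`).
`bs_pair`: `con k (xx l) = lam k (xx l) * rho k (xx l)` commutes with `con i (xx j)` by `bs_comm`
if `k ≠ j`; if `k = j`, take `k' ≠ j, l` (`3 ≤ n`): `φ (con k (xx l)) = φ (con k' (xx l))`
by `con_sw` with `d = 0`.
`bs_ord`: `φ (rho i (xx j)) = φ (flp i) * φ (lam i (xx j)) * (φ (flp i))⁻¹` has finite order,
`φ (lam ..)` and `φ (rho ..)` commute.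
-/

set_option autoImplicit false

namespace Pool.Agent.Work.MP_d3656f_al.GB

open scoped commutatorElement

variable {n : ℕ} {M : Type} [Group M] {φ : MulAut (FF n) →* M}

private theorem bs1_con (φ : MulAut (FF n) →* M) (i : Fin n) (w : FF n) :
    φ (con i w) = φ (tr true i w) * φ (tr false i w) := by
  rw [← map_mul]
  rfl

theorem bs_comm (h : HK φ 1) {i j t : Fin n} (hij : i ≠ j) (htj : t ≠ j) (b : Bool) {y : FF n}
    (hy : y ∈ Av {t}) : Commute (φ (con i (xx j))) (φ (tr b t y)) := by
  have hji : (xx j : FF n) ∈ Av {i} := xx_mem_Av (by simpa using hij.symm)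
  by_cases hti : t = i
  · subst hti
    rw [bs1_con]
    exact (t4 (d := 0) h hji hy true b).mul_left (t4 (d := 0) h hji hy false b)
  · have hjt : (xx j : FF n) ∈ Av {t} := xx_mem_Av (by simpa using htj.symm)
    have hit : (xx i : FF n) ∈ Av {t} := xx_mem_Av (by simpa using Ne.symm hti)
    refine comm_z h (pr_con hti (xx_mem_Av ?_)) (fun k _ => ?_) b hy
    · simp only [Finset.mem_insert, Finset.mem_singleton, not_or]
      exact ⟨htj.symm, hij.symm⟩
    · by_cases hki : k = i
      · subst hki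
        rw [con_self hji]
        have e : (xx j)⁻¹ * xx k * xx j * (xx k)⁻¹ = (⁅(xx j)⁻¹, xx k⁆ : FF n) := by
          rw [commutatorElement_def, inv_inv]
        rw [e]
        exact Subgroup.commutator_mem_commutator (inv_mem hjt) hit
      · rw [con_ne _ hki, mul_inv_cancel]
        exact one_mem _

theorem bs_pair (hn : 3 ≤ n) (h : HK φ 1) {i j k l : Fin n} (hij : i ≠ j) (hkl : k ≠ l) :
    Commute (φ (con i (xx j))) (φ (con k (xx l))) := by
  have key : ∀ t : Fin n, t ≠ j → t ≠ l → Commute (φ (con i (xx j))) (φ (con t (xx l))) := by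
    intro t htj htl
    have hlt : (xx l : FF n) ∈ Av {t} := xx_mem_Av (by simpa using htl.symm)
    rw [bs1_con φ t]
    exact (bs_comm h hij htj true hlt).mul_right (bs_comm h hij htj false hlt)
  by_cases hkj : k = j
  · obtain ⟨m, -, hm⟩ : ∃ m ∈ (Finset.univ : Finset (Fin n)), m ∉ ({j, l} : Finset (Fin n)) := by
      refine Finset.exists_mem_notMem_of_card_lt_card ?_
      rw [Finset.card_univ, Fintype.card_fin]
      exact lt_of_le_of_lt Finset.card_le_two (by omega)
    simp only [Finset.mem_insert, Finset.mem_singleton, not_or] at hm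
    have e : φ (con k (xx l)) = φ (con m (xx l)) := by
      refine con_sw (d := 0) h (by rw [hkj]; exact Ne.symm hm.1) (xx_mem_Av ?_)
      simp only [Finset.mem_insert, Finset.mem_singleton, not_or]
      exact ⟨hkl.symm, Ne.symm hm.2⟩
    rw [e]
    exact key m hm.1 hm.2
  · exact key k hkj hkl

theorem bs_ord (h : HK φ 1) {i j : Fin n} (hij : i ≠ j)
    (ht : IsOfFinOrder (φ (lam i (xx j)))) : IsOfFinOrder (φ (con i (xx j))) := by
  have hji : (xx j : FF n) ∈ Av {i} := xx_mem_Av (by simpa using hij.symm)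
  have h1 : IsOfFinOrder (φ (rho i (xx j))) := by
    rw [← flp_lam hji, map_mul, map_mul, map_inv]
    obtain ⟨m, hm, hm'⟩ := isOfFinOrder_iff_pow_eq_one.1 ht
    refine isOfFinOrder_iff_pow_eq_one.2 ⟨m, hm, ?_⟩
    rw [conj_pow, hm', mul_one, mul_inv_cancel]
  have h2 : Commute (φ (lam i (xx j))) (φ (rho i (xx j))) := t4 (d := 0) h hji hji true false
  rw [con, map_mul]
  exact h2.isOfFinOrder_mul ht h1

end Pool.Agent.Work.MP_d3656f_al.GB
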