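import Mathlib
import Pool.Agent.Work.MP_d3656f_al.GB.Qb

/-!
# GB/Mg1 : elements of `Qs n`

* `qs_con`: `con i` is a homomorphism on `Av {i}` (`con_mul`), closure induction.
* `qs_tr`: `gam (Av {i}) 1 = ⁅Av {i}, Av {i}⁆`; it is the normal closure in `Av {i}` of the
  `⁅(xx a)⁻¹, (xx b)⁻¹⁆`, `a, b ≠ i`. The set of `W ∈ Av {i}` with `tr b i W ∈ Qs n` is a
  subgroup, stable under conjugation by `g ∈ Av {i}`, as
  `lam i (g W g⁻¹) = con i g * lam i W * (con i g)⁻¹` (`lam_comm_rho`), the same for `rho`.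
  So it suffices that it contains `⁅v, w⁆` for all `v, w ∈ Av {i}`: closure induction in `v` and
  `w` with `⁅v v', w⁆ = v ⁅v', w⁆ v⁻¹ ⁅v, w⁆`, `⁅v⁻¹, w⁆ = v⁻¹ ⁅v, w⁆⁻¹ v`, and the same in `w`,
  starting from the letters (`⁅xx a, xx b⁆` is a conjugate of `⁅(xx a)⁻¹, (xx b)⁻¹⁆` by
  `xx b * xx a`).
* `qs_xp`: `xx i ↦ w * xx i * v` with `w * v ∈ gam 1`: not needed here.
-/

set_option autoImplicit false

namespace Pool.Agent.Work.MP_d3656f_al.GB

open scoped commutatorElement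

theorem qs_con {n : ℕ} {i : Fin n} {w : FF n} (hw : w ∈ Av {i}) : con i w ∈ Qs n := by
  have key : ∀ y : Av {i}, con i (y : FF n) ∈ Qs n := by
    have hK : (⊤ : Subgroup (Av {i} : Subgroup (FF n))) ≤ (Qs n).comap (conH i) := by
      intro y _
      obtain ⟨y, hy⟩ := y
      show con i y ∈ Qs n
      refine Subgroup.closure_induction (p := fun z _ => con i z ∈ Qs n) ?_ ?_ ?_ ?_ hy
      · rintro z ⟨j, hj, rfl⟩
        have hj' : j ≠ i := by simpa using hj
        exact Subgroup.subset_closure ⟨i, j, j, hj', hj', Or.inr (Or.inr rfl)⟩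
      · show con i (1 : FF n) ∈ Qs n
        rw [con_one]
        exact one_mem _
      · intro x z hx hz h1 h2
        show con i (x * z) ∈ Qs n
        rw [con_mul hx hz]
        exact mul_mem h1 h2
      · intro x hx h1
        show con i x⁻¹ ∈ Qs n
        rw [con_inv hx]
        exact inv_mem h1
    intro y
    exact hK (Subgroup.mem_top y)
  exact key ⟨w, hw⟩

private theorem mg1_conj {n : ℕ} (b : Bool) {i : Fin n} {g W : FF n} (hg : g ∈ Av {i})
    (hW : W ∈ Av {i}) :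
    tr b i (g * W * g⁻¹) = con i g * tr b i W * (con i g)⁻¹ := by
  rw [tr_mul b (mul_mem hg hW) (inv_mem hg), tr_mul b hg hW, tr_inv b hg]
  cases b
  · simp only [tr_false]
    have h1 := lam_comm_rho (i := i) hg hg
    have h2 := lam_comm_rho (i := i) hg hW
    have e : lam i g * (rho i g * rho i W * (rho i g)⁻¹) =
        (rho i g * rho i W * (rho i g)⁻¹) * lam i g := by
      have c1 : Commute (lam i g) (rho i g) := h1
      have c2 : Commute (lam i g) (rho i W) := h2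
      exact ((c1.mul_right c2).mul_right c1.inv_right)
    calc rho i g * rho i W * (rho i g)⁻¹
        = (rho i g * rho i W * (rho i g)⁻¹) * lam i g * (lam i g)⁻¹ := by group
      _ = lam i g * (rho i g * rho i W * (rho i g)⁻¹) * (lam i g)⁻¹ := by rw [e]
      _ = _ := by
        rw [con]
        group
  · simp only [tr_true]
    have h2 := lam_comm_rho (i := i) hW hg
    have e : rho i g * lam i W * (rho i g)⁻¹ = lam i W := by
      rw [← h2]
      group
    calc lam i g * lam i W * (lam i g)⁻¹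
        = lam i g * (rho i g * lam i W * (rho i g)⁻¹) * (lam i g)⁻¹ := by rw [e]
      _ = _ := by
        rw [con]
        group

theorem qs_tr {n : ℕ} (b : Bool) {i : Fin n} {W : FF n} (hW : W ∈ gam (Av {i}) 1) :
    tr b i W ∈ Qs n := by
  classical
  let K : Subgroup (Av {i} : Subgroup (FF n)) := (Qs n).comap (trH b i)
  have hKm : ∀ y : (Av {i} : Subgroup (FF n)), y ∈ K ↔ tr b i (y : FF n) ∈ Qs n := fun y => Iff.rfl
  have hn : K.Normal := by
    constructor
    intro y hy g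
    rw [hKm] at hy ⊢
    have e : ((g * y * g⁻¹ : (Av {i} : Subgroup (FF n))) : FF n) = (g : FF n) * y * (g : FF n)⁻¹ := rfl
    rw [e, mg1_conj b g.2 y.2]
    exact mul_mem (mul_mem (qs_con g.2) hy) (inv_mem (qs_con g.2))
  let f := QuotientGroup.mk' K
  have f1 : ∀ y z : (Av {i} : Subgroup (FF n)), ⁅y, z⁆ ∈ K → Commute (f y) (f z) := by
    intro y z h
    have h' : f ⁅y, z⁆ = 1 := (QuotientGroup.eq_one_iff _).2 h
    rw [map_commutatorElement, commutatorElement_eq_one_iff_commute] at h'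
    exact h'
  have f2 : ∀ y z : (Av {i} : Subgroup (FF n)), Commute (f y) (f z) → ⁅y, z⁆ ∈ K := by
    intro y z h
    have h' : f ⁅y, z⁆ = 1 := by
      rw [map_commutatorElement, commutatorElement_eq_one_iff_commute]
      exact h
    exact (QuotientGroup.eq_one_iff _).1 h'
  have s1 : ∀ (a c : Fin n) (ha : xx a ∈ Av {i}) (hc : xx c ∈ Av {i}), a ≠ i → c ≠ i →
      Commute (f ⟨xx a, ha⟩) (f ⟨xx c, hc⟩) := by
    intro a c ha hc hai hci
    have h : ⁅(⟨xx a, ha⟩ : (Av {i} : Subgroup (FF n)))⁻¹,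
        (⟨xx c, hc⟩ : (Av {i} : Subgroup (FF n)))⁻¹⁆ ∈ K := by
      rw [hKm]
      have e : ((⁅(⟨xx a, ha⟩ : (Av {i} : Subgroup (FF n)))⁻¹,
        (⟨xx c, hc⟩ : (Av {i} : Subgroup (FF n)))⁻¹⁆ : (Av {i} : Subgroup (FF n))) : FF n) =
          ⁅(xx a)⁻¹, (xx c)⁻¹⁆ := rfl
      rw [e]
      refine Subgroup.subset_closure ⟨i, a, c, hai, hci, ?_⟩
      cases b
      · exact Or.inr (Or.inl rfl)
      · exact Or.inl rfl
    have h' := f1 _ _ h
    rw [map_inv, map_inv, Commute.inv_inv_iff] at h'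
    exact h'
  have s2 : ∀ (a : Fin n) (ha : xx a ∈ Av {i}), a ≠ i → ∀ (y : FF n) (hy : y ∈ Av {i}),
      Commute (f ⟨xx a, ha⟩) (f ⟨y, hy⟩) := by
    intro a ha hai y hy
    refine Subgroup.closure_induction
      (p := fun z hz => Commute (f ⟨xx a, ha⟩) (f ⟨z, hz⟩)) ?_ ?_ ?_ ?_ hy
    · rintro z ⟨j, hj, rfl⟩
      exact s1 a j ha _ hai (by simpa using hj)
    · have : f ⟨1, one_mem _⟩ = 1 := map_one f
      rw [this]
      exact Commute.one_right _
    · intro x z hx hz h1 h2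
      have : f ⟨x * z, mul_mem hx hz⟩ = f ⟨x, hx⟩ * f ⟨z, hz⟩ := map_mul f ⟨x, hx⟩ ⟨z, hz⟩
      rw [this]
      exact h1.mul_right h2
    · intro x hx h1
      have : f ⟨x⁻¹, inv_mem hx⟩ = (f ⟨x, hx⟩)⁻¹ := map_inv f ⟨x, hx⟩
      rw [this]
      exact h1.inv_right
  have s3 : ∀ (v : FF n) (hv : v ∈ Av {i}) (y : FF n) (hy : y ∈ Av {i}),
      Commute (f ⟨v, hv⟩) (f ⟨y, hy⟩) := by
    intro v hv y hy
    refine Subgroup.closure_induction
      (p := fun z hz => Commute (f ⟨z, hz⟩) (f ⟨y, hy⟩)) ?_ ?_ ?_ ?_ hv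
    · rintro z ⟨j, hj, rfl⟩
      exact s2 j _ (by simpa using hj) y hy
    · have : f ⟨1, one_mem _⟩ = 1 := map_one f
      rw [this]
      exact Commute.one_left _
    · intro x z hx hz h1 h2
      have : f ⟨x * z, mul_mem hx hz⟩ = f ⟨x, hx⟩ * f ⟨z, hz⟩ := map_mul f ⟨x, hx⟩ ⟨z, hz⟩
      rw [this]
      exact h1.mul_left h2
    · intro x hx h1
      have : f ⟨x⁻¹, inv_mem hx⟩ = (f ⟨x, hx⟩)⁻¹ := map_inv f ⟨x, hx⟩
      rw [this]
      exact h1.inv_left
  have s4 : gam (Av {i}) 1 ≤ K.map (Av {i}).subtype := by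
    show ⁅Av {i}, Av {i}⁆ ≤ _
    rw [Subgroup.commutator_le]
    intro v hv w hw
    exact ⟨⁅⟨v, hv⟩, ⟨w, hw⟩⁆, f2 _ _ (s3 v hv w hw), rfl⟩
  obtain ⟨y, hy, rfl⟩ := s4 hW
  exact hy

end Pool.Agent.Work.MP_d3656f_al.GB
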