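import Mathlib
import Pool.Agent.Work.MP_d3656f_al.GB.Mg1

/-!
# GB/Mg2 : conjugation of the generators by `lam i (xx k)`

`T = lam i (xx k)`: `xx i ↦ (xx k)⁻¹ * xx i`; `T⁻¹`: `xx i ↦ xx k * xx i`. Let `IsQ t a b s`.
* `t = i`: `T lam i V T⁻¹ = lam i (xx k * V * (xx k)⁻¹)`, `rho i V` commutes with `T`, and
  `T con i (xx a) T⁻¹ = lam i ⁅xx k, xx a⁆ * con i (xx a)`.
* `t ≠ i, k`: `T` is `Pr t`, `tr_conj`, `con_conj` (`T V ∈ gam (Av {t}) 1` by `aut_gam`).
* `t = k`. (1) `s = lam k V`, `V = ⁅(xx a)⁻¹, (xx b)⁻¹⁆`: if `a, b ≠ i` then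
  `T s T⁻¹ = lam i V * lam k V`. If `a = i` (so `b ≠ i, k`, or `V = 1`) then exactly
  `T s T⁻¹ = con i (xx k) * con k (xx b) * rho k ⁅(xx b)⁻¹, (xx i)⁻¹⁆ *
     rho i ⁅(xx k)⁻¹, (xx b)⁻¹⁆ * con i (xx b)⁻¹ * con i (xx k)⁻¹`
  (checked by computer; both sides map `xx i ↦ (xx b)⁻¹ (xx i)⁻¹ xx k xx b (xx k)⁻¹ xx i xx i`,
  `xx k ↦ (xx b)⁻¹ (xx i)⁻¹ xx k xx b (xx k)⁻¹ xx i xx k`). If `b = i` take the inverse.
  (2) `s = con k (xx a)`, `a ≠ i`: `T s T⁻¹ = lam i ⁅xx k, (xx a)⁻¹⁆ * con k (xx a)`; `a = i`: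
  `T s T⁻¹ = con k (xx i) * (con i (xx k))⁻¹`. So `T * con k w * T⁻¹ ∈ Qs n` for all
  `w ∈ Av {k}` (`con_mul`, closure induction).
  (3) `s = rho k V = (lam k V)⁻¹ * con k V`: from (1) and (2).
-/

set_option autoImplicit false

namespace Pool.Agent.Work.MP_d3656f_al.GB

open scoped commutatorElement

/-- the conjugate of `s` by `lam i (xx k)` is in `Qs n` -/
private def mg2P {n : ℕ} (i k : Fin n) (s : MulAut (FF n)) : Prop :=
  lam i (xx k) * s * (lam i (xx k))⁻¹ ∈ Qs n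

private theorem mg2_mul {n : ℕ} {i k : Fin n} {s s' : MulAut (FF n)} (h : mg2P i k s)
    (h' : mg2P i k s') : mg2P i k (s * s') := by
  have h1 := mul_mem h h'
  have e : lam i (xx k) * s * (lam i (xx k))⁻¹ * (lam i (xx k) * s' * (lam i (xx k))⁻¹) =
      lam i (xx k) * (s * s') * (lam i (xx k))⁻¹ := by group
  rw [e] at h1
  exact h1

private theorem mg2_inv {n : ℕ} {i k : Fin n} {s : MulAut (FF n)} (h : mg2P i k s) :
    mg2P i k s⁻¹ := by
  have h1 := inv_mem h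
  have e : (lam i (xx k) * s * (lam i (xx k))⁻¹)⁻¹ = lam i (xx k) * s⁻¹ * (lam i (xx k))⁻¹ := by
    group
  rw [e] at h1
  exact h1

private theorem mg2_one {n : ℕ} {i k : Fin n} : mg2P i k (1 : MulAut (FF n)) := by
  show _ ∈ Qs n
  rw [mul_one, mul_inv_cancel]
  exact one_mem _

/-- it is enough to know `T * s = r * T` with `r ∈ Qs n` -/
private theorem mg2_of {n : ℕ} {i k : Fin n} {s r : MulAut (FF n)} (hr : r ∈ Qs n)
    (e : lam i (xx k) * s = r * lam i (xx k)) : mg2P i k s := by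
  show _ ∈ Qs n
  rw [e, mul_inv_cancel_right]
  exact hr

private theorem mg2_W {n : ℕ} {i a b : Fin n} (ha : a ≠ i) (hb : b ≠ i) :
    (⁅(xx a)⁻¹, (xx b)⁻¹⁆ : FF n) ∈ gam (Av {i}) 1 :=
  Subgroup.commutator_mem_commutator (inv_mem (xx_mem_Av (by simpa using ha)))
    (inv_mem (xx_mem_Av (by simpa using hb)))

private theorem mg2_lam {n : ℕ} {i a b : Fin n} (ha : a ≠ i) (hb : b ≠ i) :
    lam i (⁅(xx a)⁻¹, (xx b)⁻¹⁆ : FF n) ∈ Qs n := qs_tr true (mg2_W ha hb)

private theorem mg2_rho {n : ℕ} {i a b : Fin n} (ha : a ≠ i) (hb : b ≠ i) :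
    rho i (⁅(xx a)⁻¹, (xx b)⁻¹⁆ : FF n) ∈ Qs n := qs_tr false (mg2_W ha hb)

private theorem mg2_x {n : ℕ} {i a : Fin n} (ha : a ≠ i) : (xx a : FF n) ∈ Av {i} :=
  xx_mem_Av (by simpa using ha)

/-- target `i` -/
private theorem mg2_self {n : ℕ} {i k : Fin n} (hik : i ≠ k) {a b : Fin n}
    {s : MulAut (FF n)} (hs : IsQ i a b s) : mg2P i k s := by
  obtain ⟨hai, hbi, hs⟩ := hs
  have hk : (xx k : FF n) ∈ Av {i} := mg2_x hik.symm
  have ha : (xx a : FF n) ∈ Av {i} := mg2_x hai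
  have hW := mg2_W hai hbi
  have hWA : (⁅(xx a)⁻¹, (xx b)⁻¹⁆ : FF n) ∈ Av {i} := gam_le _ _ hW
  rcases hs with rfl | rfl | rfl
  · show _ ∈ Qs n
    rw [← lam_inv hk, ← lam_mul hk hWA, ← lam_mul (mul_mem hk hWA) (inv_mem hk)]
    exact qs_tr true (gam_norm _ _ hk hW)
  · refine mg2_of (r := rho i ⁅(xx a)⁻¹, (xx b)⁻¹⁆) (mg2_rho hai hbi) ?_
    exact lam_comm_rho hk hWA
  · refine mg2_of (r := lam i ⁅xx k, xx a⁆ * con i (xx a)) (mul_mem (qs_tr true
      (Subgroup.commutator_mem_commutator hk ha)) (qs_con ha)) ?_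
    have hc : (⁅xx k, xx a⁆ : FF n) ∈ Av {i} := by
      rw [commutatorElement_def]
      exact mul_mem (mul_mem (mul_mem hk ha) (inv_mem hk)) (inv_mem ha)
    rw [con, mul_assoc, mul_assoc, ← lam_comm_rho hk ha, ← mul_assoc, ← mul_assoc, ← mul_assoc,
      ← lam_mul hk ha, ← lam_mul hc ha, ← lam_mul (mul_mem hc ha) hk]
    congr 2
    rw [commutatorElement_def]
    group

/-- target different from `i` and `k` -/
private theorem mg2_other {n : ℕ} {i k t : Fin n} (hti : t ≠ i) (htk : t ≠ k)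
    {a b : Fin n} {s : MulAut (FF n)} (hs : IsQ t a b s) : mg2P i k s := by
  obtain ⟨hat, hbt, hs⟩ := hs
  have hpr : Pr t (lam i (xx k) : MulAut (FF n)) := by
    by_cases hik : k = i
    · subst hik
      have e : (lam k (xx k) : MulAut (FF n)) = 1 := by
        have hn : (xx k : FF n) ∉ Av {k} := by
          intro h
          have h1 := hom_eqOn (f := lamE k (xx k)) (f' := MonoidHom.id _) (S := {k})
            (fun j hj => by rw [lamE_ne (xx k) (by simpa using hj)]; rfl) h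
          rw [lamE_self, inv_mul_cancel] at h1
          exact FreeGroup.of_ne_one k h1.symm
        rw [lam, dif_neg hn]
      rw [e]
      exact pr_one t
    · refine pr_lam hti (xx_mem_Av ?_)
      simp only [Finset.mem_insert, Finset.mem_singleton, not_or]
      exact ⟨htk.symm, hik⟩
  have hW := mg2_W hat hbt
  have hWA : (⁅(xx a)⁻¹, (xx b)⁻¹⁆ : FF n) ∈ Av {t} := gam_le _ _ hW
  have hg : lam i (xx k) (⁅(xx a)⁻¹, (xx b)⁻¹⁆ : FF n) ∈ gam (Av {t}) 1 := by
    rw [map_commutatorElement]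
    refine Subgroup.commutator_mem_commutator ?_ ?_
    · exact hpr.map _ (inv_mem (mg2_x hat))
    · exact hpr.map _ (inv_mem (mg2_x hbt))
  rcases hs with rfl | rfl | rfl
  · show _ ∈ Qs n
    rw [lam_conj hpr hWA]
    exact qs_tr true hg
  · show _ ∈ Qs n
    rw [rho_conj hpr hWA]
    exact qs_tr false hg
  · show _ ∈ Qs n
    rw [con_conj hpr (mg2_x hat)]
    exact qs_con (hpr.map _ (mg2_x hat))

/-- target `k`, `s = lam k V`, letters different from `i` -/
private theorem mg2_lam1 {n : ℕ} {i k : Fin n} (hik : i ≠ k) {a b : Fin n} (hak : a ≠ k)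
    (hbk : b ≠ k) (hai : a ≠ i) (hbi : b ≠ i) :
    mg2P i k (lam k (⁅(xx a)⁻¹, (xx b)⁻¹⁆ : FF n)) := by
  refine mg2_of (mul_mem (mg2_lam hai hbi) (mg2_lam hak hbk)) ?_
  have hk : (xx k : FF n) ∈ Av {i} := mg2_x hik.symm
  have hWi : (⁅(xx a)⁻¹, (xx b)⁻¹⁆ : FF n) ∈ Av {i} := gam_le _ _ (mg2_W hai hbi)
  have hWk : (⁅(xx a)⁻¹, (xx b)⁻¹⁆ : FF n) ∈ Av {k} := gam_le _ _ (mg2_W hak hbk)
  apply aut_ext
  intro j
  by_cases hji : j = i
  · subst hji
    simp only [MulAut.mul_apply, map_mul, map_inv, lam_ne _ hik, lam_self hk, lam_self hWk,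
      lam_ne _ hik.symm, lam_fix j _ hWi, lam_self hWi]
    group
  · by_cases hjk : j = k
    · subst hjk
      simp only [MulAut.mul_apply, map_mul, map_inv, lam_self hWk, lam_ne _ hik.symm,
        lam_fix i _ hWi]
    · simp only [MulAut.mul_apply, lam_ne _ hji, lam_ne _ hjk]

/-- target `k`, `s = lam k V`, first letter `i` -/
private theorem mg2_lam2 {n : ℕ} {i k : Fin n} (hik : i ≠ k) {b : Fin n}
    (hbk : b ≠ k) (hbi : b ≠ i) : mg2P i k (lam k (⁅(xx i)⁻¹, (xx b)⁻¹⁆ : FF n)) := by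
  have hki : (xx k : FF n) ∈ Av {i} := mg2_x hik.symm
  have hbk' : (xx b : FF n) ∈ Av {k} := mg2_x hbk
  have hbi' : (xx b : FF n) ∈ Av {i} := mg2_x hbi
  have hik' : (xx i : FF n) ∈ Av {k} := mg2_x hik
  have hV : (⁅(xx i)⁻¹, (xx b)⁻¹⁆ : FF n) ∈ Av {k} := gam_le _ _ (mg2_W hik hbk)
  have hW1 : (⁅(xx b)⁻¹, (xx i)⁻¹⁆ : FF n) ∈ Av {k} := gam_le _ _ (mg2_W hbk hik)
  have hW2 : (⁅(xx k)⁻¹, (xx b)⁻¹⁆ : FF n) ∈ Av {i} := gam_le _ _ (mg2_W hik.symm hbi)
  refine mg2_of (r := con i (xx k) * con k (xx b) * rho k ⁅(xx b)⁻¹, (xx i)⁻¹⁆ *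
     rho i ⁅(xx k)⁻¹, (xx b)⁻¹⁆ * con i (xx b)⁻¹ * con i (xx k)⁻¹) ?_ ?_
  · refine mul_mem (mul_mem (mul_mem (mul_mem (mul_mem ?_ ?_) ?_) ?_) ?_) ?_
    · exact qs_con hki
    · exact qs_con hbk'
    · exact mg2_rho hbk hik
    · exact mg2_rho hik.symm hbi
    · exact qs_con (inv_mem hbi')
    · exact qs_con (inv_mem hki)
  apply aut_ext
  intro j
  have c1 := con_self (inv_mem hki)
  have c2 := con_self (inv_mem hbi')
  have c3 := rho_self hW2
  have c4 := rho_self hW1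
  have c5 := con_self hbk'
  have c6 := con_self hki
  have c7 := lam_self hki
  have c8 := lam_self hV
  by_cases hji : j = i
  · subst hji
    simp only [MulAut.mul_apply, map_mul, map_inv, map_commutatorElement, c1, c2, c3, c4, c5, c6,
      c7, lam_ne _ hik, con_ne _ hik,
      con_ne _ hik.symm, con_ne _ hbk, con_ne _ hbi, rho_ne _ hik, rho_ne _ hik.symm,
      rho_ne _ hbk, rho_ne _ hbi]
    simp only [commutatorElement_def]
    group
  · by_cases hjk : j = k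
    · subst hjk
      simp only [MulAut.mul_apply, map_mul, map_inv, map_commutatorElement, c4, c5,
        c6, c7, c8, lam_ne _ hik.symm, lam_ne _ hbi, con_ne _ hik,
        con_ne _ hik.symm, con_ne _ hbk, con_ne _ hbi, rho_ne _ hik.symm]
      simp only [commutatorElement_def]
      group
    · simp only [MulAut.mul_apply, lam_ne _ hji, lam_ne _ hjk, con_ne _ hji, con_ne _ hjk,
        rho_ne _ hji, rho_ne _ hjk]

private theorem mg2_lamk {n : ℕ} {i k : Fin n} (hik : i ≠ k) {a b : Fin n} (hak : a ≠ k)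
    (hbk : b ≠ k) : mg2P i k (lam k (⁅(xx a)⁻¹, (xx b)⁻¹⁆ : FF n)) := by
  by_cases hab : a = b
  · subst hab
    rw [commutatorElement_self, lam_one]
    exact mg2_one
  · by_cases hai : a = i
    · subst hai
      exact mg2_lam2 hik hbk (Ne.symm hab)
    · by_cases hbi : b = i
      · subst hbi
        have h1 := mg2_inv (mg2_lam2 hik hak hai)
        rw [← lam_inv (gam_le _ _ (mg2_W hik hak)), commutatorElement_inv] at h1
        exact h1
      · exact mg2_lam1 hik hak hbk hai hbi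

/-- target `k`, `s = con k (xx a)` -/
private theorem mg2_con1 {n : ℕ} {i k : Fin n} (hik : i ≠ k) {a : Fin n} (hak : a ≠ k) :
    mg2P i k (con k (xx a : FF n)) := by
  have hki : (xx k : FF n) ∈ Av {i} := mg2_x hik.symm
  have hak' : (xx a : FF n) ∈ Av {k} := mg2_x hak
  have c1 := con_self hak'
  have c2 := lam_self hki
  by_cases hai : a = i
  · subst hai
    have c3 := con_self (inv_mem hki)
    refine mg2_of (r := con k (xx a) * con a (xx k)⁻¹) (mul_mem (qs_con hak')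
      (qs_con (inv_mem hki))) ?_
    apply aut_ext
    intro j
    by_cases hji : j = a
    · subst hji
      simp only [MulAut.mul_apply, map_mul, map_inv, c1, c2, c3, con_ne _ hik, con_ne _ hik.symm]
      group
    · by_cases hjk : j = k
      · subst hjk
        simp only [MulAut.mul_apply, map_mul, map_inv, c1, c2, con_ne _ hik.symm,
          lam_ne _ hik.symm]
        group
      · simp only [MulAut.mul_apply, lam_ne _ hji, con_ne _ hji, con_ne _ hjk]
  · have hai' : (xx a : FF n) ∈ Av {i} := mg2_x hai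
    have hc : (⁅xx k, (xx a)⁻¹⁆ : FF n) ∈ gam (Av {i}) 1 :=
      Subgroup.commutator_mem_commutator hki (inv_mem hai')
    have c3 := lam_self (gam_le _ _ hc)
    refine mg2_of (r := lam i ⁅xx k, (xx a)⁻¹⁆ * con k (xx a)) (mul_mem (qs_tr true hc)
      (qs_con hak')) ?_
    apply aut_ext
    intro j
    by_cases hji : j = i
    · subst hji
      simp only [MulAut.mul_apply, map_mul, map_inv, c1, c2, c3, con_ne _ hik, lam_ne _ hik.symm,
        lam_ne _ hai]
      rw [commutatorElement_def]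
      group
    · by_cases hjk : j = k
      · subst hjk
        simp only [MulAut.mul_apply, map_mul, map_inv, c1, lam_ne _ hik.symm, lam_ne _ hai]
      · simp only [MulAut.mul_apply, lam_ne _ hji, con_ne _ hjk]

private theorem mg2_con {n : ℕ} {i k : Fin n} (hik : i ≠ k) {w : FF n} (hw : w ∈ Av {k}) :
    mg2P i k (con k w) := by
  have h1 : w ∈ Av {k} ∧ mg2P i k (con k w) := by
    unfold Av at hw
    refine Subgroup.closure_induction (p := fun y _ => y ∈ (Av {k} : Subgroup (FF n)) ∧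
      mg2P i k (con k y)) ?_ ?_ ?_ ?_ hw
    · rintro y ⟨j, hj, rfl⟩
      exact ⟨xx_mem_Av hj, mg2_con1 hik (by simpa using hj)⟩
    · refine ⟨one_mem _, ?_⟩
      rw [con_one]
      exact mg2_one
    · rintro x y _ _ ⟨hx1, hx2⟩ ⟨hy1, hy2⟩
      refine ⟨mul_mem hx1 hy1, ?_⟩
      rw [con_mul hx1 hy1]
      exact mg2_mul hx2 hy2
    · rintro x _ ⟨hx1, hx2⟩
      refine ⟨inv_mem hx1, ?_⟩
      rw [con_inv hx1]
      exact mg2_inv hx2
  exact h1.2

theorem mg_conj {n : ℕ} {i k : Fin n} (hik : i ≠ k) {s : MulAut (FF n)} (hs : s ∈ Qs n) :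
    lam i (xx k) * s * (lam i (xx k))⁻¹ ∈ Qs n := by
  have h1 : Qs n ≤ (Qs n).comap (MulAut.conj (lam i (xx k) : MulAut (FF n))).toMonoidHom := by
    refine (Subgroup.closure_le _).2 ?_
    rintro s ⟨t, a, b, hat, hbt, hs⟩
    show mg2P i k s
    by_cases hti : t = i
    · subst hti
      exact mg2_self hik ⟨hat, hbt, hs⟩
    · by_cases htk : t = k
      · subst htk
        rcases hs with rfl | rfl | rfl
        · exact mg2_lamk hik hat hbt
        · have hW : (⁅(xx a)⁻¹, (xx b)⁻¹⁆ : FF n) ∈ Av {t} := gam_le _ _ (mg2_W hat hbt)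
          have e : rho t (⁅(xx a)⁻¹, (xx b)⁻¹⁆ : FF n) =
              (lam t ⁅(xx a)⁻¹, (xx b)⁻¹⁆)⁻¹ * con t ⁅(xx a)⁻¹, (xx b)⁻¹⁆ := by
            rw [con, inv_mul_cancel_left]
          rw [e]
          exact mg2_mul (mg2_inv (mg2_lamk hik hat hbt)) (mg2_con hik hW)
        · exact mg2_con hik (mg2_x hat)
      · exact mg2_other hti htk ⟨hat, hbt, hs⟩
  exact h1 hs

end Pool.Agent.Work.MP_d3656f_al.GB
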