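import Pool.Agent.Work.MP_d3656f_al.GB.NlC
import Pool.Agent.Work.MP_d3656f_al.GB.Defs

/-!
# GB/NlD : minimal automorphisms are signed permutations; elementary automorphisms
-/

set_option autoImplicit false

namespace Pool.Agent.Work.MP_d3656f_al.GB

open FreeGroup

variable {n : ℕ}

theorem basis_of_nred (α : MulAut (FF n)) (h : NRed (Us fun i => α (xx i))) (i : Fin n) :
    ∃ j, xx i = α (xx j) ∨ xx i = (α (xx j))⁻¹ := by
  obtain ⟨f, hf⟩ : ∃ f : Fin n × Bool → FF n,
      f = fun a => cond a.2 (α (xx a.1)) (α (xx a.1))⁻¹ := ⟨_, rfl⟩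
  have hfm : ∀ a, f a = α (mk [a]) := by
    intro a
    rw [hf]
    obtain ⟨k, b⟩ := a
    cases b
    · have : (mk [(k, false)] : FF n) = (xx k)⁻¹ := by
        rw [xx, FreeGroup.of, inv_mk]
        rfl
      simp [this]
    · rfl
  have hprod : ∀ L : List (Fin n × Bool), α (mk L) = (L.map f).prod := by
    intro L
    induction L with
    | nil =>
      have : (mk [] : FF n) = 1 := rfl
      simp [this]
    | cons a L ih =>
      have : (mk (a :: L) : FF n) = mk [a] * mk L := by rw [mul_mk]; rfl
      rw [this, _root_.map_mul, ih, List.map_cons, List.prod_cons, hfm]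
  have hL := hprod (α⁻¹ (xx i)).toWord
  rw [mk_toWord] at hL
  have h0 : α (α⁻¹ (xx i)) = xx i := by
    rw [← MulAut.mul_apply, mul_inv_cancel, MulAut.one_apply]
  rw [h0] at hL
  have hred := isReduced_toWord (x := α⁻¹ (xx i))
  obtain ⟨L, hLd⟩ : ∃ L, L = (α⁻¹ (xx i)).toWord := ⟨_, rfl⟩
  rw [← hLd] at hL hred
  have hn1 : norm (xx i) = 1 := norm_of i
  cases L with
  | nil =>
    rw [List.map_nil, List.prod_nil] at hL
    rw [hL] at hn1
    simp at hn1
  | cons a l =>
    have hc : (f a :: l.map f).IsChain (fun a b => a * b ≠ 1) := by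
      rw [← List.map_cons, List.isChain_map]
      refine hred.imp ?_
      intro a b hab h1
      rw [hfm, hfm, ← _root_.map_mul] at h1
      have h2 : (mk [a] * mk [b] : FF n) = 1 := by
        have := (MulEquiv.map_eq_one_iff α).1 h1
        exact this
      rw [mul_mk] at h2
      have h3 : FreeGroup.IsReduced ([a] ++ [b]) := by
        simpa [FreeGroup.IsReduced] using hab
      have h4 := norm_mk_of_reduced h3
      rw [h2] at h4
      simp at h4
    have hU : ∀ x ∈ f a :: l.map f, x ∈ Us fun i => α (xx i) := by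
      intro x hx
      rw [← List.map_cons] at hx
      obtain ⟨b, -, rfl⟩ := List.mem_map.1 hx
      rw [hf]
      obtain ⟨k, b⟩ := b
      cases b
      · exact ⟨k, Or.inr rfl⟩
      · exact ⟨k, Or.inl rfl⟩
    have h5 := (nred_prod h (f a) (l.map f) hU hc).1
    rw [List.map_cons] at hL
    rw [← hL, hn1, List.length_map] at h5
    have h6 : l = [] := List.length_eq_zero_iff.1 (by omega)
    rw [h6, List.map_nil, List.prod_cons, List.prod_nil, mul_one, hf] at hL
    obtain ⟨k, b⟩ := a
    cases b
    · exact ⟨k, Or.inr hL⟩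
    · exact ⟨k, Or.inl hL⟩

end Pool.Agent.Work.MP_d3656f_al.GB
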