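import Pool.Agent.Work.MP_d3656f_al.GB.Defs

/-!
# GB/NlE : the elementary automorphisms
-/

set_option autoImplicit false

namespace Pool.Agent.Work.MP_d3656f_al.GB

variable {n : ℕ}

/-- The endomorphism which inverts `xx i`. -/
def ivE {n : ℕ} (i : Fin n) : FF n →* FF n :=
  FreeGroup.lift fun j => if j = i then (xx i)⁻¹ else xx j

theorem ivE_self (i : Fin n) : ivE i (xx i) = (xx i)⁻¹ := by simp [ivE]

theorem ivE_ne {i j : Fin n} (h : j ≠ i) : ivE i (xx j) = xx j := by simp [ivE, h]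

theorem ivE_comp (i : Fin n) : (ivE i).comp (ivE i) = MonoidHom.id _ := by
  ext j
  by_cases h : j = i
  · subst h
    rw [MonoidHom.comp_apply, ivE_self, map_inv, ivE_self, inv_inv]
    rfl
  · rw [MonoidHom.comp_apply, ivE_ne h, ivE_ne h]
    rfl

/-- The automorphism which inverts `xx i`. -/
def iv (i : Fin n) : MulAut (FF n) :=
  MonoidHom.toMulEquiv (ivE i) (ivE i) (ivE_comp i) (ivE_comp i)

theorem iv_apply (i : Fin n) (y : FF n) : iv i y = ivE i y := rfl

theorem iv_self (i : Fin n) : iv i (xx i) = (xx i)⁻¹ := ivE_self i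

theorem iv_ne {i j : Fin n} (h : j ≠ i) : iv i (xx j) = xx j := ivE_ne h

theorem iv_mem (i : Fin n) : iv i ∈ Subgroup.closure (El n) :=
  Subgroup.subset_closure (Or.inr (Or.inl ⟨i, iv_self i, fun _ h => iv_ne h⟩))

theorem perm_mem (σ : Equiv.Perm (Fin n)) : ∃ β ∈ Subgroup.closure (El n),
    ∀ i, β (xx i) = xx (σ i) := by
  refine ⟨FreeGroup.freeGroupCongr σ, Subgroup.subset_closure (Or.inl ⟨σ, fun i => ?_⟩),
    fun i => ?_⟩
  · simp
  · simp

theorem lam_mem_cl {i j : Fin n} (h : i ≠ j) : lam i (xx j) ∈ Subgroup.closure (El n) := by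
  have hj : xx j ∈ Av {i} := xx_mem_Av (by simpa using h.symm)
  exact Subgroup.subset_closure (Or.inr (Or.inr ⟨i, j, h, lam_self hj, fun k hk => lam_ne _ hk⟩))

/-- The transvections. -/
theorem exists_left {i j : Fin n} (h : i ≠ j) {w : FF n} (hw : w = xx j ∨ w = (xx j)⁻¹) :
    w ∈ Av {i} ∧ lam i w ∈ Subgroup.closure (El n) := by
  have hj : xx j ∈ Av {i} := xx_mem_Av (by simpa using h.symm)
  rcases hw with rfl | rfl
  · exact ⟨hj, lam_mem_cl h⟩
  · refine ⟨inv_mem hj, ?_⟩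
    rw [lam_inv hj]
    exact inv_mem (lam_mem_cl h)

theorem exists_tr1 {i j : Fin n} (h : i ≠ j) {w : FF n} (hw : w = xx j ∨ w = (xx j)⁻¹) :
    ∃ β ∈ Subgroup.closure (El n), β (xx i) = w * xx i ∧ ∀ k, k ≠ i → β (xx k) = xx k := by
  have hw' : w⁻¹ = xx j ∨ w⁻¹ = (xx j)⁻¹ := by
    rcases hw with rfl | rfl
    · exact Or.inr rfl
    · exact Or.inl (inv_inv _)
  obtain ⟨h1, h2⟩ := exists_left h hw'
  refine ⟨lam i w⁻¹, h2, ?_, fun k hk => lam_ne _ hk⟩
  rw [lam_self h1, inv_inv]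

theorem exists_tr2 {i j : Fin n} (h : i ≠ j) {w : FF n} (hw : w = xx j ∨ w = (xx j)⁻¹) :
    ∃ β ∈ Subgroup.closure (El n), β (xx i) = xx i * w ∧ ∀ k, k ≠ i → β (xx k) = xx k := by
  obtain ⟨h1, h2⟩ := exists_left h hw
  refine ⟨iv i * lam i w * iv i, mul_mem (mul_mem (iv_mem i) h2) (iv_mem i), ?_, fun k hk => ?_⟩
  · have h3 : iv i w = w := by
      rcases hw with rfl | rfl
      · exact iv_ne h.symm
      · rw [map_inv, iv_ne h.symm]
    rw [MulAut.mul_apply, MulAut.mul_apply, iv_self, map_inv, lam_self h1, mul_inv_rev,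
      map_mul, map_inv, iv_self, inv_inv, inv_inv, h3]
  · rw [MulAut.mul_apply, MulAut.mul_apply, iv_ne hk, lam_ne _ hk, iv_ne hk]

theorem signs_mem (s : Finset (Fin n)) : ∃ β ∈ Subgroup.closure (El n),
    ∀ i, β (xx i) = if i ∈ s then (xx i)⁻¹ else xx i := by
  induction s using Finset.induction_on with
  | empty => exact ⟨1, one_mem _, fun i => by simp⟩
  | insert a s ha ih =>
    obtain ⟨β, hβ, h⟩ := ih
    refine ⟨β * iv a, mul_mem hβ (iv_mem a), fun i => ?_⟩
    rw [MulAut.mul_apply]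
    by_cases hi : i = a
    · subst hi
      rw [iv_self, map_inv, h, if_neg ha, if_pos (Finset.mem_insert_self _ _)]
    · rw [iv_ne hi, h]
      simp [hi]

theorem xx_ne_inv (i j : Fin n) : xx i ≠ (xx j)⁻¹ := by
  intro h
  have h1 := congrArg FreeGroup.toWord h
  rw [FreeGroup.toWord_inv, FreeGroup.toWord_of, FreeGroup.toWord_of] at h1
  simp [FreeGroup.invRev] at h1

theorem signed_perm (γ : MulAut (FF n)) (h : ∀ i, ∃ j, xx i = γ (xx j) ∨ xx i = (γ (xx j))⁻¹) :
    γ ∈ Subgroup.closure (El n) := by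
  choose j hj using h
  have hinj : Function.Injective j := by
    intro i i' hii
    have h1 := hj i
    have h2 := hj i'
    rw [← hii] at h2
    rcases h1 with h1 | h1 <;> rcases h2 with h2 | h2
    · exact FreeGroup.of_injective (h1.trans h2.symm)
    · rw [← h1] at h2
      exact absurd h2 (xx_ne_inv _ _)
    · rw [← h2] at h1
      exact absurd h1 (xx_ne_inv _ _)
    · exact FreeGroup.of_injective (h1.trans h2.symm)
  obtain ⟨π, hπ, hπ'⟩ := perm_mem (Equiv.ofBijective j (Finite.injective_iff_bijective.1 hinj))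
  classical
  obtain ⟨β, hβ, hβ'⟩ := signs_mem (Finset.univ.filter fun i => γ (xx (j i)) = (xx i)⁻¹)
  have h1 : γ * π = β := by
    apply aut_ext
    intro i
    rw [MulAut.mul_apply, hπ', hβ']
    simp only [Equiv.ofBijective_apply, Finset.mem_filter, Finset.mem_univ, true_and]
    split_ifs with h2
    · exact h2
    · rcases hj i with h3 | h3
      · exact h3.symm
      · exact absurd (by rw [h3, inv_inv]) h2
  have h2 : γ = β * π⁻¹ := by rw [← h1, mul_inv_cancel_right]
  rw [h2]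
  exact mul_mem hβ (inv_mem hπ)

end Pool.Agent.Work.MP_d3656f_al.GB
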