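import Mathlib
import Pool.Agent.Work.MP_d3656f_al.GB.Defs
import Pool.Agent.Work.MP_d3656f_al.GB.NlD
import Pool.Agent.Work.MP_d3656f_al.GB.NlE

/-!
# GB/Niel : Nielsen's theorem

`Aut(F_n)` is generated by the elementary automorphisms. Classical (Nielsen reduction).
For `α` let `u i = α (xx i)`. In the coset of `α` we take an element with the smallest total length
`Σ |u i|`, and among those one with the smallest weight `Σ hwt (u i)`. It is Nielsen reduced
(`nred_of_nmin`), so every `xx i` is one of the `u j` or of their inverses (`basis_of_nred`), and it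
is a signed permutation (`signed_perm`).
-/

set_option autoImplicit false

namespace Pool.Agent.Work.MP_d3656f_al.GB

open FreeGroup

variable {n : ℕ}

private theorem nl_sum {f g : Fin n → ℕ} (i : Fin n) (h : ∀ k, k ≠ i → g k = f k) :
    ∑ k, g k + f i = ∑ k, f k + g i := by
  have h1 := Finset.add_sum_erase Finset.univ f (Finset.mem_univ i)
  have h2 := Finset.add_sum_erase Finset.univ g (Finset.mem_univ i)
  have h3 : ∑ k ∈ Finset.univ.erase i, g k = ∑ k ∈ Finset.univ.erase i, f k :=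
    Finset.sum_congr rfl fun k hk => h k (Finset.ne_of_mem_erase hk)
  omega

private theorem nl_tr (γ : MulAut (FF n)) {i j : Fin n} (hij : i ≠ j) {v w : FF n}
    (hv : v = γ (xx i) ∨ v = (γ (xx i))⁻¹) (hw : w = γ (xx j) ∨ w = (γ (xx j))⁻¹) :
    ∃ β ∈ Subgroup.closure (El n), (∀ k, k ≠ i → (γ * β) (xx k) = γ (xx k)) ∧
      ((γ * β) (xx i) = w * v ∨ (γ * β) (xx i) = (w * v)⁻¹) := by
  obtain ⟨w', hw', hww⟩ : ∃ w', (w' = xx j ∨ w' = (xx j)⁻¹) ∧ w = γ w' := by
    rcases hw with rfl | rfl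
    · exact ⟨_, Or.inl rfl, rfl⟩
    · exact ⟨_, Or.inr rfl, (_root_.map_inv γ _).symm⟩
  rcases hv with rfl | rfl
  · obtain ⟨β, hβ, h1, h2⟩ := exists_tr1 hij hw'
    refine ⟨β, hβ, fun k hk => by rw [MulAut.mul_apply, h2 k hk], Or.inl ?_⟩
    rw [MulAut.mul_apply, h1, _root_.map_mul, hww]
  · have hw'' : w'⁻¹ = xx j ∨ w'⁻¹ = (xx j)⁻¹ := by
      rcases hw' with rfl | rfl
      · exact Or.inr rfl
      · exact Or.inl (inv_inv _)
    obtain ⟨β, hβ, h1, h2⟩ := exists_tr2 hij hw''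
    refine ⟨β, hβ, fun k hk => by rw [MulAut.mul_apply, h2 k hk], Or.inr ?_⟩
    rw [MulAut.mul_apply, h1, _root_.map_mul, hww, mul_inv_rev, inv_inv, _root_.map_inv]

theorem nielsen (n : ℕ) : Subgroup.closure (El n) = (⊤ : Subgroup (MulAut (FF n))) := by
  rw [eq_top_iff]
  intro α _
  obtain ⟨β₁, hβ₁, hmin₁⟩ := (measure fun β : MulAut (FF n) =>
    ∑ k, norm ((α * β) (xx k))).wf.has_min (Subgroup.closure (El n) : Set (MulAut (FF n)))
    ⟨1, one_mem _⟩
  obtain ⟨β₂, hβ₂, hmin₂⟩ := (measure fun β : MulAut (FF n) =>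
    ∑ k, hwt ((α * β) (xx k))).wf.has_min {β : MulAut (FF n) | β ∈ Subgroup.closure (El n) ∧
      ∑ k, norm ((α * β) (xx k)) = ∑ k, norm ((α * β₁) (xx k))} ⟨β₁, hβ₁, rfl⟩
  have hlen : ∀ β ∈ Subgroup.closure (El n),
      ∑ k, norm ((α * β₂) (xx k)) ≤ ∑ k, norm ((α * β) (xx k)) := by
    intro β hβ
    rw [hβ₂.2]
    exact not_lt.1 (hmin₁ β hβ)
  have hwtm : ∀ β ∈ Subgroup.closure (El n),
      ∑ k, norm ((α * β) (xx k)) = ∑ k, norm ((α * β₂) (xx k)) →
      ∑ k, hwt ((α * β₂) (xx k)) ≤ ∑ k, hwt ((α * β) (xx k)) := by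
    intro β hβ h
    exact not_lt.1 (hmin₂ β ⟨hβ, h.trans hβ₂.2⟩)
  obtain ⟨γ, hγ⟩ : ∃ γ, γ = α * β₂ := ⟨_, rfl⟩
  have hmin : NMin (fun i => γ (xx i)) := by
    refine ⟨fun i h => ?_, ?_, ?_⟩
    · have h1 : xx i = (1 : FF n) := (MulEquiv.map_eq_one_iff γ).1 h
      exact FreeGroup.of_ne_one i h1
    · intro i j hij v w hv hw
      obtain ⟨β, hβ, h1, h2⟩ := nl_tr γ hij hv hw
      have h3 := hlen (β₂ * β) (mul_mem hβ₂.1 hβ)
      rw [← mul_assoc, ← hγ] at h3
      have h4 := nl_sum (f := fun k => norm (γ (xx k))) (g := fun k => norm ((γ * β) (xx k))) i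
        (fun k hk => by rw [h1 k hk])
      have h5 : norm ((γ * β) (xx i)) = norm (w * v) := by
        rcases h2 with h2 | h2
        · rw [h2]
        · rw [h2, norm_inv_eq]
      have h6 : norm (γ (xx i)) = norm v := by
        rcases hv with rfl | rfl
        · rfl
        · rw [norm_inv_eq]
      omega
    · intro i j hij v w hv hw hn
      obtain ⟨β, hβ, h1, h2⟩ := nl_tr γ hij hv hw
      have h3 := hwtm (β₂ * β) (mul_mem hβ₂.1 hβ)
      rw [← mul_assoc, ← hγ] at h3
      have h4 := nl_sum (f := fun k => norm (γ (xx k))) (g := fun k => norm ((γ * β) (xx k))) i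
        (fun k hk => by rw [h1 k hk])
      have h4' := nl_sum (f := fun k => hwt (γ (xx k))) (g := fun k => hwt ((γ * β) (xx k))) i
        (fun k hk => by rw [h1 k hk])
      have h5 : norm ((γ * β) (xx i)) = norm (w * v) := by
        rcases h2 with h2 | h2
        · rw [h2]
        · rw [h2, norm_inv_eq]
      have h6 : norm (γ (xx i)) = norm v := by
        rcases hv with rfl | rfl
        · rfl
        · rw [norm_inv_eq]
      have h5' : hwt ((γ * β) (xx i)) = hwt (w * v) := by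
        rcases h2 with h2 | h2
        · rw [h2]
        · rw [h2, hwt_inv]
      have h6' : hwt (γ (xx i)) = hwt v := by
        rcases hv with rfl | rfl
        · rfl
        · rw [hwt_inv]
      have h7 : ∑ k, norm ((γ * β) (xx k)) = ∑ k, norm (γ (xx k)) := by
        omega
      have h8 := h3 h7
      omega
  have h1 := signed_perm γ (fun i => basis_of_nred γ (nred_of_nmin hmin) i)
  have h2 : α = γ * β₂⁻¹ := by rw [hγ, mul_inv_cancel_right]
  rw [h2]
  exact mul_mem h1 (inv_mem hβ₂.1)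

end Pool.Agent.Work.MP_d3656f_al.GB
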