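import Mathlib
import Pool.Agent.Work.MP_d3656f_al.GB.Mg2
import Pool.Agent.Work.MP_d3656f_al.GB.Niel

/-!
# GB/Mg3 : `Qs n` is normal

By `nielsen` it suffices that conjugation by `e` and by `e⁻¹` maps `Qs n` into itself for
`e ∈ El n`; for this it is enough to treat the generators in `Qg n`.
* `e` a permutation of the basis (`e (xx j) = xx (σ j)`): `e * tr b i W * e⁻¹ = tr b (σ i) (e W)`,
  `e W ∈ gam (Av {σ i}) 1` (`aut_gam`), `qs_tr`, `qs_con`. `e⁻¹` is of the same kind.
* `e` inverts `xx m`: `e = e⁻¹`. If `i ≠ m` then `e` is `Pr i`: `tr_conj`, `con_conj`. If `i = m`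
  then `e = flp m` (`aut_ext`) and `flp_lam`, `flp_rho`, and
  `flp i * con i w * (flp i)⁻¹ = con i w`.
* `e = lam i (xx k)` (`aut_ext`): `mg_conj`; `e⁻¹ = lam i (xx k)⁻¹ = flp k * e * (flp k)⁻¹`
  (`lam_conj`, `flp k` is `Pr i`), so conjugation by `e⁻¹` is a composition of the three maps.
-/

set_option autoImplicit false

namespace Pool.Agent.Work.MP_d3656f_al.GB

open scoped commutatorElement

private theorem mg3_gam {n : ℕ} {S T : Finset (Fin n)} {α : MulAut (FF n)}
    (h : ∀ j, j ∉ S → α (xx j) ∈ Av T) (b : ℕ) {u : FF n} (hu : u ∈ gam (Av S) b) :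
    α u ∈ gam (Av T) b := by
  have h1 : (Av S).map α.toMonoidHom ≤ Av T := by
    rw [Subgroup.map_le_iff_le_comap]
    intro y hy
    exact aut_mem h hy
  have h3 : α.toMonoidHom u ∈ (gam (Av S) b).map α.toMonoidHom := Subgroup.mem_map_of_mem _ hu
  rw [gam_map] at h3
  exact gam_mono h1 b h3

private theorem mg3_W {n : ℕ} {i a b : Fin n} (ha : a ≠ i) (hb : b ≠ i) :
    (⁅(xx a)⁻¹, (xx b)⁻¹⁆ : FF n) ∈ gam (Av {i}) 1 :=
  Subgroup.commutator_mem_commutator (inv_mem (xx_mem_Av (by simpa using ha)))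
    (inv_mem (xx_mem_Av (by simpa using hb)))

/-- conjugation by `e` preserves `Qs n` -/
private def mg3_Sub {n : ℕ} (e : MulAut (FF n)) : Prop := ∀ s ∈ Qs n, e * s * e⁻¹ ∈ Qs n

private theorem mg3_mul {n : ℕ} {e f : MulAut (FF n)} (he : mg3_Sub e) (hf : mg3_Sub f) :
    mg3_Sub (e * f) := by
  intro s hs
  have h := he _ (hf s hs)
  have h1 : e * f * s * (e * f)⁻¹ = e * (f * s * f⁻¹) * e⁻¹ := by group
  rw [h1]
  exact h

private theorem mg3_gens {n : ℕ} {e : MulAut (FF n)} (h : ∀ s ∈ Qg n, e * s * e⁻¹ ∈ Qs n) :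
    mg3_Sub e := by
  have h1 : Qs n ≤ (Qs n).comap (MulAut.conj e).toMonoidHom := by
    refine (Subgroup.closure_le _).2 ?_
    intro s hs
    exact h s hs
  intro s hs
  exact h1 hs

private theorem mg3_perm_tr {n : ℕ} {e : MulAut (FF n)} {σ : Equiv.Perm (Fin n)}
    (he : ∀ j, e (xx j) = xx (σ j)) (b : Bool) {i : Fin n} {w : FF n} (hw : w ∈ Av {i}) :
    e * tr b i w * e⁻¹ = tr b (σ i) (e w) := by
  have hew : e w ∈ Av {σ i} := by
    refine aut_mem (fun j hj => ?_) hw
    rw [he]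
    refine xx_mem_Av ?_
    rw [Finset.mem_singleton] at hj ⊢
    exact fun h => hj (σ.injective h)
  apply aut_ext
  intro j
  have hinv : e⁻¹ (xx j) = xx (σ.symm j) := inv_app (by rw [he, Equiv.apply_symm_apply])
  rw [MulAut.mul_apply, MulAut.mul_apply, hinv]
  by_cases h : j = σ i
  · subst h
    rw [Equiv.symm_apply_apply]
    cases b
    · rw [tr_false, tr_false, rho_self hw, rho_self hew, map_mul, he]
    · rw [tr_true, tr_true, lam_self hw, lam_self hew, map_mul, map_inv, he]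
  · have h1 : σ.symm j ≠ i := fun h2 => h (by rw [← h2, Equiv.apply_symm_apply])
    rw [tr_ne b w h1, tr_ne b _ h, he, Equiv.apply_symm_apply]

private theorem mg3_perm {n : ℕ} {e : MulAut (FF n)} {σ : Equiv.Perm (Fin n)}
    (he : ∀ j, e (xx j) = xx (σ j)) : mg3_Sub e := by
  refine mg3_gens ?_
  rintro s ⟨i, a, b, ha, hb, hs⟩
  have hmap : ∀ j, j ∉ ({i} : Finset (Fin n)) → e (xx j) ∈ Av {σ i} := by
    intro j hj
    rw [he]
    refine xx_mem_Av ?_
    rw [Finset.mem_singleton] at hj ⊢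
    exact fun h => hj (σ.injective h)
  have hW := mg3_W ha hb
  have hWA : (⁅(xx a)⁻¹, (xx b)⁻¹⁆ : FF n) ∈ Av {i} := gam_le _ _ hW
  have haA : (xx a : FF n) ∈ Av {i} := xx_mem_Av (by simpa using ha)
  rcases hs with rfl | rfl | rfl
  · rw [← tr_true, mg3_perm_tr he true hWA]
    exact qs_tr true (mg3_gam hmap 1 hW)
  · rw [← tr_false, mg3_perm_tr he false hWA]
    exact qs_tr false (mg3_gam hmap 1 hW)
  · have h1 : e * con i (xx a) * e⁻¹ = con (σ i) (e (xx a)) := by
      rw [con, con, ← tr_true, ← tr_true, ← tr_false, ← tr_false, ← mg3_perm_tr he true haA,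
        ← mg3_perm_tr he false haA]
      group
    rw [h1]
    exact qs_con (aut_mem hmap haA)

private theorem mg3_pr_flp {n : ℕ} {i m : Fin n} (h : i ≠ m) : Pr i (flp m : MulAut (FF n)) := by
  have h1 : ∀ j, j ≠ i → (flp m : MulAut (FF n)) (xx j) ∈ Av {i} := by
    intro j hj
    by_cases hm : j = m
    · subst hm
      rw [flp_self]
      exact inv_mem (xx_mem_Av (by simpa using hj))
    · rw [flp_ne hm]
      exact xx_mem_Av (by simpa using hj)
  refine pr_of_gens (flp_ne h) h1 ?_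
  rw [flp_inv]
  exact h1

private theorem mg3_flp {n : ℕ} (m : Fin n) : mg3_Sub (flp m : MulAut (FF n)) := by
  refine mg3_gens ?_
  rintro s ⟨i, a, b, ha, hb, hs⟩
  have hW := mg3_W ha hb
  have hWA : (⁅(xx a)⁻¹, (xx b)⁻¹⁆ : FF n) ∈ Av {i} := gam_le _ _ hW
  have haA : (xx a : FF n) ∈ Av {i} := xx_mem_Av (by simpa using ha)
  by_cases him : i = m
  · subst him
    rcases hs with rfl | rfl | rfl
    · rw [flp_lam hWA, ← tr_false]
      exact qs_tr false hW
    · rw [flp_rho hWA, ← tr_true]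
      exact qs_tr true hW
    · have h1 : flp i * con i (xx a) * (flp i)⁻¹ = con i (xx a) := by
        have h2 : flp i * con i (xx a) * (flp i)⁻¹ =
            (flp i * lam i (xx a) * (flp i)⁻¹) * (flp i * rho i (xx a) * (flp i)⁻¹) := by
          rw [con]
          group
        rw [h2, flp_lam haA, flp_rho haA, ← lam_comm_rho haA haA, con]
      rw [h1]
      exact qs_con haA
  · have hpr := mg3_pr_flp him
    have hmap : ∀ j, j ∉ ({i} : Finset (Fin n)) →
        (flp m : MulAut (FF n)) (xx j) ∈ Av {i} := by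
      intro j hj
      exact hpr.map _ (xx_mem_Av hj)
    rcases hs with rfl | rfl | rfl
    · rw [← tr_true, tr_conj true hpr hWA]
      exact qs_tr true (mg3_gam hmap 1 hW)
    · rw [← tr_false, tr_conj false hpr hWA]
      exact qs_tr false (mg3_gam hmap 1 hW)
    · rw [con_conj hpr haA]
      exact qs_con (hpr.map _ haA)

private theorem mg3_el {n : ℕ} {e : MulAut (FF n)} (he : e ∈ El n) :
    mg3_Sub e ∧ mg3_Sub e⁻¹ := by
  rcases he with ⟨σ, he⟩ | ⟨m, h1, h2⟩ | ⟨i, k, hik, h1, h2⟩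
  · refine ⟨mg3_perm he, mg3_perm (σ := σ.symm) ?_⟩
    intro j
    exact inv_app (by rw [he, Equiv.apply_symm_apply])
  · have h3 : e = flp m := by
      apply aut_ext
      intro j
      by_cases h : j = m
      · subst h
        rw [h1, flp_self]
      · rw [h2 j h, flp_ne h]
    rw [h3, flp_inv]
    exact ⟨mg3_flp m, mg3_flp m⟩
  · have hk : (xx k : FF n) ∈ Av {i} := xx_mem_Av (by simpa using hik.symm)
    have h3 : e = lam i (xx k) := by
      apply aut_ext
      intro j
      by_cases h : j = i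
      · subst h
        rw [h1, lam_self hk]
      · rw [h2 j h, lam_ne _ h]
    rw [h3]
    have h4 : mg3_Sub (lam i (xx k)) := fun s hs => mg_conj hik hs
    refine ⟨h4, ?_⟩
    have h5 : (lam i (xx k) : MulAut (FF n))⁻¹ = flp k * lam i (xx k) * flp k := by
      have h6 := lam_conj (mg3_pr_flp hik) hk
      rw [flp_self, lam_inv hk, flp_inv] at h6
      exact h6.symm
    rw [h5]
    exact mg3_mul (mg3_mul (mg3_flp k) h4) (mg3_flp k)

theorem qs_normal (n : ℕ) : (Qs n).Normal := by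
  have h1 : Subgroup.closure (El n) ≤ Subgroup.normalizer (Qs n : Set (MulAut (FF n))) := by
    refine (Subgroup.closure_le _).2 ?_
    intro e he
    obtain ⟨h2, h3⟩ := mg3_el he
    rw [SetLike.mem_coe, Subgroup.mem_normalizer_iff]
    intro s
    constructor
    · intro hs
      exact h2 s hs
    · intro hs
      have h4 := h3 _ hs
      have h5 : e⁻¹ * (e * s * e⁻¹) * e⁻¹⁻¹ = s := by group
      rw [h5] at h4
      exact h4
  rw [nielsen, top_le_iff] at h1
  exact Subgroup.normalizer_eq_top_iff.mp h1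

end Pool.Agent.Work.MP_d3656f_al.GB
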