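import Mathlib
import Pool.Agent.Work.MP_d3656f_al.GB.Bs1
import Pool.Agent.Work.MP_d3656f_al.GB.Mg3

/-!
# GB/Bs2 : the group generated by the conjugations

`AA φ` is the image of the group generated by all `con i (xx j)`.
`aa_fin`: commutative by `bs_pair`, generated by finitely many elements of finite order
(`bs_ord`).
`aa_normal`: by `nielsen` and surjectivity it suffices to conjugate the generators by `e` and
`e⁻¹`, `e ∈ El n` (`AA` is finite, so it is enough that conjugation by `φ e` maps `AA` into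
itself). Permutations: `e * con i (xx j) * e⁻¹ = con (σ i) (xx (σ j))`. Inversion of `xx m`:
`con i (xx j)` becomes `con i (xx j)^{±1}`. `e = lam t (xx s)`, `t ≠ s`: if `j ≠ t` it commutes
with `φ (con i (xx j))` (`bs_comm`); if `j = t`, choose `k ≠ t, s` (`3 ≤ n`), replace
`con i (xx t)` by `con k (xx t)` (`con_sw`, `d = 0`), and
`e * con k (xx t) * e⁻¹ = con k ((xx s)⁻¹ * xx t) = (con k (xx s))⁻¹ * con k (xx t)`.
-/

set_option autoImplicit false

namespace Pool.Agent.Work.MP_d3656f_al.GB

open scoped commutatorElement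

/-- The image of the group generated by the conjugations of one basis element by another. -/
def AA {n : ℕ} {M : Type} [Group M] (φ : MulAut (FF n) →* M) : Subgroup M :=
  Subgroup.closure {y | ∃ i j : Fin n, i ≠ j ∧ y = φ (con i (xx j))}

variable {n : ℕ} {M : Type} [Group M] {φ : MulAut (FF n) →* M}

private theorem bs2_mem {i j : Fin n} (hij : i ≠ j) : φ (con i (xx j)) ∈ AA φ :=
  Subgroup.subset_closure ⟨i, j, hij, rfl⟩

private theorem bs2_comm (hn : 3 ≤ n) (h : HK φ 1) : ∀ x ∈ {y : M | ∃ i j : Fin n, i ≠ j ∧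
    y = φ (con i (xx j))}, ∀ y ∈ {y : M | ∃ i j : Fin n, i ≠ j ∧ y = φ (con i (xx j))},
    x * y = y * x := by
  rintro _ ⟨i, j, hij, rfl⟩ _ ⟨k, l, hkl, rfl⟩
  exact bs_pair hn h hij hkl

private theorem bs2_perm {e : MulAut (FF n)} {σ : Equiv.Perm (Fin n)}
    (he : ∀ j, e (xx j) = xx (σ j)) {i j : Fin n} (hij : i ≠ j) :
    e * con i (xx j) * e⁻¹ = con (σ i) (xx (σ j)) := by
  have hj : (xx j : FF n) ∈ Av {i} := xx_mem_Av (by simpa using hij.symm)
  have hσ : σ j ≠ σ i := fun h => hij (σ.injective h).symm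
  have hσj : (xx (σ j) : FF n) ∈ Av {σ i} := xx_mem_Av (by simpa using hσ)
  apply aut_ext
  intro k
  have hinv : e⁻¹ (xx k) = xx (σ.symm k) := inv_app (by rw [he, Equiv.apply_symm_apply])
  rw [MulAut.mul_apply, MulAut.mul_apply, hinv]
  by_cases hk : k = σ i
  · subst hk
    rw [Equiv.symm_apply_apply, con_self hj, con_self hσj, map_mul, map_mul, map_inv, he, he]
  · have h1 : σ.symm k ≠ i := fun h2 => hk (by rw [← h2, Equiv.apply_symm_apply])
    rw [con_ne _ h1, con_ne _ hk, he, Equiv.apply_symm_apply]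

private theorem bs2_pr_flp {i m : Fin n} (h : i ≠ m) : Pr i (flp m : MulAut (FF n)) := by
  have h1 : ∀ j, j ≠ i → (flp m : MulAut (FF n)) (xx j) ∈ Av {i} := by
    intro j hj
    by_cases hm : j = m
    · subst hm
      rw [flp_self]
      exact inv_mem (xx_mem_Av (by simpa using hj))
    · rw [flp_ne hm]
      exact xx_mem_Av (by simpa using hj)
  refine pr_of_gens (flp_ne h) h1 ?_
  rw [flp_inv]
  exact h1

/-- conjugation by `φ e` maps `AA φ` into itself -/
private def bs2_Sub (φ : MulAut (FF n) →* M) (e : MulAut (FF n)) : Prop :=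
  ∀ y ∈ AA φ, φ e * y * (φ e)⁻¹ ∈ AA φ

private theorem bs2_gens {e : MulAut (FF n)}
    (h : ∀ i j : Fin n, i ≠ j → φ (e * con i (xx j) * e⁻¹) ∈ AA φ) : bs2_Sub φ e := by
  have h1 : AA φ ≤ (AA φ).comap (MulAut.conj (φ e)).toMonoidHom := by
    refine (Subgroup.closure_le _).2 ?_
    rintro _ ⟨i, j, hij, rfl⟩
    have h2 := h i j hij
    rw [map_mul, map_mul, map_inv] at h2
    exact h2
  intro y hy
  exact h1 hy

private theorem bs2_el (hn : 3 ≤ n) (h : HK φ 1) {e : MulAut (FF n)} (he : e ∈ El n) :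
    bs2_Sub φ e := by
  refine bs2_gens ?_
  intro i j hij
  have hjA : (xx j : FF n) ∈ Av {i} := xx_mem_Av (by simpa using hij.symm)
  rcases he with ⟨σ, he⟩ | ⟨m, h1, h2⟩ | ⟨t, s, hts, h1, h2⟩
  · rw [bs2_perm he hij]
    exact bs2_mem (fun h => hij (σ.injective h))
  · have h3 : e = flp m := by
      apply aut_ext
      intro j
      by_cases h : j = m
      · subst h
        rw [h1, flp_self]
      · rw [h2 j h, flp_ne h]
    rw [h3]
    by_cases him : i = m
    · subst him
      have h4 : flp i * con i (xx j) * (flp i)⁻¹ = con i (xx j) := by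
        have h5 : flp i * con i (xx j) * (flp i)⁻¹ =
            (flp i * lam i (xx j) * (flp i)⁻¹) * (flp i * rho i (xx j) * (flp i)⁻¹) := by
          rw [con]
          group
        rw [h5, flp_lam hjA, flp_rho hjA, ← lam_comm_rho hjA hjA, con]
      rw [h4]
      exact bs2_mem hij
    · rw [con_conj (bs2_pr_flp him) hjA]
      by_cases hjm : j = m
      · subst hjm
        rw [flp_self, con_inv hjA, map_inv]
        exact inv_mem (bs2_mem hij)
      · rw [flp_ne hjm]
        exact bs2_mem hij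
  · have hsA : (xx s : FF n) ∈ Av {t} := xx_mem_Av (by simpa using hts.symm)
    have h3 : e = lam t (xx s) := by
      apply aut_ext
      intro j
      by_cases h : j = t
      · subst h
        rw [h1, lam_self hsA]
      · rw [h2 j h, lam_ne _ h]
    rw [h3, map_mul, map_mul, map_inv]
    by_cases htj : t = j
    · subst htj
      obtain ⟨k, hkt, hks⟩ := Fin.exists_ne_and_ne_of_two_lt t s (by omega)
      have h4 : φ (con i (xx t)) = φ (con k (xx t)) := by
        by_cases hik : i = k
        · rw [hik]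
        · refine con_sw (d := 0) h hik ?_
          refine xx_mem_Av ?_
          rw [Finset.mem_insert, Finset.mem_singleton, not_or]
          exact ⟨hij.symm, hkt.symm⟩
      have htk : (xx t : FF n) ∈ Av {k} := xx_mem_Av (by simpa using hkt.symm)
      have hsk : (xx s : FF n) ∈ Av {k} := xx_mem_Av (by simpa using hks.symm)
      have hpr : Pr k (lam t (xx s) : MulAut (FF n)) := by
        refine pr_lam hkt (xx_mem_Av ?_)
        rw [Finset.mem_insert, Finset.mem_singleton, not_or]
        exact ⟨hks.symm, hts.symm⟩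
      rw [h4, ← map_inv, ← map_mul, ← map_mul, con_conj hpr htk, lam_self hsA,
        con_mul (inv_mem hsk) htk, con_inv hsk, map_mul, map_inv]
      exact mul_mem (inv_mem (bs2_mem hks)) (bs2_mem hkt)
    · have h4 := bs_comm h hij htj true hsA
      rw [tr_true] at h4
      have h5 : φ (lam t (xx s)) * φ (con i (xx j)) * (φ (lam t (xx s)))⁻¹ =
          φ (con i (xx j)) := by
        rw [← h4.eq, mul_inv_cancel_right]
      rw [h5]
      exact bs2_mem hij

theorem aa_fin (hn : 3 ≤ n) (h : HK φ 1)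
    (ht : ∀ i j : Fin n, i ≠ j → IsOfFinOrder (φ (lam i (xx j)))) : Finite (AA φ) := by
  have hS : {y : M | ∃ i j : Fin n, i ≠ j ∧ y = φ (con i (xx j))}.Finite := by
    refine (Set.finite_range fun p : Fin n × Fin n => φ (con p.1 (xx p.2))).subset ?_
    rintro _ ⟨i, j, _, rfl⟩
    exact ⟨(i, j), rfl⟩
  have hfin : Finite {y : M | ∃ i j : Fin n, i ≠ j ∧ y = φ (con i (xx j))} := hS.to_subtype
  have hfg : Group.FG (AA φ) := Group.closure_finite_fg _
  have hcomm : IsMulCommutative (AA φ) := Subgroup.isMulCommutative_closure (bs2_comm hn h)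
  have hc : ∀ x ∈ AA φ, ∀ y ∈ AA φ, x * y = y * x := by
    intro x hx y hy
    have h1 := mul_comm' (⟨x, hx⟩ : AA φ) ⟨y, hy⟩
    exact congrArg Subtype.val h1
  have htor : ∀ x ∈ AA φ, IsOfFinOrder x := by
    intro x hx
    refine Subgroup.closure_induction (p := fun x _ => IsOfFinOrder x) ?_ ?_ ?_ ?_ hx
    · rintro _ ⟨i, j, hij, rfl⟩
      exact bs_ord h hij (ht i j hij)
    · exact IsOfFinOrder.one
    · intro x y hx hy h1 h2
      exact Commute.isOfFinOrder_mul (hc x hx y hy) h1 h2
    · intro x _ h1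
      exact h1.inv
  letI : CommGroup (AA φ) :=
    { (inferInstance : Group (AA φ)) with mul_comm := fun a b => Subtype.ext (hc a a.2 b b.2) }
  refine CommGroup.finite_of_fg_isMulTorsion (AA φ) ?_
  intro x
  obtain ⟨m, hm, h1⟩ := isOfFinOrder_iff_pow_eq_one.1 (htor x x.2)
  refine isOfFinOrder_iff_pow_eq_one.2 ⟨m, hm, ?_⟩
  exact Subtype.ext h1

theorem aa_normal (hn : 3 ≤ n) (h : HK φ 1) (hs : Function.Surjective φ)
    (ht : ∀ i j : Fin n, i ≠ j → IsOfFinOrder (φ (lam i (xx j)))) : (AA φ).Normal := by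
  have hfin := aa_fin hn h ht
  have key : ∀ e : MulAut (FF n), bs2_Sub φ e := by
    intro e
    have he : e ∈ Subgroup.closure (El n) := by
      rw [nielsen]
      exact Subgroup.mem_top e
    refine Subgroup.closure_induction (p := fun e _ => bs2_Sub φ e) ?_ ?_ ?_ ?_ he
    · intro e he
      exact bs2_el hn h he
    · intro y hy
      rw [map_one, one_mul, inv_one, mul_one]
      exact hy
    · intro e f _ _ h1 h2 y hy
      have h3 := h1 _ (h2 y hy)
      have h4 : φ (e * f) * y * (φ (e * f))⁻¹ = φ e * (φ f * y * (φ f)⁻¹) * (φ e)⁻¹ := by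
        rw [map_mul]
        group
      rw [h4]
      exact h3
    · intro e _ h1 y hy
      let g : AA φ → AA φ := fun z => ⟨φ e * z * (φ e)⁻¹, h1 z z.2⟩
      have hg : Function.Injective g := by
        intro a b hab
        have h2 : φ e * (a : M) * (φ e)⁻¹ = φ e * b * (φ e)⁻¹ := congrArg Subtype.val hab
        exact Subtype.ext (mul_left_cancel (mul_right_cancel h2))
      obtain ⟨z, hz⟩ := (Finite.injective_iff_surjective.mp hg) ⟨y, hy⟩
      have h2 : φ e * (z : M) * (φ e)⁻¹ = y := congrArg Subtype.val hz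
      have h3 : φ e⁻¹ * y * (φ e⁻¹)⁻¹ = z := by
        rw [← h2, map_inv]
        group
      rw [h3]
      exact z.2
  refine ⟨?_⟩
  intro y hy g
  obtain ⟨e, rfl⟩ := hs g
  exact key e y hy

end Pool.Agent.Work.MP_d3656f_al.GB
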