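import Mathlib

/-!
# GB/St1 : finite central quotients of the rank one subgroups

`G` is generated by elements `e i j` with the Steinberg relations. Fix `i ≠ j` and let
`H = closure {e i j, e j i}`. For `k ≠ i, j` the groups `V k = closure {e i k, e j k}` and
`V' k = closure {e k i, e k j}` are commutative (h2), generated by two elements of finite order,
hence finite, and they are normalised by `H`:
`e i j * e j k * (e i j)⁻¹ = e i k * e j k`, `e i j` commutes with `e i k`;
`e i j * e k i * (e i j)⁻¹ = (e k j)⁻¹ * e k i` (`⁅e k i, e i j⁆ = e k j`), `e i j` commutes with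
`e k j`; the same with `i`, `j` exchanged.
So the subgroup `N` of all `g ∈ H` which commute with all `e i k, e j k, e k i, e k j`
(`k ≠ i, j`) has finite index in `H` (it is the kernel of an action on a finite set). `N` is
central in `E = closure {e i j}`: `g ∈ N ≤ H` commutes with `e k l` (`k, l ≠ i, j`) by h2, and
`e i j = ⁅e i k, e k j⁆`, `e j i = ⁅e j k, e k i⁆` for some `k` (`3 ≤ n`).
-/

set_option autoImplicit false

namespace Pool.Agent.Work.MP_d3656f_al.GB

open scoped commutatorElement

/-- The Steinberg relations. -/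
structure SR {G : Type} [Group G] {n : ℕ} (e : Fin n → Fin n → G) : Prop where
  ord : ∀ i j, i ≠ j → IsOfFinOrder (e i j)
  h1 : ∀ i j k, i ≠ j → j ≠ k → i ≠ k → ⁅e i j, e j k⁆ = e i k
  h2 : ∀ i j k l, i ≠ j → k ≠ l → i ≠ l → j ≠ k → Commute (e i j) (e k l)

/-- The group generated by the `e i j` with `i`, `j` in `I`. -/
def SG' {G : Type} [Group G] {n : ℕ} (e : Fin n → Fin n → G) (I : Finset (Fin n)) :
    Subgroup G := Subgroup.closure {x | ∃ i ∈ I, ∃ j ∈ I, i ≠ j ∧ x = e i j}

private theorem st1_fin {G : Type} [Group G] {a b : G} (hab : Commute a b) (ha : IsOfFinOrder a)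
    (hb : IsOfFinOrder b) : Finite (Subgroup.closure {a, b} : Subgroup G) := by
  have h1 : ((Subgroup.zpowers a : Set G)).Finite := finite_zpowers.2 ha
  have h2 : ((Subgroup.zpowers b : Set G)).Finite := finite_zpowers.2 hb
  have h3 : (Set.image2 (fun x y => x * y) (Subgroup.zpowers a : Set G)
      (Subgroup.zpowers b : Set G)).Finite := Set.Finite.image2 _ h1 h2
  refine Set.finite_coe_iff.2 (h3.subset ?_)
  intro z hz
  have key : ∃ m k : ℤ, z = a ^ m * b ^ k := by
    refine Subgroup.closure_induction (p := fun z _ => ∃ m k : ℤ, z = a ^ m * b ^ k)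
      ?_ ?_ ?_ ?_ hz
    · intro x hx
      rcases hx with rfl | hx
      · exact ⟨1, 0, by simp⟩
      · rw [Set.mem_singleton_iff] at hx
        exact ⟨0, 1, by simp [hx]⟩
    · exact ⟨0, 0, by simp⟩
    · rintro x y _ _ ⟨m, k, rfl⟩ ⟨m', k', rfl⟩
      refine ⟨m + m', k + k', ?_⟩
      rw [zpow_add, zpow_add]
      have hc : b ^ k * a ^ m' = a ^ m' * b ^ k := (hab.zpow_zpow m' k).symm
      calc a ^ m * b ^ k * (a ^ m' * b ^ k') = a ^ m * (b ^ k * a ^ m') * b ^ k' := by group
        _ = a ^ m * (a ^ m' * b ^ k) * b ^ k' := by rw [hc]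
        _ = _ := by group
    · rintro x _ ⟨m, k, rfl⟩
      refine ⟨-m, -k, ?_⟩
      rw [mul_inv_rev, zpow_neg, zpow_neg]
      exact ((hab.zpow_zpow m k).inv_inv).symm
  obtain ⟨m, k, rfl⟩ := key
  exact ⟨a ^ m, ⟨m, rfl⟩, b ^ k, ⟨k, rfl⟩, rfl⟩

private theorem st1_cen {G : Type} [Group G] {H V : Subgroup G} (hV : Finite V)
    (h : ∀ g ∈ H, g ∈ Subgroup.normalizer (V : Set G)) :
    (Subgroup.centralizer (V : Set G)).relIndex H ≠ 0 := by
  intro h0
  have h1 := Subgroup.relIndex_eq_zero_of_le_right (show H ≤ Subgroup.normalizer (V : Set G) from h)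
    h0
  have h2 : Finite (MulAut V) := by infer_instance
  have h3 : (V.normalizerMonoidHom.ker).FiniteIndex := by infer_instance
  rw [Subgroup.normalizerMonoidHom_ker] at h3
  exact h3.index_ne_zero h1

private theorem st1_nrm {G : Type} [Group G] {a b x : G} (hV : Finite (Subgroup.closure {a, b} :
    Subgroup G)) (ha : x * a * x⁻¹ ∈ (Subgroup.closure {a, b} : Subgroup G))
    (hb : x * b * x⁻¹ ∈ (Subgroup.closure {a, b} : Subgroup G)) :
    x ∈ Subgroup.normalizer ((Subgroup.closure {a, b} : Subgroup G) : Set G) := by
  refine Subgroup.mem_normalizer_fintype (S := ((Subgroup.closure {a, b} : Subgroup G) : Set G)) ?_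
  intro v hv
  have : (Subgroup.closure {a, b} : Subgroup G) ≤
      (Subgroup.closure {a, b} : Subgroup G).comap (MulAut.conj x).toMonoidHom := by
    refine (Subgroup.closure_le _).2 ?_
    intro y hy
    rcases hy with rfl | hy
    · exact ha
    · rw [Set.mem_singleton_iff] at hy
      subst hy
      exact hb
  exact this hv

private theorem st1_V {G : Type} [Group G] {n : ℕ} {e : Fin n → Fin n → G} (h : SR e)
    {i j k : Fin n} (hij : i ≠ j) (hik : i ≠ k) (hjk : j ≠ k) :
    e i j ∈ Subgroup.normalizer ((Subgroup.closure {e i k, e j k} : Subgroup G) : Set G) := by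
  have hc : Commute (e i k) (e j k) := h.h2 i k j k hik hjk hik hjk.symm
  have hfin := st1_fin hc (h.ord i k hik) (h.ord j k hjk)
  have ma : e i k ∈ (Subgroup.closure {e i k, e j k} : Subgroup G) :=
    Subgroup.subset_closure (by simp)
  have mb : e j k ∈ (Subgroup.closure {e i k, e j k} : Subgroup G) :=
    Subgroup.subset_closure (by simp)
  refine st1_nrm hfin ?_ ?_
  · have h1 : Commute (e i j) (e i k) := h.h2 i j i k hij hik hik hij.symm
    rw [h1.eq, mul_inv_cancel_right]
    exact ma
  · have h1 := h.h1 i j k hij hjk hik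
    have h2 : e i j * e j k * (e i j)⁻¹ = e i k * e j k := by
      rw [← h1, commutatorElement_def]
      group
    rw [h2]
    exact mul_mem ma mb

private theorem st1_W {G : Type} [Group G] {n : ℕ} {e : Fin n → Fin n → G} (h : SR e)
    {i j k : Fin n} (hij : i ≠ j) (hik : i ≠ k) (hjk : j ≠ k) :
    e i j ∈ Subgroup.normalizer ((Subgroup.closure {e k i, e k j} : Subgroup G) : Set G) := by
  have hc : Commute (e k i) (e k j) := h.h2 k i k j hik.symm hjk.symm hjk.symm hik
  have hfin := st1_fin hc (h.ord k i hik.symm) (h.ord k j hjk.symm)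
  have ma : e k i ∈ (Subgroup.closure {e k i, e k j} : Subgroup G) :=
    Subgroup.subset_closure (by simp)
  have mb : e k j ∈ (Subgroup.closure {e k i, e k j} : Subgroup G) :=
    Subgroup.subset_closure (by simp)
  refine st1_nrm hfin ?_ ?_
  · have h1 := h.h1 k i j hik.symm hij hjk.symm
    have h2 : e i j * e k i * (e i j)⁻¹ = (e k j)⁻¹ * e k i := by
      rw [← h1, commutatorElement_def]
      group
    rw [h2]
    exact mul_mem (inv_mem mb) ma
  · have h1 : Commute (e i j) (e k j) := h.h2 i j k j hij hjk.symm hij hjk
    rw [h1.eq, mul_inv_cancel_right]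
    exact mb

private theorem st1_H {G : Type} [Group G] {n : ℕ} {e : Fin n → Fin n → G} {i j : Fin n}
    {K : Subgroup G} (h1 : e i j ∈ K) (h2 : e j i ∈ K) : SG' e {i, j} ≤ K := by
  refine (Subgroup.closure_le _).2 ?_
  rintro x ⟨a, ha, b, hb, hab, rfl⟩
  rw [Finset.mem_insert, Finset.mem_singleton] at ha hb
  rcases ha with rfl | rfl <;> rcases hb with rfl | rfl
  · exact absurd rfl hab
  · exact h1
  · exact h2
  · exact absurd rfl hab

theorem st_cen {G : Type} [Group G] {n : ℕ} (hn : 3 ≤ n) {e : Fin n → Fin n → G} (h : SR e)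
    (hG : SG' e Finset.univ = ⊤) {i j : Fin n} (hij : i ≠ j) :
    (Subgroup.center G ⊓ SG' e {i, j}).relIndex (SG' e {i, j}) ≠ 0 := by
  classical
  let N : Subgroup G := ⨅ k : {k : Fin n // k ≠ i ∧ k ≠ j},
    (Subgroup.centralizer ((Subgroup.closure {e i k, e j k} : Subgroup G) : Set G) ⊓
      Subgroup.centralizer ((Subgroup.closure {e k i, e k j} : Subgroup G) : Set G))
  have hN : N.relIndex (SG' e {i, j}) ≠ 0 := by
    refine Subgroup.relIndex_iInf_ne_zero ?_
    rintro ⟨k, hki, hkj⟩
    refine Subgroup.relIndex_inf_ne_zero ?_ ?_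
    · refine st1_cen (st1_fin (h.h2 i k j k hki.symm hkj.symm hki.symm hkj)
        (h.ord i k hki.symm) (h.ord j k hkj.symm)) ?_
      intro g hg
      refine st1_H (K := Subgroup.normalizer ((Subgroup.closure {e i k, e j k} : Subgroup G) :
        Set G)) ?_ ?_ hg
      · exact st1_V h hij hki.symm hkj.symm
      · have := st1_V h hij.symm hkj.symm hki.symm
        rwa [Set.pair_comm] at this
    · refine st1_cen (st1_fin (h.h2 k i k j hki hkj hkj hki.symm)
        (h.ord k i hki) (h.ord k j hkj)) ?_
      intro g hg
      refine st1_H (K := Subgroup.normalizer ((Subgroup.closure {e k i, e k j} : Subgroup G) :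
        Set G)) ?_ ?_ hg
      · exact st1_W h hij hki.symm hkj.symm
      · have := st1_W h hij.symm hkj.symm hki.symm
        rwa [Set.pair_comm] at this
  have hle : N ⊓ SG' e {i, j} ≤ Subgroup.center G ⊓ SG' e {i, j} := by
    refine le_inf ?_ inf_le_right
    intro g hg
    obtain ⟨hgN, hgH⟩ := Subgroup.mem_inf.1 hg
    have hV : ∀ k : Fin n, k ≠ i → k ≠ j → ∀ v ∈ (Subgroup.closure {e i k, e j k} : Subgroup G),
        Commute g v := by
      intro k hki hkj v hv
      have h1 := (Subgroup.mem_inf.1 (Subgroup.mem_iInf.1 hgN ⟨k, hki, hkj⟩)).1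
      exact (Subgroup.mem_centralizer_iff.1 h1 v hv).symm
    have hW : ∀ k : Fin n, k ≠ i → k ≠ j → ∀ v ∈ (Subgroup.closure {e k i, e k j} : Subgroup G),
        Commute g v := by
      intro k hki hkj v hv
      have h1 := (Subgroup.mem_inf.1 (Subgroup.mem_iInf.1 hgN ⟨k, hki, hkj⟩)).2
      exact (Subgroup.mem_centralizer_iff.1 h1 v hv).symm
    obtain ⟨m, hmi, hmj⟩ : ∃ m : Fin n, m ≠ i ∧ m ≠ j := by
      by_contra hcon
      push Not at hcon
      have h1 : (Finset.univ : Finset (Fin n)) ⊆ {i, j} := by
        intro m _
        rw [Finset.mem_insert, Finset.mem_singleton]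
        by_cases hm : m = i
        · exact Or.inl hm
        · exact Or.inr (hcon m hm)
      have h2 := Finset.card_le_card h1
      have h3 := Finset.card_le_two (a := i) (b := j)
      rw [Finset.card_univ, Fintype.card_fin] at h2
      omega
    have hc1 : Commute g (e i j) := by
      rw [← h.h1 i m j hmi.symm hmj hij, commutatorElement_def]
      have c1 : Commute g (e i m) := hV m hmi hmj _ (Subgroup.subset_closure (by simp))
      have c2 : Commute g (e m j) := hW m hmi hmj _ (Subgroup.subset_closure (by simp))
      exact ((c1.mul_right c2).mul_right c1.inv_right).mul_right c2.inv_right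
    have hc2 : Commute g (e j i) := by
      rw [← h.h1 j m i hmj.symm hmi hij.symm, commutatorElement_def]
      have c1 : Commute g (e j m) := hV m hmi hmj _ (Subgroup.subset_closure (by simp))
      have c2 : Commute g (e m i) := hW m hmi hmj _ (Subgroup.subset_closure (by simp))
      exact ((c1.mul_right c2).mul_right c1.inv_right).mul_right c2.inv_right
    have hcg : SG' e Finset.univ ≤ Subgroup.centralizer {g} := by
      refine (Subgroup.closure_le _).2 ?_
      rintro x ⟨k, _, l, _, hkl, rfl⟩
      rw [SetLike.mem_coe, Subgroup.mem_centralizer_singleton_iff]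
      have key : Commute g (e k l) := by
        by_cases hki : k = i
        · subst hki
          by_cases hlj : l = j
          · subst hlj
            exact hc1
          · exact hV l hkl.symm hlj _ (Subgroup.subset_closure (by simp))
        · by_cases hkj : k = j
          · subst hkj
            by_cases hli : l = i
            · subst hli
              exact hc2
            · exact hV l hli hkl.symm _ (Subgroup.subset_closure (by simp))
          · by_cases hli : l = i
            · subst hli
              exact hW k hki hkj _ (Subgroup.subset_closure (by simp))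
            · by_cases hlj : l = j
              · subst hlj
                exact hW k hki hkj _ (Subgroup.subset_closure (by simp))
              · have hH : SG' e {i, j} ≤ Subgroup.centralizer {e k l} := by
                  refine st1_H ?_ ?_
                  · rw [Subgroup.mem_centralizer_singleton_iff]
                    exact (h.h2 i j k l hij hkl (Ne.symm hli) (Ne.symm hkj)).eq
                  · rw [Subgroup.mem_centralizer_singleton_iff]
                    exact (h.h2 j i k l hij.symm hkl (Ne.symm hlj) (Ne.symm hki)).eq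
                have := hH hgH
                rw [Subgroup.mem_centralizer_singleton_iff] at this
                exact this
      exact key.eq.symm
    rw [Subgroup.mem_center_iff]
    intro x
    have hx : x ∈ SG' e Finset.univ := by
      rw [hG]
      exact Subgroup.mem_top x
    have := hcg hx
    rw [Subgroup.mem_centralizer_singleton_iff] at this
    exact this
  intro h0
  have h1 := Subgroup.relIndex_eq_zero_of_le_left hle h0
  rw [Subgroup.inf_relIndex_right] at h1
  exact hN h1

end Pool.Agent.Work.MP_d3656f_al.GB
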