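import Mathlib
import Pool.Agent.Work.MP_d3656f_al.GB.St1

/-!
# GB/St2 : reduction of the rank (Tavgen)

Let `I` have at least three elements, `b = max I`, `I₁ = I.erase b`, and suppose that
`SG' e I₁` is finite. Put `U⁺ I = closure {e i j | i < j in I}`, `U⁻ I` likewise with `j < i`,
`V⁺ = closure {e i b | i ∈ I₁}`, `V⁻ = closure {e b i | i ∈ I₁}` (commutative).
* `V⁺`, `V⁻` are normalised by `SG' e I₁`, and `U⁺ I = U⁺ I₁ * V⁺ = V⁺ * U⁺ I₁`,
  `U⁻ I = U⁻ I₁ * V⁻ = V⁻ * U⁻ I₁` (products of subgroups as sets).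
* In the monoid of subsets of `G` put `X = U⁺ I₁ * U⁻ I₁`, `W = V⁺ * V⁻`. Then
  `U⁺ I * U⁻ I = U⁺ I₁ * (V⁺ * V⁻) * U⁻ I₁ = X * W` and `X * W = W * X` (every element of `X`
  normalises `V⁺` and `V⁻`), so `(U⁺ I * U⁻ I)^N = X^N * W^N` (`Commute.mul_pow`).
* `1 ∈ X` and `X` generates the finite group `SG' e I₁`, so `X^N = SG' e I₁` for `N` large, and
  then `SG' e I₁ * (U⁺ I * U⁻ I)^N = (U⁺ I * U⁻ I)^N`.
The same with `a = min I`, `I₂ = I.erase a` (`V'⁺ = closure {e a i}`, `V'⁻ = closure {e i a}`).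
`e a b = ⁅e a k, e k b⁆` for a third `k ∈ I`, and similarly `e b a`, so `SG' e I` is generated by
`SG' e I₁` and `SG' e I₂`. For a common `N` the set `Y = (U⁺ I * U⁻ I)^N` contains `1` and is stable
under left multiplication by both groups, so `Y = SG' e I`; `Y` is finite because `U⁺ I = U⁺ I₁ * V⁺`
etc. are finite (`V⁺`: commutative, finitely generated, torsion).
-/

set_option autoImplicit false

namespace Pool.Agent.Work.MP_d3656f_al.GB

open scoped commutatorElement

open scoped Pointwise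

private theorem st2_core {G : Type} [Group G] {P P' Q Q' V V' G' : Subgroup G}
    (hP : P = P' ⊔ V) (hQ : Q = Q' ⊔ V') (hP' : P' ≤ G') (hQ' : Q' ≤ G') (hG : G' ≤ P' ⊔ Q')
    (hV : G' ≤ Subgroup.normalizer (V : Set G)) (hV' : G' ≤ Subgroup.normalizer (V' : Set G))
    (hfin : Finite G') :
    ∃ N₀ : ℕ, ∀ N, N₀ ≤ N → ∀ g ∈ G', ∀ y ∈ ((P : Set G) * (Q : Set G)) ^ N,
      g * y ∈ ((P : Set G) * (Q : Set G)) ^ N := by
  set X : Set G := (P' : Set G) * (Q' : Set G) with hX
  set W : Set G := (V : Set G) * (V' : Set G) with hW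
  have c1 : (P' : Set G) * (V : Set G) = V * P' :=
    Subgroup.set_mul_normalizer_comm _ _ (fun x hx => hV (hP' hx))
  have c2 : (P' : Set G) * (V' : Set G) = V' * P' :=
    Subgroup.set_mul_normalizer_comm _ _ (fun x hx => hV' (hP' hx))
  have c3 : (Q' : Set G) * (V : Set G) = V * Q' :=
    Subgroup.set_mul_normalizer_comm _ _ (fun x hx => hV (hQ' hx))
  have c4 : (Q' : Set G) * (V' : Set G) = V' * Q' :=
    Subgroup.set_mul_normalizer_comm _ _ (fun x hx => hV' (hQ' hx))
  have hPc : (P : Set G) = (P' : Set G) * V := by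
    rw [hP]
    exact Subgroup.coe_mul_of_left_le_normalizer_right P' V (hP'.trans hV)
  have hQc : (Q : Set G) = (Q' : Set G) * V' := by
    rw [hQ]
    exact Subgroup.coe_mul_of_left_le_normalizer_right Q' V' (hQ'.trans hV')
  have hXW : (P : Set G) * (Q : Set G) = X * W := by
    rw [hPc, hQc, hX, hW]
    calc (P' : Set G) * V * (Q' * V') = P' * (V * Q') * V' := by simp only [mul_assoc]
      _ = P' * (Q' * V) * V' := by rw [c3]
      _ = _ := by simp only [mul_assoc]
  have hcomm : Commute X W := by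
    have d1 : Commute (P' : Set G) (V : Set G) := c1
    have d2 : Commute (P' : Set G) (V' : Set G) := c2
    have d3 : Commute (Q' : Set G) (V : Set G) := c3
    have d4 : Commute (Q' : Set G) (V' : Set G) := c4
    exact (d1.mul_right d2).mul_left (d3.mul_right d4)
  have hpow : ∀ N, ((P : Set G) * (Q : Set G)) ^ N = X ^ N * W ^ N := fun N => by
    rw [hXW, hcomm.mul_pow]
  have h1X : (1 : G) ∈ X := ⟨1, P'.one_mem, 1, Q'.one_mem, mul_one 1⟩
  have hXG : X ⊆ (G' : Set G) := by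
    rintro x ⟨p, hp, q, hq, rfl⟩
    exact mul_mem (hP' hp) (hQ' hq)
  have hXN : ∀ N, X ^ N ⊆ (G' : Set G) := by
    intro N
    induction N with
    | zero =>
      rw [pow_zero]
      intro x hx
      rw [Set.mem_one.1 hx]
      exact one_mem _
    | succ N ih =>
      rw [pow_succ]
      rintro x ⟨p, hp, q, hq, rfl⟩
      exact mul_mem (ih hp) (hXG hq)
  have hinv : X⁻¹ ⊆ X ^ 2 := by
    intro x hx
    obtain ⟨p, hp, q, hq, hpq⟩ := Set.mem_inv.1 hx
    have hx' : x = (1 * q⁻¹) * (p⁻¹ * 1) := by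
      have h1 : p * q = x⁻¹ := hpq
      rw [one_mul, mul_one, ← mul_inv_rev, h1, inv_inv]
    rw [hx', pow_two]
    exact Set.mul_mem_mul ⟨1, P'.one_mem, q⁻¹, Q'.inv_mem hq, rfl⟩
      ⟨p⁻¹, P'.inv_mem hp, 1, Q'.one_mem, rfl⟩
  let K : Subgroup G :=
    { carrier := {g | ∃ N, g ∈ X ^ N}
      mul_mem' := by
        rintro x y ⟨N, hN⟩ ⟨M, hM⟩
        exact ⟨N + M, by
          rw [pow_add]
          exact Set.mul_mem_mul hN hM⟩
      one_mem' := ⟨0, by
        rw [pow_zero]
        exact Set.one_mem_one⟩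
      inv_mem' := by
        rintro x ⟨N, hN⟩
        refine ⟨2 * N, ?_⟩
        have h1 : x⁻¹ ∈ (X⁻¹) ^ N := by
          rw [inv_pow]
          exact Set.inv_mem_inv.2 hN
        rw [pow_mul]
        exact Set.pow_subset_pow_left hinv h1 }
  have hPK : P' ≤ K := fun p hp => ⟨1, by
    rw [pow_one]
    exact ⟨p, hp, 1, Q'.one_mem, mul_one p⟩⟩
  have hQK : Q' ≤ K := fun q hq => ⟨1, by
    rw [pow_one]
    exact ⟨1, P'.one_mem, q, hq, one_mul q⟩⟩
  have hGK : G' ≤ K := hG.trans (sup_le hPK hQK)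
  have hex : ∀ g : G', ∃ N, (g : G) ∈ X ^ N := fun g => hGK g.2
  choose f hf using hex
  haveI := Fintype.ofFinite G'
  have hbig : ∀ N, Finset.univ.sup f ≤ N → (G' : Set G) ⊆ X ^ N := by
    intro N hN g hg
    exact Set.pow_subset_pow_right h1X ((Finset.le_sup (Finset.mem_univ ⟨g, hg⟩)).trans hN)
      (hf ⟨g, hg⟩)
  refine ⟨Finset.univ.sup f, fun N hN g hg y hy => ?_⟩
  rw [hpow] at hy ⊢
  obtain ⟨x, hx, w, hw, rfl⟩ := hy
  show g * (x * w) ∈ _
  rw [← mul_assoc]
  exact Set.mul_mem_mul (hbig N hN (mul_mem hg (hXN N hx))) hw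

private theorem st2_norm {G : Type} [Group G] {s : Set G} {x : G} (hx : IsOfFinOrder x)
    (h : ∀ g ∈ s, x * g * x⁻¹ ∈ Subgroup.closure s) :
    x ∈ Subgroup.normalizer (Subgroup.closure s : Set G) := by
  have h1 : ∀ v ∈ Subgroup.closure s, x * v * x⁻¹ ∈ Subgroup.closure s := by
    have h2 : Subgroup.closure s ≤ (Subgroup.closure s).comap (MulAut.conj x).toMonoidHom :=
      (Subgroup.closure_le _).2 fun g hg => h g hg
    exact fun v hv => h2 hv
  have h3 : ∀ (k : ℕ), ∀ v ∈ Subgroup.closure s, x ^ k * v * (x ^ k)⁻¹ ∈ Subgroup.closure s := by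
    intro k
    induction k with
    | zero =>
      intro v hv
      simpa using hv
    | succ k ih =>
      intro v hv
      have h4 := ih _ (h1 v hv)
      have h5 : x ^ (k + 1) * v * (x ^ (k + 1))⁻¹ = x ^ k * (x * v * x⁻¹) * (x ^ k)⁻¹ := by
        rw [pow_succ]
        group
      rw [h5]
      exact h4
  obtain ⟨m, hm, hxm⟩ := isOfFinOrder_iff_pow_eq_one.1 hx
  obtain ⟨k, rfl⟩ : ∃ k, m = k + 1 := ⟨m - 1, by omega⟩
  have h6 : x ^ k = x⁻¹ := by
    rw [eq_inv_iff_mul_eq_one, ← pow_succ]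
    exact hxm
  rw [Subgroup.mem_normalizer_iff]
  intro v
  refine ⟨h1 v, fun hv => ?_⟩
  have h7 := h3 k _ hv
  rw [h6] at h7
  have h8 : x⁻¹ * (x * v * x⁻¹) * x⁻¹⁻¹ = v := by group
  rwa [h8] at h7

private theorem st2_sup {G : Type} [Group G] {A B : Subgroup G} (hA : (A : Set G).Finite)
    (hB : (B : Set G).Finite) (h : A ≤ Subgroup.normalizer (B : Set G)) :
    ((A ⊔ B : Subgroup G) : Set G).Finite := by
  rw [Subgroup.coe_mul_of_left_le_normalizer_right A B h]
  exact hA.mul hB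

private def st2UU {G : Type} [Group G] {n : ℕ} (e : Fin n → Fin n → G)
    (R : Fin n → Fin n → Prop) (I : Finset (Fin n)) : Subgroup G :=
  Subgroup.closure {x | ∃ i ∈ I, ∃ j ∈ I, R i j ∧ x = e i j}

private def st2R {G : Type} [Group G] {n : ℕ} (e : Fin n → Fin n → G) (I : Finset (Fin n))
    (c : Fin n) : Subgroup G := Subgroup.closure {x | ∃ i ∈ I, x = e i c}

private def st2L {G : Type} [Group G] {n : ℕ} (e : Fin n → Fin n → G) (I : Finset (Fin n))
    (c : Fin n) : Subgroup G := Subgroup.closure {x | ∃ i ∈ I, x = e c i}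

variable {G : Type} [Group G] {n : ℕ} {e : Fin n → Fin n → G}

private theorem st2_nR (h : SR e) {I : Finset (Fin n)} {c : Fin n} (hc : c ∉ I) :
    SG' e I ≤ Subgroup.normalizer (st2R e I c : Set G) := by
  refine (Subgroup.closure_le _).2 ?_
  rintro x ⟨i, hi, j, hj, hij, rfl⟩
  have hic : i ≠ c := fun h' => hc (h' ▸ hi)
  have hjc : j ≠ c := fun h' => hc (h' ▸ hj)
  refine st2_norm (h.ord i j hij) ?_
  rintro v ⟨k, hk, rfl⟩
  have hkc : k ≠ c := fun h' => hc (h' ▸ hk)
  by_cases hjk : j = k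
  · subst hjk
    have h1 := h.h1 i j c hij hjc hic
    have h2 : e i j * e j c * (e i j)⁻¹ = e i c * e j c := by
      rw [← h1, commutatorElement_def]
      group
    rw [h2]
    exact mul_mem (Subgroup.subset_closure ⟨i, hi, rfl⟩) (Subgroup.subset_closure ⟨j, hj, rfl⟩)
  · have h1 := h.h2 i j k c hij hkc hic hjk
    rw [h1.eq, mul_inv_cancel_right]
    exact Subgroup.subset_closure ⟨k, hk, rfl⟩

private theorem st2_nL (h : SR e) {I : Finset (Fin n)} {c : Fin n} (hc : c ∉ I) :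
    SG' e I ≤ Subgroup.normalizer (st2L e I c : Set G) := by
  refine (Subgroup.closure_le _).2 ?_
  rintro x ⟨i, hi, j, hj, hij, rfl⟩
  have hic : i ≠ c := fun h' => hc (h' ▸ hi)
  have hjc : j ≠ c := fun h' => hc (h' ▸ hj)
  refine st2_norm (h.ord i j hij) ?_
  rintro v ⟨k, hk, rfl⟩
  have hkc : k ≠ c := fun h' => hc (h' ▸ hk)
  by_cases hik : i = k
  · subst hik
    have h1 := h.h1 c i j hic.symm hij hjc.symm
    have h2 : e i j * e c i * (e i j)⁻¹ = (e c j)⁻¹ * e c i := by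
      rw [← h1, commutatorElement_def]
      group
    rw [h2]
    exact mul_mem (inv_mem (Subgroup.subset_closure ⟨j, hj, rfl⟩))
      (Subgroup.subset_closure ⟨i, hi, rfl⟩)
  · have h1 := h.h2 i j c k hij hkc.symm hik hjc
    rw [h1.eq, mul_inv_cancel_right]
    exact Subgroup.subset_closure ⟨k, hk, rfl⟩

private theorem st2_uuR {R : Fin n → Fin n → Prop} {I : Finset (Fin n)} {c : Fin n} (hc : c ∈ I)
    (h1 : ∀ i ∈ I.erase c, R i c) (h2 : ∀ i ∈ I, ¬ R c i) :
    st2UU e R I = st2UU e R (I.erase c) ⊔ st2R e (I.erase c) c := by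
  apply le_antisymm
  · refine (Subgroup.closure_le _).2 ?_
    rintro x ⟨i, hi, j, hj, hij, rfl⟩
    have hic : i ≠ c := fun h' => h2 j hj (h' ▸ hij)
    by_cases hjc : j = c
    · subst hjc
      exact Subgroup.mem_sup_right (Subgroup.subset_closure
        ⟨i, Finset.mem_erase.2 ⟨hic, hi⟩, rfl⟩)
    · exact Subgroup.mem_sup_left (Subgroup.subset_closure
        ⟨i, Finset.mem_erase.2 ⟨hic, hi⟩, j, Finset.mem_erase.2 ⟨hjc, hj⟩, hij, rfl⟩)
  · refine sup_le ((Subgroup.closure_le _).2 ?_) ((Subgroup.closure_le _).2 ?_)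
    · rintro x ⟨i, hi, j, hj, hij, rfl⟩
      exact Subgroup.subset_closure ⟨i, Finset.mem_of_mem_erase hi, j,
        Finset.mem_of_mem_erase hj, hij, rfl⟩
    · rintro x ⟨i, hi, rfl⟩
      exact Subgroup.subset_closure ⟨i, Finset.mem_of_mem_erase hi, c, hc, h1 i hi, rfl⟩

private theorem st2_uuL {R : Fin n → Fin n → Prop} {I : Finset (Fin n)} {c : Fin n} (hc : c ∈ I)
    (h1 : ∀ i ∈ I.erase c, R c i) (h2 : ∀ i ∈ I, ¬ R i c) :
    st2UU e R I = st2UU e R (I.erase c) ⊔ st2L e (I.erase c) c := by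
  apply le_antisymm
  · refine (Subgroup.closure_le _).2 ?_
    rintro x ⟨i, hi, j, hj, hij, rfl⟩
    have hjc : j ≠ c := fun h' => h2 i hi (h' ▸ hij)
    by_cases hic : i = c
    · subst hic
      exact Subgroup.mem_sup_right (Subgroup.subset_closure
        ⟨j, Finset.mem_erase.2 ⟨hjc, hj⟩, rfl⟩)
    · exact Subgroup.mem_sup_left (Subgroup.subset_closure
        ⟨i, Finset.mem_erase.2 ⟨hic, hi⟩, j, Finset.mem_erase.2 ⟨hjc, hj⟩, hij, rfl⟩)
  · refine sup_le ((Subgroup.closure_le _).2 ?_) ((Subgroup.closure_le _).2 ?_)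
    · rintro x ⟨i, hi, j, hj, hij, rfl⟩
      exact Subgroup.subset_closure ⟨i, Finset.mem_of_mem_erase hi, j,
        Finset.mem_of_mem_erase hj, hij, rfl⟩
    · rintro x ⟨i, hi, rfl⟩
      exact Subgroup.subset_closure ⟨c, hc, i, Finset.mem_of_mem_erase hi, h1 i hi, rfl⟩

private theorem st2_uule {R : Fin n → Fin n → Prop} (hR : ∀ i j, R i j → i ≠ j)
    (I : Finset (Fin n)) : st2UU e R I ≤ SG' e I := by
  refine (Subgroup.closure_le _).2 ?_
  rintro x ⟨i, hi, j, hj, hij, rfl⟩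
  exact Subgroup.subset_closure ⟨i, hi, j, hj, hR i j hij, rfl⟩

private theorem st2_lesup (I : Finset (Fin n)) :
    SG' e I ≤ st2UU e (fun i j => i < j) I ⊔ st2UU e (fun i j => j < i) I := by
  refine (Subgroup.closure_le _).2 ?_
  rintro x ⟨i, hi, j, hj, hij, rfl⟩
  rcases lt_or_gt_of_ne hij with h | h
  · exact Subgroup.mem_sup_left (Subgroup.subset_closure ⟨i, hi, j, hj, h, rfl⟩)
  · exact Subgroup.mem_sup_right (Subgroup.subset_closure ⟨i, hi, j, hj, h, rfl⟩)

private theorem st2_finR (h : SR e) {I : Finset (Fin n)} (hI : 3 ≤ I.card)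
    (hsub : ∀ i ∈ I, Finite (SG' e (I.erase i))) {c : Fin n} (hc : c ∈ I) :
    (st2R e (I.erase c) c : Set G).Finite := by
  obtain ⟨a, ha⟩ : (I.erase c).Nonempty := by
    rw [← Finset.card_pos, Finset.card_erase_of_mem hc]
    omega
  have hac : a ≠ c := (Finset.mem_erase.1 ha).1
  have haI : a ∈ I := (Finset.mem_erase.1 ha).2
  have hA : (st2R e ((I.erase c).erase a) c : Set G).Finite := by
    have h1 : st2R e ((I.erase c).erase a) c ≤ SG' e (I.erase a) := by
      refine (Subgroup.closure_le _).2 ?_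
      rintro x ⟨i, hi, rfl⟩
      rw [Finset.mem_erase, Finset.mem_erase] at hi
      exact Subgroup.subset_closure ⟨i, Finset.mem_erase.2 ⟨hi.1, hi.2.2⟩, c,
        Finset.mem_erase.2 ⟨hac.symm, hc⟩, hi.2.1, rfl⟩
    have h2 : ((SG' e (I.erase a) : Subgroup G) : Set G).Finite := by
      haveI := hsub a haI
      exact Set.toFinite _
    exact h2.subset h1
  have hB : (Subgroup.zpowers (e a c) : Set G).Finite :=
    finite_zpowers.2 (h.ord a c hac)
  have hn : Subgroup.zpowers (e a c) ≤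
      Subgroup.normalizer (st2R e ((I.erase c).erase a) c : Set G) := by
    refine Subgroup.le_normalizer_closure_iff.2 ?_
    rintro x ⟨k, rfl⟩ v ⟨i, hi, rfl⟩
    have hic : i ≠ c := (Finset.mem_erase.1 (Finset.mem_erase.1 hi).2).1
    have h1 : Commute (e a c) (e i c) := h.h2 a c i c hac hic hac hic.symm
    have h2 : Commute (e a c ^ k) (e i c) := h1.zpow_left k
    show e a c ^ k * e i c * (e a c ^ k)⁻¹ ∈ _
    rw [h2.eq, mul_inv_cancel_right]
    exact Subgroup.subset_closure ⟨i, hi, rfl⟩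
  refine (st2_sup hB hA hn).subset ?_
  refine (Subgroup.closure_le _).2 ?_
  rintro x ⟨i, hi, rfl⟩
  by_cases hia : i = a
  · subst hia
    exact Subgroup.mem_sup_left (Subgroup.mem_zpowers _)
  · exact Subgroup.mem_sup_right (Subgroup.subset_closure
      ⟨i, Finset.mem_erase.2 ⟨hia, hi⟩, rfl⟩)

private theorem st2_finL (h : SR e) {I : Finset (Fin n)} (hI : 3 ≤ I.card)
    (hsub : ∀ i ∈ I, Finite (SG' e (I.erase i))) {c : Fin n} (hc : c ∈ I) :
    (st2L e (I.erase c) c : Set G).Finite := by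
  obtain ⟨a, ha⟩ : (I.erase c).Nonempty := by
    rw [← Finset.card_pos, Finset.card_erase_of_mem hc]
    omega
  have hac : a ≠ c := (Finset.mem_erase.1 ha).1
  have haI : a ∈ I := (Finset.mem_erase.1 ha).2
  have hA : (st2L e ((I.erase c).erase a) c : Set G).Finite := by
    have h1 : st2L e ((I.erase c).erase a) c ≤ SG' e (I.erase a) := by
      refine (Subgroup.closure_le _).2 ?_
      rintro x ⟨i, hi, rfl⟩
      rw [Finset.mem_erase, Finset.mem_erase] at hi
      exact Subgroup.subset_closure ⟨c, Finset.mem_erase.2 ⟨hac.symm, hc⟩, i,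
        Finset.mem_erase.2 ⟨hi.1, hi.2.2⟩, hi.2.1.symm, rfl⟩
    have h2 : ((SG' e (I.erase a) : Subgroup G) : Set G).Finite := by
      haveI := hsub a haI
      exact Set.toFinite _
    exact h2.subset h1
  have hB : (Subgroup.zpowers (e c a) : Set G).Finite :=
    finite_zpowers.2 (h.ord c a hac.symm)
  have hn : Subgroup.zpowers (e c a) ≤
      Subgroup.normalizer (st2L e ((I.erase c).erase a) c : Set G) := by
    refine Subgroup.le_normalizer_closure_iff.2 ?_
    rintro x ⟨k, rfl⟩ v ⟨i, hi, rfl⟩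
    have hic : i ≠ c := (Finset.mem_erase.1 (Finset.mem_erase.1 hi).2).1
    have h1 : Commute (e c a) (e c i) := h.h2 c a c i hac.symm hic.symm hic.symm hac
    have h2 : Commute (e c a ^ k) (e c i) := h1.zpow_left k
    show e c a ^ k * e c i * (e c a ^ k)⁻¹ ∈ _
    rw [h2.eq, mul_inv_cancel_right]
    exact Subgroup.subset_closure ⟨i, hi, rfl⟩
  refine (st2_sup hB hA hn).subset ?_
  refine (Subgroup.closure_le _).2 ?_
  rintro x ⟨i, hi, rfl⟩
  by_cases hia : i = a
  · subst hia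
    exact Subgroup.mem_sup_left (Subgroup.mem_zpowers _)
  · exact Subgroup.mem_sup_right (Subgroup.subset_closure
      ⟨i, Finset.mem_erase.2 ⟨hia, hi⟩, rfl⟩)

theorem st_step {G : Type} [Group G] {n : ℕ} {e : Fin n → Fin n → G} (h : SR e)
    {I : Finset (Fin n)} (hI : 3 ≤ I.card)
    (hsub : ∀ i ∈ I, Finite (SG' e (I.erase i))) : Finite (SG' e I) := by
  have hne : I.Nonempty := Finset.card_pos.1 (by omega)
  set a := I.min' hne with ha
  set b := I.max' hne with hb
  have haI : a ∈ I := I.min'_mem hne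
  have hbI : b ∈ I := I.max'_mem hne
  have hab : a < b := I.min'_lt_max'_of_card (by omega)
  have hbmax : ∀ i ∈ I, i ≤ b := fun i hi => I.le_max' i hi
  have hamin : ∀ i ∈ I, a ≤ i := fun i hi => I.min'_le i hi
  have eb1 : st2UU e (fun i j => i < j) I =
      st2UU e (fun i j => i < j) (I.erase b) ⊔ st2R e (I.erase b) b :=
    st2_uuR hbI (fun i hi => lt_of_le_of_ne (hbmax i (Finset.mem_erase.1 hi).2)
      (Finset.mem_erase.1 hi).1) (fun i hi => not_lt.2 (hbmax i hi))
  have eb2 : st2UU e (fun i j => j < i) I =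
      st2UU e (fun i j => j < i) (I.erase b) ⊔ st2L e (I.erase b) b :=
    st2_uuL hbI (fun i hi => lt_of_le_of_ne (hbmax i (Finset.mem_erase.1 hi).2)
      (Finset.mem_erase.1 hi).1) (fun i hi => not_lt.2 (hbmax i hi))
  have ea1 : st2UU e (fun i j => i < j) I =
      st2UU e (fun i j => i < j) (I.erase a) ⊔ st2L e (I.erase a) a :=
    st2_uuL haI (fun i hi => lt_of_le_of_ne (hamin i (Finset.mem_erase.1 hi).2)
      (Ne.symm (Finset.mem_erase.1 hi).1)) (fun i hi => not_lt.2 (hamin i hi))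
  have ea2 : st2UU e (fun i j => j < i) I =
      st2UU e (fun i j => j < i) (I.erase a) ⊔ st2R e (I.erase a) a :=
    st2_uuR haI (fun i hi => lt_of_le_of_ne (hamin i (Finset.mem_erase.1 hi).2)
      (Ne.symm (Finset.mem_erase.1 hi).1)) (fun i hi => not_lt.2 (hamin i hi))
  have hR1 : ∀ i j : Fin n, i < j → i ≠ j := fun i j h => ne_of_lt h
  have hR2 : ∀ i j : Fin n, j < i → i ≠ j := fun i j h => ne_of_gt h
  obtain ⟨N1, hN1⟩ := st2_core eb1 eb2 (st2_uule hR1 _) (st2_uule hR2 _) (st2_lesup _)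
    (st2_nR h (Finset.notMem_erase b I)) (st2_nL h (Finset.notMem_erase b I)) (hsub b hbI)
  obtain ⟨N2, hN2⟩ := st2_core ea1 ea2 (st2_uule hR1 _) (st2_uule hR2 _) (st2_lesup _)
    (st2_nL h (Finset.notMem_erase a I)) (st2_nR h (Finset.notMem_erase a I)) (hsub a haI)
  set Y : Set G := ((st2UU e (fun i j => i < j) I : Set G) *
    (st2UU e (fun i j => j < i) I : Set G)) ^ (max N1 N2) with hY
  have hY1 := hN1 (max N1 N2) (le_max_left _ _)
  have hY2 := hN2 (max N1 N2) (le_max_right _ _)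
  have hone : (1 : G) ∈ Y := by
    have h1 : (1 : G) ∈ (st2UU e (fun i j => i < j) I : Set G) *
      (st2UU e (fun i j => j < i) I : Set G) := ⟨1, one_mem _, 1, one_mem _, mul_one 1⟩
    have h2 := Set.pow_subset_pow_right h1 (Nat.zero_le (max N1 N2))
    exact h2 (by rw [pow_zero]; exact Set.one_mem_one)
  have hfG : ∀ c ∈ I, ((SG' e (I.erase c) : Subgroup G) : Set G).Finite := by
    intro c hc
    haveI := hsub c hc
    exact Set.toFinite _
  have hfin : Y.Finite := by
    have h1 : (st2UU e (fun i j => i < j) I : Set G).Finite := by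
      rw [eb1]
      exact st2_sup ((hfG b hbI).subset (st2_uule hR1 _)) (st2_finR h hI hsub hbI)
        ((st2_uule hR1 _).trans (st2_nR h (Finset.notMem_erase b I)))
    have h2 : (st2UU e (fun i j => j < i) I : Set G).Finite := by
      rw [eb2]
      exact st2_sup ((hfG b hbI).subset (st2_uule hR2 _)) (st2_finL h hI hsub hbI)
        ((st2_uule hR2 _).trans (st2_nL h (Finset.notMem_erase b I)))
    have h3 : ∀ N : ℕ, (((st2UU e (fun i j => i < j) I : Set G) *
        (st2UU e (fun i j => j < i) I : Set G)) ^ N).Finite := by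
      intro N
      induction N with
      | zero =>
        rw [pow_zero]
        exact Set.finite_one
      | succ N ih =>
        rw [pow_succ]
        exact ih.mul (h1.mul h2)
    exact h3 _
  let K : Subgroup G :=
    { carrier := {g | (∀ y ∈ Y, g * y ∈ Y) ∧ ∀ y ∈ Y, g⁻¹ * y ∈ Y}
      mul_mem' := by
        rintro x y ⟨hx, hx'⟩ ⟨hy, hy'⟩
        refine ⟨fun z hz => ?_, fun z hz => ?_⟩
        · rw [mul_assoc]
          exact hx _ (hy z hz)
        · rw [mul_inv_rev, mul_assoc]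
          exact hy' _ (hx' z hz)
      one_mem' := ⟨fun z hz => by rwa [one_mul], fun z hz => by rwa [inv_one, one_mul]⟩
      inv_mem' := by
        rintro x ⟨hx, hx'⟩
        exact ⟨hx', fun z hz => by
          rw [inv_inv]
          exact hx z hz⟩ }
  have hK1 : SG' e (I.erase b) ≤ K := fun g hg =>
    ⟨fun y hy => hY1 g hg y hy, fun y hy => hY1 _ (inv_mem hg) y hy⟩
  have hK2 : SG' e (I.erase a) ≤ K := fun g hg =>
    ⟨fun y hy => hY2 g hg y hy, fun y hy => hY2 _ (inv_mem hg) y hy⟩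
  have hgb : ∀ i j, i ∈ I → j ∈ I → i ≠ j → i ≠ b → j ≠ b → e i j ∈ K := fun i j hi hj hij hib hjb =>
    hK1 (Subgroup.subset_closure ⟨i, Finset.mem_erase.2 ⟨hib, hi⟩, j,
      Finset.mem_erase.2 ⟨hjb, hj⟩, hij, rfl⟩)
  have hga : ∀ i j, i ∈ I → j ∈ I → i ≠ j → i ≠ a → j ≠ a → e i j ∈ K := fun i j hi hj hij hia hja =>
    hK2 (Subgroup.subset_closure ⟨i, Finset.mem_erase.2 ⟨hia, hi⟩, j,
      Finset.mem_erase.2 ⟨hja, hj⟩, hij, rfl⟩)
  obtain ⟨k, hk⟩ : ((I.erase a).erase b).Nonempty := by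
    rw [← Finset.card_pos]
    have h1 := Finset.pred_card_le_card_erase (s := I) (a := a)
    have h2 := Finset.pred_card_le_card_erase (s := I.erase a) (a := b)
    omega
  rw [Finset.mem_erase, Finset.mem_erase] at hk
  obtain ⟨hkb, hka, hkI⟩ := hk
  have hcomK : ∀ x ∈ K, ∀ y ∈ K, ⁅x, y⁆ ∈ K := by
    intro x hx y hy
    rw [commutatorElement_def]
    exact mul_mem (mul_mem (mul_mem hx hy) (inv_mem hx)) (inv_mem hy)
  have hle : SG' e I ≤ K := by
    refine (Subgroup.closure_le _).2 ?_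
    rintro x ⟨i, hi, j, hj, hij, rfl⟩
    by_cases hib : i = b
    · by_cases hja : j = a
      · rw [hib, hja, ← h.h1 b k a (Ne.symm hkb) hka hab.ne']
        exact hcomK _ (hga b k hbI hkI (Ne.symm hkb) hab.ne' hka) _
          (hgb k a hkI haI hka hkb hab.ne)
      · exact hga i j hi hj hij (by rw [hib]; exact hab.ne') hja
    · by_cases hjb : j = b
      · by_cases hia : i = a
        · rw [hia, hjb, ← h.h1 a k b (Ne.symm hka) hkb hab.ne]
          exact hcomK _ (hgb a k haI hkI (Ne.symm hka) hab.ne hkb) _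
            (hga k b hkI hbI hkb hka hab.ne')
        · exact hga i j hi hj hij hia (by rw [hjb]; exact hab.ne')
      · exact hgb i j hi hj hij hib hjb
  have hsubY : (SG' e I : Set G) ⊆ Y := fun g hg => by
    have h1 := (hle hg).1 1 hone
    rwa [mul_one] at h1
  exact (hfin.subset hsubY).to_subtype

end Pool.Agent.Work.MP_d3656f_al.GB
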