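import Mathlib
import Pool.Agent.Work.MP_d3656f_al.GB.St2

/-!
# GB/St3 : finite rank one subgroups imply finite

Induction on `I.card`: `I.card ≤ 1`: trivial group; `I.card = 2`: hypothesis; otherwise
`st_step`.
-/

set_option autoImplicit false

namespace Pool.Agent.Work.MP_d3656f_al.GB

open scoped commutatorElement

theorem st_fin {G : Type} [Group G] {n : ℕ} {e : Fin n → Fin n → G} (h : SR e)
    (h2 : ∀ i j, i ≠ j → Finite (SG' e {i, j})) (I : Finset (Fin n)) : Finite (SG' e I) := by
  classical
  induction' hk : I.card using Nat.strong_induction_on with k ih generalizing I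
  rcases Nat.lt_or_ge I.card 2 with h1 | h1
  · have hbot : SG' e I = ⊥ := by
      rw [SG', Subgroup.closure_eq_bot_iff]
      rintro x ⟨i, hi, j, hj, hij, _⟩
      exact absurd (Finset.card_le_one.1 (by omega) i hi j hj) hij
    rw [hbot]
    infer_instance
  · rcases Nat.eq_or_lt_of_le h1 with h3 | h3
    · obtain ⟨i, j, hij, rfl⟩ := Finset.card_eq_two.1 h3.symm
      exact h2 i j hij
    · refine st_step h h3 fun i hi => ih (I.erase i).card ?_ (I.erase i) rfl
      rw [← hk]
      exact Finset.card_erase_lt_of_mem hi

end Pool.Agent.Work.MP_d3656f_al.GB
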