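import Mathlib
import Pool.Agent.Work.MP_d3656f_al.GB.St3

/-!
# GB/St4 : groups with the Steinberg relations and generators of finite order are finite

WLOG `G = SG' e univ` (pass to the subgroup; the relations hold in it). Let `Z` be the center of
`G`, `e' i j` the image of `e i j` in `G ⧸ Z`; `SR e'`. The subgroup `SG' e' {i, j}` is the image
of `SG' e {i, j}` and is finite by `st_cen`. By `st_fin` `G ⧸ Z = SG' e' univ` is finite. By
Schur (`Mathlib.GroupTheory.Schreier`: the commutator subgroup is finite if the center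
has finite index: then `commutatorSet G` is finite) `commutator G` is finite; it is `⊤` since
`e i k = ⁅e i j, e j k⁆` (`3 ≤ n`).
-/

set_option autoImplicit false

namespace Pool.Agent.Work.MP_d3656f_al.GB

open scoped commutatorElement

private theorem st4_comm {G : Type} [Group G] (h : Finite (G ⧸ Subgroup.center G)) :
    Finite (commutatorSet G) := by
  have h1 : (Set.range (fun q : (G ⧸ Subgroup.center G) × (G ⧸ Subgroup.center G) =>
      ⁅q.1.out, q.2.out⁆)).Finite := Set.finite_range _
  refine Set.finite_coe_iff.2 (h1.subset ?_)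
  rintro x ⟨a, b, rfl⟩
  refine ⟨((a : G ⧸ Subgroup.center G), (b : G ⧸ Subgroup.center G)), ?_⟩
  obtain ⟨z, hz⟩ := QuotientGroup.mk_out_eq_mul (Subgroup.center G) a
  obtain ⟨w, hw⟩ := QuotientGroup.mk_out_eq_mul (Subgroup.center G) b
  show ⁅((a : G ⧸ Subgroup.center G)).out, ((b : G ⧸ Subgroup.center G)).out⁆ = ⁅a, b⁆
  rw [hz, hw, commutatorElement_def, commutatorElement_def]
  have cz : ∀ g : G, g * (z : G) = (z : G) * g := fun g => Subgroup.mem_center_iff.1 z.2 g
  have cw : ∀ g : G, g * (w : G) = (w : G) * g := fun g => Subgroup.mem_center_iff.1 w.2 g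
  rw [mul_inv_rev, mul_inv_rev]
  calc a * (z : G) * (b * (w : G)) * ((z : G)⁻¹ * a⁻¹) * ((w : G)⁻¹ * b⁻¹)
      = a * ((z : G) * (b * (w : G))) * (z : G)⁻¹ * a⁻¹ * (w : G)⁻¹ * b⁻¹ := by group
    _ = a * ((b * (w : G)) * (z : G)) * (z : G)⁻¹ * a⁻¹ * (w : G)⁻¹ * b⁻¹ := by
        rw [cz (b * (w : G))]
    _ = a * b * ((w : G) * a⁻¹) * (w : G)⁻¹ * b⁻¹ := by group
    _ = a * b * (a⁻¹ * (w : G)) * (w : G)⁻¹ * b⁻¹ := by rw [cw a⁻¹]
    _ = a * b * a⁻¹ * b⁻¹ := by group

private theorem st4_map {G G' : Type} [Group G] [Group G'] {n : ℕ} {e : Fin n → Fin n → G}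
    (f : G →* G') (I : Finset (Fin n)) :
    (SG' e I).map f = SG' (fun i j => f (e i j)) I := by
  rw [SG', SG', MonoidHom.map_closure]
  congr 1
  ext x
  constructor
  · rintro ⟨y, ⟨i, hi, j, hj, hij, rfl⟩, rfl⟩
    exact ⟨i, hi, j, hj, hij, rfl⟩
  · rintro ⟨i, hi, j, hj, hij, rfl⟩
    exact ⟨e i j, ⟨i, hi, j, hj, hij, rfl⟩, rfl⟩

private theorem st4_SR {G G' : Type} [Group G] [Group G'] {n : ℕ} {e : Fin n → Fin n → G}
    (h : SR e) (f : G →* G') : SR (fun i j => f (e i j)) where
  ord i j hij := f.isOfFinOrder (h.ord i j hij)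
  h1 i j k hij hjk hik := by
    rw [← map_commutatorElement, h.h1 i j k hij hjk hik]
  h2 i j k l hij hkl hil hjk := (h.h2 i j k l hij hkl hil hjk).map f

private theorem st4_top {G : Type} [Group G] {n : ℕ} (hn : 3 ≤ n) {e : Fin n → Fin n → G}
    (h : SR e) (hG : SG' e Finset.univ = ⊤) : Finite G := by
  classical
  have hQ : Finite (G ⧸ Subgroup.center G) := by
    have h1 := st4_SR h (QuotientGroup.mk' (Subgroup.center G))
    have h2 : ∀ i j : Fin n, i ≠ j → Finite
        (SG' (fun i j => QuotientGroup.mk' (Subgroup.center G) (e i j)) {i, j}) := by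
      intro i j hij
      rw [← st4_map]
      have h3 := st_cen hn h hG hij
      rw [Subgroup.inf_relIndex_right] at h3
      have h4 := Subgroup.relIndex_ker (K := SG' e {i, j})
        (QuotientGroup.mk' (Subgroup.center G))
      rw [QuotientGroup.ker_mk'] at h4
      rw [h4] at h3
      exact Nat.finite_of_card_ne_zero h3
    have h5 := st_fin h1 h2 Finset.univ
    rw [← st4_map, hG, Subgroup.map_top_of_surjective _
      (QuotientGroup.mk'_surjective (Subgroup.center G))] at h5
    exact Finite.of_surjective (fun x : (⊤ : Subgroup (G ⧸ Subgroup.center G)) => (x : _))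
      (fun y => ⟨⟨y, Subgroup.mem_top y⟩, rfl⟩)
  have hC : Finite (commutatorSet G) := st4_comm hQ
  have hD : Finite (_root_.commutator G) := inferInstance
  have hT : _root_.commutator G = ⊤ := by
    rw [eq_top_iff, ← hG]
    refine (Subgroup.closure_le _).2 ?_
    rintro x ⟨i, _, k, _, hik, rfl⟩
    obtain ⟨j, hji, hjk⟩ : ∃ j : Fin n, j ≠ i ∧ j ≠ k := by
      by_contra hcon
      push Not at hcon
      have h1 : (Finset.univ : Finset (Fin n)) ⊆ {i, k} := by
        intro m _
        rw [Finset.mem_insert, Finset.mem_singleton]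
        by_cases hm : m = i
        · exact Or.inl hm
        · exact Or.inr (hcon m hm)
      have h2 := Finset.card_le_card h1
      have h3 := Finset.card_le_two (a := i) (b := k)
      rw [Finset.card_univ, Fintype.card_fin] at h2
      omega
    rw [← h.h1 i j k hji.symm hjk hik]
    exact Subgroup.commutator_mem_commutator (Subgroup.mem_top _) (Subgroup.mem_top _)
  rw [hT] at hD
  exact Finite.of_surjective (fun x : (⊤ : Subgroup G) => (x : G))
    (fun y => ⟨⟨y, Subgroup.mem_top y⟩, rfl⟩)

theorem steinberg {G : Type} [Group G] {n : ℕ} (hn : 3 ≤ n) {e : Fin n → Fin n → G} (h : SR e) :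
    Finite (SG' e Finset.univ) := by
  classical
  have hm : ∀ i j : Fin n, i ≠ j → e i j ∈ SG' e Finset.univ := fun i j hij =>
    Subgroup.subset_closure ⟨i, Finset.mem_univ i, j, Finset.mem_univ j, hij, rfl⟩
  let e₁ : Fin n → Fin n → SG' e Finset.univ := fun i j =>
    if hij : i ≠ j then ⟨e i j, hm i j hij⟩ else 1
  have he : ∀ i j : Fin n, i ≠ j → ((e₁ i j : SG' e Finset.univ) : G) = e i j := by
    intro i j hij
    simp only [e₁, dif_pos hij]
  have hinj : Function.Injective (SG' e Finset.univ).subtype := Subgroup.subtype_injective _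
  have h1 : SR e₁ := by
    refine ⟨?_, ?_, ?_⟩
    · intro i j hij
      rw [← (SG' e Finset.univ).subtype_injective.isOfFinOrder_iff (x := e₁ i j)]
      show IsOfFinOrder ((e₁ i j : SG' e Finset.univ) : G)
      rw [he i j hij]
      exact h.ord i j hij
    · intro i j k hij hjk hik
      apply hinj
      rw [map_commutatorElement]
      show ⁅((e₁ i j : SG' e Finset.univ) : G), ((e₁ j k : SG' e Finset.univ) : G)⁆ =
        ((e₁ i k : SG' e Finset.univ) : G)
      rw [he i j hij, he j k hjk, he i k hik]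
      exact h.h1 i j k hij hjk hik
    · intro i j k l hij hkl hil hjk
      apply hinj
      rw [map_mul, map_mul]
      show ((e₁ i j : SG' e Finset.univ) : G) * ((e₁ k l : SG' e Finset.univ) : G) =
        ((e₁ k l : SG' e Finset.univ) : G) * ((e₁ i j : SG' e Finset.univ) : G)
      rw [he i j hij, he k l hkl]
      exact h.h2 i j k l hij hkl hil hjk
  refine st4_top hn h1 ?_
  apply Subgroup.map_injective hinj
  rw [st4_map, ← MonoidHom.range_eq_map, Subgroup.range_subtype]
  refine congrArg Subgroup.closure ?_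
  ext x
  constructor
  · rintro ⟨i, hi, j, hj, hij, rfl⟩
    exact ⟨i, hi, j, hj, hij, he i j hij⟩
  · rintro ⟨i, hi, j, hj, hij, rfl⟩
    exact ⟨i, hi, j, hj, hij, (he i j hij).symm⟩

end Pool.Agent.Work.MP_d3656f_al.GB
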