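import Mathlib
import Pool.Agent.Work.MP_d3656f_al.GB.DefsB

/-!
# GB/Wn : the group of signed permutations

`Wn n`: the automorphisms which map every basis element to a basis element or the inverse of one.
Closed under products; inverses: the induced map of indices is injective (if `α (xx i)` and
`α (xx j)` are `xx k` or its inverse for the same `k` then `xx i = (xx j)^{±1}`, so `i = j`), hence
surjective. Finite: `α` is determined by its values on the basis (`aut_ext`).
-/

set_option autoImplicit false

namespace Pool.Agent.Work.MP_d3656f_al.GB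

open scoped commutatorElement

/-- A basis element is not the inverse of a basis element. -/
private theorem wn_ne_inv {n : ℕ} (i j : Fin n) : (xx i : FF n) ≠ (xx j)⁻¹ := by
  intro h
  have h1 := congrArg (FreeGroup.lift fun _ : Fin n => Multiplicative.ofAdd (1 : ℤ)) h
  rw [map_inv, FreeGroup.lift_apply_of, FreeGroup.lift_apply_of, ← ofAdd_neg] at h1
  have h2 := Multiplicative.ofAdd.injective h1
  norm_num at h2

/-- The signed permutations. -/
def Wn (n : ℕ) : Subgroup (MulAut (FF n)) where
  carrier := {α | ∀ i, ∃ j, α (xx i) = xx j ∨ α (xx i) = (xx j)⁻¹}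
  mul_mem' := by
    intro α β hα hβ i
    obtain ⟨j, hj⟩ := hβ i
    obtain ⟨k, hk⟩ := hα j
    refine ⟨k, ?_⟩
    rw [MulAut.mul_apply]
    rcases hj with hj | hj <;> rcases hk with hk | hk
    · left
      rw [hj, hk]
    · right
      rw [hj, hk]
    · right
      rw [hj, map_inv, hk]
    · left
      rw [hj, map_inv, hk, inv_inv]
  one_mem' := fun i => ⟨i, Or.inl rfl⟩
  inv_mem' := by
    intro α hα
    choose f hf using hα
    have hinj : Function.Injective f := by
      intro i j hij
      have h1 := hf i
      have h2 := hf j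
      rw [hij] at h1
      have key : α (xx i) = α (xx j) ∨ α (xx i) = α (xx j)⁻¹ := by
        rw [map_inv]
        rcases h1 with h1 | h1 <;> rcases h2 with h2 | h2
        · left
          rw [h1, h2]
        · right
          rw [h1, h2, inv_inv]
        · right
          rw [h1, h2]
        · left
          rw [h1, h2]
      rcases key with h | h
      · exact FreeGroup.of_injective (α.injective h)
      · exact absurd (α.injective h) (wn_ne_inv i j)
    intro i
    obtain ⟨j, hj⟩ := Finite.surjective_of_injective hinj i
    refine ⟨j, ?_⟩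
    rcases hf j with h | h
    · left
      rw [hj] at h
      exact inv_app h
    · right
      rw [hj] at h
      exact inv_app (by rw [map_inv, h, inv_inv])

theorem mem_Wn {n : ℕ} {α : MulAut (FF n)} :
    α ∈ Wn n ↔ ∀ i, ∃ j, α (xx i) = xx j ∨ α (xx i) = (xx j)⁻¹ := Iff.rfl

theorem wn_fin (n : ℕ) : Finite (Wn n) := by
  have hS : Set.Finite {y : FF n | ∃ j, y = xx j ∨ y = (xx j)⁻¹} := by
    refine ((Set.finite_range (fun j : Fin n => (xx j : FF n))).union
      (Set.finite_range (fun j : Fin n => (xx j : FF n)⁻¹))).subset ?_
    rintro y ⟨j, h | h⟩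
    · exact Or.inl ⟨j, h.symm⟩
    · exact Or.inr ⟨j, h.symm⟩
  have hF : Finite {y : FF n | ∃ j, y = xx j ∨ y = (xx j)⁻¹} := hS
  let F : Wn n → (Fin n → {y : FF n | ∃ j, y = xx j ∨ y = (xx j)⁻¹}) :=
    fun α i => ⟨α.1 (xx i), α.2 i⟩
  refine Finite.of_injective F ?_
  intro α β hab
  apply Subtype.ext
  apply aut_ext
  intro j
  exact congrArg Subtype.val (congrFun hab j)

end Pool.Agent.Work.MP_d3656f_al.GB
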