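import Mathlib
import Pool.Agent.Work.MP_d3656f_al.GB.Bs2
import Pool.Agent.Work.MP_d3656f_al.GB.St4
import Pool.Agent.Work.MP_d3656f_al.GB.Wn
import Pool.Agent.Work.MP_d3656f_al.GB.Niel

/-!
# GB/Bs5 : the case `HK φ 1`: the image is finite

Let `A = AA φ` (finite, normal), `ψ = (QuotientGroup.mk' A).comp φ`, `e i j = ψ (lam i (xx j))`.
It suffices that `M ⧸ A` is finite. The hypotheses of `steinberg` hold:
* `⁅lam i (xx j), lam j (xx k)⁆ = lam i (xx k)` for different `i, j, k`: modulo `HK φ 1`,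
  `lam j (xx k) * lam i (xx j) * (lam j (xx k))⁻¹ = lam i ((xx k)⁻¹ * xx j) =
  (lam i (xx k))⁻¹ * lam i (xx j)`,
* `e i j` and `e k l` commute for `i ≠ l`, `j ≠ k`: `i = k` by `t4` (`d = 0`), `i ≠ k` by `t3`.
So `E = closure {e i j}` is finite. `ψ (rho i (xx j)) = (e i j)⁻¹` since
`con i (xx j) = lam i (xx j) * rho i (xx j)`. `E` is normalised by the image `W` of the finite
group `Wn n` of signed permutations: permutations map `e i j` to `e (σ i) (σ j)`; the inversion of
`xx j` maps it to its inverse; the inversion of `xx i` maps it to `ψ (rho i (xx j))` (`iv_lam`). By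
`nielsen` and surjectivity `M ⧸ A = E ⊔ W`, which is finite (`E ≤ M ⧸ A` is normalised by `W`).
-/

set_option autoImplicit false

namespace Pool.Agent.Work.MP_d3656f_al.GB

open scoped commutatorElement
open scoped Pointwise

private theorem bs5_mem {n : ℕ} {i j : Fin n} (h : j ≠ i) : (xx j : FF n) ∈ Av {i} :=
  xx_mem_Av (by simpa using h)

private theorem bs5_mem2 {n : ℕ} {i k j : Fin n} (h : j ≠ i) (h' : j ≠ k) :
    (xx j : FF n) ∈ Av {i, k} :=
  xx_mem_Av (by simp [h, h'])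

private theorem bs5_com {n : ℕ} {i j k : Fin n} (hij : i ≠ j) (hjk : j ≠ k) (hik : i ≠ k) :
    ⁅lam i (xx j), (lam j (xx k) : MulAut (FF n))⁆ = lam i (xx k) := by
  have hj : (xx j : FF n) ∈ Av {i} := bs5_mem hij.symm
  have hk : (xx k : FF n) ∈ Av {i} := bs5_mem hik.symm
  have hkj : (xx k : FF n) ∈ Av {j} := bs5_mem hjk.symm
  have h1 := lam_conj (pr_lam hij (bs5_mem2 hik.symm hjk.symm : (xx k : FF n) ∈ Av {i, j})) hj
  rw [lam_self hkj, lam_mul (inv_mem hk) hj, lam_inv hk] at h1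
  rw [commutatorElement_def]
  have h2 : lam j (xx k) * (lam i (xx j))⁻¹ * (lam j (xx k))⁻¹ =
      ((lam i (xx k))⁻¹ * lam i (xx j) : MulAut (FF n))⁻¹ := by
    rw [← h1]
    group
  calc lam i (xx j) * lam j (xx k) * (lam i (xx j))⁻¹ * (lam j (xx k))⁻¹
      = lam i (xx j) * (lam j (xx k) * (lam i (xx j))⁻¹ * (lam j (xx k))⁻¹) := by group
    _ = lam i (xx j) * ((lam i (xx k))⁻¹ * lam i (xx j) : MulAut (FF n))⁻¹ := by rw [h2]
    _ = _ := by group

private theorem bs5_rel {n : ℕ} {M : Type} [Group M] {φ : MulAut (FF n) →* M} (hK : HK φ 1)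
    {i j k l : Fin n} (hij : i ≠ j) (hkl : k ≠ l) (hil : i ≠ l) (hjk : j ≠ k) :
    Commute (φ (lam i (xx j))) (φ (lam k (xx l))) := by
  by_cases hik : i = k
  · subst hik
    exact t4 (d := 0) hK (bs5_mem hij.symm) (bs5_mem hkl.symm) true true
  · have h1 : Commute (lam i (xx j)) (lam k (xx l) : MulAut (FF n)) :=
      t3 hik (bs5_mem2 hij.symm hjk) (bs5_mem2 hil.symm hkl.symm) true true
    exact h1.map φ

/-- Conjugation by a permutation of the basis. -/
private theorem bs5_perm {n : ℕ} {α : MulAut (FF n)} {σ : Equiv.Perm (Fin n)}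
    (hα : ∀ i, α (xx i) = xx (σ i)) {i j : Fin n} (hij : i ≠ j) :
    α * lam i (xx j) * α⁻¹ = lam (σ i) (xx (σ j)) := by
  have hinv : ∀ k, α⁻¹ (xx k) = xx (σ.symm k) := fun k =>
    inv_app (by rw [hα, Equiv.apply_symm_apply])
  have hσ : σ j ≠ σ i := fun h => hij (σ.injective h).symm
  apply aut_ext
  intro k
  rw [MulAut.mul_apply, MulAut.mul_apply, hinv]
  by_cases hk : k = σ i
  · subst hk
    rw [Equiv.symm_apply_apply, lam_self (bs5_mem hij.symm), map_mul, map_inv, hα, hα,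
      lam_self (bs5_mem hσ)]
  · have hk' : σ.symm k ≠ i := fun h => hk (by rw [← h, Equiv.apply_symm_apply])
    rw [lam_ne _ hk', lam_ne _ hk, hα, Equiv.apply_symm_apply]

/-- An inversion is `flp`. -/
private theorem bs5_flp {n : ℕ} {α : MulAut (FF n)} {i : Fin n} (h1 : α (xx i) = (xx i)⁻¹)
    (h2 : ∀ j, j ≠ i → α (xx j) = xx j) : α = flp i := by
  apply aut_ext
  intro j
  by_cases h : j = i
  · subst h
    rw [h1, flp_self]
  · rw [h2 j h, flp_ne h]

private theorem bs5_flp_conj {n : ℕ} {m i j : Fin n} (hij : i ≠ j) (hm : m ≠ i) :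
    flp m * lam i (xx j) * (flp m)⁻¹ = lam i (xx j) ∨
      flp m * lam i (xx j) * (flp m)⁻¹ = (lam i (xx j) : MulAut (FF n))⁻¹ := by
  have hj : (xx j : FF n) ∈ Av {i} := bs5_mem hij.symm
  have hp : Pr i (flp m) := by
    refine pr_of_gens (flp_ne hm.symm) (fun k hk => ?_) (fun k hk => ?_)
    · by_cases h : k = m
      · subst h
        rw [flp_self]
        exact inv_mem (bs5_mem hk)
      · rw [flp_ne h]
        exact bs5_mem hk
    · rw [flp_inv]
      by_cases h : k = m
      · subst h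
        rw [flp_self]
        exact inv_mem (bs5_mem hk)
      · rw [flp_ne h]
        exact bs5_mem hk
  rw [lam_conj hp hj]
  by_cases h : j = m
  · subst h
    right
    rw [flp_self, lam_inv hj]
  · left
    rw [flp_ne h]

theorem base2 {n : ℕ} (hn : 4 ≤ n) {M : Type} [Group M] (φ : MulAut (FF n) →* M)
    (hs : Function.Surjective φ)
    (ht : ∀ i j : Fin n, i ≠ j → IsOfFinOrder (φ (lam i (xx j)))) (hK : HK φ 1) :
    Finite M := by
  classical
  have h3 : 3 ≤ n := by omega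
  have : Finite (AA φ) := aa_fin h3 hK ht
  have : (AA φ).Normal := aa_normal h3 hK hs ht
  set ψ : MulAut (FF n) →* M ⧸ AA φ := (QuotientGroup.mk' (AA φ)).comp φ with hψ
  have hψs : Function.Surjective ψ := (QuotientGroup.mk'_surjective (AA φ)).comp hs
  set e : Fin n → Fin n → M ⧸ AA φ := fun i j => ψ (lam i (xx j)) with he
  have hSR : SR e := by
    refine ⟨fun i j hij => ?_, fun i j k hij hjk hik => ?_, fun i j k l hij hkl hil hjk => ?_⟩
    · exact MonoidHom.isOfFinOrder (QuotientGroup.mk' (AA φ)) (ht i j hij)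
    · rw [he]
      show ⁅ψ (lam i (xx j)), ψ (lam j (xx k))⁆ = ψ (lam i (xx k))
      rw [← map_commutatorElement, bs5_com hij hjk hik]
    · exact (bs5_rel hK hij hkl hil hjk).map (QuotientGroup.mk' (AA φ))
  set E : Subgroup (M ⧸ AA φ) := SG' e Finset.univ with hE
  have hEfin : Finite E := steinberg h3 hSR
  have heE : ∀ i j, i ≠ j → e i j ∈ E := fun i j hij =>
    Subgroup.subset_closure ⟨i, Finset.mem_univ _, j, Finset.mem_univ _, hij, rfl⟩
  have hrho : ∀ i j : Fin n, i ≠ j → ψ (rho i (xx j)) = (e i j)⁻¹ := by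
    intro i j hij
    have h1 : ψ (con i (xx j)) = 1 := by
      rw [hψ]
      show QuotientGroup.mk' (AA φ) (φ (con i (xx j))) = 1
      rw [← MonoidHom.mem_ker, QuotientGroup.ker_mk']
      exact Subgroup.subset_closure ⟨i, j, hij, rfl⟩
    rw [con, map_mul] at h1
    exact eq_inv_of_mul_eq_one_right h1
  -- elements whose conjugation maps the generators into E
  have hconj : ∀ g : M ⧸ AA φ, (∀ i j, i ≠ j → g * e i j * g⁻¹ ∈ E) → ∀ x ∈ E, g * x * g⁻¹ ∈ E := by
    intro g hg x hx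
    have h1 : E ≤ E.comap (MulAut.conj g).toMonoidHom := by
      rw [hE]
      refine (Subgroup.closure_le _).2 ?_
      rintro y ⟨i, _, j, _, hij, rfl⟩
      exact hg i j hij
    exact h1 hx
  have hperm : ∀ (α : MulAut (FF n)) (σ : Equiv.Perm (Fin n)), (∀ i, α (xx i) = xx (σ i)) →
      ∀ x ∈ E, ψ α * x * (ψ α)⁻¹ ∈ E := by
    intro α σ hα
    refine hconj _ fun i j hij => ?_
    have h1 : ψ α * e i j * (ψ α)⁻¹ = e (σ i) (σ j) := by
      rw [he]
      show ψ α * ψ (lam i (xx j)) * (ψ α)⁻¹ = ψ (lam (σ i) (xx (σ j)))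
      rw [← map_inv, ← map_mul, ← map_mul, bs5_perm hα hij]
    rw [h1]
    exact heE _ _ fun h => hij (σ.injective h)
  have hflp : ∀ m : Fin n, ∀ x ∈ E, ψ (flp m) * x * (ψ (flp m))⁻¹ ∈ E := by
    intro m
    refine hconj _ fun i j hij => ?_
    have h1 : ψ (flp m) * e i j * (ψ (flp m))⁻¹ = ψ (flp m * lam i (xx j) * (flp m)⁻¹) := by
      rw [map_mul, map_mul, map_inv]
    rw [h1]
    by_cases hm : m = i
    · subst hm
      rw [flp_lam (bs5_mem hij.symm), hrho _ _ hij]
      exact inv_mem (heE _ _ hij)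
    · rcases bs5_flp_conj hij hm with h2 | h2
      · rw [h2]
        exact heE _ _ hij
      · rw [h2, map_inv]
        exact inv_mem (heE _ _ hij)
  -- E is normal
  have hNt : ∀ x ∈ Subgroup.closure (ψ '' El n), x ∈ Subgroup.normalizer (E : Set (M ⧸ AA φ)) := by
    intro x hx
    refine (Subgroup.closure_le (Subgroup.normalizer (E : Set (M ⧸ AA φ)))).2 ?_ hx
    rintro y ⟨α, hα, rfl⟩
    rw [SetLike.mem_coe, Subgroup.mem_normalizer_iff]
    rcases hα with ⟨σ, hσ⟩ | ⟨i, hi1, hi2⟩ | ⟨i, j, hij, h1, h2⟩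
    · intro x
      refine ⟨hperm α σ hσ x, fun h => ?_⟩
      have h4 : ∀ i, α⁻¹ (xx i) = xx (σ.symm i) := fun k =>
        inv_app (by rw [hσ, Equiv.apply_symm_apply])
      have h5 := hperm α⁻¹ σ.symm h4 _ h
      rw [map_inv, inv_inv] at h5
      have h6 : (ψ α)⁻¹ * (ψ α * x * (ψ α)⁻¹) * ψ α = x := by group
      rwa [h6] at h5
    · have hf := bs5_flp hi1 hi2
      intro x
      refine ⟨fun h => by rw [hf]; exact hflp i x h, fun h => ?_⟩
      rw [hf] at h
      have h5 := hflp i _ h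
      have h7 : ψ (flp i) = (ψ (flp i))⁻¹ := by rw [← map_inv, flp_inv]
      have h6 : ψ (flp i) * (ψ (flp i) * x * (ψ (flp i))⁻¹) * (ψ (flp i))⁻¹ = x := by
        nth_rewrite 1 [h7]
        nth_rewrite 4 [h7]
        group
      rwa [h6] at h5
    · have hl : α = lam i (xx j) := by
        apply aut_ext
        intro k
        by_cases hk : k = i
        · subst hk
          rw [h1, lam_self (bs5_mem hij.symm)]
        · rw [h2 k hk, lam_ne _ hk]
      rw [hl]
      intro x
      have hg : ψ (lam i (xx j)) ∈ E := heE i j hij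
      refine ⟨fun h => mul_mem (mul_mem hg h) (inv_mem hg), fun h => ?_⟩
      have h6 : (ψ (lam i (xx j)))⁻¹ * (ψ (lam i (xx j)) * x * (ψ (lam i (xx j)))⁻¹) *
          ψ (lam i (xx j)) = x := by group
      rw [← h6]
      exact mul_mem (mul_mem (inv_mem hg) h) hg
  have hclo : Subgroup.closure (ψ '' El n) = ⊤ := by
    rw [← MonoidHom.map_closure, nielsen, ← MonoidHom.range_eq_map]
    exact MonoidHom.range_eq_top.2 hψs
  have hEn : E.Normal := by
    refine ⟨fun x hx g => ?_⟩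
    have h1 := hNt g (by rw [hclo]; trivial)
    rw [Subgroup.mem_normalizer_iff] at h1
    exact (h1 x).1 hx
  -- everything
  set W : Subgroup (M ⧸ AA φ) := (Wn n).map ψ with hW
  have := wn_fin n
  have hWfin : Finite W := by
    have : (W : Set (M ⧸ AA φ)).Finite := (Set.toFinite (Wn n : Set (MulAut (FF n)))).image ψ
    exact this
  have htop : E ⊔ W = ⊤ := by
    rw [eq_top_iff, ← hclo, Subgroup.closure_le]
    rintro y ⟨α, hα, rfl⟩
    rcases hα with ⟨σ, hσ⟩ | ⟨i, hi1, hi2⟩ | ⟨i, j, hij, h1, h2⟩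
    · exact (le_sup_right : W ≤ E ⊔ W) ⟨α, mem_Wn.2 fun i => ⟨σ i, Or.inl (hσ i)⟩, rfl⟩
    · refine (le_sup_right : W ≤ E ⊔ W) ⟨α, mem_Wn.2 fun k => ⟨k, ?_⟩, rfl⟩
      by_cases hk : k = i
      · subst hk
        exact Or.inr hi1
      · exact Or.inl (hi2 k hk)
    · have hl : α = lam i (xx j) := by
        apply aut_ext
        intro k
        by_cases hk : k = i
        · subst hk
          rw [h1, lam_self (bs5_mem hij.symm)]
        · rw [h2 k hk, lam_ne _ hk]
      rw [hl]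
      exact (le_sup_left : E ≤ E ⊔ W) (heE i j hij)
  have : Finite (M ⧸ AA φ) := by
    have h1 : ((E ⊔ W : Subgroup (M ⧸ AA φ)) : Set (M ⧸ AA φ)) = E * W := Subgroup.normal_mul E W
    have h2 : ((E : Set (M ⧸ AA φ)) * (W : Set (M ⧸ AA φ))).Finite :=
      Set.Finite.mul (Set.toFinite _) (Set.toFinite _)
    rw [← h1, htop, Subgroup.coe_top] at h2
    exact Set.finite_univ_iff.1 h2
  exact Finite.of_subgroup_quotient (AA φ)

end Pool.Agent.Work.MP_d3656f_al.GB
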