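import Mathlib
import Pool.Agent.Work.MP_d3656f_al.GB.DefsB

/-!
# GB/DefsC : still more definitions (FIXED, fully proved)

`Lw k m`: the subgroup generated by the letters `xx j` with `j < m`. `Chr p`: the kernel of `p` is
characteristic. `emb : FF k → FF (k+1)`, `xx j ↦ xx j.castSucc`, with image `Av {last}`.
`pp φ : FF k → M`, `w ↦ φ (rho last (emb w))`. `DD p j`: the set of all
`p (w⁻¹ * xx j * v)`, `w ∈ Lw k j`, `v ∈ Lw k (min j (k - 2))`.
-/

set_option autoImplicit false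

namespace Pool.Agent.Work.MP_d3656f_al.GB

open scoped commutatorElement

/-- The subgroup generated by the letters with index less than `m`. -/
def Lw (k m : ℕ) : Subgroup (FF k) := Av (Finset.univ.filter fun j : Fin k => m ≤ (j : ℕ))

theorem xx_mem_Lw {k m : ℕ} {j : Fin k} (h : (j : ℕ) < m) : xx j ∈ Lw k m :=
  xx_mem_Av (by simpa using h)

theorem Lw_mono {k m m' : ℕ} (h : m ≤ m') : Lw k m ≤ Lw k m' := by
  refine Av_anti ?_
  intro j hj
  simp only [Finset.mem_filter, Finset.mem_univ, true_and] at hj ⊢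
  omega

theorem Lw_le_Av {k m : ℕ} {S : Finset (Fin k)} (h : ∀ j ∈ S, m ≤ (j : ℕ)) : Lw k m ≤ Av S := by
  refine Av_anti ?_
  intro j hj
  simpa using h j hj

theorem Lw_le {k m : ℕ} {H : Subgroup (FF k)} (h : ∀ j : Fin k, (j : ℕ) < m → xx j ∈ H) :
    Lw k m ≤ H := by
  refine (Subgroup.closure_le _).2 ?_
  rintro y ⟨j, hj, rfl⟩
  exact h j (by simpa using hj)

/-- The kernel of `p` is characteristic. -/
def Chr {k : ℕ} {Q : Type} [Group Q] (p : FF k →* Q) : Prop :=
  ∀ (α : MulAut (FF k)) (w : FF k), p w = 1 → p (α w) = 1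

theorem Chr.eq {k : ℕ} {Q : Type} [Group Q] {p : FF k →* Q} (h : Chr p) (α : MulAut (FF k))
    {v w : FF k} (e : p v = p w) : p (α v) = p (α w) := by
  have h1 : p (v * w⁻¹) = 1 := by rw [map_mul, map_inv, e, mul_inv_cancel]
  have h2 := h α _ h1
  rw [map_mul, map_inv, map_mul, map_inv, mul_inv_eq_one] at h2
  exact h2

/-- The embedding of `FF k` in `FF (k + 1)`. -/
def emb {k : ℕ} : FF k →* FF (k + 1) := FreeGroup.lift fun j => xx j.castSucc

theorem emb_xx {k : ℕ} (j : Fin k) : emb (xx j) = xx j.castSucc := by simp [emb]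

theorem Lw_univ {k m : ℕ} (h : k ≤ m) (w : FF k) : w ∈ Lw k m := by
  have h1 : (Lw k m) = ⊤ := by
    rw [eq_top_iff, ← FreeGroup.closure_range_of (Fin k), Subgroup.closure_le]
    rintro _ ⟨j, rfl⟩
    exact xx_mem_Lw (lt_of_lt_of_le j.2 h)
  rw [h1]
  trivial

theorem emb_Lw {k m : ℕ} {w : FF k} (h : w ∈ Lw k m) : emb w ∈ Lw (k + 1) m :=
  map_mem (fun j hj => by
    rw [emb_xx]
    refine xx_mem_Lw ?_
    simpa using hj) h

theorem emb_mem {k : ℕ} (w : FF k) : emb w ∈ Av {Fin.last k} := by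
  refine Lw_le_Av (m := k) ?_ (emb_Lw (Lw_univ le_rfl w))
  intro j hj
  rw [Finset.mem_singleton] at hj
  subst hj
  simp

/-- The homomorphism `w ↦ φ (rho last (emb w))`. -/
noncomputable def pp {k : ℕ} {M : Type} [Group M] (φ : MulAut (FF (k + 1)) →* M) : FF k →* M where
  toFun w := φ (rho (Fin.last k) (emb w))
  map_one' := by rw [map_one, rho_one, map_one]
  map_mul' v w := by rw [map_mul, rho_mul (emb_mem v) (emb_mem w), map_mul]

theorem pp_apply {k : ℕ} {M : Type} [Group M] (φ : MulAut (FF (k + 1)) →* M) (w : FF k) :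
    pp φ w = φ (rho (Fin.last k) (emb w)) := rfl

/-- The set of all `p (w⁻¹ * xx j * v)` with `w ∈ Lw k j` and `v ∈ Lw k (min j (k - 2))`. -/
def DD {k : ℕ} {Q : Type} [Group Q] (p : FF k →* Q) (j : Fin k) : Set Q :=
  {y | ∃ w ∈ Lw k j, ∃ v ∈ Lw k (min j (k - 2)), y = p (w⁻¹ * xx j * v)}

end Pool.Agent.Work.MP_d3656f_al.GB
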