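import Mathlib
import Pool.Agent.Work.MP_d3656f_al.GB.Ga2

/-!
# GB/Ga3 : commutators of automorphisms close to the identity

Put `y = β (α z)`, `z = α⁻¹ (β⁻¹ y) ∈ H`; then `⁅α, β⁆ y = α (β z)`. With
`a' z = α z * z⁻¹ ∈ gam H a` and `b' z = β z * z⁻¹ ∈ gam H b`:
`α (β z) = α (b' z) * α z = (α (b' z) * (b' z)⁻¹) * b' z * a' z * z` and
`β (α z) = (β (a' z) * (a' z)⁻¹) * a' z * b' z * z`, so
`α (β z) * (β (α z))⁻¹ = (α (b' z) (b' z)⁻¹) * ⁅b' z, a' z⁆ * (β (a' z) (a' z)⁻¹)⁻¹`; the outer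
factors are in `gam H (a+b)` by `cong_gam` (with `g = id`), the commutator by `gam_comm`.
-/

set_option autoImplicit false

namespace Pool.Agent.Work.MP_d3656f_al.GB

open scoped commutatorElement

theorem comma {G : Type*} [Group G] {H : Subgroup G} {α β : MulAut G} {a b : ℕ}
    (hα : ∀ y ∈ H, α⁻¹ y ∈ H) (hβ : ∀ y ∈ H, β⁻¹ y ∈ H) (ha : ∀ y ∈ H, α y * y⁻¹ ∈ gam H a)
    (hb : ∀ y ∈ H, β y * y⁻¹ ∈ gam H b) {y : G} (hy : y ∈ H) :
    (⁅α, β⁆ : MulAut G) y * y⁻¹ ∈ gam H (a + b) := by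
  obtain ⟨z, hz, rfl⟩ : ∃ z ∈ H, β (α z) = y := by
    refine ⟨α⁻¹ (β⁻¹ y), hα _ (hβ _ hy), ?_⟩
    have h1 : α (α⁻¹ (β⁻¹ y)) = β⁻¹ y := by
      rw [← MulAut.mul_apply, mul_inv_cancel, MulAut.one_apply]
    rw [h1, ← MulAut.mul_apply, mul_inv_cancel, MulAut.one_apply]
  have e1 : (⁅α, β⁆ : MulAut G) (β (α z)) = α (β z) := by
    rw [← MulAut.mul_apply, ← MulAut.mul_apply, ← MulAut.mul_apply]
    congr 1
    rw [commutatorElement_def]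
    group
  rw [e1]
  have h1 := ha z hz
  have h2 := hb z hz
  have h3 : α (β z * z⁻¹) * (β z * z⁻¹)⁻¹ ∈ gam H (a + b) :=
    cong_gam (H := H) (K := H) (f := α.toMonoidHom) (g := MonoidHom.id _) (a := a)
      (fun y hy => hy) (fun y hy => ha y hy) b h2
  have h4 : β (α z * z⁻¹) * (α z * z⁻¹)⁻¹ ∈ gam H (a + b) := by
    rw [Nat.add_comm]
    exact cong_gam (H := H) (K := H) (f := β.toMonoidHom) (g := MonoidHom.id _) (a := b)
      (fun y hy => hy) (fun y hy => hb y hy) a h1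
  have h5 : ⁅β z * z⁻¹, α z * z⁻¹⁆ ∈ gam H (a + b) := by
    have := gam_comm H h2 h1
    rw [Nat.add_comm b a] at this
    exact gam_succ_le H _ this
  have e : α (β z) * (β (α z))⁻¹ = (α (β z * z⁻¹) * (β z * z⁻¹)⁻¹)
      * ⁅β z * z⁻¹, α z * z⁻¹⁆ * (β (α z * z⁻¹) * (α z * z⁻¹)⁻¹)⁻¹ := by
    rw [commutatorElement_def, map_mul, map_mul, map_inv, map_inv]
    group
  rw [e]
  exact mul_mem (mul_mem h3 h5) (inv_mem h4)

end Pool.Agent.Work.MP_d3656f_al.GB
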