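import Mathlib
import Pool.Agent.Work.MP_d3656f_al.GB.Ga1

/-!
# GB/Ga4 : left normed commutators of lists

`lcom_snoc`: `List.foldl_append`. The other statements by induction on the list from the right
(`List.reverseRecOn` or induction on `l₂` reversed).
`lcom_lin`: all entries are in `H`. For `l₂ = []` and `l₁ = []` the difference is `1`; for
`l₂ = []`, `l₁ ≠ []` with `v = lcom l₁ ∈ gam H (|l₁| - 1)`:
`⁅v, a b⁆ = ⁅v, a⁆ * (a ⁅v, b⁆ a⁻¹) = ⁅v, a⁆ * ⁅a, ⁅v, b⁆⁆ * ⁅v, b⁆`. Step `l₂ ++ [y]`: if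
`U = E * (A * B)` with `E ∈ gam H k`, `A, B ∈ gam H (k-1)` (`k = |l₁| + |l₂| + 1`; for `k = 1` they
are in `H`) then `⁅U, y⁆ ≡ ⁅A, y⁆ * ⁅B, y⁆` modulo `gam H (k+1)`. It may help to prove first:
`a ∈ gam H i`, `b ∈ gam H i`, `y ∈ H` imply `⁅a b, y⁆ (⁅a, y⁆ ⁅b, y⁆)⁻¹ ∈ gam H (i+2)`.
-/

set_option autoImplicit false

namespace Pool.Agent.Work.MP_d3656f_al.GB

open scoped commutatorElement

variable {G : Type*} [Group G]

theorem lcom_snoc (l : List G) (hl : l ≠ []) (b : G) : lcom (l ++ [b]) = ⁅lcom l, b⁆ := by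
  rcases l with _ | ⟨a, l⟩
  · exact absurd rfl hl
  · show (l ++ [b]).foldl (fun u b => ⁅u, b⁆) a = ⁅l.foldl (fun u b => ⁅u, b⁆) a, b⁆
    rw [List.foldl_append]
    rfl

theorem lcom_map {G' : Type*} [Group G'] (f : G →* G') (l : List G) :
    f (lcom l) = lcom (l.map f) := by
  rcases l with _ | ⟨a, l⟩
  · exact map_one f
  · show f (l.foldl (fun u b => ⁅u, b⁆) a) = (l.map f).foldl (fun u b => ⁅u, b⁆) (f a)
    induction l generalizing a with
    | nil => rfl
    | cons c l ih =>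
      rw [List.foldl_cons, List.map_cons, List.foldl_cons, ih, map_commutatorElement]

theorem lcom_mem {H : Subgroup G} {l : List G} (h : ∀ y ∈ l, y ∈ H) :
    lcom l ∈ gam H (l.length - 1) := by
  induction l using List.reverseRecOn with
  | nil => exact one_mem _
  | append_singleton l b ih =>
    have hb : b ∈ H := h b (by simp)
    have hl : ∀ y ∈ l, y ∈ H := fun y hy => h y (by simp [hy])
    by_cases h0 : l = []
    · subst h0
      exact hb
    · have hpos : 0 < l.length := List.length_pos_iff.2 h0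
      rw [lcom_snoc l h0 b]
      have e : (l ++ [b]).length - 1 = (l.length - 1) + 1 := by
        rw [List.length_append, List.length_singleton]
        omega
      rw [e]
      exact Subgroup.commutator_mem_commutator (ih hl) hb

theorem lcom_one (l₁ l₂ : List G) : lcom (l₁ ++ 1 :: l₂) = 1 := by
  induction l₂ using List.reverseRecOn with
  | nil =>
    by_cases h0 : l₁ = []
    · subst h0
      rfl
    · rw [lcom_snoc l₁ h0 1]
      exact commutatorElement_one_right _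
  | append_singleton l y ih =>
    have e : l₁ ++ 1 :: (l ++ [y]) = (l₁ ++ 1 :: l) ++ [y] := by simp
    rw [e, lcom_snoc _ (by simp) y, ih]
    exact commutatorElement_one_left _

private theorem ga4_c1 (H : Subgroup G) {i : ℕ} {u y : G} (hu : u ∈ gam H i) (hy : y ∈ H) :
    ⁅u, y⁆ ∈ gam H (i + 1) := by
  show ⁅u, y⁆ ∈ ⁅gam H i, H⁆
  exact Subgroup.commutator_mem_commutator hu hy

private theorem ga4_c0 (H : Subgroup G) {i : ℕ} {u y : G} (hu : u ∈ gam H i) (hy : y ∈ H) :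
    ⁅y, u⁆ ∈ gam H (i + 1) := by
  have h := (gam H (i + 1)).inv_mem (ga4_c1 H hu hy)
  rwa [commutatorElement_inv] at h

theorem lcom_lin {H : Subgroup G} {l₁ l₂ : List G} {a b : G} (h₁ : ∀ y ∈ l₁, y ∈ H)
    (h₂ : ∀ y ∈ l₂, y ∈ H) (ha : a ∈ H) (hb : b ∈ H) :
    lcom (l₁ ++ (a * b) :: l₂) * (lcom (l₁ ++ a :: l₂) * lcom (l₁ ++ b :: l₂))⁻¹ ∈
      gam H (l₁.length + l₂.length + 1) := by
  have key : ∀ (i : ℕ) (c d y : G), c ∈ gam H i → d ∈ gam H i → y ∈ H →
      ⁅c * d, y⁆ * (⁅c, y⁆ * ⁅d, y⁆)⁻¹ ∈ gam H (i + 2) := by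
    intro i c d y hc hd hy
    have h1 : ⁅c, y⁆ ∈ gam H (i + 1) := ga4_c1 H hc hy
    have h2 : ⁅d, y⁆ ∈ gam H (i + 1) := ga4_c1 H hd hy
    have h3 : ⁅c, ⁅d, y⁆⁆ ∈ gam H (i + 2) := ga4_c0 H h2 (gam_le H i hc)
    have h4 : ⁅⁅d, y⁆, ⁅c, y⁆⁆ ∈ gam H (i + 2) := ga4_c1 H h2 (gam_le H (i + 1) h1)
    have e : ⁅c * d, y⁆ * (⁅c, y⁆ * ⁅d, y⁆)⁻¹ = ⁅c, ⁅d, y⁆⁆ * ⁅⁅d, y⁆, ⁅c, y⁆⁆ := by
      simp only [commutatorElement_def]
      simp only [mul_inv_rev, inv_inv, mul_assoc, inv_mul_cancel_left, mul_inv_cancel_left,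
        mul_inv_cancel, inv_mul_cancel, mul_one, one_mul]
    rw [e]
    exact mul_mem h3 h4
  induction l₂ using List.reverseRecOn with
  | nil =>
    by_cases h0 : l₁ = []
    · subst h0
      have e : lcom ([] ++ [a * b]) * (lcom ([] ++ [a]) * lcom ([] ++ [b]))⁻¹ = 1 := by
        show a * b * (a * b)⁻¹ = 1
        exact mul_inv_cancel _
      rw [e]
      exact one_mem _
    · have hpos : 0 < l₁.length := List.length_pos_iff.2 h0
      rw [lcom_snoc l₁ h0 (a * b), lcom_snoc l₁ h0 a, lcom_snoc l₁ h0 b]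
      have hv := lcom_mem h₁
      have h1 : ⁅lcom l₁, a⁆ ∈ H := gam_le H _ (ga4_c1 H hv ha)
      have h2 : ⁅a, ⁅lcom l₁, b⁆⁆ ∈ gam H (l₁.length + ([] : List G).length + 1) := by
        have h3 := ga4_c0 H (ga4_c1 H hv hb) ha
        refine gam_anti H ?_ h3
        rw [List.length_nil]
        omega
      have e : ⁅lcom l₁, a * b⁆ * (⁅lcom l₁, a⁆ * ⁅lcom l₁, b⁆)⁻¹ =
          ⁅lcom l₁, a⁆ * ⁅a, ⁅lcom l₁, b⁆⁆ * ⁅lcom l₁, a⁆⁻¹ := by
        simp only [commutatorElement_def]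
        simp only [mul_inv_rev, inv_inv, mul_assoc, inv_mul_cancel_left, mul_inv_cancel_left,
          mul_inv_cancel, inv_mul_cancel, mul_one, one_mul]
      rw [e]
      exact gam_norm H _ h1 h2
  | append_singleton l y ih =>
    have hy : y ∈ H := h₂ y (by simp)
    have hl : ∀ z ∈ l, z ∈ H := fun z hz => h₂ z (by simp [hz])
    have hE := ih hl
    have e : ∀ c : G, lcom (l₁ ++ c :: (l ++ [y])) = ⁅lcom (l₁ ++ c :: l), y⁆ := by
      intro c
      have e1 : l₁ ++ c :: (l ++ [y]) = (l₁ ++ c :: l) ++ [y] := by simp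
      rw [e1, lcom_snoc _ (by simp) y]
    have hm : ∀ c ∈ H, lcom (l₁ ++ c :: l) ∈ gam H (l₁.length + l.length) := by
      intro c hc
      have h3 : ∀ z ∈ l₁ ++ c :: l, z ∈ H := by
        intro z hz
        rw [List.mem_append, List.mem_cons] at hz
        rcases hz with hz | rfl | hz
        · exact h₁ z hz
        · exact hc
        · exact hl z hz
      refine gam_anti H ?_ (lcom_mem h3)
      rw [List.length_append, List.length_cons]
      omega
    rw [e, e, e]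
    have hA := hm a ha
    have hB := hm b hb
    have hlen : l₁.length + (l ++ [y]).length + 1 = l₁.length + l.length + 2 := by
      rw [List.length_append, List.length_singleton]
      omega
    rw [hlen]
    generalize lcom (l₁ ++ (a * b) :: l) = U at *
    generalize lcom (l₁ ++ a :: l) = A at *
    generalize lcom (l₁ ++ b :: l) = B at *
    generalize l₁.length + l.length = m at *
    have hE' : U * (A * B)⁻¹ ∈ gam H m := gam_succ_le H m hE
    have k1 := key m (U * (A * B)⁻¹) (A * B) y hE' (mul_mem hA hB) hy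
    have k2 := key m A B y hA hB hy
    have k3 : ⁅U * (A * B)⁻¹, y⁆ ∈ gam H (m + 2) := ga4_c1 H hE hy
    have e2 : U * (A * B)⁻¹ * (A * B) = U := inv_mul_cancel_right _ _
    rw [e2] at k1
    have e3 : ⁅U, y⁆ * (⁅A, y⁆ * ⁅B, y⁆)⁻¹ =
        (⁅U, y⁆ * (⁅U * (A * B)⁻¹, y⁆ * ⁅A * B, y⁆)⁻¹) * ⁅U * (A * B)⁻¹, y⁆ *
          (⁅A * B, y⁆ * (⁅A, y⁆ * ⁅B, y⁆)⁻¹) := by
      generalize ⁅U, y⁆ = u1
      generalize ⁅U * (A * B)⁻¹, y⁆ = u2
      generalize ⁅A * B, y⁆ = u3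
      generalize ⁅A, y⁆ * ⁅B, y⁆ = u4
      simp only [mul_inv_rev, inv_inv, mul_assoc, inv_mul_cancel_left, mul_inv_cancel_left,
        mul_inv_cancel, inv_mul_cancel, mul_one, one_mul]
    rw [e3]
    exact mul_mem (mul_mem k1 k3) k2

end Pool.Agent.Work.MP_d3656f_al.GB
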