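import Mathlib
import Pool.Agent.Work.MP_d3656f_al.GB.Ga4

/-!
# GB/Ga5 : generation of the lower central series

`gam H k` (`H` generated by `S`) is generated modulo `gam H (k+1)` by the left normed commutators
of length `k+1` of elements of `S`. Induction on `k`; `k = 0` is clear. Step: let `u ∈ gam H k`,
`h ∈ H`. Modulo `gam H (k+2)` the commutator `⁅u, h⁆` is multiplicative in `u ∈ gam H k` and in
`h ∈ H`, it only depends on `u` modulo `gam H (k+1)`, and its values commute with each other and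
with `H`. So `⁅u, h⁆` is, modulo `gam H (k+2)`, a product of elements `⁅lcom l, s⁆^{±1}` with
`s ∈ S` (`lcom_snoc`). `gam H (k+1)` is generated by the `⁅u, h⁆`.
-/

set_option autoImplicit false

namespace Pool.Agent.Work.MP_d3656f_al.GB

open scoped commutatorElement

/-- the step, in terms of a subgroup `Q` which is stable under conjugation -/
private theorem ga5_step {G : Type*} [Group G] (H Q : Subgroup G)
    (hQ : ∀ g ∈ H, ∀ x ∈ Q, g * x * g⁻¹ ∈ Q) {T : Set G} (hT : T ⊆ H)
    (hTQ : ∀ v ∈ T, ∀ h ∈ H, ⁅v, h⁆ ∈ Q) {u : G} (hu : u ∈ Subgroup.closure T) {h : G}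
    (hh : h ∈ H) : ⁅u, h⁆ ∈ Q := by
  have hTH : Subgroup.closure T ≤ H := (Subgroup.closure_le _).2 hT
  revert h
  induction hu using Subgroup.closure_induction with
  | mem x hx =>
    intro h hh
    exact hTQ x hx h hh
  | one =>
    intro h _
    rw [commutatorElement_one_left]
    exact one_mem _
  | mul x y hx hy ihx ihy =>
    intro h hh
    have e : ⁅x * y, h⁆ = (x * ⁅y, h⁆ * x⁻¹) * ⁅x, h⁆ := by
      rw [commutatorElement_def, commutatorElement_def, commutatorElement_def]
      group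
    rw [e]
    exact mul_mem (hQ x (hTH hx) _ (ihy hh)) (ihx hh)
  | inv x hx ihx =>
    intro h hh
    have e : ⁅x⁻¹, h⁆ = x⁻¹ * ⁅x, h⁆⁻¹ * (x⁻¹)⁻¹ := by
      rw [commutatorElement_def, commutatorElement_def]
      group
    rw [e]
    exact hQ _ (inv_mem (hTH hx)) _ (inv_mem (ihx hh))

private theorem ga5_step' {G : Type*} [Group G] (S : Set G) (Q : Subgroup G)
    (hQ : ∀ g ∈ Subgroup.closure S, ∀ x ∈ Q, g * x * g⁻¹ ∈ Q) {v : G}
    (hv : ∀ s ∈ S, ⁅v, s⁆ ∈ Q) {h : G} (hh : h ∈ Subgroup.closure S) : ⁅v, h⁆ ∈ Q := by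
  induction hh using Subgroup.closure_induction with
  | mem x hx => exact hv x hx
  | one =>
    rw [commutatorElement_one_right]
    exact one_mem _
  | mul x y hx hy ihx ihy =>
    have e : ⁅v, x * y⁆ = ⁅v, x⁆ * (x * ⁅v, y⁆ * x⁻¹) := by
      rw [commutatorElement_def, commutatorElement_def, commutatorElement_def]
      group
    rw [e]
    exact mul_mem ihx (hQ x hx _ ihy)
  | inv x hx ihx =>
    have e : ⁅v, x⁻¹⁆ = x⁻¹ * ⁅v, x⁆⁻¹ * (x⁻¹)⁻¹ := by
      rw [commutatorElement_def, commutatorElement_def]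
      group
    rw [e]
    exact hQ _ (inv_mem hx) _ (inv_mem ihx)

theorem gam_gen {G : Type*} [Group G] (S : Set G) (k : ℕ) :
    gam (Subgroup.closure S) k ≤
      Subgroup.closure {u | ∃ l : List G, l.length = k + 1 ∧ (∀ y ∈ l, y ∈ S) ∧ u = lcom l} ⊔
        gam (Subgroup.closure S) (k + 1) := by
  set H := Subgroup.closure S with hH
  have hlH : ∀ l : List G, (∀ y ∈ l, y ∈ S) → lcom l ∈ H := fun l hl =>
    gam_le _ _ (lcom_mem (H := H) fun y hy => Subgroup.subset_closure (hl y hy))
  induction k with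
  | zero =>
    refine le_trans ?_ le_sup_left
    show H ≤ _
    rw [hH]
    refine Subgroup.closure_mono fun s hs => ?_
    exact ⟨[s], rfl, fun y hy => by
      rw [List.mem_singleton] at hy
      rw [hy]
      exact hs, rfl⟩
  | succ k ih =>
    set T : Set G := {u | ∃ l : List G, l.length = k + 1 ∧ (∀ y ∈ l, y ∈ S) ∧ u = lcom l} with hT
    set T' : Set G := {u | ∃ l : List G, l.length = k + 1 + 1 ∧ (∀ y ∈ l, y ∈ S) ∧ u = lcom l}
      with hT'
    set Q : Subgroup G := Subgroup.closure T' ⊔ gam H (k + 1 + 1) with hQd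
    have hT'g : Subgroup.closure T' ≤ gam H (k + 1) := by
      refine (Subgroup.closure_le _).2 ?_
      rintro u ⟨l, hl, hlS, rfl⟩
      have := lcom_mem (H := H) (l := l) fun y hy => Subgroup.subset_closure (hlS y hy)
      rw [hl] at this
      exact this
    have hQg : Q ≤ gam H (k + 1) := sup_le hT'g (gam_succ_le H (k + 1))
    have hQ : ∀ g ∈ H, ∀ x ∈ Q, g * x * g⁻¹ ∈ Q := by
      intro g hg x hx
      have e : g * x * g⁻¹ = ⁅x, g⁆⁻¹ * x := by
        rw [commutatorElement_def]
        group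
      rw [e]
      refine mul_mem (inv_mem ?_) hx
      exact (le_sup_right : gam H (k + 1 + 1) ≤ Q)
        (Subgroup.commutator_mem_commutator (hQg hx) hg)
    have hTH : T ⊆ H := by
      rintro u ⟨l, _, hlS, rfl⟩
      exact hlH l hlS
    have hTQ : ∀ v ∈ T, ∀ h ∈ H, ⁅v, h⁆ ∈ Q := by
      rintro v ⟨l, hl, hlS, rfl⟩ h hh
      refine ga5_step' S Q hQ (fun s hs => ?_) hh
      have hl0 : l ≠ [] := by
        rintro rfl
        simp at hl
      rw [← lcom_snoc l hl0 s]
      refine (le_sup_left : Subgroup.closure T' ≤ Q) (Subgroup.subset_closure ?_)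
      refine ⟨l ++ [s], by simp [hl], fun y hy => ?_, rfl⟩
      rcases List.mem_append.1 hy with h | h
      · exact hlS y h
      · rw [List.mem_singleton] at h
        rw [h]
        exact hs
    have hR : ∀ u ∈ gam H k, ∀ h ∈ H, ⁅u, h⁆ ∈ Q := by
      intro u hu h hh
      have h1 : u ∈ Subgroup.closure (T ∪ (gam H (k + 1) : Set G)) := by
        rw [Subgroup.closure_union, Subgroup.closure_eq]
        exact ih hu
      refine ga5_step H Q hQ (T := T ∪ (gam H (k + 1) : Set G)) ?_ ?_ h1 hh
      · exact Set.union_subset hTH (fun x hx => gam_le _ _ hx)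
      · rintro v (hv | hv) h hh
        · exact hTQ v hv h hh
        · exact (le_sup_right : gam H (k + 1 + 1) ≤ Q)
            (Subgroup.commutator_mem_commutator hv hh)
    show ⁅gam H k, H⁆ ≤ Q
    rw [Subgroup.commutator_le]
    exact hR

end Pool.Agent.Work.MP_d3656f_al.GB
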