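import Mathlib
import Pool.Agent.Work.MP_d3656f_al.GB.DefsB
import Pool.Agent.Work.MP_d3656f_al.GB.Ga2
import Pool.Agent.Work.MP_d3656f_al.GB.Ga5

/-!
# GB/Gn : generation by multilinear commutators

Let `O` be the set of all `α (lcom (L.map xx))` with `Pr p α`, `L` a list without repetitions,
`L.length = d + 1`, `p ∉ L`. By `gam_gen` (with `S = {xx j | j ≠ p}`) it suffices to show: for
every list `L` of length `d + 1` with `p ∉ L` (repetitions allowed) `lcom (L.map xx)` is in
`closure O ⊔ gam (Av {p}) (d+1)`. Induction on `d + 1 - L.toFinset.card`. If `L` has no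
repetition it is in `O`. Otherwise write `L = L₁ ++ j :: L₂` with `j ∈ L₁ ++ L₂`, and choose
`m ≠ p`, `m ∉ L` (`L.toFinset.card ≤ d`, `d + 2 ≤ n`). Let `L' = L₁ ++ m :: L₂`, which has more
different entries. Apply `α = rho m (xx j)` (`Pr p`, `xx m ↦ xx m * xx j`, fixes the entries of
`L₁`, `L₂`): `α (lcom (L'.map xx)) = lcom (.. ++ (xx m * xx j) :: ..) ≡
lcom (L'.map xx) * lcom (L.map xx)` modulo `gam (Av {p}) (d+1)` (`lcom_lin`). The group
`closure O ⊔ gam (Av {p}) (d+1)` is mapped into itself by every `α` with `Pr p α` (`aut_gam`).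
-/

set_option autoImplicit false

namespace Pool.Agent.Work.MP_d3656f_al.GB

open scoped commutatorElement

private theorem gn_dup {α : Type*} [DecidableEq α] : ∀ L : List α, ¬ L.Nodup →
    ∃ (L₁ : List α) (j : α) (L₂ : List α), L = L₁ ++ j :: L₂ ∧ j ∈ L₂
  | [], h => absurd List.nodup_nil h
  | a :: l, h => by
    by_cases ha : a ∈ l
    · exact ⟨[], a, l, rfl, ha⟩
    · have h1 : ¬ l.Nodup := fun h2 => h (List.nodup_cons.2 ⟨ha, h2⟩)
      obtain ⟨L₁, j, L₂, h3, h4⟩ := gn_dup l h1
      exact ⟨a :: L₁, j, L₂, by rw [h3]; rfl, h4⟩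

private theorem gn_lift {n : ℕ} {p : Fin n} : ∀ l : List (FF n),
    (∀ y ∈ l, y ∈ {y : FF n | ∃ j, j ∉ ({p} : Finset (Fin n)) ∧ y = xx j}) →
    ∃ L : List (Fin n), l = L.map xx ∧ p ∉ L
  | [], _ => ⟨[], rfl, by simp⟩
  | a :: l, h => by
    obtain ⟨L, h1, h2⟩ := gn_lift l fun y hy => h y (List.mem_cons_of_mem _ hy)
    obtain ⟨j, hj, h3⟩ := h a List.mem_cons_self
    refine ⟨j :: L, by rw [h1, h3]; rfl, ?_⟩
    rw [List.mem_cons, not_or]
    exact ⟨fun h4 => hj (by simp [h4]), h2⟩

/-- The generating set. -/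
private def gnO {n : ℕ} (p : Fin n) (d : ℕ) : Set (FF n) :=
  {u : FF n | ∃ (α : MulAut (FF n)) (L : List (Fin n)),
    Pr p α ∧ L.Nodup ∧ L.length = d + 1 ∧ p ∉ L ∧ u = α (lcom (L.map xx))}

private theorem gn_aut {n : ℕ} {p : Fin n} {d : ℕ} {α : MulAut (FF n)} (hα : Pr p α) {u : FF n}
    (hu : u ∈ Subgroup.closure (gnO p d) ⊔ gam (Av {p}) (d + 1)) :
    α u ∈ Subgroup.closure (gnO p d) ⊔ gam (Av {p}) (d + 1) := by
  have h1 : Subgroup.closure (gnO p d) ⊔ gam (Av {p}) (d + 1) ≤
      (Subgroup.closure (gnO p d) ⊔ gam (Av {p}) (d + 1)).comap α.toMonoidHom := by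
    refine sup_le ?_ ?_
    · refine (Subgroup.closure_le _).2 ?_
      rintro y ⟨β, L, hβ, hL1, hL2, hL3, rfl⟩
      exact (le_sup_left : _ ≤ Subgroup.closure (gnO p d) ⊔ gam (Av {p}) (d + 1))
        (Subgroup.subset_closure ⟨α * β, L, hα.mul hβ, hL1, hL2, hL3, rfl⟩)
    · intro y hy
      exact (le_sup_right : _ ≤ Subgroup.closure (gnO p d) ⊔ gam (Av {p}) (d + 1))
        (aut_gam (S := {p}) (T := {p}) (fun j hj => hα.map _ (xx_mem_Av hj)) (d + 1) hy)
  exact h1 hu

private theorem gn_key {n : ℕ} {p : Fin n} {d : ℕ} (hn : d + 2 ≤ n) : ∀ (c : ℕ)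
    (L : List (Fin n)), d + 1 - L.toFinset.card ≤ c → L.length = d + 1 → p ∉ L →
    lcom (L.map xx) ∈ Subgroup.closure (gnO p d) ⊔ gam (Av {p}) (d + 1) := by
  intro c
  induction c with
  | zero =>
    intro L hc hL hp
    have h1 : L.Nodup := by
      by_contra h
      obtain ⟨L₁, j, L₂, h3, h4⟩ := gn_dup L h
      have h5 : L.toFinset = (L₁ ++ L₂).toFinset := by
        ext k
        rw [h3]
        simp only [List.mem_toFinset, List.mem_append, List.mem_cons]
        constructor
        · rintro (h | rfl | h)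
          · exact Or.inl h
          · exact Or.inr h4
          · exact Or.inr h
        · rintro (h | h)
          · exact Or.inl h
          · exact Or.inr (Or.inr h)
      have h6 := List.toFinset_card_le (L₁ ++ L₂)
      rw [← h5, List.length_append] at h6
      have h7 : L.length = L₁.length + L₂.length + 1 := by
        rw [h3, List.length_append, List.length_cons]
        omega
      omega
    exact (le_sup_left : _ ≤ Subgroup.closure (gnO p d) ⊔ gam (Av {p}) (d + 1))
      (Subgroup.subset_closure ⟨1, L, pr_one p, h1, hL, hp, rfl⟩)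
  | succ c ih =>
    intro L hc hL hp
    by_cases h1 : L.Nodup
    · exact (le_sup_left : _ ≤ Subgroup.closure (gnO p d) ⊔ gam (Av {p}) (d + 1))
        (Subgroup.subset_closure ⟨1, L, pr_one p, h1, hL, hp, rfl⟩)
    obtain ⟨L₁, j, L₂, h3, h4⟩ := gn_dup L h1
    have h5 : L.toFinset = (L₁ ++ L₂).toFinset := by
      ext k
      rw [h3]
      simp only [List.mem_toFinset, List.mem_append, List.mem_cons]
      constructor
      · rintro (h | rfl | h)
        · exact Or.inl h
        · exact Or.inr h4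
        · exact Or.inr h
      · rintro (h | h)
        · exact Or.inl h
        · exact Or.inr (Or.inr h)
    have h6 := List.toFinset_card_le (L₁ ++ L₂)
    rw [← h5, List.length_append] at h6
    have h7 : L.length = L₁.length + L₂.length + 1 := by
      rw [h3, List.length_append, List.length_cons]
      omega
    -- a new index
    obtain ⟨m, hm⟩ : ∃ m : Fin n, m ∉ insert p L.toFinset := by
      by_contra hcon
      push Not at hcon
      have h8 : insert p L.toFinset = Finset.univ := Finset.eq_univ_iff_forall.2 hcon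
      have h9 := Finset.card_insert_le p L.toFinset
      rw [h8, Finset.card_univ, Fintype.card_fin] at h9
      omega
    rw [Finset.mem_insert, not_or, List.mem_toFinset] at hm
    obtain ⟨hmp, hmL⟩ := hm
    have hmL' : m ∉ L₁ ∧ m ≠ j ∧ m ∉ L₂ := by
      rw [h3] at hmL
      simpa [not_or] using hmL
    have hpL' : p ∉ L₁ ∧ p ≠ j ∧ p ∉ L₂ := by
      rw [h3] at hp
      simpa [not_or] using hp
    -- the list with the new index
    have hA : lcom ((L₁ ++ m :: L₂).map xx) ∈
        Subgroup.closure (gnO p d) ⊔ gam (Av {p}) (d + 1) := by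
      refine ih _ ?_ ?_ ?_
      · have h8 : (L₁ ++ m :: L₂).toFinset = insert m (L₁ ++ L₂).toFinset := by
          ext k
          simp only [List.mem_toFinset, List.mem_append, List.mem_cons, Finset.mem_insert]
          tauto
        rw [h8, Finset.card_insert_of_notMem (by
          rw [← h5, List.mem_toFinset]
          exact hmL), ← h5]
        omega
      · rw [List.length_append, List.length_cons]
        omega
      · simp only [List.mem_append, List.mem_cons, not_or]
        exact ⟨hpL'.1, fun h => hmp h.symm, hpL'.2.2⟩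
    have hjm : (xx j : FF n) ∈ Av {p, m} :=
      xx_mem_Av (by simp [hpL'.2.1.symm, hmL'.2.1.symm])
    have hα : Pr p (rho m (xx j)) := pr_rho (fun h => hmp h.symm) hjm
    have hX := gn_aut hα hA
    have hfix : ∀ l : List (Fin n), m ∉ l →
        (l.map xx).map (rho m (xx j)).toMonoidHom = l.map xx := by
      intro l hl
      rw [List.map_map]
      refine List.map_congr_left fun k hk => ?_
      exact rho_ne _ fun h => hl (h ▸ hk)
    have hX2 : rho m (xx j) (lcom ((L₁ ++ m :: L₂).map xx)) =
        lcom (L₁.map xx ++ (xx m * xx j) :: L₂.map xx) := by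
      have h8 := lcom_map (rho m (xx j)).toMonoidHom ((L₁ ++ m :: L₂).map xx)
      rw [List.map_append, List.map_cons, List.map_append, List.map_cons, hfix _ hmL'.1,
        hfix _ hmL'.2.2] at h8
      have h9 : (rho m (xx j)).toMonoidHom (xx m) = xx m * xx j :=
        rho_self (xx_mem_Av (by simpa using hmL'.2.1.symm))
      rw [h9] at h8
      rw [List.map_append, List.map_cons]
      exact h8
    have hlin := lcom_lin (H := Av {p}) (l₁ := L₁.map xx) (l₂ := L₂.map xx) (a := xx m)
      (b := xx j) (fun y hy => by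
        obtain ⟨k, hk, rfl⟩ := List.mem_map.1 hy
        exact xx_mem_Av (by
          rw [Finset.mem_singleton]
          exact fun h => hpL'.1 (h ▸ hk))) (fun y hy => by
        obtain ⟨k, hk, rfl⟩ := List.mem_map.1 hy
        exact xx_mem_Av (by
          rw [Finset.mem_singleton]
          exact fun h => hpL'.2.2 (h ▸ hk))) (xx_mem_Av (by simpa using hmp))
      (xx_mem_Av (by simpa using hpL'.2.1.symm))
    rw [List.length_map, List.length_map] at hlin
    have hd : L₁.length + L₂.length + 1 = d + 1 := by omega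
    rw [hd, ← hX2] at hlin
    have hA' : lcom (L₁.map xx ++ xx m :: L₂.map xx) ∈
        Subgroup.closure (gnO p d) ⊔ gam (Av {p}) (d + 1) := by
      rw [List.map_append, List.map_cons] at hA
      exact hA
    have hE := (le_sup_right : _ ≤ Subgroup.closure (gnO p d) ⊔ gam (Av {p}) (d + 1)) hlin
    have hL3 : lcom (L.map xx) = lcom (L₁.map xx ++ xx j :: L₂.map xx) := by
      rw [h3, List.map_append, List.map_cons]
    rw [hL3]
    have h10 : lcom (L₁.map xx ++ xx j :: L₂.map xx) =
        (lcom (L₁.map xx ++ xx m :: L₂.map xx))⁻¹ *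
        (rho m (xx j) (lcom ((L₁ ++ m :: L₂).map xx)) *
          (lcom (L₁.map xx ++ xx m :: L₂.map xx) *
            lcom (L₁.map xx ++ xx j :: L₂.map xx))⁻¹)⁻¹ *
        rho m (xx j) (lcom ((L₁ ++ m :: L₂).map xx)) := by group
    rw [h10]
    exact mul_mem (mul_mem (inv_mem hA') (inv_mem hE)) hX

theorem gn {n : ℕ} {p : Fin n} {d : ℕ} (hn : d + 2 ≤ n) :
    gam (Av {p}) d ≤ Subgroup.closure {u : FF n | ∃ (α : MulAut (FF n)) (L : List (Fin n)),
      Pr p α ∧ L.Nodup ∧ L.length = d + 1 ∧ p ∉ L ∧ u = α (lcom (L.map xx))} ⊔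
        gam (Av {p}) (d + 1) := by
  have h1 := gam_gen {y : FF n | ∃ j, j ∉ ({p} : Finset (Fin n)) ∧ y = xx j} d
  refine le_trans h1 (sup_le ?_ ?_)
  · refine (Subgroup.closure_le _).2 ?_
    rintro u ⟨l, hl, hl2, rfl⟩
    obtain ⟨L, h2, h3⟩ := gn_lift l hl2
    rw [h2]
    exact gn_key hn _ L le_rfl (by rw [← hl, h2, List.length_map]) h3
  · exact le_sup_right

end Pool.Agent.Work.MP_d3656f_al.GB
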