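import Mathlib
import Pool.Agent.Work.MP_d3656f_al.I.Deg
import Pool.Agent.Work.MP_d3656f_al.B.StepB

/-!
# GB/Hu1 : the degree of an automorphism

`dgr Φ` is the augmentation of the element `c` of a chosen chain map (`td_ex`). The private lemmas at
the beginning of `I/Deg.lean` (augmentation is multiplicative, `eps (mapR Φ x) = eps x`,
composition of `mapR`, the identity chain map) have to be copied, they are private there.
* `dgr_eq`: `deg_indep`.
* `dgr_mul`: the composition of chain maps as in the proof of `deg_le`: for `T : TD Φ` and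
  `T' : TD Ψ` the data `W'' l k = Σ_j mapR Ψ (W l j) * W' j k`, `c'' = mapR Ψ c * c'` form a chain
  map over `Ψ * Φ`.
* `dgr_one`: the identity chain map. `dgr_unit`: `dgr Φ * dgr Φ⁻¹ = 1`.
* `dgr_conj`: by `fox_path` there are `w k` with `Σ_k w k * (sg k - 1) = γ - 1`; put `y k = - w k`.
  The chain map over `conj γ` with `W j k = δ_{jk} γ + (γ (sg j) γ⁻¹ - 1) * y k` and
  `c = single γ 1`: `Σ_k W j k * (sg k - 1) = γ (sg j - 1) + (γ (sg j) γ⁻¹ - 1)(1 - γ)
  = γ (sg j) γ⁻¹ - 1`; `mapR (conj γ) x = γ * x * γ⁻¹` (in the group ring, `single γ 1 * x *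
  single γ⁻¹ 1`), so `Σ_j mapR (conj γ) (fD j) * W j k = γ fD k + γ (Σ_j fD j (sg j - 1)) γ⁻¹ y k
  = γ fD k` by `sum_fD`.
* `dgr_cls`: `cls_eq_iff`, `dgr_mul`, `dgr_conj`.
-/

set_option autoImplicit false

namespace Pool.Agent.Work.MP_d3656f_al.GB

noncomputable def dgr {g : ℕ} (Φ : MulAut (SG g)) : ℤ := eps (Classical.choice (td_ex Φ)).c

theorem dgr_eq {g : ℕ} [Infinite (SG g)] {Φ : MulAut (SG g)} (T : TD Φ) : eps T.c = dgr Φ := by
  sorry

theorem dgr_mul {g : ℕ} [Infinite (SG g)] (Φ Ψ : MulAut (SG g)) : dgr (Φ * Ψ) = dgr Φ * dgr Ψ := by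
  sorry

theorem dgr_one {g : ℕ} [Infinite (SG g)] : dgr (1 : MulAut (SG g)) = 1 := by
  sorry

theorem dgr_unit {g : ℕ} [Infinite (SG g)] (Φ : MulAut (SG g)) : dgr Φ = 1 ∨ dgr Φ = -1 := by
  sorry

theorem dgr_conj {g : ℕ} [Infinite (SG g)] (γ : SG g) : dgr (MulAut.conj γ) = 1 := by
  sorry

theorem dgr_cls {g : ℕ} [Infinite (SG g)] {Φ Ψ : MulAut (SG g)} (h : cls Φ = cls Ψ) :
    dgr Φ = dgr Ψ := by
  sorry

end Pool.Agent.Work.MP_d3656f_al.GB
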