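import Mathlib

/-!
# GB/Hu10 : the arithmetic of the Riemann-Hurwitz formula (PURE arithmetic)

Divide by `N` (`m i ∣ N`, work with rational numbers): `χ = (2 g - 2) / N = d - 2 +
Σ (1 - 1 / m i) > 0`. Claim: `χ ≥ 1 / 42`; then `N ≤ 42 (2 g - 2)`.
* `d ≥ 3`: `χ ≥ 1`. `d = 2`: `r ≥ 1`, `χ ≥ 1/2`.
* `d = 1`: `r ≥ 2`; `r ≥ 3`: `χ ≥ 1/2`; `r = 2`: not both `m i` are `2`, so `χ ≥ 1 - 1/2 - 1/3 = 1/6`.
* `d = 0`: `r ≥ 3`; `r ≥ 5`: `χ ≥ 1/2`; `r = 4`: not all `m i` are `2`: `χ ≥ 2 - 3/2 - 1/3 = 1/6`;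
  `r = 3`: `1 - 1/a - 1/b - 1/c > 0` with (up to order) `a ≤ b ≤ c`: if `a ≥ 3` then `(3,3,3)` is
  excluded and `χ ≥ 1 - 1/3 - 1/3 - 1/4 = 1/12`; if `a = 2` then `b ≥ 3`; `b = 3`: `c ≥ 7`,
  `χ ≥ 1/42`; `b = 4`: `c ≥ 5`, `χ ≥ 1/20`; `b ≥ 5`: `χ ≥ 1/2 - 2/5 = 1/10`.
-/

set_option autoImplicit false

namespace Pool.Agent.Work.MP_d3656f_al.GB


private theorem hu10_inv {c k : ℕ} (hk : 1 ≤ k) (h : k ≤ c) : (1 : ℚ) / c ≤ 1 / k := by
  have h1 : (0 : ℚ) < k := by exact_mod_cast hk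
  have h2 : (k : ℚ) ≤ c := by exact_mod_cast h
  exact one_div_le_one_div_of_le h1 h2

private theorem hu10_tri_sorted {a b c : ℕ} (ha : 2 ≤ a) (hab : a ≤ b) (hbc : b ≤ c)
    (h : (0 : ℚ) < 1 - 1 / a - 1 / b - 1 / c) : (1 : ℚ) / 42 ≤ 1 - 1 / a - 1 / b - 1 / c := by
  have key : ∀ k : ℕ, 1 ≤ k → k ≤ a → (1 : ℚ) / a ≤ 1 / k := fun k h1 h2 => hu10_inv h1 h2
  have keyb : ∀ k : ℕ, 1 ≤ k → k ≤ b → (1 : ℚ) / b ≤ 1 / k := fun k h1 h2 => hu10_inv h1 h2
  have keyc : ∀ k : ℕ, 1 ≤ k → k ≤ c → (1 : ℚ) / c ≤ 1 / k := fun k h1 h2 => hu10_inv h1 h2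
  rcases Nat.lt_or_ge a 4 with ha4 | ha4
  · have ha' : a = 2 ∨ a = 3 := by omega
    rcases ha' with rfl | rfl
    · -- a = 2
      rcases Nat.lt_or_ge b 6 with hb6 | hb6
      · have hb' : b = 2 ∨ b = 3 ∨ b = 4 ∨ b = 5 := by omega
        rcases hb' with rfl | rfl | rfl | rfl
        · exfalso
          have : (0 : ℚ) ≤ 1 / c := by positivity
          norm_num at h
          norm_num at this
          linarith
        · have hc : 7 ≤ c := by
            by_contra hc
            have hc' : c = 3 ∨ c = 4 ∨ c = 5 ∨ c = 6 := by omega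
            rcases hc' with rfl | rfl | rfl | rfl <;> norm_num at h
          have := keyc 7 (by norm_num) hc
          push_cast at this ⊢
          linarith
        · have hc : 5 ≤ c := by
            by_contra hc
            have hc' : c = 4 := by omega
            subst hc'
            norm_num at h
          have := keyc 5 (by norm_num) hc
          push_cast at this ⊢
          linarith
        · have := keyc 5 (by norm_num) (by omega)
          push_cast at this ⊢
          linarith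
      · have h1 := keyb 6 (by norm_num) hb6
        have h2 := keyc 6 (by norm_num) (by omega)
        push_cast at h1 h2 ⊢
        linarith
    · -- a = 3
      rcases Nat.lt_or_ge b 4 with hb4 | hb4
      · have hb' : b = 3 := by omega
        subst hb'
        have hc : 4 ≤ c := by
          by_contra hc
          have hc' : c = 3 := by omega
          subst hc'
          norm_num at h
        have := keyc 4 (by norm_num) hc
        push_cast at this ⊢
        linarith
      · have h1 := keyb 4 (by norm_num) hb4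
        have h2 := keyc 4 (by norm_num) (by omega)
        push_cast at h1 h2 ⊢
        linarith
  · have h0 := key 4 (by norm_num) ha4
    have h1 := keyb 4 (by norm_num) (by omega)
    have h2 := keyc 4 (by norm_num) (by omega)
    push_cast at h0 h1 h2 ⊢
    linarith

private theorem hu10_tri {a b c : ℕ} (ha : 2 ≤ a) (hb : 2 ≤ b) (hc : 2 ≤ c)
    (h : (0 : ℚ) < 1 - 1 / a - 1 / b - 1 / c) : (1 : ℚ) / 42 ≤ 1 - 1 / a - 1 / b - 1 / c := by
  rcases le_total a b with hab | hab <;> rcases le_total b c with hbc | hbc <;>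
    rcases le_total a c with hac | hac
  · exact hu10_tri_sorted ha hab hbc h
  · exact hu10_tri_sorted ha hab hbc h
  · have := hu10_tri_sorted ha hac hbc (by linarith)
    linarith
  · have := hu10_tri_sorted hc hac hab (by linarith)
    linarith
  · have := hu10_tri_sorted hb hab hac (by linarith)
    linarith
  · have := hu10_tri_sorted hb hbc hac (by linarith)
    linarith
  · have := hu10_tri_sorted hc hbc hab (by linarith)
    linarith
  · have := hu10_tri_sorted hc hbc hab (by linarith)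
    linarith

private theorem hu10_chi {d r : ℕ} (m : Fin r → ℕ) (hm : ∀ i, 2 ≤ m i)
    (h : (0 : ℚ) < (d : ℚ) - 2 + ∑ i, (1 - 1 / (m i : ℚ))) :
    (1 : ℚ) / 42 ≤ (d : ℚ) - 2 + ∑ i, (1 - 1 / (m i : ℚ)) := by
  have hlow : (r : ℚ) / 2 ≤ ∑ i, (1 - 1 / (m i : ℚ)) := by
    have h1 : ∑ _i : Fin r, (1 / 2 : ℚ) ≤ ∑ i, (1 - 1 / (m i : ℚ)) := by
      refine Finset.sum_le_sum fun i _ => ?_
      have := hu10_inv (by norm_num : 1 ≤ 2) (hm i)
      push_cast at this
      linarith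
    have h2 : ∑ _i : Fin r, (1 / 2 : ℚ) = (r : ℚ) / 2 := by
      rw [Finset.sum_const, Finset.card_univ, Fintype.card_fin, nsmul_eq_mul]
      ring
    linarith
  have hup : ∑ i, (1 - 1 / (m i : ℚ)) ≤ (r : ℚ) := by
    have h1 : ∑ i, (1 - 1 / (m i : ℚ)) ≤ ∑ _i : Fin r, (1 : ℚ) := by
      refine Finset.sum_le_sum fun i _ => ?_
      have : (0 : ℚ) ≤ 1 / (m i : ℚ) := by positivity
      linarith
    have h2 : ∑ _i : Fin r, (1 : ℚ) = (r : ℚ) := by
      rw [Finset.sum_const, Finset.card_univ, Fintype.card_fin, nsmul_eq_mul]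
      ring
    linarith
  rcases Nat.lt_or_ge (2 * d + r) 5 with h5 | h5
  · have h3 : 2 < d + r := by
      have : (0 : ℚ) < (d : ℚ) - 2 + r := by linarith
      have h' : (2 : ℚ) < (d : ℚ) + r := by linarith
      exact_mod_cast h'
    have hcase : (d = 1 ∧ r = 2) ∨ (d = 0 ∧ r = 3) ∨ (d = 0 ∧ r = 4) := by omega
    rcases hcase with ⟨rfl, rfl⟩ | ⟨rfl, rfl⟩ | ⟨rfl, rfl⟩
    · rw [Fin.sum_univ_two] at h ⊢
      have h0 := hu10_inv (by norm_num : 1 ≤ 2) (hm 0)
      have h1 := hu10_inv (by norm_num : 1 ≤ 2) (hm 1)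
      push_cast at h0 h1 h ⊢
      have hne : 3 ≤ m 0 ∨ 3 ≤ m 1 := by
        by_contra hcon
        push Not at hcon
        have e0 : m 0 = 2 := by have := hm 0; omega
        have e1 : m 1 = 2 := by have := hm 1; omega
        rw [e0, e1] at h
        norm_num at h
      rcases hne with hh | hh
      · have := hu10_inv (by norm_num : 1 ≤ 3) hh
        push_cast at this
        linarith
      · have := hu10_inv (by norm_num : 1 ≤ 3) hh
        push_cast at this
        linarith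
    · rw [Fin.sum_univ_three] at h ⊢
      have := hu10_tri (hm 0) (hm 1) (hm 2) (by push_cast at h; linarith)
      push_cast
      linarith
    · rw [Fin.sum_univ_four] at h ⊢
      have h0 := hu10_inv (by norm_num : 1 ≤ 2) (hm 0)
      have h1 := hu10_inv (by norm_num : 1 ≤ 2) (hm 1)
      have h2 := hu10_inv (by norm_num : 1 ≤ 2) (hm 2)
      have h3 := hu10_inv (by norm_num : 1 ≤ 2) (hm 3)
      push_cast at h0 h1 h2 h3 h ⊢
      have hne : 3 ≤ m 0 ∨ 3 ≤ m 1 ∨ 3 ≤ m 2 ∨ 3 ≤ m 3 := by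
        by_contra hcon
        push Not at hcon
        have e0 : m 0 = 2 := by have := hm 0; omega
        have e1 : m 1 = 2 := by have := hm 1; omega
        have e2 : m 2 = 2 := by have := hm 2; omega
        have e3 : m 3 = 2 := by have := hm 3; omega
        rw [e0, e1, e2, e3] at h
        norm_num at h
      rcases hne with hh | hh | hh | hh <;>
      · have := hu10_inv (by norm_num : 1 ≤ 3) hh
        push_cast at this
        linarith
  · have : (5 : ℚ) ≤ 2 * (d : ℚ) + r := by exact_mod_cast h5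
    linarith

theorem hu_arith {N g d r : ℕ} (m : Fin r → ℕ) (hN : 1 ≤ N) (hg : 2 ≤ g)
    (hm : ∀ i, 2 ≤ m i ∧ m i ∣ N)
    (h : (2 * g - 2 : ℤ) = N * (d - 2) + ∑ i, ((N : ℤ) - ((N / m i : ℕ) : ℤ))) :
    N ≤ 84 * (g - 1) := by
  have hNpos : (0 : ℚ) < N := by exact_mod_cast hN
  have hterm : ∀ i, ((N / m i : ℕ) : ℚ) = (N : ℚ) * (1 / (m i : ℚ)) := by
    intro i
    have hmi : (m i : ℚ) ≠ 0 := by
      have := (hm i).1
      exact_mod_cast (by omega : m i ≠ 0)
    rw [Nat.cast_div (hm i).2 hmi]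
    ring
  have hq : (2 * (g : ℚ) - 2) = (N : ℚ) * ((d : ℚ) - 2 + ∑ i, (1 - 1 / (m i : ℚ))) := by
    have h1 : ((2 * g - 2 : ℤ) : ℚ)
        = ((N * (d - 2) + ∑ i, ((N : ℤ) - ((N / m i : ℕ) : ℤ)) : ℤ) : ℚ) := by rw [h]
    push_cast at h1
    rw [h1, mul_add, Finset.mul_sum]
    congr 1
    refine Finset.sum_congr rfl fun i _ => ?_
    have := hterm i
    have hmi : (m i : ℚ) ≠ 0 := by
      have := (hm i).1
      exact_mod_cast (by omega : m i ≠ 0)
    have h2 : (((N : ℤ) / (m i : ℤ) : ℤ) : ℚ) = (N : ℚ) * (1 / (m i : ℚ)) := by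
      rw [← this]
      norm_cast
    rw [h2]
    ring
  have hgq : (2 : ℚ) ≤ g := by exact_mod_cast hg
  have hpos : (0 : ℚ) < (d : ℚ) - 2 + ∑ i, (1 - 1 / (m i : ℚ)) := by
    by_contra hcon
    push Not at hcon
    have := mul_nonpos_of_nonneg_of_nonpos hNpos.le hcon
    rw [← hq] at this
    linarith
  have hchi := hu10_chi m (fun i => (hm i).1) hpos
  have hfin : (N : ℚ) * (1 / 42) ≤ 2 * (g : ℚ) - 2 := by
    rw [hq]
    exact mul_le_mul_of_nonneg_left hchi hNpos.le
  have h84 : (N : ℚ) ≤ 84 * ((g : ℚ) - 1) := by linarith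
  have hcast : ((84 * (g - 1) : ℕ) : ℚ) = 84 * ((g : ℚ) - 1) := by
    rw [Nat.cast_mul, Nat.cast_sub (by omega : 1 ≤ g)]
    norm_num
  have : (N : ℚ) ≤ ((84 * (g - 1) : ℕ) : ℚ) := by rw [hcast]; exact h84
  exact_mod_cast this

end Pool.Agent.Work.MP_d3656f_al.GB
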