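import Mathlib
import Pool.Agent.Work.MP_d3656f_al.E.Fun
import Pool.Agent.Work.MP_d3656f_al.O.Coord
import Pool.Agent.Work.MP_d3656f_al.O.Dich

/-!
# GB/Hu4 : finite groups acting freely on the circle are commutative

Fix `a ∈ Bd` and write `f a` for `bd f a`, `X = cX a`. By `hfree` (and `bd_mul`) the points `f a`,
`f ∈ F`, are different, `f a ≠ a` for `f ≠ 1`. If `F` has a nontrivial element let `f₁ ≠ 1` be an
element of `F` with `X (f₁ a)` minimal (`F` is finite). Claim: every `f ∈ F` is a power of `f₁`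
(natural exponent); so `F` is commutative. Suppose `f` is not a power of `f₁`. The set of `j` with
`f₁^j ≠ 1` and `X (f₁^j a) < X (f a)` is not empty (`j = 1`: `f₁` is minimal and `f ≠ f₁`); among the
finitely many elements `f₁^j` of this kind take one, `p`, with `X (p a)` maximal. Let
`h = p⁻¹ * f`, it is not a power of `f₁` (in a finite group inverses are powers), so
`h ≠ 1, f₁` and `X (f₁ a) < X (h a)`, i.e. `0 < det3 a (f₁ a) (h a)` (`det3_pos_iff`). Apply `p`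
(`OP`): `0 < det3 (p a) (p f₁ a) (f a)`. Also `X (p a) < X (f a)`, i.e.
`0 < det3 a (p a) (f a)`. If `p * f₁ = 1` then the two determinants are opposite (`det3_swap`), a
contradiction. So `p f₁ a ≠ a` and by `det3_cX3`
`(X (p f₁ a) - X (p a)) * (X (f a) - X (p f₁ a)) * (X (f a) - X (p a)) > 0`, hence
`X (p a) < X (p f₁ a) < X (f a)` (`X (f a) - X (p a) > 0`, so the other two factors have the same
sign, and both negative is impossible). This contradicts the choice of `p`.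
-/

set_option autoImplicit false

namespace Pool.Agent.Work.MP_d3656f_al.GB

private theorem hu4_pt : (![1, 0, 1] : V) ∈ Bd := by
  constructor
  · simp only [Q, Matrix.cons_val_zero, Matrix.cons_val_one, Matrix.cons_val]
    norm_num
  · simp

theorem hu_abel {G : Type} [Group G] (M : Model G) (F : Subgroup (MulAut G)) (hF : Finite F)
    (hop : ∀ f ∈ F, M.OP f) (hfree : ∀ f ∈ F, ∀ a ∈ Bd, M.bd f a = a → f = 1) :
    ∀ x ∈ F, ∀ y ∈ F, x * y = y * x := by
  by_cases htriv : ∀ f ∈ F, f = 1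
  · intro x hx y hy
    rw [htriv x hx, htriv y hy]
  push Not at htriv
  obtain ⟨f0, hf0, hf01⟩ := htriv
  obtain ⟨a, ha⟩ : ∃ a, a ∈ Bd := ⟨_, hu4_pt⟩
  have hFs : (F : Set (MulAut G)).Finite := Set.toFinite _
  have hne : ∀ f ∈ F, f ≠ 1 → M.bd f a ≠ a := fun f hf h1 h2 => h1 (hfree f hf a ha h2)
  have hinj : ∀ f ∈ F, ∀ g ∈ F, M.bd f a = M.bd g a → f = g := by
    intro f hf g hg h
    have h1 : M.bd (g⁻¹ * f) a = a := by
      rw [M.bd_mul _ _ ha, h, M.bd_inv_bd _ ha]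
    have h2 := hfree _ (F.mul_mem (F.inv_mem hg) hf) a ha h1
    exact (inv_mul_eq_one.mp h2).symm
  obtain ⟨f₁, ⟨hf₁F, hf₁1⟩, hmin⟩ := Set.exists_min_image {g : MulAut G | g ∈ F ∧ g ≠ 1}
    (fun g => cX a (M.bd g a)) (hFs.subset fun g hg => hg.1) ⟨f0, hf0, hf01⟩
  have hlt : ∀ f ∈ F, f ∉ Subgroup.zpowers f₁ → cX a (M.bd f₁ a) < cX a (M.bd f a) := by
    intro f hf hz
    have hf1 : f ≠ 1 := by
      rintro rfl
      exact hz (Subgroup.one_mem _)
    refine lt_of_le_of_ne (hmin f ⟨hf, hf1⟩) ?_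
    intro he
    have h1 := cX_inj ha (M.bd_mem _ ha) (M.bd_mem _ ha) (hne f₁ hf₁F hf₁1) (hne f hf hf1) he
    have h2 := hinj f₁ hf₁F f hf h1
    exact hz (h2 ▸ Subgroup.mem_zpowers f₁)
  have hcyc : ∀ f ∈ F, f ∈ Subgroup.zpowers f₁ := by
    intro f hf
    by_contra hz
    have hf1 : f ≠ 1 := by
      rintro rfl
      exact hz (Subgroup.one_mem _)
    obtain ⟨p, ⟨hpF, hpz, hp1, hpf⟩, hmax⟩ := Set.exists_max_image
      {g : MulAut G | g ∈ F ∧ g ∈ Subgroup.zpowers f₁ ∧ g ≠ 1 ∧ cX a (M.bd g a) < cX a (M.bd f a)}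
      (fun g => cX a (M.bd g a)) (hFs.subset fun g hg => hg.1)
      ⟨f₁, hf₁F, Subgroup.mem_zpowers f₁, hf₁1, hlt f hf hz⟩
    have hhF : p⁻¹ * f ∈ F := F.mul_mem (F.inv_mem hpF) hf
    have hhz : p⁻¹ * f ∉ Subgroup.zpowers f₁ := by
      intro h
      have h1 := (Subgroup.zpowers f₁).mul_mem hpz h
      rw [mul_inv_cancel_left] at h1
      exact hz h1
    have hh1 : p⁻¹ * f ≠ 1 := by
      intro h
      rw [h] at hhz
      exact hhz (Subgroup.one_mem _)
    have hd := (det3_pos_iff ha (M.bd_mem f₁ ha) (M.bd_mem (p⁻¹ * f) ha) (hne f₁ hf₁F hf₁1)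
      (hne _ hhF hh1)).mpr (hlt _ hhF hhz)
    have hd2 := (M.OP_iff (hop p hpF) ha (M.bd_mem f₁ ha) (M.bd_mem (p⁻¹ * f) ha)).mpr hd
    rw [← M.bd_mul p f₁ ha, ← M.bd_mul p (p⁻¹ * f) ha, mul_inv_cancel_left] at hd2
    have hd3 := (det3_pos_iff ha (M.bd_mem p ha) (M.bd_mem f ha) (hne p hpF hp1)
      (hne f hf hf1)).mpr hpf
    have hpf1 : p * f₁ ≠ 1 := by
      intro h
      rw [h, M.bd_one ha, det3_swap] at hd2
      linarith
    have hpfF : p * f₁ ∈ F := F.mul_mem hpF hf₁F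
    have hpfz : p * f₁ ∈ Subgroup.zpowers f₁ :=
      (Subgroup.zpowers f₁).mul_mem hpz (Subgroup.mem_zpowers f₁)
    rw [det3_cX3 ha (M.bd_mem p ha) (M.bd_mem (p * f₁) ha) (M.bd_mem f ha) (hne p hpF hp1)
      (hne _ hpfF hpf1) (hne f hf hf1)] at hd2
    have q1 := Q_bd_pos ha (M.bd_mem p ha) (Ne.symm (hne p hpF hp1))
    have q2 := Q_bd_pos ha (M.bd_mem (p * f₁) ha) (Ne.symm (hne _ hpfF hpf1))
    have q3 := Q_bd_pos ha (M.bd_mem f ha) (Ne.symm (hne f hf hf1))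
    have hpos : 0 < (cX a (M.bd (p * f₁) a) - cX a (M.bd p a)) *
        (cX a (M.bd f a) - cX a (M.bd (p * f₁) a)) * (cX a (M.bd f a) - cX a (M.bd p a)) := by
      have h1 : 0 < Q a (M.bd p a) * Q a (M.bd (p * f₁) a) * Q a (M.bd f a) := by positivity
      by_contra hc
      have h2 := mul_nonpos_of_nonneg_of_nonpos h1.le (not_lt.mp hc)
      linarith
    have h3 : 0 < cX a (M.bd f a) - cX a (M.bd p a) := sub_pos.mpr hpf
    have h4 : 0 < (cX a (M.bd (p * f₁) a) - cX a (M.bd p a)) *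
        (cX a (M.bd f a) - cX a (M.bd (p * f₁) a)) := pos_of_mul_pos_left hpos h3.le
    have h5 : 0 < cX a (M.bd (p * f₁) a) - cX a (M.bd p a) := by
      by_contra hc
      have hc' := not_lt.mp hc
      have h6 : 0 < cX a (M.bd f a) - cX a (M.bd (p * f₁) a) := by linarith
      have h7 := mul_nonpos_of_nonpos_of_nonneg hc' h6.le
      linarith
    have h6 : 0 < cX a (M.bd f a) - cX a (M.bd (p * f₁) a) := pos_of_mul_pos_right h4 h5.le
    have h7 := hmax (p * f₁) ⟨hpfF, hpfz, hpf1, by linarith⟩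
    linarith
  intro x hx y hy
  obtain ⟨m, rfl⟩ := Subgroup.mem_zpowers_iff.mp (hcyc x hx)
  obtain ⟨n, rfl⟩ := Subgroup.mem_zpowers_iff.mp (hcyc y hy)
  rw [← zpow_add, ← zpow_add, add_comm]

end Pool.Agent.Work.MP_d3656f_al.GB
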