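import Mathlib
import Pool.Agent.Work.MP_d3656f_al.B.StepB
import Pool.Agent.Work.MP_d3656f_al.E.Faith
import Pool.Agent.Work.MP_d3656f_al.J.NoFix
import Pool.Agent.Work.MP_d3656f_al.O.Ord

/-!
# GB/Hu3 : torsion automorphisms and fixed points

* `hu_conj_inj`: if `conj γ = 1` then `bact γ` fixes all points of `Bd` (`bd_conj`, `bd_one`), e.g.
  `(1,0,1)`, `(-1,0,1)`, `(0,1,1)`, so `γ = 1` by `three_fix`.
* `hu_fix`: as in the proof of `tors_triv` (`N/Tors.lean`): `Φ` is `OP` and `bd Φ a = a`; in the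
  coordinate at `a` (`coordH`) the order isomorphism `h Φ` of the line satisfies `(h Φ)^k = 1`, so it
  is the identity (an increasing bijection of finite order is the identity), `bd Φ` is the
  identity on `Bd` and `Φ = 1` by `faith`.
* `hu_comm`: if `Ψ` has no fixed point and `conj x` commutes with `Ψ` then `Ψ x = x`
  (`Ψ * conj x = conj (Ψ x) * Ψ`, `hu_conj_inj`) and `x = 1` by `nofix_triv` with `γ = 1`.
* `hu_tors`: `Ψ^k = conj γ` for some `γ` (`cls_eq_iff`), it commutes with `Ψ`, so `γ = 1` by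
  `hu_comm`.
* `hu_fix3`: if `OP Φ`, `cls Φ` of finite order and `Fix3 Φ` then `Φ = 1`: `Φ^k = conj γ`, `bact γ`
  fixes the three fixed points, `γ = 1` (`three_fix`), `hu_fix`.
* `hu_inn`: `conj γ` commutes with itself: `hu_comm` gives `γ = 1`, but `bd 1` is the identity; so
  an inner automorphism has a fixed point.
-/

set_option autoImplicit false

namespace Pool.Agent.Work.MP_d3656f_al.GB

variable {G : Type} [Group G] (M : Model G)

private theorem hu_mem1 : (![1, 0, 1] : V) ∈ Bd := by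
  constructor
  · simp [Q]
  · simp

private theorem hu_mem2 : (![-1, 0, 1] : V) ∈ Bd := by
  constructor
  · simp [Q]
  · simp

private theorem hu_mem3 : (![0, 1, 1] : V) ∈ Bd := by
  constructor
  · simp [Q]
  · simp

private theorem hu_all_fix {γ : G} (h : ∀ ξ ∈ Bd, M.bact γ ξ = ξ) : γ = 1 := by
  have hab : (![1, 0, 1] : V) ≠ ![-1, 0, 1] := by
    intro he
    have h2 := congrFun he 0
    simp at h2
    norm_num at h2
  have hbc : (![-1, 0, 1] : V) ≠ ![0, 1, 1] := by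
    intro he
    have h2 := congrFun he 0
    simp at h2
  have hac : (![1, 0, 1] : V) ≠ ![0, 1, 1] := by
    intro he
    have h2 := congrFun he 0
    simp at h2
  exact M.three_fix hu_mem1 hu_mem2 hu_mem3 hab hbc hac (h _ hu_mem1) (h _ hu_mem2) (h _ hu_mem3)

private theorem hu_ord_pow_lt (f : ℝ ≃o ℝ) (t : ℝ) (h : t < f t) (n : ℕ) :
    t < (f ^ (n + 1)) t := by
  induction n with
  | zero => simpa using h
  | succ n ih =>
    rw [pow_succ']
    show t < f ((f ^ (n + 1)) t)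
    exact h.trans (f.strictMono ih)

private theorem hu_ord_pow_gt (f : ℝ ≃o ℝ) (t : ℝ) (h : f t < t) (n : ℕ) :
    (f ^ (n + 1)) t < t := by
  induction n with
  | zero => simpa using h
  | succ n ih =>
    rw [pow_succ']
    show f ((f ^ (n + 1)) t) < t
    exact (f.strictMono ih).trans h

private theorem hu_ord_id (f : ℝ ≃o ℝ) (k : ℕ) (hk : 0 < k) (h : f ^ k = 1) (t : ℝ) :
    f t = t := by
  obtain ⟨n, rfl⟩ : ∃ n, k = n + 1 := ⟨k - 1, by omega⟩
  have h1 : (f ^ (n + 1)) t = t := by rw [h]; rfl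
  rcases lt_trichotomy (f t) t with h2 | h2 | h2
  · have := hu_ord_pow_gt f t h2 n
    rw [h1] at this
    exact absurd this (lt_irrefl _)
  · exact h2
  · have := hu_ord_pow_lt f t h2 n
    rw [h1] at this
    exact absurd this (lt_irrefl _)

private theorem hu_bd_pow_fix (Φ : MulAut G) {x : V}
    (hx : x ∈ Bd) (h : M.bd Φ x = x) (n : ℕ) : M.bd (Φ ^ n) x = x := by
  induction n with
  | zero => rw [pow_zero, M.bd_one hx]
  | succ n ih => rw [pow_succ, M.bd_mul _ _ hx, h, ih]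

include M in
theorem hu_conj_inj {γ : G} (h : (MulAut.conj γ : MulAut G) = 1) : γ = 1 := by
  refine hu_all_fix M fun ξ hξ => ?_
  rw [← M.bd_conj γ hξ, h, M.bd_one hξ]

theorem hu_fix {Φ : MulAut G} (hop : M.OP Φ) {k : ℕ} (hk : 0 < k) (h : Φ ^ k = 1) {a : V}
    (ha : a ∈ Bd) (hf : M.bd Φ a = a) : Φ = 1 := by
  obtain ⟨f, hf'⟩ := M.coordH ha
  have hΨ : f ⟨Φ, hop, hf⟩ ^ k = 1 := by
    rw [← map_pow]
    have : (⟨Φ, hop, hf⟩ : M.fixG ha) ^ k = 1 := Subtype.ext h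
    rw [this, map_one]
  refine M.faith fun ξ hξ => ?_
  by_cases e : ξ = a
  · rw [e, hf]
  · obtain ⟨e1, e2⟩ := hf' ⟨Φ, hop, hf⟩ ξ hξ e
    exact cX_inj ha (M.bd_mem _ hξ) hξ e1 e (by rw [e2, hu_ord_id _ k hk hΨ])

theorem hu_comm {Ψ : MulAut G} (hf : ∀ a ∈ Bd, M.bd Ψ a ≠ a) {x : G}
    (h : Commute (MulAut.conj x) Ψ) : x = 1 := by
  have h1 : Ψ * MulAut.conj x = MulAut.conj (Ψ x) * Ψ := by
    ext y
    show Ψ (x * y * x⁻¹) = Ψ x * Ψ y * (Ψ x)⁻¹
    rw [map_mul, map_mul, map_inv]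
  have h2 : MulAut.conj (Ψ x) = MulAut.conj x := by
    have h3 : MulAut.conj (Ψ x) * Ψ = MulAut.conj x * Ψ := by rw [← h1]; exact h.eq.symm
    exact mul_right_cancel h3
  have h4 : (MulAut.conj ((Ψ x)⁻¹ * x) : MulAut G) = 1 := by
    rw [map_mul, map_inv, h2, inv_mul_cancel]
  have h5 : Ψ x = x := inv_mul_eq_one.1 (hu_conj_inj M h4)
  refine M.nofix_triv Ψ 1 ?_ (x := x) (by rw [h5, one_mul, mul_one])
  rw [map_one, one_mul]
  exact hf

theorem hu_tors {Ψ : MulAut G} (hf : ∀ a ∈ Bd, M.bd Ψ a ≠ a) {k : ℕ} (h : cls Ψ ^ k = 1) :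
    Ψ ^ k = 1 := by
  have h1 : cls (1 : MulAut G) = cls (Ψ ^ k) := by rw [map_pow, h, map_one]
  obtain ⟨γ, hγ⟩ := (cls_eq_iff _ _).1 h1
  rw [mul_one] at hγ
  have h2 : γ = 1 := by
    refine hu_comm M hf (x := γ) ?_
    rw [← hγ]
    exact (Commute.refl Ψ).pow_left k
  rw [hγ, h2, map_one]

theorem hu_fix3 {Φ : MulAut G} (hop : M.OP Φ) {k : ℕ} (hk : 0 < k) (h : cls Φ ^ k = 1)
    (h3 : M.Fix3 Φ) : Φ = 1 := by
  obtain ⟨a, ha, b, hb, c, hc, hab, hbc, hac, fa, fb, fc⟩ := h3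
  have h1 : cls (1 : MulAut G) = cls (Φ ^ k) := by rw [map_pow, h, map_one]
  obtain ⟨γ, hγ⟩ := (cls_eq_iff _ _).1 h1
  rw [mul_one] at hγ
  have hfix : ∀ x ∈ Bd, M.bd Φ x = x → M.bact γ x = x := by
    intro x hx hf
    rw [← M.bd_conj γ hx, ← hγ]
    exact hu_bd_pow_fix M Φ hx hf k
  have hγ1 : γ = 1 := M.three_fix ha hb hc hab hbc hac (hfix a ha fa) (hfix b hb fb)
    (hfix c hc fc)
  exact hu_fix M hop hk (by rw [hγ, hγ1, map_one]) ha fa

theorem hu_inn (γ : G) : ∃ a ∈ Bd, M.bd (MulAut.conj γ) a = a := by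
  by_contra hc
  push Not at hc
  have h1 : γ = 1 := hu_comm M hc (Commute.refl _)
  refine hc _ hu_mem1 ?_
  rw [h1, map_one, M.bd_one hu_mem1]

end Pool.Agent.Work.MP_d3656f_al.GB
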