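import Mathlib
import Pool.Agent.Work.MP_d3656f_al.I.Sfun

/-!
# GB/Hu5 : counting twisted classes (PURE group theory)

As in the proof of `tot` in `I/Sfun.lean` (copy it): the classes `Cl Φ γ` partition the group:
`Cl Φ y⁻¹` is the class of `y`, and `z ∈ Cl Φ y⁻¹ ↔ Cl Φ z⁻¹ = Cl Φ y⁻¹`. Every class is
`Cl Φ y⁻¹` for any of its elements `y`. A class with sum `1` contains a point of the (finite)
support of `f`, so there are finitely many such classes, and
`Σ_y f y = Σ_{classes meeting the support} (class sum) = number of classes with sum 1`.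
-/

set_option autoImplicit false

namespace Pool.Agent.Work.MP_d3656f_al.GB

theorem hu_cl {π : Type} [Group π] (Φ : MulAut π) (f : π → ℤ) (hf : (Function.support f).Finite)
    (P : Set (Set π)) (h1 : ∀ γ : π, Cl Φ γ ∈ P → ∑ᶠ y ∈ Cl Φ γ, f y = 1)
    (h0 : ∀ γ : π, Cl Φ γ ∉ P → ∑ᶠ y ∈ Cl Φ γ, f y = 0) :
    {C : Set π | C ∈ P ∧ ∃ γ : π, C = Cl Φ γ}.Finite ∧
      (({C : Set π | C ∈ P ∧ ∃ γ : π, C = Cl Φ γ}.ncard : ℕ) : ℤ) = ∑ᶠ y, f y := by
  classical
  obtain ⟨c, hc⟩ : ∃ c : π → Set π, ∀ y, c y = Cl Φ y⁻¹ := ⟨_, fun y => rfl⟩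
  have hmem : ∀ y z, z ∈ c y ↔ ∃ v, z = (Φ v)⁻¹ * y * v := by
    intro y z
    rw [hc]
    constructor
    · rintro ⟨v, hv⟩
      exact ⟨v, by rw [hv]; group⟩
    · rintro ⟨v, hv⟩
      exact ⟨v, by rw [hv]; group⟩
  have hself : ∀ y, y ∈ c y := fun y => (hmem y y).2 ⟨1, by simp⟩
  have hsub : ∀ y z, z ∈ c y → c z ⊆ c y := by
    intro y z hz u hu
    obtain ⟨v, hv⟩ := (hmem y z).1 hz
    obtain ⟨v', hv'⟩ := (hmem z u).1 hu
    exact (hmem y u).2 ⟨v * v', by rw [hv', hv, map_mul]; group⟩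
  have hsymm : ∀ y z, z ∈ c y → y ∈ c z := by
    intro y z hz
    obtain ⟨v, hv⟩ := (hmem y z).1 hz
    exact (hmem z y).2 ⟨v⁻¹, by rw [hv, map_inv]; group⟩
  have heq : ∀ y z, z ∈ c y ↔ c z = c y := by
    intro y z
    constructor
    · intro hz
      exact Set.Subset.antisymm (hsub y z hz) (hsub z y (hsymm y z hz))
    · intro h1
      rw [← h1]
      exact hself z
  have hcl : ∀ γ : π, Cl Φ γ = c γ⁻¹ := fun γ => by rw [hc, inv_inv]
  have hK : {C : Set π | C ∈ P ∧ ∃ γ : π, C = Cl Φ γ} =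
      (((hf.toFinset.image c).filter fun C => C ∈ P : Finset (Set π)) : Set (Set π)) := by
    ext C
    simp only [Set.mem_ofPred_eq, Finset.coe_filter, Finset.mem_image, Set.Finite.mem_toFinset,
      Function.mem_support]
    constructor
    · rintro ⟨hP, γ, rfl⟩
      refine ⟨?_, hP⟩
      have h2 := h1 γ hP
      have h3 : ∃ y ∈ Cl Φ γ, f y ≠ 0 := by
        by_contra hne
        push Not at hne
        rw [finsum_mem_of_eqOn_zero hne] at h2
        exact zero_ne_one h2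
      obtain ⟨y, hy, hfy⟩ := h3
      refine ⟨y, hfy, ?_⟩
      rw [hcl] at hy ⊢
      exact (heq _ _).1 hy
    · rintro ⟨⟨y, _, rfl⟩, hP⟩
      exact ⟨hP, y⁻¹, hc y⟩
  refine ⟨by rw [hK]; exact Finset.finite_toSet _, ?_⟩
  rw [hK, Set.ncard_coe_finset]
  have h2 : ∑ᶠ y, f y = ∑ y ∈ hf.toFinset, f y :=
    finsum_eq_sum_of_support_subset f (by rw [Set.Finite.coe_toFinset])
  rw [h2, ← Finset.sum_fiberwise_of_maps_to (s := hf.toFinset) (t := hf.toFinset.image c)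
    (g := c) (fun y hy => Finset.mem_image_of_mem c hy), Finset.card_filter]
  push_cast
  refine Finset.sum_congr rfl fun C hC => ?_
  obtain ⟨y₀, _, rfl⟩ := Finset.mem_image.1 hC
  have h3 : ∑ᶠ y ∈ c y₀, f y = ∑ y ∈ hf.toFinset.filter fun y => c y = c y₀, f y := by
    rw [finsum_mem_eq_sum_of_inter_support_eq f (t := hf.toFinset.filter fun y => c y = c y₀)]
    ext y
    simp only [Set.mem_inter_iff, Function.mem_support, Finset.coe_filter,
      Set.Finite.mem_toFinset, Set.mem_ofPred_eq]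
    rw [heq y₀ y]
    tauto
  rw [← h3]
  by_cases hP : c y₀ ∈ P
  · rw [if_pos hP]
    have h4 := h1 y₀⁻¹
    rw [← hc y₀] at h4
    exact (h4 hP).symm
  · rw [if_neg hP]
    have h4 := h0 y₀⁻¹
    rw [← hc y₀] at h4
    exact (h4 hP).symm

theorem hu_cl_eq {π : Type} [Group π] (Φ : MulAut π) (γ γ' : π) :
    Cl Φ γ = Cl Φ γ' ↔ ∃ v : π, γ' = v * γ * (Φ v)⁻¹ := by
  constructor
  · intro h
    have h1 : γ'⁻¹ ∈ Cl Φ γ := by
      rw [h]
      exact ⟨1, by simp⟩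
    obtain ⟨v, hv⟩ := h1
    refine ⟨v⁻¹, ?_⟩
    rw [← inv_inv γ', hv, map_inv]
    group
  · rintro ⟨v, rfl⟩
    ext y
    constructor
    · rintro ⟨w, rfl⟩
      exact ⟨v * w, by rw [map_mul]; group⟩
    · rintro ⟨w, rfl⟩
      exact ⟨v⁻¹ * w, by rw [map_mul, map_inv]; group⟩

end Pool.Agent.Work.MP_d3656f_al.GB
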