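import Mathlib
import Pool.Agent.Work.MP_d3656f_al.GB.Hu3
import Pool.Agent.Work.MP_d3656f_al.GB.Hu5
import Pool.Agent.Work.MP_d3656f_al.GB.Hu1
import Pool.Agent.Work.MP_d3656f_al.I.IT

/-!
# GB/Hu6 : the number of classes of lifts without fixed points

`orbI Ψ` is the set of conjugates of `Ψ` by inner automorphisms. The lifts of `cls Φ` are the
`conj γ * Φ` (`cls_eq_iff`), and `conj v * (conj γ * Φ) * (conj v)⁻¹ = conj (v * γ * (Φ v)⁻¹) * Φ`, so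
`orbI (conj γ * Φ) = orbI (conj γ' * Φ)` iff `γ' = v γ (Φ v)⁻¹` for some `v` (`hu_conj_inj`), iff
`Cl Φ γ = Cl Φ γ'` (`hu_cl_eq`). Having a fixed point is invariant under conjugation
(`bd_mul`). So `Cl Φ γ ↦ orbI (conj γ * Φ)` is a bijection between the set of the `Cl Φ γ` for
which `conj γ * Φ` has no fixed point, and the set in the theorem. By the proof of
`index_thm` (`I/IT.lean`, copy it; there is no `Fix3` by `hu_fix3`, as `cls Φ ≠ 1`; `M.inf`) the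
class sum of `T.chi.coeff` over `Cl Φ γ` is `0` if `conj γ * Φ` has a fixed point and `1` otherwise.
`hu_cl` with `P` the set of classes without fixed points, `eps_chi`, `dgr_eq`.
-/

set_option autoImplicit false

namespace Pool.Agent.Work.MP_d3656f_al.GB

/-- The conjugates of `Ψ` by inner automorphisms. -/
def orbI {G : Type} [Group G] (Ψ : MulAut G) : Set (MulAut G) :=
  {Φ | ∃ v : G, Φ = MulAut.conj v * Ψ * (MulAut.conj v)⁻¹}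

private theorem hu6_finsum {g : ℕ} (x : MonoidAlgebra ℤ (SG g)) :
    eps x = ∑ᶠ y, x.coeff y := by
  unfold eps
  rw [Finsupp.sum, finsum_eq_sum_of_support_subset]
  intro y hy
  simpa using hy

private theorem hu6_conj {G : Type} [Group G] (Φ : MulAut G) (v γ : G) :
    MulAut.conj (v * γ * (Φ v)⁻¹) * Φ =
      MulAut.conj v * (MulAut.conj γ * Φ) * (MulAut.conj v)⁻¹ := by
  have h1 : ∀ y : G, (MulAut.conj v)⁻¹ y = v⁻¹ * y * v := by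
    intro y
    rw [← map_inv, MulAut.conj_apply, inv_inv]
  apply MulEquiv.ext
  intro y
  rw [MulAut.mul_apply, MulAut.mul_apply, MulAut.mul_apply, MulAut.mul_apply, h1,
    MulAut.conj_apply, MulAut.conj_apply, MulAut.conj_apply]
  simp only [map_mul, map_inv]
  group

private theorem hu6_good {G : Type} [Group G] (M : Model G) (Ψ : MulAut G) (v : G)
    (h : ∀ a ∈ Bd, M.bd Ψ a ≠ a) :
    ∀ a ∈ Bd, M.bd (MulAut.conj v * Ψ * (MulAut.conj v)⁻¹) a ≠ a := by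
  intro a ha hfix
  have hb : M.bd (MulAut.conj v)⁻¹ a ∈ Bd := M.bd_mem _ ha
  have hb2 : M.bd Ψ (M.bd (MulAut.conj v)⁻¹ a) ∈ Bd := M.bd_mem _ hb
  rw [M.bd_mul _ _ ha, M.bd_mul _ _ hb] at hfix
  have h2 := congrArg (M.bd (MulAut.conj v)⁻¹) hfix
  rw [M.bd_inv_bd _ hb2] at h2
  exact h _ hb h2

theorem hu_count {g : ℕ} (M : Model (SG g)) {Φ : MulAut (SG g)} (hop : M.OP Φ)
    (hne : cls Φ ≠ 1) {k : ℕ} (hk : 0 < k) (h : cls Φ ^ k = 1) :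
    {O : Set (MulAut (SG g)) | ∃ Ψ, cls Ψ = cls Φ ∧ (∀ a ∈ Bd, M.bd Ψ a ≠ a) ∧
      O = orbI Ψ}.Finite ∧
    (({O : Set (MulAut (SG g)) | ∃ Ψ, cls Ψ = cls Φ ∧ (∀ a ∈ Bd, M.bd Ψ a ≠ a) ∧
      O = orbI Ψ}.ncard : ℕ) : ℤ) = 1 - (matH Φ).trace + dgr Φ := by
  have := M.inf
  obtain ⟨T⟩ := td_ex Φ
  have hno3 : ∀ γ : SG g, ¬ M.Fix3 (MulAut.conj γ * Φ) := by
    intro γ h3
    have hop' : M.OP (MulAut.conj γ * Φ) := M.OP_mul (M.OP_conj γ) hop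
    have hc : cls Φ = cls (MulAut.conj γ * Φ) := (cls_eq_iff _ _).2 ⟨γ, rfl⟩
    have h1 := hu_fix3 M hop' hk (by rw [← hc]; exact h) h3
    apply hne
    rw [hc, h1, map_one]
  have hcl1 : ∀ γ : SG g, (∀ a ∈ Bd, M.bd (MulAut.conj γ * Φ) a ≠ a) →
      ∑ᶠ y ∈ Cl Φ γ, T.chi.coeff y = 1 := by
    intro γ hf'
    obtain ⟨C, ⟨K⟩⟩ := kd_base M
    exact class_one K T γ (fun x hx => M.nofix_triv Φ γ hf' hx)
      (fun C' => M.nofix Φ γ hf' C')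
  have hcl0 : ∀ γ : SG g, (¬ ∀ a ∈ Bd, M.bd (MulAut.conj γ * Φ) a ≠ a) →
      ∑ᶠ y ∈ Cl Φ γ, T.chi.coeff y = 0 := by
    intro γ hf'
    have hf : ∃ a ∈ Bd, M.bd (MulAut.conj γ * Φ) a = a := by
      by_contra hcon
      apply hf'
      intro a ha h1
      exact hcon ⟨a, ha, h1⟩
    have hopΨ : M.OP (MulAut.conj γ * Φ) := M.OP_mul (M.OP_conj γ) hop
    obtain ⟨a, ha, hfa, hnr⟩ := M.good hopΨ (hno3 γ) hf
    obtain ⟨C, ⟨K⟩⟩ := kd_bd M ha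
    exact class_zero K (bd_cone ha) T γ
      (fun x hx => by rw [nrm_bd ha]; exact M.vfix Φ γ (hno3 γ) ha hfa hx)
      (fun C' => by
        obtain ⟨D, hD⟩ := M.rep Φ γ ha hfa C'
        obtain ⟨E, hE, hE'⟩ := M.near Φ γ D
        refine ⟨E, hE, fun v hv => hE' v ?_⟩
        by_contra hlt
        exact hnr (hD v hv (not_le.mp hlt).le))
  have hinj : ∀ γ γ' : SG g, MulAut.conj γ * Φ = MulAut.conj γ' * Φ → γ = γ' := by
    intro γ γ' h1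
    have h2 : (MulAut.conj γ : MulAut (SG g)) = MulAut.conj γ' := mul_right_cancel h1
    have h3 : (MulAut.conj (γ⁻¹ * γ') : MulAut (SG g)) = 1 := by
      rw [map_mul, map_inv, h2, inv_mul_cancel]
    have h4 := hu_conj_inj M h3
    exact (inv_mul_eq_one.1 h4)
  have hcong : ∀ γ γ' : SG g, Cl Φ γ = Cl Φ γ' →
      (∀ a ∈ Bd, M.bd (MulAut.conj γ * Φ) a ≠ a) →
      ∀ a ∈ Bd, M.bd (MulAut.conj γ' * Φ) a ≠ a := by
    intro γ γ' h1 h2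
    obtain ⟨v, hv⟩ := (hu_cl_eq Φ γ γ').1 h1
    rw [hv, hu6_conj]
    exact hu6_good M _ v h2
  obtain ⟨P, hP⟩ : ∃ P : Set (Set (SG g)), P = {C | ∃ γ : SG g, C = Cl Φ γ ∧
      ∀ a ∈ Bd, M.bd (MulAut.conj γ * Φ) a ≠ a} := ⟨_, rfl⟩
  have hPmem : ∀ γ : SG g, Cl Φ γ ∈ P ↔ ∀ a ∈ Bd, M.bd (MulAut.conj γ * Φ) a ≠ a := by
    intro γ
    rw [hP]
    constructor
    · rintro ⟨γ', h1, h2⟩
      exact hcong γ' γ h1.symm h2
    · intro h1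
      exact ⟨γ, rfl, h1⟩
  obtain ⟨F, hF⟩ : ∃ F : Set (SG g) → Set (MulAut (SG g)), F = fun C =>
      {Ψ | ∃ γ : SG g, C = Cl Φ γ ∧ Ψ = MulAut.conj γ * Φ} := ⟨_, rfl⟩
  have hF1 : ∀ γ : SG g, F (Cl Φ γ) = orbI (MulAut.conj γ * Φ) := by
    intro γ
    rw [hF]
    ext Ψ
    constructor
    · rintro ⟨γ', h1, h2⟩
      obtain ⟨v, hv⟩ := (hu_cl_eq Φ γ γ').1 h1
      refine ⟨v, ?_⟩
      rw [h2, hv, hu6_conj]
    · rintro ⟨v, hv⟩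
      refine ⟨v * γ * (Φ v)⁻¹, (hu_cl_eq Φ _ _).2 ⟨v, rfl⟩, ?_⟩
      rw [hv, hu6_conj]
  have hmain := hu_cl Φ (fun y => T.chi.coeff y)
    (by
      refine (T.chi.coeff.support.finite_toSet).subset ?_
      intro y hy
      simpa using hy) P (fun γ hγ => hcl1 γ ((hPmem γ).1 hγ))
    (fun γ hγ => hcl0 γ (fun h1 => hγ ((hPmem γ).2 h1)))
  have himg : {O : Set (MulAut (SG g)) | ∃ Ψ, cls Ψ = cls Φ ∧ (∀ a ∈ Bd, M.bd Ψ a ≠ a) ∧
      O = orbI Ψ} = F '' {C : Set (SG g) | C ∈ P ∧ ∃ γ : SG g, C = Cl Φ γ} := by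
    ext O
    constructor
    · rintro ⟨Ψ, h1, h2, rfl⟩
      obtain ⟨γ, rfl⟩ := (cls_eq_iff Φ Ψ).1 h1.symm
      exact ⟨Cl Φ γ, ⟨(hPmem γ).2 h2, γ, rfl⟩, hF1 γ⟩
    · rintro ⟨C, ⟨h1, γ, rfl⟩, rfl⟩
      exact ⟨MulAut.conj γ * Φ, ((cls_eq_iff _ _).2 ⟨γ, rfl⟩).symm, (hPmem γ).1 h1, hF1 γ⟩
  have hFinj : Set.InjOn F {C : Set (SG g) | C ∈ P ∧ ∃ γ : SG g, C = Cl Φ γ} := by
    rintro C ⟨-, γ, rfl⟩ C' ⟨-, γ', rfl⟩ h1
    have h2 : MulAut.conj γ * Φ ∈ F (Cl Φ γ) := by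
      rw [hF]
      exact ⟨γ, rfl, rfl⟩
    rw [h1, hF] at h2
    obtain ⟨γ'', h3, h4⟩ := h2
    rw [hinj _ _ h4]
    exact h3.symm
  rw [himg]
  refine ⟨hmain.1.image F, ?_⟩
  rw [hFinj.ncard_image, hmain.2, ← hu6_finsum, eps_chi, dgr_eq]

end Pool.Agent.Work.MP_d3656f_al.GB
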