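import Mathlib

/-!
# GB/Hu8 : counting classes (PURE group theory)

`f : A → B` surjective with kernel `P`, `E ≤ B` finite of order `N`, `Γ = E.comap f`. `Tt ⊆ Γ` is a set
of nontrivial elements, closed under conjugation by `Γ`, and under passing to nontrivial elements
of `Γ` commuting with an element of `Tt`. For `t ∈ Tt` let `C t` be the centraliser of `t` in
`Γ`. It meets `P` trivially (h4), so `f` is injective on it, it is finite of order `m t` dividing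
`N`, `m t ≥ 2` as `t ∈ C t`. It is commutative (h5), so for `s ∈ C t`, `s ≠ 1`, we have
`s ∈ Tt` (h3) and `C s = C t`. The normaliser of `C t` in `Γ` is `C t`: if `γ` normalises
`C t` and `f γ = 1` then `γ t γ⁻¹ t⁻¹ ∈ C t` is in `P`, so trivial, and `γ = 1` by h4; so the normaliser is
finite (injective under `f`), contains `t`, hence commutative by h5, so contained in `C t`.
Let `Y` be the finite set of the classes `orbK f t`, `t ∈ Tt`. On `Y` consider the relation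
`O ~ O'` iff `γ t γ⁻¹` and `t'` commute for some `t ∈ O`, `t' ∈ O'`, `γ ∈ Γ`; it is an equivalence
relation (`s`, `s'` in `Tt` commute iff `C s = C s'`). The class of `orbK f t` has `(m - 1) N / m`
elements, `m = m t`: consider the map `(C t \ {1}) × E → Y`, `(s, e) ↦ orbK f (γ s γ⁻¹)`, where
`f γ = e` (independent of the choice of `γ`: `γ' = γ x`, `f x = 1`, `x' = γ x γ⁻¹`). Its image is the class of
`orbK f t`, and `(s, f γ)`, `(s', f γ')` have the same image iff `s = s'` and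
`γ ∈ x γ' C t` with `f x = 1`, i.e. `f γ ∈ f γ' * f (C t)` (if `γ s γ⁻¹ = x γ' s' γ'⁻¹ x⁻¹` then
`δ = γ'⁻¹ x⁻¹ γ` conjugates `s` to `s'`, hence `C s = C t` to `C s' = C t`, so `δ ∈ C t` and
`s' = s`). So all fibres have `m` elements and the class has `(m - 1) N / m = N - N / m`
elements. Sum over the equivalence classes of `Y` (enumerated by `Fin r`).
-/

set_option autoImplicit false

namespace Pool.Agent.Work.MP_d3656f_al.GB

/-- The conjugates of `t` by elements of the kernel of `f`. -/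
def orbK {A B : Type} [Group A] [Group B] (f : A →* B) (t : A) : Set A :=
  {s | ∃ x : A, f x = 1 ∧ s = x * t * x⁻¹}

section aux

variable {A B : Type} [Group A] [Group B]

private def hu8C (f : A →* B) (E : Subgroup B) (t : A) : Subgroup A :=
  Subgroup.centralizer {t} ⊓ E.comap f

variable {f : A →* B} {E : Subgroup B}

private theorem hu8_mem {x t : A} : x ∈ hu8C f E t ↔ Commute x t ∧ f x ∈ E := by
  rw [hu8C, Subgroup.mem_inf, Subgroup.mem_centralizer_singleton_iff, Subgroup.mem_comap]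
  rfl

private theorem hu8_conj {x t γ : A} (hγ : f γ ∈ E) :
    x ∈ hu8C f E t ↔ γ * x * γ⁻¹ ∈ hu8C f E (γ * t * γ⁻¹) := by
  rw [hu8_mem, hu8_mem]
  constructor
  · rintro ⟨h1, h2⟩
    refine ⟨?_, ?_⟩
    · show γ * x * γ⁻¹ * (γ * t * γ⁻¹) = γ * t * γ⁻¹ * (γ * x * γ⁻¹)
      calc γ * x * γ⁻¹ * (γ * t * γ⁻¹) = γ * (x * t) * γ⁻¹ := by group
        _ = γ * (t * x) * γ⁻¹ := by rw [h1.eq]
        _ = _ := by group
    · rw [map_mul, map_mul, map_inv]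
      exact mul_mem (mul_mem hγ h2) (inv_mem hγ)
  · rintro ⟨h1, h2⟩
    refine ⟨?_, ?_⟩
    · have h3 : γ * x * γ⁻¹ * (γ * t * γ⁻¹) = γ * t * γ⁻¹ * (γ * x * γ⁻¹) := h1
      show x * t = t * x
      calc x * t = γ⁻¹ * (γ * x * γ⁻¹ * (γ * t * γ⁻¹)) * γ := by group
        _ = γ⁻¹ * (γ * t * γ⁻¹ * (γ * x * γ⁻¹)) * γ := by rw [h3]
        _ = _ := by group
    · rw [map_mul, map_mul, map_inv] at h2
      have := mul_mem (mul_mem (inv_mem hγ) h2) hγ
      have e : (f γ)⁻¹ * (f γ * f x * (f γ)⁻¹) * f γ = f x := by group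
      rwa [e] at this

private theorem hu8_fin (hE : Finite E) {H : Subgroup A} (h : H ≤ E.comap f)
    (hi : ∀ x ∈ H, f x = 1 → x = 1) : Finite H := by
  refine Finite.of_injective (fun x : H => (⟨f x, h x.2⟩ : E)) ?_
  intro x y hxy
  have h1 : f x = f y := congrArg Subtype.val hxy
  have h2 : (x : A) * (y : A)⁻¹ = 1 := hi _ (mul_mem x.2 (inv_mem y.2)) (by
    rw [map_mul, map_inv, h1, mul_inv_cancel])
  exact Subtype.ext (mul_inv_eq_one.1 h2)

variable {Tt : Set A}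

private structure Hu8 (f : A →* B) (E : Subgroup B) (Tt : Set A) : Prop where
  hE : Finite E
  h0 : ∀ t ∈ Tt, f t ∈ E
  h1 : (1 : A) ∉ Tt
  h2 : ∀ t ∈ Tt, ∀ γ, f γ ∈ E → γ * t * γ⁻¹ ∈ Tt
  h3 : ∀ t ∈ Tt, ∀ s, f s ∈ E → Commute s t → s ≠ 1 → s ∈ Tt
  h4 : ∀ t ∈ Tt, ∀ x, f x = 1 → Commute x t → x = 1
  h5 : ∀ H : Subgroup A, Finite H → H ≤ E.comap f → (∃ t ∈ Tt, t ∈ H) →
      ∀ x ∈ H, ∀ y ∈ H, x * y = y * x

private theorem Hu8.self (h : Hu8 f E Tt) {t : A} (ht : t ∈ Tt) : t ∈ hu8C f E t :=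
  hu8_mem.2 ⟨Commute.refl t, h.h0 t ht⟩

private theorem Hu8.inj (h : Hu8 f E Tt) {t : A} (ht : t ∈ Tt) :
    ∀ x ∈ hu8C f E t, f x = 1 → x = 1 := fun x hx hx1 => h.h4 t ht x hx1 (hu8_mem.1 hx).1

private theorem hu8_le (t : A) : hu8C f E t ≤ E.comap f := inf_le_right

private theorem Hu8.fin (h : Hu8 f E Tt) {t : A} (ht : t ∈ Tt) : Finite (hu8C f E t) :=
  hu8_fin h.hE (hu8_le t) (h.inj ht)

private theorem Hu8.comm (h : Hu8 f E Tt) {t : A} (ht : t ∈ Tt) {x y : A}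
    (hx : x ∈ hu8C f E t) (hy : y ∈ hu8C f E t) : x * y = y * x :=
  h.h5 _ (h.fin ht) (hu8_le t) ⟨t, ht, h.self ht⟩ x hx y hy

private theorem Hu8.tt (h : Hu8 f E Tt) {t s : A} (ht : t ∈ Tt) (hs : s ∈ hu8C f E t)
    (hs1 : s ≠ 1) : s ∈ Tt := h.h3 t ht s (hu8_mem.1 hs).2 (hu8_mem.1 hs).1 hs1

private theorem Hu8.eq (h : Hu8 f E Tt) {t s : A} (ht : t ∈ Tt) (hs : s ∈ hu8C f E t)
    (hs1 : s ≠ 1) : hu8C f E s = hu8C f E t := by
  have hsT := h.tt ht hs hs1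
  apply le_antisymm
  · intro x hx
    have hts : t ∈ hu8C f E s := hu8_mem.2 ⟨(hu8_mem.1 hs).1.symm, h.h0 t ht⟩
    exact hu8_mem.2 ⟨h.comm hsT hx hts, (hu8_mem.1 hx).2⟩
  · intro x hx
    exact hu8_mem.2 ⟨h.comm ht hx hs, (hu8_mem.1 hx).2⟩

private theorem Hu8.norm (h : Hu8 f E Tt) {t δ : A} (ht : t ∈ Tt) (hδ : f δ ∈ E)
    (hn : ∀ x, x ∈ hu8C f E t ↔ δ * x * δ⁻¹ ∈ hu8C f E t) : δ ∈ hu8C f E t := by
  let Nt : Subgroup A := Subgroup.normalizer (hu8C f E t : Set A) ⊓ E.comap f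
  have hNle : Nt ≤ E.comap f := inf_le_right
  have htN : t ∈ Nt := by
    refine Subgroup.mem_inf.2 ⟨?_, h.h0 t ht⟩
    exact Subgroup.le_normalizer (h.self ht)
  have hNi : ∀ x ∈ Nt, f x = 1 → x = 1 := by
    intro γ hγ hγ1
    have h1 : γ * t * γ⁻¹ ∈ hu8C f E t :=
      (Subgroup.mem_normalizer_iff.1 (Subgroup.mem_inf.1 hγ).1 t).1 (h.self ht)
    have h2 : γ * t * γ⁻¹ * t⁻¹ = 1 := by
      refine h.inj ht _ (mul_mem h1 (inv_mem (h.self ht))) ?_
      rw [map_mul, map_mul, map_mul, map_inv, map_inv, hγ1]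
      group
    refine h.h4 t ht γ hγ1 ?_
    show γ * t = t * γ
    have h3 : γ * t * γ⁻¹ = t := mul_inv_eq_one.1 h2
    exact mul_inv_eq_iff_eq_mul.1 h3
  have hδN : δ ∈ Nt := Subgroup.mem_inf.2 ⟨Subgroup.mem_normalizer_iff.2 hn, hδ⟩
  have := h.h5 Nt (hu8_fin h.hE hNle hNi) hNle ⟨t, ht, htN⟩ δ hδN t htN
  exact hu8_mem.2 ⟨this, hδ⟩

/-- If `δ` conjugates `s` to `s'`, both nontrivial in `C t`, then `δ ∈ C t` and `s = s'`. -/
private theorem Hu8.key (h : Hu8 f E Tt) {t s s' δ : A} (ht : t ∈ Tt) (hs : s ∈ hu8C f E t)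
    (hs1 : s ≠ 1) (hs' : s' ∈ hu8C f E t) (hδ : f δ ∈ E) (e : δ * s * δ⁻¹ = s') :
    δ ∈ hu8C f E t ∧ s = s' := by
  have hs1' : s' ≠ 1 := by
    rw [← e]
    intro h1
    apply hs1
    have : δ * s = δ := by
      rw [mul_inv_eq_one] at h1
      exact h1
    exact mul_eq_left.1 this
  have h1 : δ ∈ hu8C f E t := by
    refine h.norm ht hδ fun x => ?_
    rw [← h.eq ht hs hs1]
    rw [hu8_conj hδ, e, h.eq ht hs' hs1', h.eq ht hs hs1]
  refine ⟨h1, ?_⟩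
  rw [← e, h.comm ht h1 hs]
  group

private def hu8K (f : A →* B) (E : Subgroup B) (t : A) : Set A :=
  {s | ∃ γ, f γ ∈ E ∧ ∃ u ∈ hu8C f E t, u ≠ 1 ∧ s = γ * u * γ⁻¹}

private theorem Hu8.selfK (h : Hu8 f E Tt) {t : A} (ht : t ∈ Tt) : t ∈ hu8K f E t :=
  ⟨1, by rw [map_one]; exact one_mem _, t, h.self ht, fun h1 => h.h1 (h1 ▸ ht), by group⟩

private theorem Hu8.subT (h : Hu8 f E Tt) {t s : A} (ht : t ∈ Tt) (hs : s ∈ hu8K f E t) :
    s ∈ Tt := by
  obtain ⟨γ, hγ, u, hu, hu1, rfl⟩ := hs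
  exact h.h2 u (h.tt ht hu hu1) γ hγ

private theorem Hu8.eqK (h : Hu8 f E Tt) {t s : A} (ht : t ∈ Tt) (hs : s ∈ hu8K f E t) :
    hu8K f E s = hu8K f E t := by
  obtain ⟨γ, hγ, u, hu, hu1, rfl⟩ := hs
  ext z
  constructor
  · rintro ⟨γ', hγ', v, hv, hv1, rfl⟩
    refine ⟨γ' * γ, by rw [map_mul]; exact mul_mem hγ' hγ, γ⁻¹ * v * γ, ?_, ?_, by group⟩
    · rw [← h.eq ht hu hu1, hu8_conj hγ]
      have e : γ * (γ⁻¹ * v * γ) * γ⁻¹ = v := by group
      rwa [e]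
    · intro h1
      apply hv1
      have : v = γ * (γ⁻¹ * v * γ) * γ⁻¹ := by group
      rw [this, h1]
      group
  · rintro ⟨γ', hγ', v, hv, hv1, rfl⟩
    refine ⟨γ' * γ⁻¹, by rw [map_mul, map_inv]; exact mul_mem hγ' (inv_mem hγ), γ * v * γ⁻¹,
      ?_, ?_, by group⟩
    · rw [← h.eq ht hu hu1] at hv
      exact (hu8_conj hγ).1 hv
    · intro h1
      apply hv1
      have : v = γ⁻¹ * (γ * v * γ⁻¹) * γ := by group
      rw [this, h1]
      group

end aux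

section cnt

variable {A B : Type} [Group A] [Group B] {f : A →* B} {E : Subgroup B} {Tt : Set A}

private theorem hu8_orb_self (t : A) : t ∈ orbK f t := ⟨1, map_one f, by group⟩

private theorem hu8_orb_conj {t x : A} (hx : f x = 1) : orbK f (x * t * x⁻¹) = orbK f t := by
  ext s
  constructor
  · rintro ⟨y, hy, rfl⟩
    exact ⟨y * x, by rw [map_mul, hy, hx, one_mul], by group⟩
  · rintro ⟨y, hy, rfl⟩
    exact ⟨y * x⁻¹, by rw [map_mul, map_inv, hy, hx, inv_one, one_mul], by group⟩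

private theorem hu8_orb_eq {s t : A} (h : orbK f s = orbK f t) :
    ∃ x, f x = 1 ∧ s = x * t * x⁻¹ := by
  have h1 : s ∈ orbK f t := h ▸ hu8_orb_self s
  exact h1

private def hu8Cl (f : A →* B) (E : Subgroup B) (t : A) : Set (Set A) :=
  {O | ∃ s ∈ hu8K f E t, O = orbK f s}

private theorem Hu8.card (h : Hu8 f E Tt) (hf : Function.Surjective f) {t : A} (ht : t ∈ Tt) :
    2 ≤ Nat.card (hu8C f E t) ∧ Nat.card (hu8C f E t) ∣ Nat.card E ∧
      (hu8Cl f E t).ncard = Nat.card E - Nat.card E / Nat.card (hu8C f E t) := by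
  have hE := h.hE
  have hCf := h.fin ht
  let F : Subgroup E := ((hu8C f E t).map f).subgroupOf E
  have hFle : (hu8C f E t).map f ≤ E := by
    rintro _ ⟨x, hx, rfl⟩
    exact (hu8_mem.1 hx).2
  have hFcard : Nat.card F = Nat.card (hu8C f E t) := by
    have e1 : Nat.card F = Nat.card ((hu8C f E t).map f) :=
      Nat.card_congr (Subgroup.subgroupOfEquivOfLe hFle).toEquiv
    rw [e1]
    symm
    refine Nat.card_congr (Equiv.ofBijective (fun x : hu8C f E t =>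
      (⟨f x, ⟨x, x.2, rfl⟩⟩ : (hu8C f E t).map f)) ⟨?_, ?_⟩)
    · intro x y hxy
      have h1 : f x = f y := congrArg Subtype.val hxy
      have h2 : (x : A) * (y : A)⁻¹ = 1 := h.inj ht _ (mul_mem x.2 (inv_mem y.2)) (by
        rw [map_mul, map_inv, h1, mul_inv_cancel])
      exact Subtype.ext (mul_inv_eq_one.1 h2)
    · rintro ⟨_, x, hx, rfl⟩
      exact ⟨⟨x, hx⟩, rfl⟩
  have hidx : Nat.card E = Nat.card (E ⧸ F) * Nat.card (hu8C f E t) := by
    rw [← hFcard]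
    exact Subgroup.card_eq_card_quotient_mul_card_subgroup F
  have hpos : 0 < Nat.card (hu8C f E t) := Nat.card_pos
  let S1 : Set (hu8C f E t) := {1}ᶜ
  have hS1 : S1.ncard + 1 = Nat.card (hu8C f E t) := by
    have := Set.ncard_add_ncard_compl ({1} : Set (hu8C f E t))
    rw [Set.ncard_singleton, add_comm] at this
    exact this
  have hmem1 : (⟨t, h.self ht⟩ : hu8C f E t) ∈ S1 := by
    intro h1
    have h2 : (⟨t, h.self ht⟩ : hu8C f E t) = 1 := h1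
    have h3 : t = 1 := congrArg Subtype.val h2
    exact h.h1 (h3 ▸ ht)
  have hS1pos : 0 < S1.ncard := (Set.ncard_pos (Set.toFinite _)).2 ⟨_, hmem1⟩
  refine ⟨by omega, ⟨_, by rw [hidx]; ring⟩, ?_⟩
  let g : E ⧸ F → A := fun q => Function.surjInv hf ((Quotient.out q : E) : B)
  have hg : ∀ q, f (g q) = ((Quotient.out q : E) : B) := fun q => Function.surjInv_eq hf _
  have hgE : ∀ q, f (g q) ∈ E := fun q => by rw [hg q]; exact (Quotient.out q).2
  have hne : ∀ s : S1, ((s : hu8C f E t) : A) ≠ 1 := fun s h1 => s.2 (Subtype.ext h1)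
  let G : S1 × (E ⧸ F) → hu8Cl f E t := fun p =>
    ⟨orbK f (g p.2 * ((p.1 : hu8C f E t) : A) * (g p.2)⁻¹),
      ⟨_, ⟨g p.2, hgE p.2, _, (p.1 : hu8C f E t).2, hne p.1, rfl⟩, rfl⟩⟩
  have hG : Function.Bijective G := by
    constructor
    · rintro ⟨s, q⟩ ⟨s', q'⟩ he
      have h1 : orbK f (g q * ((s : hu8C f E t) : A) * (g q)⁻¹)
          = orbK f (g q' * ((s' : hu8C f E t) : A) * (g q')⁻¹) := congrArg Subtype.val he
      obtain ⟨x, hx, hxe⟩ := hu8_orb_eq h1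
      have hδE : f ((g q')⁻¹ * x⁻¹ * g q) ∈ E := by
        rw [map_mul, map_mul, map_inv, map_inv, hx, inv_one, mul_one]
        exact mul_mem (inv_mem (hgE q')) (hgE q)
      have hδ : ((g q')⁻¹ * x⁻¹ * g q) * ((s : hu8C f E t) : A) * ((g q')⁻¹ * x⁻¹ * g q)⁻¹
          = ((s' : hu8C f E t) : A) := by
        calc ((g q')⁻¹ * x⁻¹ * g q) * ((s : hu8C f E t) : A) * ((g q')⁻¹ * x⁻¹ * g q)⁻¹
            = (g q')⁻¹ * x⁻¹ * (g q * ((s : hu8C f E t) : A) * (g q)⁻¹) * x * g q' := by group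
          _ = (g q')⁻¹ * x⁻¹ * (x * (g q' * ((s' : hu8C f E t) : A) * (g q')⁻¹) * x⁻¹) * x * g q'
              := by rw [hxe]
          _ = _ := by group
      obtain ⟨h2, h3⟩ := h.key ht (s : hu8C f E t).2 (hne s) (s' : hu8C f E t).2 hδE hδ
      have hs : s = s' := Subtype.ext (Subtype.ext h3)
      have hq : q = q' := by
        have h4 : (Quotient.out q' : E)⁻¹ * (Quotient.out q : E) ∈ F := by
          refine Subgroup.mem_subgroupOf.2 ⟨_, h2, ?_⟩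
          rw [map_mul, map_mul, map_inv, map_inv, hx, inv_one, mul_one, hg, hg]
          rfl
        have h5 : ((Quotient.out q' : E) : E ⧸ F) = ((Quotient.out q : E) : E ⧸ F) :=
          QuotientGroup.eq.2 h4
        rw [QuotientGroup.out_eq', QuotientGroup.out_eq'] at h5
        exact h5.symm
      rw [hs, hq]
    · rintro ⟨_, s', ⟨γ, hγ, u, hu, hu1, rfl⟩, rfl⟩
      obtain ⟨c, hc⟩ := QuotientGroup.mk_out_eq_mul F (⟨f γ, hγ⟩ : E)
      obtain ⟨c', hc', hcc⟩ : ∃ c' ∈ hu8C f E t, f c' = ((c : E) : B) :=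
        Subgroup.mem_subgroupOf.1 c.2
      refine ⟨(⟨⟨u, hu⟩, fun h1 => hu1 (congrArg Subtype.val h1)⟩,
        ((⟨f γ, hγ⟩ : E) : E ⧸ F)), ?_⟩
      apply Subtype.ext
      show orbK f (g ((⟨f γ, hγ⟩ : E) : E ⧸ F) * u * (g ((⟨f γ, hγ⟩ : E) : E ⧸ F))⁻¹)
        = orbK f (γ * u * γ⁻¹)
      have hout : f (g ((⟨f γ, hγ⟩ : E) : E ⧸ F)) = f γ * f c' := by
        rw [hg, hcc]
        exact congrArg Subtype.val hc
      have hx : f (g ((⟨f γ, hγ⟩ : E) : E ⧸ F) * (γ * c')⁻¹) = 1 := by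
        rw [map_mul, map_inv, map_mul, hout, mul_inv_cancel]
      rw [← hu8_orb_conj hx (t := γ * u * γ⁻¹)]
      congr 1
      have hcu : c' * u = u * c' := h.comm ht hc' hu
      calc g ((⟨f γ, hγ⟩ : E) : E ⧸ F) * u * (g ((⟨f γ, hγ⟩ : E) : E ⧸ F))⁻¹
          = g ((⟨f γ, hγ⟩ : E) : E ⧸ F) * c'⁻¹ * (c' * u) * (g ((⟨f γ, hγ⟩ : E) : E ⧸ F))⁻¹ := by
            group
        _ = g ((⟨f γ, hγ⟩ : E) : E ⧸ F) * c'⁻¹ * (u * c') * (g ((⟨f γ, hγ⟩ : E) : E ⧸ F))⁻¹ := by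
            rw [hcu]
        _ = _ := by group
  have hcard : (hu8Cl f E t).ncard = S1.ncard * Nat.card (E ⧸ F) := by
    rw [← Nat.card_coe_set_eq, ← Nat.card_coe_set_eq, ← Nat.card_prod]
    exact (Nat.card_congr (Equiv.ofBijective G hG)).symm
  rw [hcard, hidx, Nat.mul_div_cancel _ hpos, ← hS1]
  have : Nat.card (E ⧸ F) * (S1.ncard + 1) = S1.ncard * Nat.card (E ⧸ F) + Nat.card (E ⧸ F) := by
    ring
  omega

private theorem Hu8.kap (h : Hu8 f E Tt) {t : A} (ht : t ∈ Tt) :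
    (⋃ s ∈ orbK f t, hu8K f E s) = hu8K f E t := by
  ext z
  simp only [Set.mem_iUnion, exists_prop]
  constructor
  · rintro ⟨s, ⟨x, hx, rfl⟩, hz⟩
    have h1 : x * t * x⁻¹ ∈ hu8K f E t :=
      ⟨x, by rw [hx]; exact one_mem _, t, h.self ht, fun h1 => h.h1 (h1 ▸ ht), rfl⟩
    rwa [h.eqK ht h1] at hz
  · intro hz
    exact ⟨t, hu8_orb_self t, hz⟩

end cnt

theorem hu_cnt {A B : Type} [Group A] [Group B] (f : A →* B) (hf : Function.Surjective f)
    (E : Subgroup B) (hE : Finite E) (Tt : Set A) (h0 : ∀ t ∈ Tt, f t ∈ E) (h1 : (1 : A) ∉ Tt)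
    (h2 : ∀ t ∈ Tt, ∀ γ, f γ ∈ E → γ * t * γ⁻¹ ∈ Tt)
    (h3 : ∀ t ∈ Tt, ∀ s, f s ∈ E → Commute s t → s ≠ 1 → s ∈ Tt)
    (h4 : ∀ t ∈ Tt, ∀ x, f x = 1 → Commute x t → x = 1)
    (h5 : ∀ H : Subgroup A, Finite H → H ≤ E.comap f → (∃ t ∈ Tt, t ∈ H) →
      ∀ x ∈ H, ∀ y ∈ H, x * y = y * x)
    (h6 : {O : Set A | ∃ t ∈ Tt, O = orbK f t}.Finite) :
    ∃ (r : ℕ) (m : Fin r → ℕ), (∀ i, 2 ≤ m i ∧ m i ∣ Nat.card E) ∧
      {O : Set A | ∃ t ∈ Tt, O = orbK f t}.ncard = ∑ i, (Nat.card E - Nat.card E / m i) := by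
  classical
  have h : Hu8 f E Tt := ⟨hE, h0, h1, h2, h3, h4, h5⟩
  let κ : Set A → Set A := fun O => ⋃ s ∈ O, hu8K f E s
  let Z : Finset (Set A) := h6.toFinset.image κ
  have hz : ∀ z : Z, ∃ m : ℕ, (2 ≤ m ∧ m ∣ Nat.card E) ∧
      (h6.toFinset.filter (fun O => κ O = z)).card = Nat.card E - Nat.card E / m := by
    rintro ⟨z, hz⟩
    obtain ⟨O, hO, rfl⟩ := Finset.mem_image.1 hz
    obtain ⟨t, ht, rfl⟩ := h6.mem_toFinset.1 hO
    obtain ⟨c1, c2, c3⟩ := h.card hf ht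
    refine ⟨_, ⟨c1, c2⟩, ?_⟩
    rw [← c3, ← Set.ncard_coe_finset]
    congr 1
    ext O
    simp only [Finset.coe_filter, Set.mem_ofPred_eq, Set.Finite.mem_toFinset]
    constructor
    · rintro ⟨⟨s, hs, rfl⟩, he⟩
      refine ⟨s, ?_, rfl⟩
      have e1 : κ (orbK f s) = hu8K f E s := h.kap hs
      have e2 : κ (orbK f t) = hu8K f E t := h.kap ht
      rw [← e2, ← he, e1]
      exact h.selfK hs
    · rintro ⟨s, hs, rfl⟩
      have hsT := h.subT ht hs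
      refine ⟨⟨s, hsT, rfl⟩, ?_⟩
      show κ (orbK f s) = κ (orbK f t)
      have e1 : κ (orbK f s) = hu8K f E s := h.kap hsT
      have e2 : κ (orbK f t) = hu8K f E t := h.kap ht
      rw [e1, e2, h.eqK ht hs]
  choose m hm1 hm2 using hz
  refine ⟨Z.card, fun i => m (Z.equivFin.symm i), fun i => hm1 _, ?_⟩
  rw [Set.ncard_eq_toFinset_card _ h6, Finset.card_eq_sum_card_image κ h6.toFinset,
    Equiv.sum_comp Z.equivFin.symm (fun z => Nat.card E - Nat.card E / m z)]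
  show ∑ z ∈ Z, _ = _
  rw [← Finset.sum_coe_sort]
  exact Finset.sum_congr rfl fun z _ => hm2 z

end Pool.Agent.Work.MP_d3656f_al.GB
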