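import Mathlib

/-!
# GB/Hu9 : the trace of an averaging operator (PURE linear algebra)

Let `S = Σ_x ρ x`. `S * ρ y = S` (reindex), so `S * S = N • S`, `N = Fintype.card H`. Over the rational
numbers `P = N⁻¹ • S` is idempotent, so its trace is its rank, a natural number `d`
(`LinearMap.IsProj.trace` or `LinearMap.IsIdempotentElem` API for `Matrix.toLin'`), and
`trace S = N * d`.
-/

set_option autoImplicit false

namespace Pool.Agent.Work.MP_d3656f_al.GB

private theorem hu9_idem {ι : Type} [Fintype ι] [DecidableEq ι] (P : Matrix ι ι ℚ)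
    (h : P * P = P) : ∃ d : ℕ, P.trace = d := by
  have h1 : IsIdempotentElem (Matrix.toLin' P) := by
    show Matrix.toLin' P * Matrix.toLin' P = Matrix.toLin' P
    rw [Module.End.mul_eq_comp, ← Matrix.toLin'_mul, h]
  have h2 := LinearMap.IsIdempotentElem.isProj_range (Matrix.toLin' P) h1
  have h3 := h2.trace
  rw [Matrix.trace_toLin'_eq] at h3
  exact ⟨_, h3⟩

theorem hu_avg {H ι : Type} [Group H] [Fintype H] [Fintype ι] [DecidableEq ι]
    (ρ : H → Matrix ι ι ℤ) (h1 : ρ 1 = 1) (h2 : ∀ x y, ρ (x * y) = ρ y * ρ x) :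
    ∃ d : ℕ, ∑ x, (ρ x).trace = Fintype.card H * d := by
  have _ := h1
  let S : Matrix ι ι ℤ := ∑ x, ρ x
  have hS : S * S = (Fintype.card H : ℤ) • S := by
    have e1 : ∀ y, S * ρ y = S := by
      intro y
      show (∑ x, ρ x) * ρ y = ∑ x, ρ x
      rw [Finset.sum_mul]
      calc ∑ x, ρ x * ρ y = ∑ x, ρ (y * x) := by
            refine Finset.sum_congr rfl fun x _ => ?_
            rw [h2]
        _ = ∑ x, ρ x := Equiv.sum_comp (Equiv.mulLeft y) ρ
    calc S * S = ∑ y, S * ρ y := by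
          show S * (∑ y, ρ y) = _
          rw [Finset.mul_sum]
      _ = ∑ _y : H, S := Finset.sum_congr rfl fun y _ => e1 y
      _ = _ := by
          rw [Finset.sum_const, Finset.card_univ]
          simp
  let T : Matrix ι ι ℚ := S.map (Int.castRingHom ℚ)
  have hT : T * T = (Fintype.card H : ℚ) • T := by
    show S.map (Int.castRingHom ℚ) * S.map (Int.castRingHom ℚ) = _
    rw [← Matrix.map_mul, hS]
    ext i j
    rw [Matrix.smul_apply, Matrix.map_apply, Matrix.smul_apply]
    show ((((Fintype.card H : ℤ) * S i j : ℤ)) : ℚ) = (Fintype.card H : ℚ) * ((S i j : ℤ) : ℚ)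
    push_cast
    rfl
  have hN : (Fintype.card H : ℚ) ≠ 0 := by
    exact_mod_cast Fintype.card_ne_zero
  obtain ⟨d, hd⟩ := hu9_idem (((Fintype.card H : ℚ))⁻¹ • T) (by
    rw [Matrix.smul_mul, Matrix.mul_smul, hT, smul_smul, smul_smul]
    congr 1
    field_simp)
  refine ⟨d, ?_⟩
  rw [Matrix.trace_smul, smul_eq_mul] at hd
  have h3 : T.trace = ((∑ x, (ρ x).trace : ℤ) : ℚ) := by
    have : S.trace = ∑ x, (ρ x).trace := Matrix.trace_sum _ _
    rw [← this]
    simp [T, Matrix.trace]
  have h4 : ((∑ x, (ρ x).trace : ℤ) : ℚ) = (((Fintype.card H : ℤ) * (d : ℤ) : ℤ) : ℚ) := by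
    rw [← h3]
    push_cast
    rw [← hd]
    field_simp
  exact_mod_cast h4

end Pool.Agent.Work.MP_d3656f_al.GB
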