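import Mathlib
import Pool.Agent.Work.MP_d3656f_al.GB.Hu4
import Pool.Agent.Work.MP_d3656f_al.GB.Hu6
import Pool.Agent.Work.MP_d3656f_al.GB.Hu8
import Pool.Agent.Work.MP_d3656f_al.GB.Hu9
import Pool.Agent.Work.MP_d3656f_al.GB.Hu10
import Pool.Agent.Work.MP_d3656f_al.N.MatH

/-!
# GB/Hu11 : the bound for orientation preserving groups

Let `N = Nat.card E`. Apply `hu_cnt` to `f = cls` and
`Tt = {Ψ | cls Ψ ∈ E ∧ ∀ a ∈ Bd, bd Ψ a ≠ a}`; `cls x = 1` iff `x = conj v` for some `v`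
(`cls_eq_iff`), so `orbK cls Ψ = orbI Ψ`.
* h1: `bd 1 a = a`. h2: `bd (γ Ψ γ⁻¹) a = a` gives the fixed point `bd γ⁻¹ a` of `Ψ` (`bd_mul`).
* h4: `hu_comm`.
* h3: `cls s ∈ E` has finite order `k > 0`; `s^k = conj γ` commutes with `t`, so `γ = 1`
  (`hu_comm`), `s^k = 1`; if `s` had a fixed point then `s = 1` by `hu_fix`.
* h5: `hu_abel`; `hfree`: elements of a finite group have finite order, `hu_fix`.
* h6 and the number of classes: the set is the disjoint union over `e ∈ E` of the sets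
  `{orbI Ψ | cls Ψ = e, Ψ has no fixed point}` (`cls` is constant on `orbI Ψ`); for `e = 1` it is
  empty (`hu_inn`), for `e ≠ 1` it is finite with `1 - trace + 1` elements (`hu_count`, `dgr = 1`).
So with `ρ e = matH` of a lift of `e` (independent of the lift: `matH_mul`, `matH_conj`, `cls_eq_iff`)
the number of classes is `Σ_{e ≠ 1} (2 - trace (ρ e)) = 2 (N - 1) - (N d - 2 g)` by `hu_avg` and
`matH_trace_one`. With `hu_cnt`: `2 g - 2 = N (d - 2) + Σ_i (N - N / m i)`, and `hu_arith`.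
-/

set_option autoImplicit false

namespace Pool.Agent.Work.MP_d3656f_al.GB

private theorem hu11_bd : (![1, 0, 1] : V) ∈ Bd := by
  refine ⟨?_, ?_⟩
  · simp [Q]
  · rfl

private theorem hu11_cls_one {G : Type} [Group G] {x : MulAut G} :
    cls x = 1 ↔ ∃ v : G, x = MulAut.conj v := by
  have h := cls_eq_iff (1 : MulAut G) x
  rw [map_one] at h
  constructor
  · intro hx
    obtain ⟨γ, hγ⟩ := h.1 hx.symm
    exact ⟨γ, by rw [hγ, mul_one]⟩
  · rintro ⟨v, rfl⟩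
    exact (h.2 ⟨v, (mul_one _).symm⟩).symm

private theorem hu11_orb {G : Type} [Group G] (Ψ : MulAut G) : orbK cls Ψ = orbI Ψ := by
  ext s
  constructor
  · rintro ⟨x, hx, rfl⟩
    obtain ⟨v, rfl⟩ := hu11_cls_one.1 hx
    exact ⟨v, rfl⟩
  · rintro ⟨v, rfl⟩
    exact ⟨MulAut.conj v, hu11_cls_one.2 ⟨v, rfl⟩, rfl⟩

private theorem hu11_cls_orb {G : Type} [Group G] {Ψ Ψ' : MulAut G} (h : orbI Ψ = orbI Ψ') :
    cls Ψ = cls Ψ' := by
  have h1 : Ψ ∈ orbI Ψ := ⟨1, by rw [map_one, one_mul, inv_one, mul_one]⟩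
  rw [h] at h1
  obtain ⟨v, hv⟩ := h1
  have h2 : cls (MulAut.conj v) = 1 := hu11_cls_one.2 ⟨v, rfl⟩
  rw [hv, map_mul, map_mul, map_inv, h2, one_mul, inv_one, mul_one]

private theorem hu11_matH {g : ℕ} {Φ Ψ : MulAut (SG g)} (h : cls Φ = cls Ψ) :
    matH Φ = matH Ψ := by
  obtain ⟨γ, hγ⟩ := (cls_eq_iff Φ Ψ).1 h
  rw [hγ, matH_mul, matH_conj, mul_one]

/-- The number of elements of a finite disjoint union. -/
private theorem hu11_card {ι α : Type} [Fintype ι] (Y : ι → Set α) (hf : ∀ i, (Y i).Finite)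
    (hd : ∀ i j, i ≠ j → Disjoint (Y i) (Y j)) :
    (⋃ i, Y i).Finite ∧ (⋃ i, Y i).ncard = ∑ i, (Y i).ncard := by
  classical
  have h1 : (⋃ i, Y i) = ((Finset.univ.biUnion fun i => (hf i).toFinset : Finset α) : Set α) := by
    ext x
    simp
  refine ⟨by rw [h1]; exact Finset.finite_toSet _, ?_⟩
  rw [h1, Set.ncard_coe_finset, Finset.card_biUnion]
  · refine Finset.sum_congr rfl fun i _ => ?_
    rw [Set.ncard_eq_toFinset_card (Y i) (hf i)]
  · intro i _ j _ hij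
    rw [Function.onFun, Finset.disjoint_left]
    intro x hx hx'
    rw [Set.Finite.mem_toFinset] at hx hx'
    exact Set.disjoint_left.1 (hd i j hij) hx hx'

theorem hu_pos {g : ℕ} (hg : 2 ≤ g) (M : Model (SG g)) (E : Subgroup (OutG (SG g)))
    (hE : Finite E) (hop : ∀ Φ : MulAut (SG g), cls Φ ∈ E → M.OP Φ ∧ dgr Φ = 1) :
    Nat.card E ≤ 84 * (g - 1) := by
  classical
  have hord : ∀ e ∈ E, ∃ k : ℕ, 0 < k ∧ e ^ k = 1 := by
    intro e he
    obtain ⟨k, hk, h⟩ := isOfFinOrder_iff_pow_eq_one.1 (isOfFinOrder_of_finite (⟨e, he⟩ : E))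
    exact ⟨k, hk, by simpa using congrArg Subtype.val h⟩
  have hfixone : ∀ s : MulAut (SG g), cls s ∈ E → (∃ k : ℕ, 0 < k ∧ s ^ k = 1) →
      ∀ a ∈ Bd, M.bd s a = a → s = 1 := by
    rintro s hs ⟨k, hk, h⟩ a ha hf
    exact hu_fix M (hop s hs).1 hk h ha hf
  obtain ⟨Tt, hTt⟩ : ∃ Tt : Set (MulAut (SG g)),
      Tt = {Ψ | cls Ψ ∈ E ∧ ∀ a ∈ Bd, M.bd Ψ a ≠ a} := ⟨_, rfl⟩
  have hmem : ∀ Ψ, Ψ ∈ Tt ↔ cls Ψ ∈ E ∧ ∀ a ∈ Bd, M.bd Ψ a ≠ a := by
    intro Ψ
    rw [hTt]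
    exact Iff.rfl
  have h0 : ∀ t ∈ Tt, cls t ∈ E := fun t ht => ((hmem t).1 ht).1
  have h1 : (1 : MulAut (SG g)) ∉ Tt := by
    intro h
    exact ((hmem 1).1 h).2 _ hu11_bd (M.bd_one hu11_bd)
  have h2 : ∀ t ∈ Tt, ∀ γ, cls γ ∈ E → γ * t * γ⁻¹ ∈ Tt := by
    intro t ht γ hγ
    rw [hmem] at ht ⊢
    refine ⟨?_, ?_⟩
    · rw [map_mul, map_mul, map_inv]
      exact E.mul_mem (E.mul_mem hγ ht.1) (E.inv_mem hγ)
    · intro a ha h
      have hb : M.bd γ⁻¹ a ∈ Bd := M.bd_mem _ ha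
      refine ht.2 _ hb ?_
      rw [M.bd_mul _ _ ha, M.bd_mul _ _ hb] at h
      have h3 := congrArg (M.bd γ⁻¹) h
      rw [M.bd_inv_bd γ (M.bd_mem t hb)] at h3
      exact h3
  have hpow : ∀ t ∈ Tt, ∀ s, cls s ∈ E → Commute s t → ∃ k : ℕ, 0 < k ∧ s ^ k = 1 := by
    intro t ht s hs hc
    obtain ⟨k, hk, h⟩ := hord _ hs
    refine ⟨k, hk, ?_⟩
    rw [← map_pow] at h
    obtain ⟨v, hv⟩ := hu11_cls_one.1 h
    have h3 : Commute (MulAut.conj v) t := by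
      rw [← hv]
      exact hc.pow_left k
    have h4 := hu_comm M ((hmem t).1 ht).2 h3
    rw [hv, h4, map_one]
  have h3 : ∀ t ∈ Tt, ∀ s, cls s ∈ E → Commute s t → s ≠ 1 → s ∈ Tt := by
    intro t ht s hs hc hne
    rw [hmem]
    refine ⟨hs, fun a ha hf => hne ?_⟩
    exact hfixone s hs (hpow t ht s hs hc) a ha hf
  have h4 : ∀ t ∈ Tt, ∀ x, cls x = 1 → Commute x t → x = 1 := by
    intro t ht x hx hc
    obtain ⟨v, rfl⟩ := hu11_cls_one.1 hx
    have h5 := hu_comm M ((hmem t).1 ht).2 hc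
    rw [h5, map_one]
  have h5 : ∀ H : Subgroup (MulAut (SG g)), Finite H → H ≤ E.comap cls → (∃ t ∈ Tt, t ∈ H) →
      ∀ x ∈ H, ∀ y ∈ H, x * y = y * x := by
    intro H hH hHE _
    have hE' : ∀ x ∈ H, cls x ∈ E := fun x hx => Subgroup.mem_comap.1 (hHE hx)
    refine hu_abel M H hH (fun x hx => (hop x (hE' x hx)).1) ?_
    intro x hx a ha hf
    refine hfixone x (hE' x hx) ?_ a ha hf
    obtain ⟨k, hk, h⟩ := isOfFinOrder_iff_pow_eq_one.1 (isOfFinOrder_of_finite (⟨x, hx⟩ : H))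
    exact ⟨k, hk, by simpa using congrArg Subtype.val h⟩
  have : Fintype E := Fintype.ofFinite E
  obtain ⟨Y, hY⟩ : ∃ Y : E → Set (Set (MulAut (SG g))), Y = fun e : E =>
    {O | ∃ Ψ, cls Ψ = (e : OutG (SG g)) ∧ (∀ a ∈ Bd, M.bd Ψ a ≠ a) ∧ O = orbI Ψ} := ⟨_, rfl⟩
  choose lft hlft using fun e : E => cls_surj (e : OutG (SG g))
  have hY1 : Y 1 = ∅ := by
    rw [hY]
    ext O
    simp only [Set.mem_setOf_eq, Set.mem_empty_iff_false, iff_false]
    rintro ⟨Ψ, hΨ, hf, -⟩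
    obtain ⟨v, rfl⟩ := hu11_cls_one.1 hΨ
    obtain ⟨a, ha, h⟩ := hu_inn M v
    exact hf a ha h
  have hYc : ∀ e : E, (Y e).Finite ∧
      ((Y e).ncard : ℤ) = if e = 1 then 0 else 2 - (matH (lft e)).trace := by
    intro e
    by_cases he : e = 1
    · rw [if_pos he, he, hY1]
      simp
    · rw [if_neg he]
      have he' : cls (lft e) ≠ 1 := by
        rw [hlft e]
        intro h
        exact he (Subtype.ext h)
      have hE' : cls (lft e) ∈ E := by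
        rw [hlft e]
        exact e.2
      obtain ⟨k, hk, h⟩ := hord _ hE'
      obtain ⟨h6, h7⟩ := hu_count M (hop _ hE').1 he' hk h
      have h8 : Y e = {O : Set (MulAut (SG g)) | ∃ Ψ, cls Ψ = cls (lft e) ∧
          (∀ a ∈ Bd, M.bd Ψ a ≠ a) ∧ O = orbI Ψ} := by
        rw [hY, hlft e]
      rw [h8]
      refine ⟨h6, ?_⟩
      rw [h7, (hop _ hE').2]
      ring
  have hU : {O : Set (MulAut (SG g)) | ∃ t ∈ Tt, O = orbK cls t} = ⋃ e, Y e := by
    ext O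
    rw [Set.mem_iUnion]
    constructor
    · rintro ⟨t, ht, rfl⟩
      rw [hmem] at ht
      refine ⟨⟨cls t, ht.1⟩, ?_⟩
      rw [hY]
      exact ⟨t, rfl, ht.2, hu11_orb t⟩
    · rintro ⟨e, he⟩
      rw [hY] at he
      obtain ⟨Ψ, hΨ, hf, hO⟩ := he
      refine ⟨Ψ, ?_, ?_⟩
      · rw [hmem, hΨ]
        exact ⟨e.2, hf⟩
      · rw [hO, hu11_orb]
  obtain ⟨hUf, hUc⟩ := hu11_card Y (fun e => (hYc e).1) (by
    intro i j hij
    rw [Set.disjoint_left]
    intro O hi hj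
    rw [hY] at hi hj
    obtain ⟨Ψ, hΨ, -, hO⟩ := hi
    obtain ⟨Ψ', hΨ', -, hO'⟩ := hj
    apply hij
    apply Subtype.ext
    rw [← hΨ, ← hΨ']
    exact hu11_cls_orb (hO.symm.trans hO'))
  obtain ⟨r, m, hm, hr⟩ := hu_cnt cls cls_surj E hE Tt h0 h1 h2 h3 h4 h5 (by
    rw [hU]
    exact hUf)
  rw [hU, hUc] at hr
  have hN : Nat.card E = Fintype.card E := Nat.card_eq_fintype_card
  obtain ⟨d, hd⟩ := hu_avg (fun e : E => matH (lft e)) (by
    show matH (lft 1) = 1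
    rw [hu11_matH (Ψ := 1) (by rw [hlft 1, map_one]; rfl), matH_one]) (by
    intro x y
    show matH (lft (x * y)) = matH (lft y) * matH (lft x)
    rw [← matH_mul]
    refine hu11_matH ?_
    rw [hlft, map_mul, hlft, hlft]
    rfl)
  have htr1 : (matH (lft 1)).trace = 2 * g := by
    rw [hu11_matH (Ψ := 1) (by rw [hlft 1, map_one]; rfl), matH_one, matH_trace_one]
  have hsum : (∑ e, ((Y e).ncard : ℤ)) = 2 * (Fintype.card E : ℤ) - 2
      - ((Fintype.card E : ℤ) * d - 2 * g) := by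
    rw [← hd]
    have h6 : ∀ e : E, ((Y e).ncard : ℤ) = (2 - (matH (lft e)).trace)
        - (if e = 1 then (2 - (matH (lft e)).trace) else 0) := by
      intro e
      rw [(hYc e).2]
      by_cases he : e = 1
      · rw [if_pos he, if_pos he, sub_self]
      · rw [if_neg he, if_neg he, sub_zero]
    rw [Finset.sum_congr rfl fun e _ => h6 e, Finset.sum_sub_distrib, Finset.sum_sub_distrib,
      Finset.sum_ite_eq' Finset.univ (1 : E), if_pos (Finset.mem_univ _), htr1]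
    simp only [Finset.sum_const, Finset.card_univ, nsmul_eq_mul]
    ring
  refine hu_arith (d := d) m (Nat.card_pos) hg hm ?_
  have h7 : (∑ i, ((Nat.card E : ℤ) - ((Nat.card E / m i : ℕ) : ℤ)))
      = ((∑ i, (Nat.card E - Nat.card E / m i) : ℕ) : ℤ) := by
    rw [Nat.cast_sum]
    refine Finset.sum_congr rfl fun i _ => ?_
    rw [Nat.cast_sub (Nat.div_le_self _ _)]
  rw [h7, ← hr, Nat.cast_sum, hsum, hN]
  ring

end Pool.Agent.Work.MP_d3656f_al.GB
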