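import Mathlib
import Pool.Agent.Work.MP_d3656f_al.GB.Hu11

/-!
# GB/Hu12 : the order of a finite subgroup of the outer automorphism group

Let `E' ≤ E` be the set of all `e ∈ E` such that all (equivalently some) lifts `Φ` of `e` satisfy
`OP Φ` and `dgr Φ = 1` (`OP_conj`, `OP_mul`, `OP_inv`, `cls_eq_iff`, `dgr_cls`, `dgr_mul`; `M.inf`). It
is a subgroup. If `x, y ∈ E` have lifts `Φ`, `Ψ` with the same orientation behaviour (both `OP` or
both not) and `dgr Φ = dgr Ψ` then `Φ * Ψ⁻¹` is `OP` (as in the proof of `tors_fin` in `N/Tors.lean`: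
`dich`, `OR` composed with `OR` is `OP`) and `dgr (Φ * Ψ⁻¹) = 1` (`dgr_unit`), so `x y⁻¹ ∈ E'`. So
`E'` has at most `4` cosets in `E` (`dgr_unit`) and `Nat.card E ≤ 4 * Nat.card E' ≤ 336 (g - 1)` by
`hu_pos`.
-/

set_option autoImplicit false

namespace Pool.Agent.Work.MP_d3656f_al.GB

private theorem hu12_inv {g : ℕ} (M : Model (SG g)) (Φ : MulAut (SG g)) :
    dgr Φ⁻¹ = dgr Φ := by
  haveI := M.inf
  have h1 : dgr Φ⁻¹ * dgr Φ = 1 := by rw [← dgr_mul, inv_mul_cancel, dgr_one]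
  rcases dgr_unit Φ with h | h
  · rw [h] at h1 ⊢
    linarith
  · rw [h] at h1 ⊢
    linarith

private theorem hu12_op {g : ℕ} (M : Model (SG g)) (Φ Ψ : MulAut (SG g))
    (h : M.OP Φ ↔ M.OP Ψ) : M.OP (Φ * Ψ⁻¹) := by
  by_cases h1 : M.OP Φ
  · exact M.OP_mul h1 (M.OP_inv (h.1 h1))
  · have hy' : ¬ M.OP Ψ := fun h2 => h1 (h.2 h2)
    have hRx : M.OR Φ := (M.dich _).resolve_left h1
    have hRy : M.OR Ψ⁻¹ := by
      refine (M.dich _).resolve_left fun h' => hy' ?_
      have := M.OP_inv h'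
      rwa [inv_inv] at this
    intro a ha b hb c hc hpos
    have e1 := hRy a ha b hb c hc hpos
    have e2 : 0 < det3 (M.bd Ψ⁻¹ b) (M.bd Ψ⁻¹ a) (M.bd Ψ⁻¹ c) := by
      rw [det3_swap]; linarith
    have e3 := hRx _ (M.bd_mem _ hb) _ (M.bd_mem _ ha) _ (M.bd_mem _ hc) e2
    rw [det3_swap] at e3
    rw [M.bd_mul _ _ ha, M.bd_mul _ _ hb, M.bd_mul _ _ hc]
    linarith

theorem hurwitz {g : ℕ} (hg : 2 ≤ g) (M : Model (SG g)) (E : Subgroup (OutG (SG g)))
    (hE : Finite E) : Nat.card E ≤ 336 * (g - 1) := by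
  classical
  haveI := M.inf
  choose lift hlift using (cls_surj (G := SG g))
  let P : Subgroup (MulAut (SG g)) :=
    { carrier := {Φ | M.OP Φ ∧ dgr Φ = 1}
      mul_mem' := by
        rintro Φ Ψ ⟨h1, h2⟩ ⟨h3, h4⟩
        exact ⟨M.OP_mul h1 h3, by rw [dgr_mul, h2, h4, mul_one]⟩
      one_mem' := ⟨M.OP_one, dgr_one⟩
      inv_mem' := by
        rintro Φ ⟨h1, h2⟩
        exact ⟨M.OP_inv h1, by rw [hu12_inv M, h2]⟩ }
  let E' : Subgroup (OutG (SG g)) := E ⊓ P.map cls
  have hle : E' ≤ E := inf_le_left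
  have hfE : (E : Set (OutG (SG g))).Finite := hE
  have hE' : Finite E' := hfE.subset hle
  have hop : ∀ Φ : MulAut (SG g), cls Φ ∈ E' → M.OP Φ ∧ dgr Φ = 1 := by
    rintro Φ ⟨-, Ψ, ⟨h1, h2⟩, h3⟩
    obtain ⟨γ, hγ⟩ := (cls_eq_iff _ _).1 h3
    refine ⟨?_, ?_⟩
    · rw [hγ]
      exact M.OP_mul (M.OP_conj γ) h1
    · rw [← dgr_cls h3]
      exact h2
  have hpos := hu_pos hg M E' hE' hop
  let F : OutG (SG g) → Bool × Bool := fun x =>
    (decide (M.OP (lift x)), decide (dgr (lift x) = 1))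
  have key : ∀ x ∈ E, ∀ y ∈ E, F x = F y → x * y⁻¹ ∈ E' := by
    intro x hx y hy hxy
    have h1 : M.OP (lift x) ↔ M.OP (lift y) := by
      have := congrArg Prod.fst hxy
      exact decide_eq_decide.1 this
    have h2 : dgr (lift x) = 1 ↔ dgr (lift y) = 1 := by
      have := congrArg Prod.snd hxy
      exact decide_eq_decide.1 this
    refine ⟨E.mul_mem hx (E.inv_mem hy), lift x * (lift y)⁻¹, ⟨hu12_op M _ _ h1, ?_⟩, ?_⟩
    · rw [dgr_mul, hu12_inv M]
      rcases dgr_unit (lift x) with h3 | h3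
      · rw [h3, h2.1 h3, mul_one]
      · rcases dgr_unit (lift y) with h4 | h4
        · rw [h2.2 h4] at h3
          norm_num at h3
        · rw [h3, h4]
          norm_num
    · rw [map_mul, map_inv, hlift, hlift]
  have hcard : hfE.toFinset.card ≤ Nat.card E' * (hfE.toFinset.image F).card := by
    refine Finset.card_le_mul_card_image _ _ ?_
    intro b hb
    obtain ⟨x, hx, rfl⟩ := Finset.mem_image.1 hb
    have hxE : x ∈ E := hfE.mem_toFinset.1 hx
    have hfE' : (E' : Set (OutG (SG g))).Finite := hE'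
    have h5 : Nat.card E' = hfE'.toFinset.card := by
      rw [← Set.ncard_eq_toFinset_card (E' : Set (OutG (SG g))) hfE']
      exact Nat.card_coe_set_eq (E' : Set (OutG (SG g)))
    rw [h5]
    refine Finset.card_le_card_of_injOn (fun y => y * x⁻¹) ?_ ?_
    · intro y hy
      have hy' := Finset.mem_filter.1 (Finset.mem_coe.1 hy)
      exact Finset.mem_coe.2 (hfE'.mem_toFinset.2 (key y (hfE.mem_toFinset.1 hy'.1) x hxE hy'.2))
    · intro y _ z _ h
      exact mul_right_cancel h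
  have h6 : (hfE.toFinset.image F).card ≤ 4 := by
    refine (Finset.card_le_univ _).trans ?_
    simp
  have h7 : Nat.card E = hfE.toFinset.card := by
    rw [← Set.ncard_eq_toFinset_card (E : Set (OutG (SG g))) hfE]
    exact Nat.card_coe_set_eq (E : Set (OutG (SG g)))
  rw [h7]
  calc hfE.toFinset.card ≤ Nat.card E' * (hfE.toFinset.image F).card := hcard
    _ ≤ (84 * (g - 1)) * 4 := Nat.mul_le_mul hpos h6
    _ = 336 * (g - 1) := by ring

end Pool.Agent.Work.MP_d3656f_al.GB
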