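import Mathlib
import Pool.Agent.Work.MP_d3656f_al.GB.Hu1
import Pool.Agent.Work.MP_d3656f_al.O.Dich

/-!
# GB/Hu13 : commutators preserve the orientation and have degree one

Let `K` be the set of all `x` in the outer automorphism group such that every lift `Φ` of `x` is
`OP` and satisfies `dgr Φ = 1`; equivalently some lift (`cls_eq_iff`, `OP_mul`, `OP_conj`,
`dgr_cls`). It is a subgroup (`OP_mul`, `OP_inv`, `dgr_mul`, `dgr_one`; `M.inf` gives
`Infinite (SG g)`). It contains all commutators `⁅x, y⁆`: for lifts `Φ`, `Ψ` the lift `⁅Φ, Ψ⁆` has degree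
`dgr Φ * dgr Ψ * dgr Φ⁻¹ * dgr Ψ⁻¹ = 1`, and it is `OP`: by `dich` every automorphism is `OP` or
`OR`; `OR` composed with `OR` is `OP`, `OP` with `OR` is `OR` (as in the proof of `tors_fin` in
`N/Tors.lean`; apply `OP_iff` and `det3_swap`), inverses of `OR` are `OR`. So the commutator subgroup is
contained in `K`.
-/

set_option autoImplicit false

namespace Pool.Agent.Work.MP_d3656f_al.GB

private theorem hu13_or {G : Type} [Group G] (M : Model G) {Φ Ψ : MulAut G} (h : M.OR Φ)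
    (h' : M.OR Ψ) : M.OP (Φ * Ψ) := by
  intro a ha b hb c hc hpos
  have e1 := h' a ha b hb c hc hpos
  have e2 : 0 < det3 (M.bd Ψ b) (M.bd Ψ a) (M.bd Ψ c) := by
    rw [det3_swap]
    linarith
  have e3 := h _ (M.bd_mem _ hb) _ (M.bd_mem _ ha) _ (M.bd_mem _ hc) e2
  rw [det3_swap] at e3
  rw [M.bd_mul _ _ ha, M.bd_mul _ _ hb, M.bd_mul _ _ hc]
  linarith

private theorem hu13_mul {G : Type} [Group G] (M : Model G) (Φ Ψ : MulAut G) :
    M.OP (Φ * Ψ) ↔ (M.OP Φ ↔ M.OP Ψ) := by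
  by_cases h1 : M.OP Φ
  · by_cases h2 : M.OP Ψ
    · exact ⟨fun _ => ⟨fun _ => h2, fun _ => h1⟩, fun _ => M.OP_mul h1 h2⟩
    · refine ⟨fun h => ?_, fun h => absurd (h.1 h1) h2⟩
      exfalso
      apply h2
      have h3 := M.OP_mul (M.OP_inv h1) h
      rwa [inv_mul_cancel_left] at h3
  · by_cases h2 : M.OP Ψ
    · refine ⟨fun h => ?_, fun h => absurd (h.2 h2) h1⟩
      exfalso
      apply h1
      have h3 := M.OP_mul h (M.OP_inv h2)
      rwa [mul_inv_cancel_right] at h3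
    · exact ⟨fun _ => ⟨fun h => absurd h h1, fun h => absurd h h2⟩, fun _ =>
        hu13_or M ((M.dich _).resolve_left h1) ((M.dich _).resolve_left h2)⟩

private theorem hu13_inv {G : Type} [Group G] (M : Model G) (Φ : MulAut G) :
    M.OP Φ⁻¹ ↔ M.OP Φ := by
  refine ⟨fun h => ?_, fun h => M.OP_inv h⟩
  have h1 := M.OP_inv h
  rwa [inv_inv] at h1

theorem hu_ker {g : ℕ} (M : Model (SG g)) {Φ : MulAut (SG g)}
    (h : cls Φ ∈ commutator (OutG (SG g))) : M.OP Φ ∧ dgr Φ = 1 := by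
  haveI : Infinite (SG g) := M.inf
  let K : Subgroup (MulAut (SG g)) :=
    { carrier := {Φ | M.OP Φ ∧ dgr Φ = 1}
      mul_mem' := by
        rintro x y ⟨h1, h2⟩ ⟨h3, h4⟩
        exact ⟨M.OP_mul h1 h3, by rw [dgr_mul, h2, h4, one_mul]⟩
      one_mem' := ⟨M.OP_one, dgr_one⟩
      inv_mem' := by
        rintro x ⟨h1, h2⟩
        refine ⟨M.OP_inv h1, ?_⟩
        have h3 := dgr_mul x x⁻¹
        rw [mul_inv_cancel, dgr_one, h2, one_mul] at h3
        exact h3.symm }
  have hK : commutator (MulAut (SG g)) ≤ K := by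
    rw [commutator_def, Subgroup.commutator_le]
    intro x _ y _
    refine ⟨?_, ?_⟩
    · rw [commutatorElement_def, hu13_mul, hu13_mul, hu13_mul, hu13_inv, hu13_inv]
      tauto
    · rw [commutatorElement_def, dgr_mul, dgr_mul, dgr_mul]
      have h1 := dgr_mul x x⁻¹
      have h2 := dgr_mul y y⁻¹
      rw [mul_inv_cancel, dgr_one] at h1 h2
      calc dgr x * dgr y * dgr x⁻¹ * dgr y⁻¹ = (dgr x * dgr x⁻¹) * (dgr y * dgr y⁻¹) := by ring
        _ = 1 := by rw [← h1, ← h2, one_mul]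
  have hmap : commutator (OutG (SG g)) = (commutator (MulAut (SG g))).map cls := by
    rw [commutator_def, commutator_def, Subgroup.map_commutator,
      Subgroup.map_top_of_surjective _ cls_surj]
  rw [hmap] at h
  obtain ⟨Ψ, hΨ, hcl⟩ := h
  obtain ⟨γ, hγ⟩ := (cls_eq_iff Ψ Φ).1 hcl
  have h1 : M.OP Ψ ∧ dgr Ψ = 1 := hK hΨ
  rw [hγ]
  exact ⟨M.OP_mul (M.OP_conj γ) h1.1, by rw [dgr_mul, dgr_conj, h1.2, one_mul]⟩

end Pool.Agent.Work.MP_d3656f_al.GB
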