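import Mathlib
import Pool.Agent.Work.MP_d3656f_al.GB.DefsC

/-!
# GB/Lb1 : a centrality criterion

`p : FF k → Q` surjective with characteristic kernel. Use `Chr.eq` and: `p v` is central if it
commutes with all `p (xx j)` (`p` is surjective, `FreeGroup.closure_range_of`).
* `chr_quot`: if `p w` is central then `p (w * z * w⁻¹ * z⁻¹) = 1` for all `z`, hence
  `p (α w * α z * (α w)⁻¹ * (α z)⁻¹) = 1`, and `p (α z)` is an arbitrary element of `Q`
  (`QuotientGroup.eq_one_iff`, `QuotientGroup.mk'_apply`).
* `lb1`: let `x = xx m`. For `w ∈ Av {m}` apply `α = rho m w` (`x ↦ x w`; `u`, `v` are fixed: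
  `rho_fix`, `Lw_le_Av`): `p u = p (x w v w⁻¹ x⁻¹)`, so `p (x v x⁻¹) = p (x w v w⁻¹ x⁻¹)` and `p v`
  commutes with `p w`; in particular with `p (xx j)` for all `j ≠ m`. There is an index
  `l ≠ m` with `m' ≤ l < k` (`m' + 1 < k`). The permutation automorphism `pm (Equiv.swap m l)`
  fixes `v` (its letters have index `< m'`, `m' ≤ m`, `m' ≤ l`; `hom_eqOn`) and
  `p (v * xx l) = p (xx l * v)` gives `p (v * xx m) = p (xx m * v)`.
* `lb0`: if `p (xx j * w) = p (xx j)` for all `w ∈ Av {j}` or only `p (xx l) = 1` for one `l`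
  then `Q` is trivial: `p (xx i) = 1` for all `i` by a permutation automorphism.
-/

set_option autoImplicit false

namespace Pool.Agent.Work.MP_d3656f_al.GB

open scoped commutatorElement

variable {k : ℕ} {Q : Type} [Group Q] {p : FF k →* Q}

theorem chr_quot (hs : Function.Surjective p) (hC : Chr p) :
    Chr ((QuotientGroup.mk' (Subgroup.center Q)).comp p) := by
  intro α w hw
  rw [MonoidHom.comp_apply, QuotientGroup.mk'_apply, QuotientGroup.eq_one_iff] at hw ⊢
  rw [Subgroup.mem_center_iff] at hw ⊢
  intro q
  obtain ⟨z', rfl⟩ := hs q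
  have h1 : p (α⁻¹ z' * w) = p (w * α⁻¹ z') := by
    rw [map_mul, map_mul]
    exact hw _
  have h2 := hC.eq α h1
  have e : α (α⁻¹ z') = z' := by rw [← MulAut.mul_apply, mul_inv_cancel, MulAut.one_apply]
  simp only [map_mul, e] at h2
  exact h2

theorem lb0 (hs : Function.Surjective p) (hC : Chr p) {l : Fin k} (h : p (xx l) = 1) (q : Q) :
    q = 1 := by
  have h1 : ∀ i : Fin k, p (xx i) = 1 := by
    intro i
    have h2 := hC (pm (Equiv.swap l i)) (xx l) h
    rw [pm_apply, Equiv.swap_apply_left] at h2
    exact h2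
  have h3 : p = 1 := by
    ext i
    exact h1 i
  obtain ⟨w, rfl⟩ := hs q
  rw [h3]
  rfl

theorem lb1 (hs : Function.Surjective p) (hC : Chr p) {m : Fin k} {m' : ℕ} (hm : m' ≤ m)
    (h1 : m' + 1 < k) {u v : FF k} (hu : u ∈ Lw k m) (hv : v ∈ Lw k m')
    (h : p u = p (xx m * v * (xx m)⁻¹)) : p v ∈ Subgroup.center Q := by
  have hum : u ∈ Av {m} := Lw_le_Av (by simp) hu
  have hvm : v ∈ Av {m} := Lw_le_Av (by simpa using hm) hv
  have key : ∀ w ∈ Av {m}, p v * p w = p w * p v := by
    intro w hw
    have h2 := hC.eq (rho m w) h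
    rw [rho_fix m w hum, h] at h2
    simp only [map_mul, map_inv, rho_self hw, rho_fix m w hvm] at h2
    have h3 : p v = p w * p v * (p w)⁻¹ := by
      calc p v = (p (xx m))⁻¹ * (p (xx m) * p v * (p (xx m))⁻¹) * p (xx m) := by group
        _ = (p (xx m))⁻¹ * (p (xx m) * p w * p v * (p (xx m) * p w)⁻¹) * p (xx m) := by rw [h2]
        _ = p w * p v * (p w)⁻¹ := by group
    calc p v * p w = (p w * p v * (p w)⁻¹) * p w := by rw [← h3]
      _ = p w * p v := by group
  have hj : ∀ j : Fin k, p v * p (xx j) = p (xx j) * p v := by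
    intro j
    by_cases hjm : j = m
    · obtain ⟨l, hl, hlm⟩ : ∃ l : Fin k, m' ≤ (l : ℕ) ∧ l ≠ m := by
        by_cases h4 : (m : ℕ) = m'
        · refine ⟨⟨m' + 1, h1⟩, by simp, ?_⟩
          intro h5
          have h6 := congrArg (fun z : Fin k => (z : ℕ)) h5
          simp only at h6
          omega
        · refine ⟨⟨m', by omega⟩, le_rfl, ?_⟩
          intro h5
          have h6 := congrArg (fun z : Fin k => (z : ℕ)) h5
          simp only at h6
          omega
      have h7 : pm (Equiv.swap m l) v = v := by
        have h8 := hom_eqOn (f := (pm (Equiv.swap m l)).toMonoidHom) (f' := MonoidHom.id _)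
          (fun j hj => by
            show pm (Equiv.swap m l) (xx j) = xx j
            rw [pm_apply]
            have h9 : (j : ℕ) < m' := by simpa using hj
            rw [Equiv.swap_apply_of_ne_of_ne]
            · intro h10
              rw [h10] at h9
              omega
            · intro h10
              rw [h10] at h9
              omega) hv
        simpa using h8
      have h9 : p (v * xx l) = p (xx l * v) := by
        rw [map_mul, map_mul]
        exact key _ (xx_mem_Av (by simpa using hlm))
      have h10 := hC.eq (pm (Equiv.swap m l)) h9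
      simp only [map_mul, h7, pm_apply, Equiv.swap_apply_right] at h10
      rw [hjm]
      exact h10
    · exact key _ (xx_mem_Av (by simpa using hjm))
  rw [Subgroup.mem_center_iff]
  intro q
  obtain ⟨z, rfl⟩ := hs q
  have hz : Commute (p v) (p z) := by
    induction z using FreeGroup.induction_on with
    | C1 => rw [map_one]; exact Commute.one_right _
    | of x => exact hj x
    | inv_of x hx => rw [map_inv]; exact hx.inv_right
    | mul x y hx hy => rw [map_mul]; exact hx.mul_right hy
  exact hz.eq.symm

end Pool.Agent.Work.MP_d3656f_al.GB
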