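import Mathlib
import Pool.Agent.Work.MP_d3656f_al.GB.Lb1

/-!
# GB/Lb2 : growth

`p : FF k → Q` surjective with characteristic kernel, `x = xx m`, `A = (Lw k m).map p`, `B` the image
of `Lw k m` in `Q ⧸ center Q`. Choose for every `b ∈ B` an element `c b ∈ Lw k m` with image `b`.
* The elements `p (u * x * c b)` (`p u ∈ A`, `b ∈ B`): `a p(x) p(c b) = a' p(x) p(c b')` gives
  `p(x (c b)(c b')⁻¹ x⁻¹) = a⁻¹ a' ∈ A`, so `p ((c b)(c b')⁻¹)` is central by `lb1` (with `m' = m`,
  `m + 1 < k`) and `b = b'`, `a = a'`. So these are `|A| |B|` different elements of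
  `A' = (Lw k (m + 1)).map p`.
* The elements `p (x * c b * x⁻¹) * a` (`a ∈ A`, `b ∈ B`): the same argument, again `|A| |B|` different
  elements of `A'`.
* No element is in both families: otherwise `p (x c x⁻¹) = p (a x b)` for some
  `a, b, c ∈ Lw k m` (move the factor of `A` to the other side). Apply `rho m w`
  (`x ↦ x w`) for `w ∈ Av {m}`: `p (x w c w⁻¹ x⁻¹) = p (a x w b)`. With `w = c`:
  `p (x c x⁻¹) = p (a x c b)`, so `p (a x b) = p (a x c b)` and `p c = 1`. So `p (a x b) = 1`,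
  `p x = p z` with `z = a⁻¹ b⁻¹ ∈ Lw k m`. Apply `rho m w`, `w = xx l`, `l = m + 1 < k`:
  `p (x w) = p z = p x`, `p (xx l) = 1`, so `Q` is trivial (`lb0`), a contradiction.
Count with `Nat.card` (all sets are contained in the finite `A'`): for instance an injective
map `(A × B) ⊕ (A × B) → A'` (`Nat.card_le_card_of_injective`).
-/

set_option autoImplicit false

namespace Pool.Agent.Work.MP_d3656f_al.GB

open scoped commutatorElement

variable {k : ℕ} {Q : Type} [Group Q] {p : FF k →* Q}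

private theorem lb2_av {m : Fin k} {w : FF k} (h : w ∈ Lw k m) : w ∈ Av {m} :=
  Lw_le_Av (S := {m}) (m := m) (fun j hj => by
    rw [Finset.mem_singleton] at hj
    rw [hj]) h

private theorem lb2_key (hs : Function.Surjective p) (hC : Chr p) {m : Fin k}
    (hm : (m : ℕ) + 1 < k) {a b c : FF k} (ha : a ∈ Lw k m) (hb : b ∈ Lw k m)
    (hc : c ∈ Lw k m) (h : p (xx m * c * (xx m)⁻¹) = p (a * xx m * b)) (q : Q) : q = 1 := by
  have ha' := lb2_av ha
  have hb' := lb2_av hb
  have hc' := lb2_av hc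
  have h1 : ∀ w ∈ Av {m}, p (xx m * w * c * (xx m * w)⁻¹) = p (a * (xx m * w) * b) := by
    intro w hw
    have e := hC.eq (rho m w) h
    have e1 : rho m w (xx m * c * (xx m)⁻¹) = xx m * w * c * (xx m * w)⁻¹ := by
      rw [map_mul, map_mul, map_inv, rho_self hw, rho_fix m w hc']
    have e2 : rho m w (a * xx m * b) = a * (xx m * w) * b := by
      rw [map_mul, map_mul, rho_self hw, rho_fix m w ha', rho_fix m w hb']
    rw [e1, e2] at e
    exact e
  have h2 := h1 c hc'
  have e2 : xx m * c * c * (xx m * c)⁻¹ = xx m * c * (xx m)⁻¹ := by group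
  rw [e2, h] at h2
  have h3 : p c = 1 := by
    simp only [map_mul] at h2
    have h4 := mul_right_cancel h2
    have h5 := mul_left_cancel h4
    exact mul_eq_left.1 h5.symm
  have h4 : p (a * xx m * b) = p 1 := by
    rw [← h, map_mul, map_mul, h3, mul_one, ← map_mul, mul_inv_cancel]
  have hl : (⟨(m : ℕ) + 1, hm⟩ : Fin k) ≠ m := by
    intro h
    have := congrArg Fin.val h
    simp at this
  have hw : (xx (⟨(m : ℕ) + 1, hm⟩ : Fin k) : FF k) ∈ Av {m} := xx_mem_Av (by simpa using hl)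
  have h5 := hC.eq (rho m (xx (⟨(m : ℕ) + 1, hm⟩ : Fin k))) h4
  have e5 : rho m (xx (⟨(m : ℕ) + 1, hm⟩ : Fin k)) (a * xx m * b)
      = a * (xx m * xx (⟨(m : ℕ) + 1, hm⟩ : Fin k)) * b := by
    rw [map_mul, map_mul, rho_self hw, rho_fix m _ ha', rho_fix m _ hb']
  rw [e5, map_one, map_one] at h5
  rw [map_one] at h4
  have h6 : p (xx (⟨(m : ℕ) + 1, hm⟩ : Fin k)) = 1 := by
    rw [← h4] at h5
    simp only [map_mul] at h5
    have h7 := mul_right_cancel h5
    have h8 := mul_left_cancel h7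
    exact (mul_eq_left.1 h8)
  exact lb0 hs hC h6 q

private theorem lb2_inj (hs : Function.Surjective p) (hC : Chr p) {m : Fin k}
    (hm : (m : ℕ) + 1 < k) {u u' v v' : FF k} (hu : u ∈ Lw k m) (hu' : u' ∈ Lw k m)
    (hv : v ∈ Lw k m) (hv' : v' ∈ Lw k m) (h : p u * p (xx m) * p v = p u' * p (xx m) * p v') :
    (QuotientGroup.mk' (Subgroup.center Q)) (p v) = (QuotientGroup.mk' (Subgroup.center Q)) (p v')
    := by
  have h1 : p (u⁻¹ * u') = p (xx m * (v * v'⁻¹) * (xx m)⁻¹) := by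
    simp only [map_mul, map_inv]
    have : p u' = p u * p (xx m) * p v * (p v')⁻¹ * (p (xx m))⁻¹ := by
      rw [h]
      group
    rw [this]
    group
  have h2 := lb1 hs hC (m := m) (m' := m) le_rfl hm (mul_mem (inv_mem hu) hu')
    (mul_mem hv (inv_mem hv')) h1
  rw [← mul_inv_eq_one, ← map_inv, ← map_mul, ← map_inv, ← map_mul]
  exact (QuotientGroup.eq_one_iff _).2 h2

theorem lb2 (hs : Function.Surjective p) (hC : Chr p) (hne : Nontrivial Q) {m : ℕ}
    (hm : m + 1 < k) (hf : Finite ((Lw k (m + 1)).map p)) :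
    2 * Nat.card ((Lw k m).map p) *
      Nat.card ((Lw k m).map ((QuotientGroup.mk' (Subgroup.center Q)).comp p)) ≤
        Nat.card ((Lw k (m + 1)).map p) := by
  obtain ⟨μ, hμ⟩ : ∃ μ : Fin k, (μ : ℕ) = m := ⟨⟨m, by omega⟩, rfl⟩
  subst hμ
  have hA : ∀ a : (Lw k μ).map p, ∃ u ∈ Lw k μ, p u = a := fun a => a.2
  have hB : ∀ b : (Lw k μ).map ((QuotientGroup.mk' (Subgroup.center Q)).comp p),
      ∃ u ∈ Lw k μ, (QuotientGroup.mk' (Subgroup.center Q)) (p u) = b := fun b => b.2
  choose f hf1 hf2 using hA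
  choose g hg1 hg2 using hB
  have hx : (xx μ : FF k) ∈ Lw k ((μ : ℕ) + 1) := xx_mem_Lw (Nat.lt_succ_self _)
  have hle : Lw k μ ≤ Lw k ((μ : ℕ) + 1) := Lw_mono (Nat.le_succ _)
  let F : ((Lw k μ).map p × (Lw k μ).map ((QuotientGroup.mk' (Subgroup.center Q)).comp p)) ⊕
      ((Lw k μ).map p × (Lw k μ).map ((QuotientGroup.mk' (Subgroup.center Q)).comp p)) →
      (Lw k ((μ : ℕ) + 1)).map p := fun s =>
    match s with
    | Sum.inl t => ⟨p (f t.1 * xx μ * g t.2), ⟨_, mul_mem (mul_mem (hle (hf1 _)) hx)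
        (hle (hg1 _)), rfl⟩⟩
    | Sum.inr t => ⟨p (xx μ * g t.2 * (xx μ)⁻¹ * f t.1), ⟨_, mul_mem (mul_mem (mul_mem hx
        (hle (hg1 _))) (inv_mem hx)) (hle (hf1 _)), rfl⟩⟩
  have hmix : ∀ (a a' : (Lw k μ).map p)
      (b b' : (Lw k μ).map ((QuotientGroup.mk' (Subgroup.center Q)).comp p)),
      p (f a * xx μ * g b) ≠ p (xx μ * g b' * (xx μ)⁻¹ * f a') := by
    intro a a' b b' h
    obtain ⟨q, hq⟩ := exists_ne (1 : Q)
    refine hq (lb2_key hs hC hm (hf1 a) (mul_mem (hg1 b) (inv_mem (hf1 a'))) (hg1 b') ?_ q)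
    have e1 : p (xx μ * g b' * (xx μ)⁻¹) = p (xx μ * g b' * (xx μ)⁻¹ * f a') * (p (f a'))⁻¹ := by
      rw [map_mul _ _ (f a'), mul_inv_cancel_right]
    rw [e1, ← h]
    simp only [map_mul, map_inv, mul_assoc]
  have hF : Function.Injective F := by
    rintro (⟨a, b⟩ | ⟨a, b⟩) (⟨a', b'⟩ | ⟨a', b'⟩) h
    · have h1 : p (f a * xx μ * g b) = p (f a' * xx μ * g b') := congrArg Subtype.val h
      have h2 := lb2_inj hs hC hm (hf1 a) (hf1 a') (hg1 b) (hg1 b') (by
        simpa only [map_mul] using h1)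
      rw [hg2, hg2] at h2
      have h3 : b = b' := Subtype.ext h2
      subst h3
      simp only [map_mul] at h1
      have h4 := mul_right_cancel (mul_right_cancel h1)
      rw [hf2, hf2] at h4
      rw [Subtype.ext h4]
    · exact absurd (congrArg Subtype.val h) (hmix a a' b b')
    · exact absurd (congrArg Subtype.val h).symm (hmix a' a b' b)
    · have h1 : p (xx μ * g b * (xx μ)⁻¹ * f a) = p (xx μ * g b' * (xx μ)⁻¹ * f a') :=
        congrArg Subtype.val h
      have h2 : (QuotientGroup.mk' (Subgroup.center Q)) (p (g b))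
          = (QuotientGroup.mk' (Subgroup.center Q)) (p (g b')) := by
        have h3 : p (f a' * (f a)⁻¹) = p (xx μ * ((g b')⁻¹ * g b) * (xx μ)⁻¹) := by
          simp only [map_mul, map_inv] at h1 ⊢
          have : p (f a') = p (xx μ) * (p (g b'))⁻¹ * (p (xx μ))⁻¹ *
              (p (xx μ) * p (g b) * (p (xx μ))⁻¹ * p (f a)) := by
            rw [h1]
            group
          rw [this]
          group
        have h4 := lb1 hs hC (m := μ) (m' := μ) le_rfl hm (mul_mem (hf1 a') (inv_mem (hf1 a)))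
          (mul_mem (inv_mem (hg1 b')) (hg1 b)) h3
        rw [eq_comm, ← inv_mul_eq_one, ← map_inv, ← map_mul, ← map_inv, ← map_mul]
        exact (QuotientGroup.eq_one_iff _).2 h4
      rw [hg2, hg2] at h2
      have h3 : b = b' := Subtype.ext h2
      subst h3
      simp only [map_mul] at h1
      have h4 := mul_left_cancel h1
      rw [hf2, hf2] at h4
      rw [Subtype.ext h4]
  have hcard := Nat.card_le_card_of_injective F hF
  have hfin : Finite ((Lw k μ).map p ×
      (Lw k μ).map ((QuotientGroup.mk' (Subgroup.center Q)).comp p)) :=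
    Finite.of_injective (fun t => F (Sum.inl t)) (hF.comp Sum.inl_injective)
  rw [Nat.card_sum, Nat.card_prod] at hcard
  linarith [hcard]

end Pool.Agent.Work.MP_d3656f_al.GB
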