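import Mathlib
import Pool.Agent.Work.MP_d3656f_al.GB.Lb2
import Pool.Agent.Work.MP_d3656f_al.GB.Ga1

/-!
# GB/Lb3 : exponential growth of the images of the free factors

`gam ⊤ e` is `γ_{e+1}(Q)`. `lb3`: induction on `m`, for all `Q`, `p`, `c`. `m = 0` or `c = 0`:
`sb 0 c = 0`, `sb m 0 = 0`. Step `m → m + 1 < k` with `c = e + 1`: `gam ⊤ e ≠ ⊥` implies that `Q`
is nontrivial. Let `p'` be the composition with `Q → Q ⧸ center Q` (`chr_quot`; surjective; the
images of `Lw k (k-1)` are finite). If `e = e' + 1`, then `gam ⊤ e' ≠ ⊥` in `Q ⧸ center Q`: otherwise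
`gam (⊤ : Subgroup Q) e' ≤ center Q` (`gam_map`-type lemma in `GB/Ga1`: the image of `gam ⊤ e'` is
`gam ⊤ e'` of the quotient) and `gam ⊤ e = ⁅gam ⊤ e', ⊤⁆ = ⊥`. So by induction
`|p (Lw k m)| ≥ 2 ^ sb m c` and `|p' (Lw k m)| ≥ 2 ^ sb m (c - 1)`, and `lb2` gives
`2 ^ (1 + sb m c + sb m (c - 1)) = 2 ^ sb (m + 1) c` (`sb_rec`, Pascal: `(m+1).choose j =
m.choose (j-1) + m.choose j`).
`lb3q`: the bound for `p'`: `lb3` for `Q ⧸ center Q`.
`lb4`: let `m' = min j (k - 2)`; `m' + 1 < k` since `3 ≤ k`. The elements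
`p (w⁻¹ * xx j * v)`: if `p (w⁻¹ x v) = p (w'⁻¹ x v')` then `p (x (v v'⁻¹) x⁻¹) = p (w w'⁻¹)`, so `p (v v'⁻¹)` is
central by `lb1`; so choosing representatives `v` of the elements of `p' (Lw k m')` we get
`|p (Lw k j)| * |p' (Lw k m')|` different elements. `DD p j` is finite as it is contained in
the product of the finite sets `p (Lw k j)`, `{p (xx j)}`, `p (Lw k m')` (`j ≤ k - 1`,
`m' ≤ k - 1`, `Lw_mono`).
-/

set_option autoImplicit false

namespace Pool.Agent.Work.MP_d3656f_al.GB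

open scoped commutatorElement

private theorem lb3_sb_succ (m e : ℕ) : sb m (e + 1) = sb m e + m.choose (e + 1) := by
  rw [sb, sb, Finset.sum_Icc_succ_top (by omega)]

theorem sb_rec (m e : ℕ) : sb (m + 1) (e + 1) = 1 + sb m (e + 1) + sb m e := by
  induction e with
  | zero => simp [sb]; omega
  | succ e ih =>
    rw [lb3_sb_succ (m + 1) (e + 1), ih, lb3_sb_succ m (e + 1), lb3_sb_succ m e,
      Nat.choose_succ_succ' m (e + 1)]
    omega

private theorem lb3_sb_zero (c : ℕ) : sb 0 c = 0 := by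
  induction c with
  | zero => simp [sb]
  | succ c ih => rw [lb3_sb_succ, ih]; simp

private theorem lb3_gam {Q : Type} [Group Q] {e : ℕ}
    (h : gam (⊤ : Subgroup (Q ⧸ Subgroup.center Q)) e = ⊥) :
    gam (⊤ : Subgroup Q) (e + 1) = ⊥ := by
  have h1 : (gam (⊤ : Subgroup Q) e).map (QuotientGroup.mk' (Subgroup.center Q)) = ⊥ := by
    rw [gam_map, Subgroup.map_top_of_surjective _ (QuotientGroup.mk'_surjective _), h]
  have h2 : gam (⊤ : Subgroup Q) e ≤ Subgroup.center Q := by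
    intro x hx
    have : (QuotientGroup.mk' (Subgroup.center Q)) x = 1 := by
      rw [← Subgroup.mem_bot, ← h1]
      exact ⟨x, hx, rfl⟩
    exact (QuotientGroup.eq_one_iff _).1 this
  show ⁅gam (⊤ : Subgroup Q) e, (⊤ : Subgroup Q)⁆ = ⊥
  rw [eq_bot_iff, Subgroup.commutator_le]
  intro g₁ h₁ g₂ _
  rw [Subgroup.mem_bot, commutatorElement_eq_one_iff_mul_comm]
  exact ((Subgroup.mem_center_iff.1 (h2 h₁)) g₂).symm

variable {k : ℕ} {Q : Type} [Group Q] {p : FF k →* Q}

private theorem lb3_fin {Q' : Type} [Group Q'] {p' : FF k →* Q'} {a b : ℕ} (hab : a ≤ b)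
    (hf : Finite ((Lw k b).map p')) : Finite ((Lw k a).map p') :=
  Finite.of_injective _ (Subgroup.inclusion_injective (Subgroup.map_mono (Lw_mono hab)))

private theorem lb3_finq {a : ℕ} (hf : Finite ((Lw k a).map p)) :
    Finite ((Lw k a).map ((QuotientGroup.mk' (Subgroup.center Q)).comp p)) := by
  rw [← Subgroup.map_map]
  have h1 : Set.Finite (((Lw k a).map p : Subgroup Q) : Set Q) := hf
  have h2 : Set.Finite ((((Lw k a).map p).map (QuotientGroup.mk' (Subgroup.center Q)) :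
      Subgroup (Q ⧸ Subgroup.center Q)) : Set (Q ⧸ Subgroup.center Q)) := by
    rw [Subgroup.coe_map]
    exact h1.image _
  exact h2

theorem lb3 {m : ℕ} (hm : m < k) : ∀ {Q : Type} [Group Q] {p : FF k →* Q},
    Function.Surjective p → Chr p → Finite ((Lw k (k - 1)).map p) → ∀ c : ℕ,
      (∀ e, c = e + 1 → gam (⊤ : Subgroup Q) e ≠ ⊥) → 2 ^ sb m c ≤ Nat.card ((Lw k m).map p) := by
  induction m with
  | zero =>
    intro Q _ p hs hC hf c hc
    have := lb3_fin (Nat.zero_le (k - 1)) hf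
    rw [lb3_sb_zero, pow_zero]
    exact Nat.card_pos
  | succ m ih =>
    intro Q _ p hs hC hf c hc
    have hf1 : Finite ((Lw k (m + 1)).map p) := lb3_fin (by omega) hf
    rcases c with _ | e
    · have : sb (m + 1) 0 = 0 := by simp [sb]
      rw [this, pow_zero]
      exact Nat.card_pos
    · have hge := hc e rfl
      have hne : Nontrivial Q := by
        by_contra hcon
        rw [not_nontrivial_iff_subsingleton] at hcon
        apply hge
        rw [eq_bot_iff]
        intro x _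
        rw [Subgroup.mem_bot]
        exact Subsingleton.elim _ _
      have h1 := ih (by omega) hs hC hf (e + 1) hc
      have h2 := ih (by omega) (p := (QuotientGroup.mk' (Subgroup.center Q)).comp p)
        ((QuotientGroup.mk'_surjective _).comp hs) (chr_quot hs hC) (lb3_finq hf) e (by
          rintro e' rfl h
          exact hge (lb3_gam h))
      have h3 := lb2 hs hC hne hm hf1
      calc 2 ^ sb (m + 1) (e + 1) = 2 * 2 ^ sb m (e + 1) * 2 ^ sb m e := by
            rw [sb_rec, pow_add, pow_add, pow_one]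
        _ ≤ 2 * Nat.card ((Lw k m).map p) *
            Nat.card ((Lw k m).map ((QuotientGroup.mk' (Subgroup.center Q)).comp p)) :=
            Nat.mul_le_mul (Nat.mul_le_mul_left 2 h1) h2
        _ ≤ _ := h3

theorem lb3q (hs : Function.Surjective p) (hC : Chr p) (hf : Finite ((Lw k (k - 1)).map p))
    {m : ℕ} (hm : m < k) (c : ℕ) (hc : gam (⊤ : Subgroup Q) c ≠ ⊥) :
    2 ^ sb m c ≤
      Nat.card ((Lw k m).map ((QuotientGroup.mk' (Subgroup.center Q)).comp p)) := by
  refine lb3 hm (p := (QuotientGroup.mk' (Subgroup.center Q)).comp p)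
    ((QuotientGroup.mk'_surjective _).comp hs) (chr_quot hs hC) (lb3_finq hf) c ?_
  rintro e rfl h
  exact hc (lb3_gam h)

theorem lb4 (hk : 3 ≤ k) (hs : Function.Surjective p) (hC : Chr p)
    (hf : Finite ((Lw k (k - 1)).map p)) (j : Fin k) (e : ℕ) (hc : gam (⊤ : Subgroup Q) e ≠ ⊥) :
    (DD p j).Finite ∧ 2 ^ (sb j (e + 1) + sb (min j (k - 2)) e) ≤ (DD p j).ncard := by
  have hjk : (j : ℕ) < k := j.2
  obtain ⟨m', hm'⟩ : ∃ m', m' = min (j : ℕ) (k - 2) := ⟨_, rfl⟩
  have hmj : m' ≤ j := by rw [hm']; exact min_le_left _ _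
  have hmk : m' + 1 < k := by
    have : m' ≤ k - 2 := by rw [hm']; exact min_le_right _ _
    omega
  have hfA : Finite ((Lw k j).map p) := lb3_fin (by omega) hf
  have hfB : Finite ((Lw k m').map p) := lb3_fin (by omega) hf
  have hA : ∀ a : (Lw k j).map p, ∃ u ∈ Lw k j, p u = a := fun a => a.2
  have hB : ∀ b : (Lw k m').map ((QuotientGroup.mk' (Subgroup.center Q)).comp p),
      ∃ u ∈ Lw k m', (QuotientGroup.mk' (Subgroup.center Q)) (p u) = b := fun b => b.2
  choose f hf1 hf2 using hA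
  choose g hg1 hg2 using hB
  have hDfin : (DD p j).Finite := by
    have h1 : (Set.range fun t : (Lw k j).map p × (Lw k m').map p =>
        (t.1 : Q) * p (xx j) * (t.2 : Q)).Finite := Set.finite_range _
    refine h1.subset ?_
    rintro _ ⟨w, hw, v, hv, rfl⟩
    rw [← hm'] at hv
    refine ⟨(⟨p w⁻¹, ⟨_, inv_mem hw, rfl⟩⟩, ⟨p v, ⟨_, hv, rfl⟩⟩), ?_⟩
    simp only [map_mul]
  refine ⟨hDfin, ?_⟩
  have hDf : Finite (DD p j) := hDfin
  let F : ((Lw k j).map p × (Lw k m').map ((QuotientGroup.mk' (Subgroup.center Q)).comp p)) →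
      DD p j := fun t => ⟨p ((f t.1⁻¹)⁻¹ * xx j * g t.2), by
        refine ⟨_, hf1 _, _, ?_, rfl⟩
        rw [← hm']
        exact hg1 _⟩
  have hF : Function.Injective F := by
    rintro ⟨a, b⟩ ⟨a', b'⟩ h
    have h1 : p ((f a⁻¹)⁻¹ * xx j * g b) = p ((f a'⁻¹)⁻¹ * xx j * g b') :=
      congrArg Subtype.val h
    have h3 : p (f a⁻¹ * (f a'⁻¹)⁻¹) = p (xx j * (g b * (g b')⁻¹) * (xx j)⁻¹) := by
      simp only [map_mul, map_inv] at h1 ⊢
      have : (p (f a'⁻¹))⁻¹ = (p (f a⁻¹))⁻¹ * p (xx j) * p (g b) * (p (g b'))⁻¹ *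
          (p (xx j))⁻¹ := by
        rw [h1]
        group
      rw [this]
      group
    have h4 := lb1 hs hC (m := j) (m' := m') hmj hmk (mul_mem (hf1 a⁻¹) (inv_mem (hf1 a'⁻¹)))
      (mul_mem (hg1 b) (inv_mem (hg1 b'))) h3
    have h5 : (QuotientGroup.mk' (Subgroup.center Q)) (p (g b))
        = (QuotientGroup.mk' (Subgroup.center Q)) (p (g b')) := by
      rw [← mul_inv_eq_one, ← map_inv, ← map_mul, ← map_inv, ← map_mul]
      exact (QuotientGroup.eq_one_iff _).2 h4
    rw [hg2, hg2] at h5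
    have h6 : b = b' := Subtype.ext h5
    subst h6
    simp only [map_mul, map_inv] at h1
    have h7 := inv_injective (mul_right_cancel (mul_right_cancel h1))
    rw [hf2, hf2] at h7
    rw [inv_injective (Subtype.ext h7)]
  have hcard := Nat.card_le_card_of_injective F hF
  rw [Nat.card_prod, Nat.card_coe_set_eq] at hcard
  have h1 := lb3 hjk hs hC hf (e + 1) (by
    rintro e' he
    have : e' = e := by omega
    rw [this]
    exact hc)
  have h2 := lb3q hs hC hf (m := m') (by omega) e hc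
  rw [← hm']
  calc 2 ^ (sb j (e + 1) + sb m' e) = 2 ^ sb j (e + 1) * 2 ^ sb m' e := pow_add _ _ _
    _ ≤ _ := Nat.mul_le_mul h1 h2
    _ ≤ _ := hcard

end Pool.Agent.Work.MP_d3656f_al.GB
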