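import Mathlib
import Pool.Agent.Work.MP_d3656f_al.GB.DefsC

/-!
# GB/Lb5 : the numerical bound (PURE arithmetic)

`sb m c = ∑ 1 ≤ j ≤ c, C(m, j)`. With `c = max 2 (k - 4)`, `c = e + 1`:
`k = 3`: 9 ≥ 8; `k = 4`: 21 ≥ 16; `k = 5`: 39 ≥ 32; `k = 6`: 64 ≥ 64; `k = 7`: 182 ≥ 128 (all by
evaluation: `decide` or `norm_num` or `rfl` on the sums). For `k ≥ 8`: `sb m c = 2 ^ m - 1` for
`m ≤ c` (`Nat.sum_range_choose`), so with `c = k - 4` the three missing terms give
`sb (k-1) (k-4) = 2^(k-1) - 1 - C(k-1,2) - (k-1) - 1`, `sb (k-2) (k-4) = 2^(k-2) - 1 - (k-2) - 1`,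
`sb (k-3) (k-4) = 2^(k-3) - 2`. The term `sb (k-1) c` occurs twice (once before the sum and once for
`j = k - 1`), and it suffices to add the terms `sb j c` for `j = k - 2`, `j = k - 3`:
`2^k - 2 - (k-1)(k-2) - 2k + 2^(k-2) + 2^(k-3) - k - 2 ≥ 2^k`, that is `3 * 2^(k-3) ≥ k^2 + 6`
(true for `k = 8`: `96 ≥ 70`, and by induction).
-/

set_option autoImplicit false

namespace Pool.Agent.Work.MP_d3656f_al.GB

open scoped commutatorElement

private theorem sb_add_one (m c : ℕ) : sb m c + 1 = ∑ j ∈ Finset.range (c + 1), m.choose j := by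
  rw [Finset.sum_range_succ', Nat.choose_zero_right, sb]
  congr 1
  induction c with
  | zero => simp
  | succ c ih => rw [Finset.sum_Icc_succ_top (by omega), ih, Finset.sum_range_succ]

private theorem pow_aux (t : ℕ) : (t + 8) ^ 2 + 6 ≤ 3 * 2 ^ (t + 5) := by
  induction t with
  | zero => norm_num
  | succ t ih =>
    have h : 3 * 2 ^ (t + 1 + 5) = 2 * (3 * 2 ^ (t + 5)) := by ring
    rw [h]
    nlinarith

private theorem big (t : ℕ) : 2 ^ (t + 8) ≤
    2 * sb (t + 7) (t + 4) + sb (t + 6) (t + 4) + sb (t + 5) (t + 4) := by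
  have a1 := sb_add_one (t + 7) (t + 4)
  have a2 := sb_add_one (t + 6) (t + 4)
  have a3 := sb_add_one (t + 5) (t + 4)
  have b1 := Nat.sum_range_choose (t + 7)
  have b2 := Nat.sum_range_choose (t + 6)
  have b3 := Nat.sum_range_choose (t + 5)
  rw [Finset.sum_range_succ, Finset.sum_range_succ, Finset.sum_range_succ] at b1
  rw [Finset.sum_range_succ, Finset.sum_range_succ] at b2
  rw [Finset.sum_range_succ] at b3
  have c1 : (t + 7).choose (t + 5) * 2 = (t + 7) * (t + 6) := by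
    have h := Nat.add_one_mul_choose_eq (t + 6) 1
    rw [Nat.choose_one_right] at h
    rw [Nat.choose_symm_of_eq_add (show t + 7 = (t + 5) + 2 by ring)]
    exact h.symm
  have c2 : (t + 7).choose (t + 6) = t + 7 := by
    rw [Nat.choose_symm_of_eq_add (show t + 7 = (t + 6) + 1 by ring), Nat.choose_one_right]
  have c3 : (t + 6).choose (t + 5) = t + 6 := by
    rw [Nat.choose_symm_of_eq_add (show t + 6 = (t + 5) + 1 by ring), Nat.choose_one_right]
  rw [Nat.choose_self] at b1 b2 b3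
  have p := pow_aux t
  have e1 : 2 ^ (t + 7) = 4 * 2 ^ (t + 5) := by ring
  have e2 : 2 ^ (t + 6) = 2 * 2 ^ (t + 5) := by ring
  have e3 : 2 ^ (t + 8) = 8 * 2 ^ (t + 5) := by ring
  have q1 : (t + 7) * (t + 6) = t * t + 13 * t + 42 := by ring
  have q2 : (t + 8) ^ 2 = t * t + 16 * t + 64 := by ring
  have r1 : (∑ j ∈ Finset.range (t + 4 + 1), (t + 7).choose j) =
    ∑ j ∈ Finset.range (t + 5), (t + 7).choose j := rfl
  have r2 : (∑ j ∈ Finset.range (t + 4 + 1), (t + 6).choose j) =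
    ∑ j ∈ Finset.range (t + 5), (t + 6).choose j := rfl
  have r3 : (∑ j ∈ Finset.range (t + 4 + 1), (t + 5).choose j) =
    ∑ j ∈ Finset.range (t + 5), (t + 5).choose j := rfl
  rw [r1] at a1
  rw [r2] at a2
  rw [r3] at a3
  rw [e1] at b1
  rw [e2] at b2
  rw [e3]
  rw [q1] at c1
  rw [q2] at p
  generalize 2 ^ (t + 5) = X at *
  generalize t * t = T at *
  omega

theorem sb_num {k : ℕ} (hk : 3 ≤ k) {e : ℕ} (he : e + 1 = max 2 (k - 4)) :
    2 ^ k ≤ sb (k - 1) (e + 1) + ∑ j : Fin k, (sb j (e + 1) + sb (min j (k - 2)) e) := by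
  rcases Nat.lt_or_ge k 8 with h8 | h8
  · have h7 : k = 3 ∨ k = 4 ∨ k = 5 ∨ k = 6 ∨ k = 7 := by omega
    rcases h7 with rfl | rfl | rfl | rfl | rfl
    · obtain rfl : e = 1 := by simpa using he
      decide
    · obtain rfl : e = 1 := by simpa using he
      decide
    · obtain rfl : e = 1 := by simpa using he
      decide
    · obtain rfl : e = 1 := by simpa using he
      decide
    · obtain rfl : e = 2 := by simpa using he
      decide
  · obtain ⟨t, rfl⟩ : ∃ t, k = t + 8 := ⟨k - 8, by omega⟩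
    have he' : e + 1 = t + 4 := by
      rw [he, max_eq_right (by omega)]
      omega
    rw [he']
    have h1 : t + 8 - 1 = t + 7 := by omega
    rw [h1]
    have h2 : ∑ j : Fin (t + 8), (sb j (t + 4) + sb (min j (t + 8 - 2)) e) =
        ∑ j ∈ Finset.range (t + 8), (sb j (t + 4) + sb (min j (t + 8 - 2)) e) :=
      Fin.sum_univ_eq_sum_range (fun j => sb j (t + 4) + sb (min j (t + 8 - 2)) e) (t + 8)
    rw [h2, Finset.sum_range_succ, Finset.sum_range_succ, Finset.sum_range_succ]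
    have h3 := big t
    omega

end Pool.Agent.Work.MP_d3656f_al.GB
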