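import Mathlib
import Pool.Agent.Work.MP_d3656f_al.GB.Lb3
import Pool.Agent.Work.MP_d3656f_al.GB.Lb5

/-!
# GB/Lb6 : the lower bound

`lb3` with `m = k - 1`, `lb4` for all `j`, `Finset.prod_le_prod'`/`Finset.prod_pow_eq_pow_sum`,
and `sb_num` (`2 ^ (2 ^ k) ≤ 2 ^ (sb .. + ∑ ..)`).
-/

set_option autoImplicit false

namespace Pool.Agent.Work.MP_d3656f_al.GB

open scoped commutatorElement

variable {k : ℕ} {Q : Type} [Group Q] {p : FF k →* Q}

theorem lb_main (hk : 3 ≤ k) (hs : Function.Surjective p) (hC : Chr p)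
    (hf : Finite ((Lw k (k - 1)).map p)) {e : ℕ} (he : e + 1 = max 2 (k - 4))
    (hc : gam (⊤ : Subgroup Q) e ≠ ⊥) :
    (∀ j, (DD p j).Finite) ∧
      2 ^ 2 ^ k ≤ Nat.card ((Lw k (k - 1)).map p) * ∏ j : Fin k, (DD p j).ncard := by
  have h4 : ∀ j, (DD p j).Finite ∧ 2 ^ (sb j (e + 1) + sb (min j (k - 2)) e) ≤ (DD p j).ncard :=
    fun j => lb4 hk hs hC hf j e hc
  refine ⟨fun j => (h4 j).1, ?_⟩
  have h3 : 2 ^ sb (k - 1) (e + 1) ≤ Nat.card ((Lw k (k - 1)).map p) := by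
    refine lb3 (m := k - 1) (by omega) hs hC hf (e + 1) ?_
    intro e' h'
    have h5 : e' = e := by omega
    rw [h5]
    exact hc
  calc 2 ^ 2 ^ k
      ≤ 2 ^ (sb (k - 1) (e + 1) + ∑ j : Fin k, (sb j (e + 1) + sb (min j (k - 2)) e)) :=
        Nat.pow_le_pow_right (by norm_num) (sb_num hk he)
    _ = 2 ^ sb (k - 1) (e + 1) *
          ∏ j : Fin k, 2 ^ (sb (j : ℕ) (e + 1) + sb (min (j : ℕ) (k - 2)) e) := by
        rw [pow_add, Finset.prod_pow_eq_pow_sum]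
    _ ≤ Nat.card ((Lw k (k - 1)).map p) * ∏ j : Fin k, (DD p j).ncard :=
        Nat.mul_le_mul h3 (Finset.prod_le_prod' fun j _ => (h4 j).2)

end Pool.Agent.Work.MP_d3656f_al.GB
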