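import Mathlib
import Pool.Agent.Work.MP_d3656f_al.GB.DefsB
import Pool.Agent.Work.MP_d3656f_al.GB.Ga4

/-!
# GB/Nu : the words of `Xu`

Let `u y = lcom (l₁ ++ y :: l₂)` with all entries of `l₁`, `l₂` in `Av S`, `|l₁| + |l₂| = d`.
`xu_gam`: `lcom_mem` (all entries are in `Av T`, the length is `d+1`).
`xu_map`: `lcom_map`; an automorphism which fixes the entries of `l₁`, `l₂`.
`xu_mul`: `lcom_lin` with `H = Av T`. `xu_inv`: `xu_mul` with `a * a⁻¹ = 1` and `lcom_one`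
(`u 1 = 1`), and `gam_norm`.
-/

set_option autoImplicit false

namespace Pool.Agent.Work.MP_d3656f_al.GB

open scoped commutatorElement

theorem xu_gam {n d : ℕ} {T : Finset (Fin n)} {l₁ l₂ : List (FF n)} {y : FF n}
    (hlen : l₁.length + l₂.length = d) (h₁ : ∀ y ∈ l₁, y ∈ Av T) (h₂ : ∀ y ∈ l₂, y ∈ Av T)
    (hy : y ∈ Av T) : lcom (l₁ ++ y :: l₂) ∈ gam (Av T) d := by
  have h : ∀ z ∈ l₁ ++ y :: l₂, z ∈ Av T := by
    intro z hz
    rcases List.mem_append.1 hz with h | h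
    · exact h₁ z h
    · rcases List.mem_cons.1 h with h | h
      · rw [h]
        exact hy
      · exact h₂ z h
  have := lcom_mem h
  rwa [show (l₁ ++ y :: l₂).length - 1 = d by
    rw [List.length_append, List.length_cons]
    omega] at this

theorem xu_map {n : ℕ} {l₁ l₂ : List (FF n)} (α : MulAut (FF n)) (y : FF n)
    (h₁ : ∀ y ∈ l₁, α y = y) (h₂ : ∀ y ∈ l₂, α y = y) :
    α (lcom (l₁ ++ y :: l₂)) = lcom (l₁ ++ α y :: l₂) := by
  have h := lcom_map α.toMonoidHom (l₁ ++ y :: l₂)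
  have e1 : l₁.map α.toMonoidHom = l₁ := by
    conv_rhs => rw [← List.map_id l₁]
    exact List.map_congr_left h₁
  have e2 : l₂.map α.toMonoidHom = l₂ := by
    conv_rhs => rw [← List.map_id l₂]
    exact List.map_congr_left h₂
  rw [List.map_append, List.map_cons, e1, e2] at h
  exact h

theorem xu_mul {n d : ℕ} {T : Finset (Fin n)} {l₁ l₂ : List (FF n)} {y z : FF n}
    (hlen : l₁.length + l₂.length = d) (h₁ : ∀ y ∈ l₁, y ∈ Av T) (h₂ : ∀ y ∈ l₂, y ∈ Av T)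
    (hy : y ∈ Av T) (hz : z ∈ Av T) :
    lcom (l₁ ++ (y * z) :: l₂) * (lcom (l₁ ++ y :: l₂) * lcom (l₁ ++ z :: l₂))⁻¹ ∈
      gam (Av T) (d + 1) := by
  have h := lcom_lin h₁ h₂ hy hz
  rwa [hlen] at h

theorem xu_inv {n d : ℕ} {T : Finset (Fin n)} {l₁ l₂ : List (FF n)} {y : FF n}
    (hlen : l₁.length + l₂.length = d) (h₁ : ∀ y ∈ l₁, y ∈ Av T) (h₂ : ∀ y ∈ l₂, y ∈ Av T)
    (hy : y ∈ Av T) :
    lcom (l₁ ++ y⁻¹ :: l₂) * lcom (l₁ ++ y :: l₂) ∈ gam (Av T) (d + 1) := by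
  have h := xu_mul hlen h₁ h₂ (inv_mem hy) hy
  rw [inv_mul_cancel, lcom_one, one_mul] at h
  simpa using inv_mem h

end Pool.Agent.Work.MP_d3656f_al.GB
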