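import Mathlib
import Pool.Agent.Work.MP_d3656f_al.GB.Nu
import Pool.Agent.Work.MP_d3656f_al.GB.Ncz

/-!
# GB/Nc0 : first facts on `Xu` and `Tv`

Let `u = lcom (l₁ ++ xx i :: l₂)`, `X = Xu p i l₁ l₂ = lam p u`, `T = Tv p i z = lam i V`,
`V = ⁅(xx p)⁻¹, z⁻¹⁆`, `z ∈ Av S`. Entries of `l₁`, `l₂` avoid `S`, and `p, i ∈ S`.
`u0`: `xu_gam` with the set `S.erase i`. `u1`: `S.erase i ⊇ {p}`; `u2`: for `m ∈ S`, `m ≠ p, i`.
`v1`: `V` is a commutator of elements of `Av {i}`; `v2` the same with `Av {i, m}`.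
`xm_t`: let `u' = lcom (l₁ ++ xx m :: l₂) ∈ gam (Av {p, i}) d`: `t1` (`V ∈ gam (Av {i}) 1`).
`tm_x`: `Tv m i z` has the word `⁅(xx m)⁻¹, z⁻¹⁆ ∈ gam (Av {p, i}) 1`: `t2`.
`x_xm`: `t4`. `t_mul`: exact identity
`⁅(xx p * xx m)⁻¹, z⁻¹⁆ = (xx m)⁻¹ * ⁅(xx p)⁻¹, z⁻¹⁆ * xx m * ⁅(xx m)⁻¹, z⁻¹⁆`, `lam_mul`.
-/

set_option autoImplicit false

namespace Pool.Agent.Work.MP_d3656f_al.GB

open scoped commutatorElement

variable {n : ℕ} {M : Type} [Group M] {φ : MulAut (FF n) →* M} {d : ℕ}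
  {S : Finset (Fin n)} {p i : Fin n} {l₁ l₂ : List (FF n)}


theorem u0 (hx : Cx φ d S p i l₁ l₂) : lcom (l₁ ++ xx i :: l₂) ∈ gam (Av (S.erase i)) d := by
  exact xu_gam hx.len (fun y hy => Av_anti (Finset.erase_subset i S) (hx.h₁ y hy))
    (fun y hy => Av_anti (Finset.erase_subset i S) (hx.h₂ y hy))
    (xx_mem_Av (by simp))

theorem u1 (hx : Cx φ d S p i l₁ l₂) : lcom (l₁ ++ xx i :: l₂) ∈ gam (Av {p}) d := by
  refine gam_mono (Av_anti ?_) d (u0 hx)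
  rw [Finset.singleton_subset_iff, Finset.mem_erase]
  exact ⟨hx.ne, hx.hp⟩

theorem u2 (hx : Cx φ d S p i l₁ l₂) {m : Fin n} (hm : m ∈ S) (hmi : m ≠ i) :
    lcom (l₁ ++ xx i :: l₂) ∈ gam (Av {p, m}) d := by
  refine gam_mono (Av_anti ?_) d (u0 hx)
  rw [Finset.insert_subset_iff, Finset.singleton_subset_iff, Finset.mem_erase, Finset.mem_erase]
  exact ⟨⟨hx.ne, hx.hp⟩, hmi, hm⟩

theorem v1 (hx : Cx φ d S p i l₁ l₂) {z : FF n} (hz : z ∈ Av S) :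
    ⁅(xx p : FF n)⁻¹, z⁻¹⁆ ∈ gam (Av {i}) 1 := by
  have hz' : z ∈ Av {i} := Av_anti (Finset.singleton_subset_iff.2 hx.hi) hz
  have hp' : (xx p : FF n) ∈ Av {i} := xx_mem_Av (by simpa using hx.ne)
  exact Subgroup.commutator_mem_commutator (inv_mem hp') (inv_mem hz')

theorem v2 (hx : Cx φ d S p i l₁ l₂) {z : FF n} (hz : z ∈ Av S) {m : Fin n} (hm : m ∈ S)
    (hmp : m ≠ p) : ⁅(xx p : FF n)⁻¹, z⁻¹⁆ ∈ gam (Av {i, m}) 1 := by
  have hz' : z ∈ Av {i, m} := by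
    refine Av_anti ?_ hz
    rw [Finset.insert_subset_iff, Finset.singleton_subset_iff]
    exact ⟨hx.hi, hm⟩
  have hp' : (xx p : FF n) ∈ Av {i, m} := by
    apply xx_mem_Av
    simp only [Finset.mem_insert, Finset.mem_singleton, not_or]
    exact ⟨hx.ne, hmp.symm⟩
  exact Subgroup.commutator_mem_commutator (inv_mem hp') (inv_mem hz')

/-- The hypotheses with `i` replaced by `m`. -/
theorem Cx.swi (hx : Cx φ d S p i l₁ l₂) {m : Fin n} (hm : m ∈ S) (hmp : m ≠ p) :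
    Cx φ d S p m l₁ l₂ := by
  exact ⟨hx.hK, hx.hd, hx.len, hx.h₁, hx.h₂, hx.hp, hm, hmp.symm⟩

/-- The hypotheses with `p` replaced by `m`. -/
theorem Cx.swp (hx : Cx φ d S p i l₁ l₂) {m : Fin n} (hm : m ∈ S) (hmi : m ≠ i) :
    Cx φ d S m i l₁ l₂ := by
  exact ⟨hx.hK, hx.hd, hx.len, hx.h₁, hx.h₂, hm, hx.hi, hmi⟩

theorem xm_t (hx : Cx φ d S p i l₁ l₂) {z : FF n} (hz : z ∈ Av S) {m : Fin n} (hm : m ∈ S)
    (hmp : m ≠ p) (hmi : m ≠ i) : Commute (φ (Xu p m l₁ l₂)) (φ (Tv p i z)) := by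
  have h := u2 (hx.swi hm hmp) hx.hi hmi.symm
  exact t1 hx.hK hx.ne h (v1 hx hz) true true

theorem tm_x (hx : Cx φ d S p i l₁ l₂) {z : FF n} (hz : z ∈ Av S) {m : Fin n} (hm : m ∈ S)
    (hmp : m ≠ p) (hmi : m ≠ i) : Commute (φ (Xu p i l₁ l₂)) (φ (Tv m i z)) := by
  have h := v2 (hx.swp hm hmi) hz hx.hp hmp.symm
  rw [Finset.pair_comm] at h
  exact t2 hx.hK hx.ne (u1 hx) h true true

theorem x_xm (hx : Cx φ d S p i l₁ l₂) {m : Fin n} (hm : m ∈ S) (hmp : m ≠ p) (hmi : m ≠ i) :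
    Commute (φ (Xu p i l₁ l₂)) (φ (Xu p m l₁ l₂)) := by
  exact t4 hx.hK (u1 hx) (gam_le _ _ (u1 (hx.swi hm hmp))) true true

/-- Conjugation of `Tv` by `rho p (xx m)`. -/
theorem t_mul (hx : Cx φ d S p i l₁ l₂) {z : FF n} (hz : z ∈ Av S) {m : Fin n} (hm : m ∈ S)
    (hmp : m ≠ p) (hmi : m ≠ i) :
    rho p (xx m) * Tv p i z * (rho p (xx m))⁻¹ =
      (lam i (xx m))⁻¹ * Tv p i z * lam i (xx m) * Tv m i z := by
  have hmi' : (xx m : FF n) ∈ Av {i} := xx_mem_Av (by simpa using hmi)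
  have hmp' : (xx m : FF n) ∈ Av {p} := xx_mem_Av (by simpa using hmp)
  have hmip : (xx m : FF n) ∈ Av {i, p} := by
    apply xx_mem_Av
    simp only [Finset.mem_insert, Finset.mem_singleton, not_or]
    exact ⟨hmi, hmp⟩
  have hV : ⁅(xx p : FF n)⁻¹, z⁻¹⁆ ∈ Av {i} := gam_le _ _ (v1 hx hz)
  have hV' : ⁅(xx m : FF n)⁻¹, z⁻¹⁆ ∈ Av {i} := gam_le _ _ (v1 (hx.swp hm hmi) hz)
  have hzp : z ∈ Av {p} := Av_anti (Finset.singleton_subset_iff.2 hx.hp) hz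
  have hα := pr_rho hx.ne.symm hmip
  rw [Tv, Tv, lam_conj hα hV, ← lam_inv hmi', ← lam_mul (inv_mem hmi') hV,
    ← lam_mul (mul_mem (inv_mem hmi') hV) hmi',
    ← lam_mul (mul_mem (mul_mem (inv_mem hmi') hV) hmi') hV']
  congr 1
  rw [map_commutatorElement, map_inv, map_inv, rho_self hmp', rho_fix p _ hzp]
  simp only [commutatorElement_def]
  group

/-- Conjugation of `Xu` by `rho i (xx m)`. -/
theorem x_rho (hx : Cx φ d S p i l₁ l₂) {m : Fin n} (hm : m ∈ S) (hmp : m ≠ p) (hmi : m ≠ i) :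
    φ (rho i (xx m) * Xu p i l₁ l₂ * (rho i (xx m))⁻¹) =
      φ (Xu p i l₁ l₂) * φ (Xu p m l₁ l₂) := by
  have hmip : (xx m : FF n) ∈ Av {p, i} := by
    apply xx_mem_Av
    simp only [Finset.mem_insert, Finset.mem_singleton, not_or]
    exact ⟨hmp, hmi⟩
  have hmi' : (xx m : FF n) ∈ Av {i} := xx_mem_Av (by simpa using hmi)
  have hmp' : (xx m : FF n) ∈ Av {p} := xx_mem_Av (by simpa using hmp)
  have hip' : (xx i : FF n) ∈ Av {p} := xx_mem_Av (by simpa using hx.ne.symm)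
  have hSi : Av S ≤ Av {i} := Av_anti (Finset.singleton_subset_iff.2 hx.hi)
  have hSp : Av S ≤ Av {p} := Av_anti (Finset.singleton_subset_iff.2 hx.hp)
  have hu := gam_le _ _ (u1 hx)
  have hu' := gam_le _ _ (u1 (hx.swi hm hmp))
  rw [Xu, Xu, lam_conj (pr_rho hx.ne hmip) hu,
    xu_map _ _ (fun y hy => rho_fix i _ (hSi (hx.h₁ y hy)))
      (fun y hy => rho_fix i _ (hSi (hx.h₂ y hy))), rho_self hmi', ← map_mul,
    ← lam_mul hu hu', ← tr_true, ← tr_true]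
  exact cg hx.hK true (mul_mem hu hu') (xu_mul hx.len (fun y hy => hSp (hx.h₁ y hy))
    (fun y hy => hSp (hx.h₂ y hy)) hip' hmp')

/-- Conjugation of `Xu` by `lam i (xx m)`. -/
theorem x_lam (hx : Cx φ d S p i l₁ l₂) {m : Fin n} (hm : m ∈ S) (hmp : m ≠ p) (hmi : m ≠ i) :
    φ (lam i (xx m) * Xu p i l₁ l₂ * (lam i (xx m))⁻¹) =
      (φ (Xu p m l₁ l₂))⁻¹ * φ (Xu p i l₁ l₂) := by
  have hmip : (xx m : FF n) ∈ Av {p, i} := by
    apply xx_mem_Av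
    simp only [Finset.mem_insert, Finset.mem_singleton, not_or]
    exact ⟨hmp, hmi⟩
  have hmi' : (xx m : FF n) ∈ Av {i} := xx_mem_Av (by simpa using hmi)
  have hmp' : (xx m : FF n) ∈ Av {p} := xx_mem_Av (by simpa using hmp)
  have hip' : (xx i : FF n) ∈ Av {p} := xx_mem_Av (by simpa using hx.ne.symm)
  have hSi : Av S ≤ Av {i} := Av_anti (Finset.singleton_subset_iff.2 hx.hi)
  have hSp : Av S ≤ Av {p} := Av_anti (Finset.singleton_subset_iff.2 hx.hp)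
  have hu := gam_le _ _ (u1 hx)
  have hu' := gam_le _ _ (u1 (hx.swi hm hmp))
  have hv : lcom (l₁ ++ (xx m)⁻¹ :: l₂) ∈ Av {p} :=
    gam_le _ _ (xu_gam hx.len (fun y hy => hSp (hx.h₁ y hy))
      (fun y hy => hSp (hx.h₂ y hy)) (inv_mem hmp'))
  have e1 : φ (tr true p (lcom (l₁ ++ ((xx m)⁻¹ * xx i) :: l₂))) =
      φ (tr true p (lcom (l₁ ++ (xx m)⁻¹ :: l₂) * lcom (l₁ ++ xx i :: l₂))) :=
    cg hx.hK true (mul_mem hv hu) (xu_mul hx.len (fun y hy => hSp (hx.h₁ y hy))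
      (fun y hy => hSp (hx.h₂ y hy)) (inv_mem hmp') hip')
  have e2 : φ (tr true p (lcom (l₁ ++ (xx m)⁻¹ :: l₂))) =
      φ (tr true p (lcom (l₁ ++ xx m :: l₂))⁻¹) := by
    refine cg hx.hK true (inv_mem hu') ?_
    rw [inv_inv]
    exact xu_inv hx.len (fun y hy => hSp (hx.h₁ y hy)) (fun y hy => hSp (hx.h₂ y hy)) hmp'
  rw [Xu, Xu, lam_conj (pr_lam hx.ne hmip) hu,
    xu_map _ _ (fun y hy => lam_fix i _ (hSi (hx.h₁ y hy)))
      (fun y hy => lam_fix i _ (hSi (hx.h₂ y hy))), lam_self hmi', ← tr_true, ← tr_true,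
    ← tr_true, e1, tr_mul true hv hu, map_mul, e2, tr_inv true hu', map_inv]

end Pool.Agent.Work.MP_d3656f_al.GB
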