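import Mathlib
import Pool.Agent.Work.MP_d3656f_al.GB.Nc0
import Pool.Agent.Work.MP_d3656f_al.GB.Ga3

/-!
# GB/Nc1 : `CC` commutes with the transvections of a fresh target

`X = Xu p i l₁ l₂ = lam p u`, `T = Tv p i z = lam i V`. Both are `Pr m` (`pr_lam`; `u`, `V` avoid
`m`: `u2`, `v2`, `gam_le`). On `Av {m}`: `X y * y⁻¹ ∈ gam (Av {m}) d` and
`T y * y⁻¹ ∈ gam (Av {m}) 1` (`cong_aut` with exponent `0` from the basis: `X` moves only `xx p`,
by `u⁻¹ ∈ gam (Av {m}) d`, `T` moves only `xx i`, by `V⁻¹`). So `⁅X, T⁆` moves `y ∈ Av {m}` by an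
element of `gam (Av {m}) (d+1)` (`comma`) and `comm_z` applies to `α = ⁅X, T⁆`
(`CC = φ ⁅X, T⁆`, `map_commutatorElement`).
-/

set_option autoImplicit false

namespace Pool.Agent.Work.MP_d3656f_al.GB

open scoped commutatorElement

variable {n : ℕ} {M : Type} [Group M] {φ : MulAut (FF n) →* M} {d : ℕ}
  {S : Finset (Fin n)} {p i : Fin n} {l₁ l₂ : List (FF n)}

/-- `lam q w` moves the elements of `Av {m}` by elements of `gam (Av {m}) k` if `w` is in
`gam (Av {m}) k`. -/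
private theorem nc1_mv {m q : Fin n} {w : FF n} {k : ℕ} (hw : w ∈ Av {q})
    (hw' : w ∈ gam (Av {m}) k) {y : FF n} (hy : y ∈ Av {m}) :
    lam q w y * y⁻¹ ∈ gam (Av {m}) k := by
  have h : lam q w y * y⁻¹ ∈ gam (Av {m}) (k + 0) := by
    refine cong_aut (S := {m}) (fun j _ => ?_) 0 hy
    by_cases hj : j = q
    · subst hj
      rw [lam_self hw, mul_assoc, mul_inv_cancel, mul_one]
      exact inv_mem hw'
    · rw [lam_ne w hj, mul_inv_cancel]
      exact one_mem _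
  exact h

theorem cc_comm_m (hx : Cx φ d S p i l₁ l₂) {z : FF n} (hz : z ∈ Av S) {m : Fin n} (hm : m ∈ S)
    (hmp : m ≠ p) (hmi : m ≠ i) (b : Bool) {y : FF n} (hy : y ∈ Av {m}) :
    Commute (CC φ p i l₁ l₂ z) (φ (tr b m y)) := by
  have hu := u2 hx hm hmi
  have hV := v2 hx hz hm hmp
  have hu' : lcom (l₁ ++ xx i :: l₂) ∈ Av {m, p} := by
    have h := gam_le _ _ hu
    rwa [Finset.pair_comm] at h
  have hV' : ⁅(xx p : FF n)⁻¹, z⁻¹⁆ ∈ Av {m, i} := by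
    have h := gam_le _ _ hV
    rwa [Finset.pair_comm] at h
  have hup : lcom (l₁ ++ xx i :: l₂) ∈ Av {p} := Av_anti (by simp) hu'
  have hVi : ⁅(xx p : FF n)⁻¹, z⁻¹⁆ ∈ Av {i} := Av_anti (by simp) hV'
  have hum : lcom (l₁ ++ xx i :: l₂) ∈ gam (Av {m}) d := gam_mono (Av_anti (by simp)) d hu
  have hVm : ⁅(xx p : FF n)⁻¹, z⁻¹⁆ ∈ gam (Av {m}) 1 := gam_mono (Av_anti (by simp)) 1 hV
  have hX : Pr m (Xu p i l₁ l₂) := pr_lam hmp hu'
  have hT : Pr m (Tv p i z) := pr_lam hmi hV'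
  have hα : Pr m (⁅Xu p i l₁ l₂, Tv p i z⁆ : MulAut (FF n)) := by
    rw [commutatorElement_def]
    exact ((hX.mul hT).mul hX.inv').mul hT.inv'
  have hc : CC φ p i l₁ l₂ z = φ ⁅Xu p i l₁ l₂, Tv p i z⁆ := by
    rw [CC, map_commutatorElement]
  rw [hc]
  refine comm_z hx.hK hα (fun j hj => ?_) b hy
  exact comma hX.inv hT.inv (fun y hy => nc1_mv hup hum hy) (fun y hy => nc1_mv hVi hVm hy)
    (xx_mem_Av (by simpa using hj))

end Pool.Agent.Work.MP_d3656f_al.GB
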