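import Mathlib
import Pool.Agent.Work.MP_d3656f_al.GB.Nc0

/-!
# GB/Nc2 : `CC` commutes with `rho i (xx m)`

`r = rho i (xx m)`, `X, T` as in `Nc0`. `r T r⁻¹ = T` (`lam_comm_rho`, same target `i`),
`φ (r X r⁻¹) = φ X * φ (Xu p m l₁ l₂)` (`x_rho`). `φ (Xu p m ..)` commutes with `φ T` (`xm_t`), so
`⁅φ X * Y, φ T⁆ = φ X * ⁅Y, φ T⁆ * (φ X)⁻¹ * ⁅φ X, φ T⁆ = ⁅φ X, φ T⁆`.
-/

set_option autoImplicit false

namespace Pool.Agent.Work.MP_d3656f_al.GB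

open scoped commutatorElement

variable {n : ℕ} {M : Type} [Group M] {φ : MulAut (FF n) →* M} {d : ℕ}
  {S : Finset (Fin n)} {p i : Fin n} {l₁ l₂ : List (FF n)}


theorem cc_comm_rho_i (hx : Cx φ d S p i l₁ l₂) {z : FF n} (hz : z ∈ Av S) {m : Fin n}
    (hm : m ∈ S) (hmp : m ≠ p) (hmi : m ≠ i) :
    Commute (CC φ p i l₁ l₂ z) (φ (rho i (xx m))) := by
  have hV : ⁅(xx p : FF n)⁻¹, z⁻¹⁆ ∈ Av {i} := by
    have hp : (xx p : FF n) ∈ Av {i} := xx_mem_Av (by simpa using hx.ne)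
    have hz' : z ∈ Av {i} := Av_anti (by simpa using hx.hi) hz
    rw [commutatorElement_def]
    exact mul_mem (mul_mem (mul_mem (inv_mem hp) (inv_mem hz')) (inv_mem (inv_mem hp)))
      (inv_mem (inv_mem hz'))
  have hm' : (xx m : FF n) ∈ Av {i} := xx_mem_Av (by simpa using hmi)
  have h1 : φ (rho i (xx m)) * φ (Xu p i l₁ l₂) * (φ (rho i (xx m)))⁻¹ =
      φ (Xu p i l₁ l₂) * φ (Xu p m l₁ l₂) := by
    rw [← map_mul, ← map_inv, ← map_mul]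
    exact x_rho hx hm hmp hmi
  have h2 : φ (rho i (xx m)) * φ (Tv p i z) * (φ (rho i (xx m)))⁻¹ = φ (Tv p i z) := by
    rw [← map_mul, Tv, ← lam_comm_rho hV hm', map_mul, mul_assoc, mul_inv_cancel, mul_one]
  have h3 : φ (Xu p m l₁ l₂) * φ (Tv p i z) = φ (Tv p i z) * φ (Xu p m l₁ l₂) :=
    (xm_t hx hz hm hmp hmi).eq
  have h4 : φ (rho i (xx m)) * CC φ p i l₁ l₂ z * (φ (rho i (xx m)))⁻¹ = CC φ p i l₁ l₂ z := by
    rw [CC, conjugate_commutatorElement, h1, h2, commutatorElement_def, commutatorElement_def]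
    calc φ (Xu p i l₁ l₂) * φ (Xu p m l₁ l₂) * φ (Tv p i z) *
          (φ (Xu p i l₁ l₂) * φ (Xu p m l₁ l₂))⁻¹ * (φ (Tv p i z))⁻¹
        = φ (Xu p i l₁ l₂) * (φ (Xu p m l₁ l₂) * φ (Tv p i z)) *
          (φ (Xu p m l₁ l₂))⁻¹ * (φ (Xu p i l₁ l₂))⁻¹ * (φ (Tv p i z))⁻¹ := by group
      _ = _ := by
        rw [h3]
        group
  have h5 := mul_inv_eq_iff_eq_mul.mp h4
  exact h5.symm

end Pool.Agent.Work.MP_d3656f_al.GB
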