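import Mathlib
import Pool.Agent.Work.MP_d3656f_al.GB.Nc1
import Pool.Agent.Work.MP_d3656f_al.GB.Nc2

/-!
# GB/Nc3 : change of the index `i`

`cc_comm_sw_i`: `sw i m = lam m (xx i) * rho i (xx m) * (rho m (xx i))⁻¹`, `Nc1`, `Nc2`.
`cc_comm_lam_i`: `sw_rho'`: `lam i (xx m) = sw i m * rho m (xx i) * (sw i m)⁻¹`.
`cc_swap_i`: `CC = φ (sw i m) * CC * (φ (sw i m))⁻¹ = ⁅φ (w X w⁻¹), φ (w T w⁻¹)⁆` with
`w = sw i m`; `w` is `Pr p` (`pr_sw`), `w X w⁻¹ = lam p (w u) = Xu p m l₁ l₂` (`xu_map`, `w` fixes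
the entries of `l₁`, `l₂` by `sw_fix` and `Av_anti`, and `w (xx i) = xx m`), and
`w T w⁻¹ = lam m (w V) = Tv p m z` (`sw_tr`; `w` fixes `xx p` and `z`).
-/

set_option autoImplicit false

namespace Pool.Agent.Work.MP_d3656f_al.GB

open scoped commutatorElement

variable {n : ℕ} {M : Type} [Group M] {φ : MulAut (FF n) →* M} {d : ℕ}
  {S : Finset (Fin n)} {p i : Fin n} {l₁ l₂ : List (FF n)}


theorem cc_comm_sw_i (hx : Cx φ d S p i l₁ l₂) {z : FF n} (hz : z ∈ Av S) {m : Fin n}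
    (hm : m ∈ S) (hmp : m ≠ p) (hmi : m ≠ i) :
    Commute (CC φ p i l₁ l₂ z) (φ (sw i m)) := by
  have hi : (xx i : FF n) ∈ Av {m} := xx_mem_Av (by simpa using hmi.symm)
  have h1 := cc_comm_m hx hz hm hmp hmi true hi
  have h2 := cc_comm_m hx hz hm hmp hmi false hi
  have h3 := cc_comm_rho_i hx hz hm hmp hmi
  rw [tr_true] at h1
  rw [tr_false] at h2
  unfold sw
  rw [map_mul, map_mul, map_inv]
  exact (h1.mul_right h3).mul_right h2.inv_right

theorem cc_comm_lam_i (hx : Cx φ d S p i l₁ l₂) {z : FF n} (hz : z ∈ Av S) {m : Fin n}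
    (hm : m ∈ S) (hmp : m ≠ p) (hmi : m ≠ i) :
    Commute (CC φ p i l₁ l₂ z) (φ (lam i (xx m))) := by
  have hi : (xx i : FF n) ∈ Av {m} := xx_mem_Av (by simpa using hmi.symm)
  have h1 := cc_comm_sw_i hx hz hm hmp hmi
  have h2 := cc_comm_m hx hz hm hmp hmi false hi
  rw [tr_false] at h2
  rw [← sw_rho' hmi.symm, map_mul, map_mul, map_inv]
  exact (h1.mul_right h2).mul_right h1.inv_right

theorem cc_swap_i (hx : Cx φ d S p i l₁ l₂) {z : FF n} (hz : z ∈ Av S) {m : Fin n}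
    (hm : m ∈ S) (hmp : m ≠ p) (hmi : m ≠ i) :
    CC φ p m l₁ l₂ z = CC φ p i l₁ l₂ z := by
  have him : i ≠ m := hmi.symm
  have hpi : p ≠ i := hx.ne
  have hpm : p ≠ m := hmp.symm
  have h1 := cc_comm_sw_i hx hz hm hmp hmi
  have hsub : ({i, m} : Finset (Fin n)) ⊆ S := by
    intro j hj
    rw [Finset.mem_insert, Finset.mem_singleton] at hj
    rcases hj with rfl | rfl
    · exact hx.hi
    · exact hm
  have hfix : ∀ y ∈ Av S, sw i m y = y := fun y hy => sw_fix him (Av_anti hsub hy)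
  have hu : lcom (l₁ ++ xx i :: l₂) ∈ Av {p} := gam_le _ _ (u1 hx)
  have hv : ⁅(xx p : FF n)⁻¹, z⁻¹⁆ ∈ Av {i} := gam_le _ _ (v1 hx hz)
  have eX : sw i m * Xu p i l₁ l₂ * (sw i m)⁻¹ = Xu p m l₁ l₂ := by
    unfold Xu
    rw [lam_conj (pr_sw him hpi hpm) hu,
      xu_map (sw i m) (xx i) (fun y hy => hfix y (hx.h₁ y hy)) (fun y hy => hfix y (hx.h₂ y hy)),
      sw_left him]
  have eT : sw i m * Tv p i z * (sw i m)⁻¹ = Tv p m z := by
    have h2 := sw_tr true him hv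
    rw [tr_true, tr_true] at h2
    unfold Tv
    rw [h2, map_commutatorElement, map_inv, map_inv, sw_ne him hpi hpm, hfix z hz]
  have h2 : φ (sw i m) * CC φ p i l₁ l₂ z * (φ (sw i m))⁻¹ = CC φ p i l₁ l₂ z := by
    rw [← h1.eq, mul_inv_cancel_right]
  rw [← h2]
  unfold CC
  rw [conjugate_commutatorElement, ← map_inv, ← map_mul, ← map_mul, ← map_mul, ← map_mul, eX, eT]

end Pool.Agent.Work.MP_d3656f_al.GB
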