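import Mathlib
import Pool.Agent.Work.MP_d3656f_al.GB.Nc3

/-!
# GB/Nc4 : `CC` commutes with `rho p (xx m)`

`r = rho p (xx m)`, `h = lam i (xx m)`, `X, T` as in `Nc0`, `C = ⁅φ X, φ T⁆`. `r X r⁻¹ = X` (same
target `p`, `lam_comm_rho`), `r T r⁻¹ = h⁻¹ T h * Tv m i z` (`t_mul`), and `φ X` commutes with
`φ (Tv m i z)` (`tm_x`), so `φ r C φ r⁻¹ = ⁅φ X, φ (h⁻¹ T h)⁆ = φ h⁻¹ ⁅φ (h X h⁻¹), φ T⁆ φ h`. By
`x_lam` this is `φ h⁻¹ ⁅Y⁻¹ * φ X, φ T⁆ φ h` with `Y = φ (Xu p m l₁ l₂)`, which commutes with `φ X`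
(`x_xm`) and with `φ T` (`xm_t`), so the inner commutator is `C`. Finally `φ h` commutes with `C`
(`cc_comm_lam_i`).
-/

set_option autoImplicit false

namespace Pool.Agent.Work.MP_d3656f_al.GB

open scoped commutatorElement

variable {n : ℕ} {M : Type} [Group M] {φ : MulAut (FF n) →* M} {d : ℕ}
  {S : Finset (Fin n)} {p i : Fin n} {l₁ l₂ : List (FF n)}


private theorem nc4_grp {N : Type*} [Group N] {X T R h Y Q : N} (h1 : Commute X R)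
    (h2 : R * T * R⁻¹ = h⁻¹ * T * h * Q) (h3 : Commute X Q) (h4 : h * X * h⁻¹ = Y⁻¹ * X)
    (h5 : Commute X Y) (h6 : Commute Y T) (h7 : Commute ⁅X, T⁆ h) : Commute ⁅X, T⁆ R := by
  have e1 : R * X * R⁻¹ = X := by rw [← h1.eq]; group
  have e2 : ⁅X, h⁻¹ * T * h * Q⁆ = ⁅X, h⁻¹ * T * h⁆ := by
    have e3 : Q * X⁻¹ * Q⁻¹ = X⁻¹ := by
      have := h3.inv_left.eq
      rw [← this]; group
    rw [commutatorElement_def, commutatorElement_def]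
    calc X * (h⁻¹ * T * h * Q) * X⁻¹ * (h⁻¹ * T * h * Q)⁻¹
        = X * (h⁻¹ * T * h) * (Q * X⁻¹ * Q⁻¹) * (h⁻¹ * T * h)⁻¹ := by group
      _ = X * (h⁻¹ * T * h) * X⁻¹ * (h⁻¹ * T * h)⁻¹ := by rw [e3]
  have e4 : ⁅X, h⁻¹ * T * h⁆ = h⁻¹ * ⁅h * X * h⁻¹, T⁆ * h := by
    rw [commutatorElement_def, commutatorElement_def]
    group
  have e5 : ⁅Y⁻¹ * X, T⁆ = ⁅X, T⁆ := by
    have e6 : Y * T⁻¹ * Y⁻¹ = T⁻¹ := by
      have := h6.inv_right.eq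
      rw [this]; group
    have e7 : Commute ⁅X, T⁆ Y := by
      have a1 : Commute X Y := h5
      have a2 : Commute T Y := h6.symm
      rw [commutatorElement_def]
      exact ((a1.mul_left a2).mul_left a1.inv_left).mul_left a2.inv_left
    calc ⁅Y⁻¹ * X, T⁆ = Y⁻¹ * X * T * X⁻¹ * (Y * T⁻¹ * Y⁻¹) * Y := by
          rw [commutatorElement_def]; group
      _ = Y⁻¹ * (X * T * X⁻¹ * T⁻¹) * Y := by rw [e6]; group
      _ = Y⁻¹ * (⁅X, T⁆ * Y) := by rw [commutatorElement_def]; group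
      _ = Y⁻¹ * (Y * ⁅X, T⁆) := by rw [e7.eq]
      _ = ⁅X, T⁆ := by group
  have e8 : R * ⁅X, T⁆ * R⁻¹ = ⁅X, T⁆ := by
    rw [conjugate_commutatorElement, e1, h2, e2, e4, h4, e5]
    calc h⁻¹ * ⁅X, T⁆ * h = h⁻¹ * (⁅X, T⁆ * h) := by group
      _ = h⁻¹ * (h * ⁅X, T⁆) := by rw [h7.eq]
      _ = ⁅X, T⁆ := by group
  show ⁅X, T⁆ * R = R * ⁅X, T⁆
  calc ⁅X, T⁆ * R = (R * ⁅X, T⁆ * R⁻¹) * R := by rw [e8]
    _ = R * ⁅X, T⁆ := by group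

theorem cc_comm_rho_p (hx : Cx φ d S p i l₁ l₂) {z : FF n} (hz : z ∈ Av S) {m : Fin n}
    (hm : m ∈ S) (hmp : m ≠ p) (hmi : m ≠ i) :
    Commute (CC φ p i l₁ l₂ z) (φ (rho p (xx m))) := by
  refine nc4_grp (h := φ (lam i (xx m))) (Y := φ (Xu p m l₁ l₂)) (Q := φ (Tv m i z)) ?_ ?_
    (tm_x hx hz hm hmp hmi) ?_ (x_xm hx hm hmp hmi) (xm_t hx hz hm hmp hmi)
    (cc_comm_lam_i hx hz hm hmp hmi)
  · have hu : lcom (l₁ ++ xx i :: l₂) ∈ Av {p} := gam_le _ _ (u1 hx)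
    have hmm : (xx m : FF n) ∈ Av {p} := xx_mem_Av (by simpa using hmp)
    have := lam_comm_rho hu hmm
    show φ (Xu p i l₁ l₂) * φ (rho p (xx m)) = φ (rho p (xx m)) * φ (Xu p i l₁ l₂)
    rw [← map_mul, ← map_mul, Xu, this]
  · rw [← map_inv, ← map_inv, ← map_mul, ← map_mul, ← map_mul, ← map_mul, ← map_mul,
      t_mul hx hz hm hmp hmi]
  · rw [← x_lam hx hm hmp hmi, map_mul, map_mul, map_inv]

end Pool.Agent.Work.MP_d3656f_al.GB
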