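import Mathlib
import Pool.Agent.Work.MP_d3656f_al.GB.Nc4

/-!
# GB/Nc5 : change of the index `p`, independence of the indices

`cc_swap_p`: `C = CC φ p i ..` commutes with `φ (tr b m (xx p))` (`cc_comm_m`) and
`φ (rho p (xx m))` (`cc_comm_rho_p`), hence with `φ (sw p m)`. With `w = sw p m`:
`w X w⁻¹ = lam m (w u) = Xu m i l₁ l₂` (`sw_tr`, `w` fixes `u ∈ Av {p, m}`), and
`w T w⁻¹ = lam i (w V) = Tv m i z` (`pr_sw`, `lam_conj`, `w (xx p) = xx m`, `w z = z`).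
`cc_indep`: as `4 ≤ S.card` there is `r ∈ S` different from `p`, `i`, `i'`. Then
`CC p i = CC r i` (`cc_swap_p`), `CC r i = CC r i'` (`cc_swap_i`, or `i = i'`) and
`CC r i' = CC p' i'` (`cc_swap_p`, or `r = p'`), with `Cx.swp`, `Cx.swi`.
-/

set_option autoImplicit false

namespace Pool.Agent.Work.MP_d3656f_al.GB

open scoped commutatorElement

variable {n : ℕ} {M : Type} [Group M] {φ : MulAut (FF n) →* M} {d : ℕ}
  {S : Finset (Fin n)} {p i : Fin n} {l₁ l₂ : List (FF n)}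


theorem cc_swap_p (hx : Cx φ d S p i l₁ l₂) {z : FF n} (hz : z ∈ Av S) {m : Fin n}
    (hm : m ∈ S) (hmp : m ≠ p) (hmi : m ≠ i) :
    CC φ m i l₁ l₂ z = CC φ p i l₁ l₂ z := by
  have hpm : p ≠ m := hmp.symm
  have hp1 : (xx p : FF n) ∈ Av {m} := xx_mem_Av (by simpa using hpm)
  have hu2 : lcom (l₁ ++ xx i :: l₂) ∈ Av {p, m} := gam_le _ _ (u2 hx hm hmi)
  have hu1 : lcom (l₁ ++ xx i :: l₂) ∈ Av {p} := gam_le _ _ (u1 hx)
  have hV1 : ⁅(xx p : FF n)⁻¹, z⁻¹⁆ ∈ Av {i} := gam_le _ _ (v1 hx hz)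
  have hzpm : z ∈ Av {p, m} := by
    refine Av_anti ?_ hz
    rw [Finset.insert_subset_iff, Finset.singleton_subset_iff]
    exact ⟨hx.hp, hm⟩
  have hc : Commute (CC φ p i l₁ l₂ z) (φ (sw p m)) := by
    rw [sw, map_mul, map_mul, map_inv]
    exact ((cc_comm_m hx hz hm hmp hmi true hp1).mul_right
      (cc_comm_rho_p hx hz hm hmp hmi)).mul_right
      (cc_comm_m hx hz hm hmp hmi false hp1).inv_right
  have eX : sw p m * Xu p i l₁ l₂ * (sw p m)⁻¹ = Xu m i l₁ l₂ := by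
    rw [Xu, Xu, ← tr_true, ← tr_true, sw_tr true hpm hu1, sw_fix hpm hu2]
  have eT : sw p m * Tv p i z * (sw p m)⁻¹ = Tv m i z := by
    rw [Tv, Tv, lam_conj (pr_sw hpm hx.ne.symm hmi.symm) hV1]
    congr 1
    rw [map_commutatorElement, map_inv, map_inv, sw_left hpm, sw_fix hpm hzpm]
  rw [CC, ← eX, ← eT]
  simp only [map_mul, map_inv]
  have e1 : φ (sw p m) * CC φ p i l₁ l₂ z * (φ (sw p m))⁻¹ = CC φ p i l₁ l₂ z := by
    rw [← hc.eq, mul_inv_cancel_right]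
  conv_rhs => rw [← e1]
  rw [CC]
  simp only [commutatorElement_def]
  group

theorem cc_indep (hx : Cx φ d S p i l₁ l₂) {z : FF n} (hz : z ∈ Av S) (hS : 4 ≤ S.card)
    {p' i' : Fin n} (hp' : p' ∈ S) (hi' : i' ∈ S) (hne : p' ≠ i') :
    CC φ p' i' l₁ l₂ z = CC φ p i l₁ l₂ z := by
  obtain ⟨r, hr⟩ : (((S.erase p).erase i).erase i').Nonempty := by
    rw [← Finset.card_pos]
    have h1 := Finset.pred_card_le_card_erase (s := S) (a := p)
    have h2 := Finset.pred_card_le_card_erase (s := S.erase p) (a := i)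
    have h3 := Finset.pred_card_le_card_erase (s := (S.erase p).erase i) (a := i')
    omega
  simp only [Finset.mem_erase] at hr
  obtain ⟨hri', hri, hrp, hrS⟩ := hr
  have e1 : CC φ r i l₁ l₂ z = CC φ p i l₁ l₂ z := cc_swap_p hx hz hrS hrp hri
  have hx1 : Cx φ d S r i l₁ l₂ := hx.swp hrS hri
  have hx2 : Cx φ d S r i' l₁ l₂ := hx1.swi hi' hri'.symm
  have e2 : CC φ r i' l₁ l₂ z = CC φ r i l₁ l₂ z := by
    by_cases h : i' = i
    · rw [h]
    · exact cc_swap_i hx1 hz hi' hri'.symm h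
  have e3 : CC φ p' i' l₁ l₂ z = CC φ r i' l₁ l₂ z := by
    by_cases h : p' = r
    · rw [h]
    · exact cc_swap_p hx2 hz hp' h hne
  rw [e3, e2, e1]

end Pool.Agent.Work.MP_d3656f_al.GB
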