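import Mathlib
import Pool.Agent.Work.MP_d3656f_al.GB.Nc0

/-!
# GB/NvD : the subgroup `NN` (FIXED, fully proved)

`NN φ i x` is the group of all `W ∈ gam (Av {i}) 1` such that `x` commutes with `φ (lam i W)`.
-/

set_option autoImplicit false

namespace Pool.Agent.Work.MP_d3656f_al.GB

open scoped commutatorElement

/-- All `W ∈ gam (Av {i}) 1` such that `x` commutes with `φ (lam i W)`. -/
def NN {n : ℕ} {M : Type} [Group M] (φ : MulAut (FF n) →* M) (i : Fin n) (x : M) :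
    Subgroup (FF n) where
  carrier := {W | W ∈ gam (Av {i}) 1 ∧ Commute x (φ (lam i W))}
  mul_mem' := by
    rintro v w ⟨h1, h2⟩ ⟨h3, h4⟩
    refine ⟨mul_mem h1 h3, ?_⟩
    rw [lam_mul (gam_le _ _ h1) (gam_le _ _ h3), map_mul]
    exact h2.mul_right h4
  one_mem' := ⟨one_mem _, by rw [lam_one, map_one]; exact Commute.one_right x⟩
  inv_mem' := by
    rintro v ⟨h1, h2⟩
    refine ⟨inv_mem h1, ?_⟩
    rw [lam_inv (gam_le _ _ h1), map_inv]
    exact h2.inv_right

theorem mem_NN {n : ℕ} {M : Type} [Group M] {φ : MulAut (FF n) →* M} {i : Fin n} {x : M}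
    {W : FF n} : W ∈ NN φ i x ↔ W ∈ gam (Av {i}) 1 ∧ Commute x (φ (lam i W)) := Iff.rfl

end Pool.Agent.Work.MP_d3656f_al.GB
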