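import Mathlib
import Pool.Agent.Work.MP_d3656f_al.GB.NvD

/-!
# GB/Nv1 : basic properties of `NN φ i (φ X)`, `X = Xu p i l₁ l₂ = lam p u`

* `nn_tri`: `t2` (`W ∈ gam (Av {p, i}) 1`, `u ∈ gam (Av {p}) d` by `u1`).
* `nn_aut`: `q W ∈ gam (Av {i}) 1` by `aut_gam`, `q * lam i W * q⁻¹ = lam i (q W)` and
  `φ q * φ X * (φ q)⁻¹ = φ X`.
* `nn_q1`: `t1` with target `l` of the second factor, `u ∈ gam (Av {p, l}) d` (`u2`).
* `nn_q2`: `t3`, `u ∈ Av {p, l}` and `z ∈ Av {p, l}`.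
* `nn_conj`: let `h ∈ Av {i, p}`. `lam i h * X * (lam i h)⁻¹ = lam p (u')` with
  `u' = lcom (l₁ ++ (h⁻¹ * xx i) :: l₂)` (`lam i h` is `Pr p`, `xu_map`; the entries of `l₁`,
  `l₂` avoid `i`), and `φ (lam p u') = Y * φ X` with `Y = φ (lam p (lcom (l₁ ++ h⁻¹ :: l₂)))`
  (`xu_mul` with `T = {p}`, `cg`). The word of `Y` is in `gam (Av {p, i}) d` (`xu_gam`), so `Y`
  commutes with `φ (lam i W')` for all `W' ∈ gam (Av {i}) 1` by `t1`. `W ∈ NN` gives that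
  `φ X` commutes with `φ (lam i W)`; conjugate by `φ (lam i h)`: `Y * φ X` commutes with
  `φ (lam i (h W h⁻¹))`, and so does `Y`.
-/

set_option autoImplicit false

namespace Pool.Agent.Work.MP_d3656f_al.GB

open scoped commutatorElement

variable {n : ℕ} {M : Type} [Group M] {φ : MulAut (FF n) →* M} {d : ℕ}
  {S : Finset (Fin n)} {p i : Fin n} {l₁ l₂ : List (FF n)}


theorem nn_tri (hx : Cx φ d S p i l₁ l₂) {W : FF n} (hW : W ∈ gam (Av {p, i}) 1) :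
    W ∈ NN φ i (φ (Xu p i l₁ l₂)) := by
  refine ⟨gam_mono (Av_anti (by simp)) 1 hW, ?_⟩
  exact t2 hx.hK hx.ne (u1 hx) hW true true

theorem nn_aut (hx : Cx φ d S p i l₁ l₂) {q : MulAut (FF n)} (hq : Pr i q)
    (hc : Commute (φ (Xu p i l₁ l₂)) (φ q)) {W : FF n} (hW : W ∈ NN φ i (φ (Xu p i l₁ l₂))) :
    q W ∈ NN φ i (φ (Xu p i l₁ l₂)) := by
  have hWi : W ∈ Av {i} := gam_le _ _ hW.1
  refine ⟨aut_gam (fun j hj => hq.map _ (xx_mem_Av hj)) 1 hW.1, ?_⟩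
  rw [← lam_conj hq hWi, map_mul, map_mul, map_inv]
  exact (hc.mul_right hW.2).mul_right hc.inv_right

theorem nn_q1 (hx : Cx φ d S p i l₁ l₂) {l : Fin n} (hl : l ∈ S) (hlp : l ≠ p) (hli : l ≠ i)
    {v : FF n} (hv : v ∈ gam (Av {l}) 1) (b : Bool) :
    Commute (φ (Xu p i l₁ l₂)) (φ (tr b l v)) := by
  exact t1 hx.hK hlp.symm (u2 hx hl hli) hv true b

theorem nn_q2 (hx : Cx φ d S p i l₁ l₂) {l : Fin n} (hl : l ∈ S) (hlp : l ≠ p) (hli : l ≠ i)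
    {z : FF n} (hz : z ∈ Av {p, l}) (b : Bool) :
    Commute (φ (Xu p i l₁ l₂)) (φ (tr b l z)) := by
  exact (t3 hlp.symm (gam_le _ _ (u2 hx hl hli)) hz true b).map φ

theorem nn_conj (hx : Cx φ d S p i l₁ l₂) {W : FF n} (hW : W ∈ NN φ i (φ (Xu p i l₁ l₂)))
    {h : FF n} (hh : h ∈ Av {i, p}) : h * W * h⁻¹ ∈ NN φ i (φ (Xu p i l₁ l₂)) := by
  have hSi : ({i} : Finset (Fin n)) ⊆ S := by
    intro x hx'
    rw [Finset.mem_singleton] at hx'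
    rw [hx']
    exact hx.hi
  have hSp : ({p} : Finset (Fin n)) ⊆ S := by
    intro x hx'
    rw [Finset.mem_singleton] at hx'
    rw [hx']
    exact hx.hp
  have hSpi : ({p, i} : Finset (Fin n)) ⊆ S := by
    intro x hx'
    rw [Finset.mem_insert, Finset.mem_singleton] at hx'
    rcases hx' with h' | h'
    · rw [h']
      exact hx.hp
    · rw [h']
      exact hx.hi
  have hpi : h ∈ Av {p, i} := by
    rw [Finset.pair_comm]
    exact hh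
  have hhi : h ∈ Av {i} := Av_anti (by simp) hh
  have hhp : h ∈ Av {p} := Av_anti (by simp) hh
  have hip : (xx i : FF n) ∈ Av {p} := xx_mem_Av (by simpa using hx.ne.symm)
  have hα : Pr p (lam i h) := pr_lam hx.ne hpi
  have hu : lcom (l₁ ++ xx i :: l₂) ∈ Av {p} := gam_le _ _ (u1 hx)
  have hA : lcom (l₁ ++ h⁻¹ :: l₂) ∈ gam (Av {p, i}) d :=
    xu_gam hx.len (fun y hy => Av_anti hSpi (hx.h₁ y hy)) (fun y hy => Av_anti hSpi (hx.h₂ y hy))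
      (inv_mem hpi)
  have hAp : lcom (l₁ ++ h⁻¹ :: l₂) ∈ Av {p} := Av_anti (by simp) (gam_le _ _ hA)
  have e1 : lam i h * Xu p i l₁ l₂ * (lam i h)⁻¹ = lam p (lcom (l₁ ++ (h⁻¹ * xx i) :: l₂)) := by
    rw [Xu, lam_conj hα hu, xu_map (lam i h) (xx i)
      (fun y hy => lam_fix i h (Av_anti hSi (hx.h₁ y hy)))
      (fun y hy => lam_fix i h (Av_anti hSi (hx.h₂ y hy))), lam_self hhi]
  have e2 : φ (lam p (lcom (l₁ ++ (h⁻¹ * xx i) :: l₂))) =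
      φ (lam p (lcom (l₁ ++ h⁻¹ :: l₂))) * φ (Xu p i l₁ l₂) := by
    have h1 := cg hx.hK true (i := p) (v := lcom (l₁ ++ (h⁻¹ * xx i) :: l₂))
      (w := lcom (l₁ ++ h⁻¹ :: l₂) * lcom (l₁ ++ xx i :: l₂)) (mul_mem hAp hu)
      (xu_mul hx.len (fun y hy => Av_anti hSp (hx.h₁ y hy)) (fun y hy => Av_anti hSp (hx.h₂ y hy))
        (inv_mem hhp) hip)
    rw [tr_true, tr_true, lam_mul hAp hu, map_mul] at h1
    exact h1
  have hW' : h * W * h⁻¹ ∈ gam (Av {i}) 1 := gam_norm _ _ hhi hW.1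
  have hWi : W ∈ Av {i} := gam_le _ _ hW.1
  refine ⟨hW', ?_⟩
  have hY : Commute (φ (lam p (lcom (l₁ ++ h⁻¹ :: l₂)))) (φ (lam i (h * W * h⁻¹))) :=
    t1 hx.hK hx.ne hA hW' true true
  have e3 : φ (lam i (h * W * h⁻¹)) = φ (lam i h) * φ (lam i W) * (φ (lam i h))⁻¹ := by
    rw [lam_mul (mul_mem hhi hWi) (inv_mem hhi), lam_mul hhi hWi, lam_inv hhi, map_mul, map_mul,
      map_inv]
  have e4 : φ (lam i h) * φ (Xu p i l₁ l₂) * (φ (lam i h))⁻¹ =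
      φ (lam p (lcom (l₁ ++ h⁻¹ :: l₂))) * φ (Xu p i l₁ l₂) := by
    rw [← e2, ← e1, map_mul, map_mul, map_inv]
  have hC : Commute (φ (lam p (lcom (l₁ ++ h⁻¹ :: l₂))) * φ (Xu p i l₁ l₂))
      (φ (lam i (h * W * h⁻¹))) := by
    rw [← e4, e3]
    have h2 := hW.2
    exact (Commute.conj_iff (φ (lam i h))).2 h2
  have h5 := hY.inv_left.mul_left hC
  rwa [inv_mul_cancel_left] at h5

end Pool.Agent.Work.MP_d3656f_al.GB
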