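import Mathlib
import Pool.Agent.Work.MP_d3656f_al.GB.Nv1

/-!
# GB/Nv2 : commutators in `NN`

Let `N = NN φ i (φ (Xu p i l₁ l₂))`, `l ≠ m` in `S`, both different from `p`, `i`, and
`v ∈ gam (Av {i, l, m}) 1`. The automorphisms `lam l v`, `rho l v`, `con l v` and the same with `m`
commute with `X` after `φ` (`nn_q1`), and are `Pr i` (`pr_tr`), so they map `N` to `N` (`nn_aut`).
`nn_vz`:
1. `⁅xx l, xx m⁆ ∈ N` (`nn_tri`, a commutator of elements of `Av {p, i}`).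
2. apply `con l v * con m v`: `v⁻¹ * ⁅xx l, xx m⁆ * v ∈ N` (both `xx l`, `xx m` are conjugated by
   `v`, which avoids `l` and `m`).
3. apply `lam l v` to 1: `v⁻¹ * xx l * xx m * (xx l)⁻¹ * v * (xx m)⁻¹ ∈ N`.
4. (inverse of 2) times 3: `v⁻¹ * xx m * v * (xx m)⁻¹ = ⁅v⁻¹, xx m⁆ ∈ N`; also for `v⁻¹`.
5. apply `rho m z` (`nn_q2`; `v` avoids `m`): `⁅v, xx m * z⁆ = ⁅v, xx m⁆ * (xx m * ⁅v, z⁆ * (xx m)⁻¹)`
   is in `N`, so `xx m * ⁅v, z⁆ * (xx m)⁻¹ ∈ N` and `⁅v, z⁆ ∈ N` by `nn_conj` with `(xx m)⁻¹`.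
`nn_vv`: put `v' = w⁻¹ * v * w`. By 4, `⁅v', xx m⁆ ∈ N`; apply `con m w`:
`⁅v', w⁻¹ * xx m * w⁆ = w⁻¹ * ⁅v, xx m⁆ * w ∈ N`. Apply `lam m w` to `⁅v, xx m⁆ ∈ N`:
`⁅v, w⁻¹ * xx m⁆ = ⁅v, w⁻¹⁆ * (w⁻¹ * ⁅v, xx m⁆ * w) ∈ N`, so `⁅v, w⁻¹⁆ ∈ N` for all `w`.
-/

set_option autoImplicit false

namespace Pool.Agent.Work.MP_d3656f_al.GB

open scoped commutatorElement

variable {n : ℕ} {M : Type} [Group M] {φ : MulAut (FF n) →* M} {d : ℕ}
  {S : Finset (Fin n)} {p i : Fin n} {l₁ l₂ : List (FF n)}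

/-- `NN` is stable under `tr b l v`, `l` fresh, `v ∈ gam (Av {i, l}) 1`. -/
private theorem nv2_tr (hx : Cx φ d S p i l₁ l₂) {l : Fin n} (hl : l ∈ S) (hlp : l ≠ p)
    (hli : l ≠ i) {v : FF n} (hv : v ∈ gam (Av {i, l}) 1) (b : Bool) {W : FF n}
    (hW : W ∈ NN φ i (φ (Xu p i l₁ l₂))) : tr b l v W ∈ NN φ i (φ (Xu p i l₁ l₂)) :=
  nn_aut hx (pr_tr b hli.symm (gam_le _ _ hv))
    (nn_q1 hx hl hlp hli (gam_mono (Av_anti (by simp)) 1 hv) b) hW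

/-- `NN` is stable under `con l v`, `l` fresh, `v ∈ gam (Av {i, l}) 1`. -/
private theorem nv2_con (hx : Cx φ d S p i l₁ l₂) {l : Fin n} (hl : l ∈ S) (hlp : l ≠ p)
    (hli : l ≠ i) {v : FF n} (hv : v ∈ gam (Av {i, l}) 1) {W : FF n}
    (hW : W ∈ NN φ i (φ (Xu p i l₁ l₂))) : con l v W ∈ NN φ i (φ (Xu p i l₁ l₂)) :=
  nv2_tr hx hl hlp hli hv true (nv2_tr hx hl hlp hli hv false hW)

private theorem nv2_m (hx : Cx φ d S p i l₁ l₂) {l m : Fin n} (hl : l ∈ S) (hlp : l ≠ p)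
    (hli : l ≠ i) (hm : m ∈ S) (hmp : m ≠ p) (hmi : m ≠ i) (hlm : l ≠ m) {v : FF n}
    (hv : v ∈ gam (Av {i, l, m}) 1) : ⁅v, xx m⁆ ∈ NN φ i (φ (Xu p i l₁ l₂)) := by
  have key : ∀ v : FF n, v ∈ gam (Av {i, l, m}) 1 →
      ⁅v⁻¹, xx m⁆ ∈ NN φ i (φ (Xu p i l₁ l₂)) := by
    intro v hv
    have hvl : v ∈ gam (Av {i, l}) 1 := gam_mono (Av_anti (by
      intro x hx'
      simp only [Finset.mem_insert, Finset.mem_singleton] at hx' ⊢
      rcases hx' with h | h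
      · exact Or.inl h
      · exact Or.inr (Or.inl h))) 1 hv
    have hvm : v ∈ gam (Av {i, m}) 1 := gam_mono (Av_anti (by
      intro x hx'
      simp only [Finset.mem_insert, Finset.mem_singleton] at hx' ⊢
      rcases hx' with h | h
      · exact Or.inl h
      · exact Or.inr (Or.inr h))) 1 hv
    have hvl' : v ∈ Av {l} := Av_anti (by simp) (gam_le _ _ hvl)
    have hvm' : v ∈ Av {m} := Av_anti (by simp) (gam_le _ _ hvm)
    have s1 : ⁅(xx l : FF n), xx m⁆ ∈ NN φ i (φ (Xu p i l₁ l₂)) := by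
      refine nn_tri hx (Subgroup.commutator_mem_commutator (xx_mem_Av ?_) (xx_mem_Av ?_))
      · simp only [Finset.mem_insert, Finset.mem_singleton, not_or]
        exact ⟨hlp, hli⟩
      · simp only [Finset.mem_insert, Finset.mem_singleton, not_or]
        exact ⟨hmp, hmi⟩
    have s2 := nv2_con hx hl hlp hli hvl (nv2_con hx hm hmp hmi hvm s1)
    rw [map_commutatorElement, con_ne v hlm, con_self hvm', map_commutatorElement, con_self hvl',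
      map_mul, map_mul, map_inv, con_fix l v hvl', con_ne v hlm.symm] at s2
    have s3 := nv2_tr hx hl hlp hli hvl true s1
    rw [tr_true, map_commutatorElement, lam_self hvl', lam_ne v hlm.symm] at s3
    have e : ⁅v⁻¹, (xx m : FF n)⁆ = (⁅v⁻¹ * xx l * v, v⁻¹ * xx m * v⁆)⁻¹ * ⁅v⁻¹ * xx l, xx m⁆ := by
      simp only [commutatorElement_def]
      group
    rw [e]
    exact mul_mem (inv_mem s2) s3
  have h := key v⁻¹ (inv_mem hv)
  rwa [inv_inv] at h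

theorem nn_vz (hx : Cx φ d S p i l₁ l₂) {l m : Fin n} (hl : l ∈ S) (hlp : l ≠ p) (hli : l ≠ i)
    (hm : m ∈ S) (hmp : m ≠ p) (hmi : m ≠ i) (hlm : l ≠ m) {v z : FF n}
    (hv : v ∈ gam (Av {i, l, m}) 1) (hz : z ∈ Av {i, p, m}) :
    ⁅v, z⁆ ∈ NN φ i (φ (Xu p i l₁ l₂)) := by
  have s4 := nv2_m hx hl hlp hli hm hmp hmi hlm hv
  have hvm : v ∈ Av {m} := Av_anti (by simp) (gam_le _ _ hv)
  have hzm : z ∈ Av {m} := Av_anti (by simp) hz
  have hzim : z ∈ Av {i, m} := Av_anti (by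
    intro x hx'
    simp only [Finset.mem_insert, Finset.mem_singleton] at hx' ⊢
    rcases hx' with h | h
    · exact Or.inl h
    · exact Or.inr (Or.inr h)) hz
  have hzpm : z ∈ Av {p, m} := Av_anti (by simp) hz
  have s5 := nn_aut hx (pr_tr false hmi.symm hzim) (nn_q2 hx hm hmp hmi hzpm false) s4
  rw [tr_false, map_commutatorElement, rho_fix m z hvm, rho_self hzm] at s5
  have s6 : xx m * ⁅v, z⁆ * (xx m)⁻¹ ∈ NN φ i (φ (Xu p i l₁ l₂)) := by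
    have e : xx m * ⁅v, z⁆ * (xx m)⁻¹ = (⁅v, (xx m : FF n)⁆)⁻¹ * ⁅v, xx m * z⁆ := by
      simp only [commutatorElement_def]
      group
    rw [e]
    exact mul_mem (inv_mem s4) s5
  have hmh : (xx m : FF n)⁻¹ ∈ Av {i, p} := by
    refine inv_mem (xx_mem_Av ?_)
    simp only [Finset.mem_insert, Finset.mem_singleton, not_or]
    exact ⟨hmi, hmp⟩
  have s7 := nn_conj hx s6 hmh
  have e : (xx m : FF n)⁻¹ * (xx m * ⁅v, z⁆ * (xx m)⁻¹) * ((xx m : FF n)⁻¹)⁻¹ = ⁅v, z⁆ := by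
    group
  rwa [e] at s7

theorem nn_vv (hx : Cx φ d S p i l₁ l₂) {l m : Fin n} (hl : l ∈ S) (hlp : l ≠ p) (hli : l ≠ i)
    (hm : m ∈ S) (hmp : m ≠ p) (hmi : m ≠ i) (hlm : l ≠ m) {v w : FF n}
    (hv : v ∈ gam (Av {i, l, m}) 1) (hw : w ∈ gam (Av {i, l, m}) 1) :
    ⁅v, w⁆ ∈ NN φ i (φ (Xu p i l₁ l₂)) := by
  have key : ∀ w : FF n, w ∈ gam (Av {i, l, m}) 1 →
      ⁅v, w⁻¹⁆ ∈ NN φ i (φ (Xu p i l₁ l₂)) := by
    intro w hw
    have hwm : w ∈ gam (Av {i, m}) 1 := gam_mono (Av_anti (by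
      intro x hx'
      simp only [Finset.mem_insert, Finset.mem_singleton] at hx' ⊢
      rcases hx' with h | h
      · exact Or.inl h
      · exact Or.inr (Or.inr h))) 1 hw
    have hwm' : w ∈ Av {m} := Av_anti (by simp) (gam_le _ _ hwm)
    have hvm' : v ∈ Av {m} := Av_anti (by simp) (gam_le _ _ hv)
    have s1 := nv2_m hx hl hlp hli hm hmp hmi hlm (gam_norm' _ _ (gam_le _ _ hw) hv)
    have s2 := nv2_con hx hm hmp hmi hwm s1
    have hv' : w⁻¹ * v * w ∈ Av {m} := mul_mem (mul_mem (inv_mem hwm') hvm') hwm'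
    rw [map_commutatorElement, con_fix m w hv', con_self hwm'] at s2
    have s3 := nv2_tr hx hm hmp hmi hwm true (nv2_m hx hl hlp hli hm hmp hmi hlm hv)
    rw [tr_true, map_commutatorElement, lam_fix m w hvm', lam_self hwm'] at s3
    have e : ⁅v, w⁻¹⁆ = ⁅v, w⁻¹ * xx m⁆ * (⁅w⁻¹ * v * w, w⁻¹ * xx m * w⁆)⁻¹ := by
      simp only [commutatorElement_def]
      group
    rw [e]
    exact mul_mem s3 (inv_mem s2)
  have h := key w⁻¹ (inv_mem hw)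
  rwa [inv_inv] at h

end Pool.Agent.Work.MP_d3656f_al.GB
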