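import Mathlib
import Pool.Agent.Work.MP_d3656f_al.GB.Nv2

/-!
# GB/Nv3 : the main commutator in `NN`

Let `N = NN φ i (φ (Xu p i l₁ l₂))`, `B = Av {i, p, l, m}`, `a = (xx p)⁻¹`.
Claim: `⁅a, W⁆ ∈ N` for `W ∈ gam B 1 = ⁅B, B⁆` (closure of the commutators of elements of `B`).
For `W = ⁅b, c⁆`, `b, c ∈ B`: put `g = ⁅a, b⁆`, `h = ⁅a, c⁆`, both in `gam (Av {i, l, m}) 1`. Then
`a * ⁅b, c⁆ * a⁻¹ = ⁅g * b, h * c⁆ =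
 (g * ⁅b, h⁆ * g⁻¹) * (g * h * ⁅b, c⁆ * h⁻¹ * g⁻¹) * ⁅g, h⁆ * (h * ⁅g, c⁆ * h⁻¹)` and
* `g ⁅b, h⁆ g⁻¹ = ⁅g, ⁅b, h⁆⁆ * ⁅b, h⁆`, in `N` by `nn_vv`, `nn_vz` (`⁅b, h⁆ = ⁅h, b⁆⁻¹`),
* `g h ⁅b, c⁆ h⁻¹ g⁻¹ = ⁅g * h, ⁅b, c⁆⁆ * ⁅b, c⁆`, the first factor in `N` by `nn_vv`,
* `⁅g, h⁆ ∈ N` by `nn_vv`, `h ⁅g, c⁆ h⁻¹ = ⁅h, ⁅g, c⁆⁆ * ⁅g, c⁆ ∈ N`.
So `a ⁅b, c⁆ a⁻¹ = n₁ * ⁅b, c⁆ * n₂` with `n₁, n₂ ∈ N`, and
`⁅a, ⁅b, c⁆⁆ = n₁ * (⁅b, c⁆ * n₂ * ⁅b, c⁆⁻¹) ∈ N` by `nn_conj` (`⁅b, c⁆ ∈ B ≤ Av {i, p}`).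
Products: `⁅a, W * W'⁆ = ⁅a, W⁆ * (W * ⁅a, W'⁆ * W⁻¹)`; inverses: `⁅a, W⁻¹⁆ = W⁻¹ * ⁅a, W⁆⁻¹ * W`
(`nn_conj`). Finally conjugate by `z` (`nn_conj`).
-/

set_option autoImplicit false

namespace Pool.Agent.Work.MP_d3656f_al.GB

open scoped commutatorElement

variable {n : ℕ} {M : Type} [Group M] {φ : MulAut (FF n) →* M} {d : ℕ}
  {S : Finset (Fin n)} {p i : Fin n} {l₁ l₂ : List (FF n)}


private theorem nv3_e1 {G : Type*} [Group G] (a b c : G) :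
    a * ⁅b, c⁆ * a⁻¹ = (⁅⁅a, b⁆, ⁅b, ⁅a, c⁆⁆⁆ * ⁅b, ⁅a, c⁆⁆ * ⁅⁅a, b⁆ * ⁅a, c⁆, ⁅b, c⁆⁆) * ⁅b, c⁆ *
      (⁅⁅a, b⁆, ⁅a, c⁆⁆ * (⁅⁅a, c⁆, ⁅⁅a, b⁆, c⁆⁆ * ⁅⁅a, b⁆, c⁆)) := by
  simp only [commutatorElement_def]
  group

private theorem nv3_e2 {G : Type*} [Group G] (a D n₁ n₂ : G) (h : a * D * a⁻¹ = n₁ * D * n₂) :
    ⁅a, D⁆ = n₁ * (D * n₂ * D⁻¹) := by
  rw [commutatorElement_def, h]
  group

private theorem nv3_e3 {G : Type*} [Group G] (a W V : G) :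
    ⁅a, W * V⁆ = ⁅a, W⁆ * (W * ⁅a, V⁆ * W⁻¹) := by
  simp only [commutatorElement_def]
  group

private theorem nv3_e4 {G : Type*} [Group G] (a W : G) :
    ⁅a, W⁻¹⁆ = W⁻¹ * ⁅a, W⁆⁻¹ * W⁻¹⁻¹ := by
  simp only [commutatorElement_def]
  group

theorem nn_main (hx : Cx φ d S p i l₁ l₂) {l m : Fin n} (hl : l ∈ S) (hlp : l ≠ p)
    (hli : l ≠ i) (hm : m ∈ S) (hmp : m ≠ p) (hmi : m ≠ i) (hlm : l ≠ m) {W z : FF n}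
    (hW : W ∈ gam (Av {i, p, l, m}) 1) (hz : z ∈ Av {i, p}) :
    z * ⁅(xx p)⁻¹, W⁆ * z⁻¹ ∈ NN φ i (φ (Xu p i l₁ l₂)) := by
  have hsub : (Av {i, p, l, m} : Subgroup (FF n)) ≤ Av {i, l, m} := by
    apply Av_anti
    intro x hx'
    simp only [Finset.mem_insert, Finset.mem_singleton] at hx' ⊢
    tauto
  have hsub2 : (Av {i, p, l, m} : Subgroup (FF n)) ≤ Av {i, p, m} := by
    apply Av_anti
    intro x hx'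
    simp only [Finset.mem_insert, Finset.mem_singleton] at hx' ⊢
    tauto
  have hsub3 : (Av {i, p, l, m} : Subgroup (FF n)) ≤ Av {i, p} := by
    apply Av_anti
    intro x hx'
    simp only [Finset.mem_insert, Finset.mem_singleton] at hx' ⊢
    tauto
  have ha : (xx p : FF n)⁻¹ ∈ Av {i, l, m} := by
    apply inv_mem
    apply xx_mem_Av
    simp only [Finset.mem_insert, Finset.mem_singleton, not_or]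
    exact ⟨hx.ne, hlp.symm, hmp.symm⟩
  have hg1 : ∀ {u v : FF n}, u ∈ Av {i, l, m} → v ∈ Av {i, l, m} →
      ⁅u, v⁆ ∈ gam (Av {i, l, m}) 1 := by
    intro u v hu hv
    exact Subgroup.commutator_mem_commutator hu hv
  have hg2 : gam (Av {i, l, m} : Subgroup (FF n)) 1 ≤ Av {i, l, m} := gam_le _ 1
  have hvz : ∀ {v z : FF n}, v ∈ gam (Av {i, l, m}) 1 → z ∈ Av {i, p, m} →
      ⁅v, z⁆ ∈ NN φ i (φ (Xu p i l₁ l₂)) :=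
    fun h1 h2 => nn_vz hx hl hlp hli hm hmp hmi hlm h1 h2
  have hvv : ∀ {v w : FF n}, v ∈ gam (Av {i, l, m}) 1 → w ∈ gam (Av {i, l, m}) 1 →
      ⁅v, w⁆ ∈ NN φ i (φ (Xu p i l₁ l₂)) :=
    fun h1 h2 => nn_vv hx hl hlp hli hm hmp hmi hlm h1 h2
  have hmain : ∀ {b c : FF n}, b ∈ Av {i, p, l, m} → c ∈ Av {i, p, l, m} →
      ⁅(xx p : FF n)⁻¹, ⁅b, c⁆⁆ ∈ NN φ i (φ (Xu p i l₁ l₂)) := by
    intro b c hb hc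
    rw [nv3_e2 _ _ _ _ (nv3_e1 (xx p : FF n)⁻¹ b c)]
    have hg := hg1 ha (hsub hb)
    have hh := hg1 ha (hsub hc)
    have hbh : ⁅b, ⁅(xx p : FF n)⁻¹, c⁆⁆ ∈ NN φ i (φ (Xu p i l₁ l₂)) := by
      rw [← commutatorElement_inv]
      exact inv_mem (hvz hh (hsub2 hb))
    have hgc := hvz hg (hsub2 hc)
    refine mul_mem (mul_mem (mul_mem ?_ hbh) ?_) ?_
    · exact hvv hg (hg1 (hsub hb) (hg2 hh))
    · exact hvv (mul_mem hg hh) (hg1 (hsub hb) (hsub hc))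
    · refine nn_conj hx (mul_mem (hvv hg hh) (mul_mem ?_ hgc)) ?_
      · exact hvv hh (hg1 (hg2 hg) (hsub hc))
      · apply hsub3
        rw [commutatorElement_def]
        exact mul_mem (mul_mem (mul_mem hb hc) (inv_mem hb)) (inv_mem hc)
  refine nn_conj hx ?_ hz
  have hB : gam (Av {i, p, l, m} : Subgroup (FF n)) 1 ≤ Av {i, p, l, m} := gam_le _ 1
  have hW' : W ∈ Subgroup.closure {g | ∃ g₁ ∈ (Av {i, p, l, m} : Subgroup (FF n)),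
      ∃ g₂ ∈ (Av {i, p, l, m} : Subgroup (FF n)), ⁅g₁, g₂⁆ = g} := hW
  have hkey : W ∈ (Av {i, p, l, m} : Subgroup (FF n)) ∧
      ⁅(xx p : FF n)⁻¹, W⁆ ∈ NN φ i (φ (Xu p i l₁ l₂)) := by
    refine Subgroup.closure_induction (p := fun y _ => y ∈ (Av {i, p, l, m} : Subgroup (FF n)) ∧
      ⁅(xx p : FF n)⁻¹, y⁆ ∈ NN φ i (φ (Xu p i l₁ l₂))) ?_ ?_ ?_ ?_ hW'
    · rintro y ⟨b, hb, c, hc, rfl⟩
      refine ⟨?_, hmain hb hc⟩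
      rw [commutatorElement_def]
      exact mul_mem (mul_mem (mul_mem hb hc) (inv_mem hb)) (inv_mem hc)
    · refine ⟨one_mem _, ?_⟩
      rw [commutatorElement_one_right]
      exact one_mem _
    · rintro x y _ _ ⟨hx1, hx2⟩ ⟨hy1, hy2⟩
      refine ⟨mul_mem hx1 hy1, ?_⟩
      rw [nv3_e3]
      exact mul_mem hx2 (nn_conj hx hy2 (hsub3 hx1))
    · rintro x _ ⟨hx1, hx2⟩
      refine ⟨inv_mem hx1, ?_⟩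
      rw [nv3_e4]
      exact nn_conj hx (inv_mem hx2) (hsub3 (inv_mem hx1))
  exact hkey.2

end Pool.Agent.Work.MP_d3656f_al.GB
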