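import Mathlib
import Pool.Agent.Work.MP_d3656f_al.GB.Nc5
import Pool.Agent.Work.MP_d3656f_al.GB.Nv3
import Pool.Agent.Work.MP_d3656f_al.GB.Qb

/-!
# GB/Nc7 : `CC` is central

`cq_gens`: let `s` be a generator with target `t` and letters `a`, `b` (`IsQ t a b s`).
Case `t ∈ S`: as `5 ≤ S.card` there are `p' ≠ i'` in `S` different from `t`, `a`, `b`;
`CC p i = CC p' i'` (`cc_indep`). `s` is `Pr p'` and `Pr i'` (`qg_pr`), and fixes the words of
`X' = Xu p' i' l₁ l₂` and of `T' = Tv p' i' z` (`qg_fix`: they avoid `t`), so `s` commutes with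
`X'` and `T'`.
Case `t ∉ S`: as `6 ≤ S.card` there are distinct `p', i', l, m` in `S`, different from `a`, `b`.
`s` is `Pr p'` and `Pr i'`; `φ (s X' s⁻¹) = φ (lam p' (s u)) = φ X'` since
`s u * u⁻¹ ∈ gam (Av {p'}) (1 + d)` (`cong_aut`, `qg_triv`, `T = {p'}`). Put
`W = z * (s z)⁻¹ = (s z * z⁻¹)⁻¹`, in `gam (Av {i', p', l, m}) 1` (`cong_aut` with `b = 0`,
`qg_triv`; `z ∈ Av S ≤ Av {i', p', l, m}`), so `(s z)⁻¹ = z⁻¹ * W` and
`s T' s⁻¹ = lam i' ⁅(xx p')⁻¹, z⁻¹ * W⁆ = T' * lam i' (z⁻¹ * ⁅(xx p')⁻¹, W⁆ * z)`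
(`⁅x, y w⁆ = ⁅x, y⁆ (y ⁅x, w⁆ y⁻¹)`). The image `E` of the last factor commutes with `φ X'`
(`nn_main`), so `φ s * C * (φ s)⁻¹ = ⁅φ X', φ T' * E⁆ = ⁅φ X', φ T'⁆ = C`.
-/

set_option autoImplicit false

namespace Pool.Agent.Work.MP_d3656f_al.GB

open scoped commutatorElement

variable {n : ℕ} {M : Type} [Group M] {φ : MulAut (FF n) →* M} {d : ℕ}
  {S : Finset (Fin n)} {p i : Fin n} {l₁ l₂ : List (FF n)}

private theorem nc7_alg {Q : Type} [Group Q] (x y w : Q) :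
    ⁅x, y * w⁆ = ⁅x, y⁆ * (y * ⁅x, w⁆ * y⁻¹) := by
  simp only [commutatorElement_def]
  group

private theorem nc7_conj {Q : Type} [Group Q] {x t e g : Q} (h1 : g * x * g⁻¹ = x)
    (h2 : g * t * g⁻¹ = t * e) (h3 : Commute x e) : Commute ⁅x, t⁆ g := by
  have e1 : g * ⁅x, t⁆ * g⁻¹ = ⁅g * x * g⁻¹, g * t * g⁻¹⁆ := by
    simp only [commutatorElement_def]
    group
  rw [h1, h2, nc7_alg, commutatorElement_eq_one_iff_commute.2 h3, mul_one, mul_inv_cancel,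
    mul_one] at e1
  rw [Commute, SemiconjBy]
  exact (mul_inv_eq_iff_eq_mul.1 e1).symm

private theorem nc7_mk (hx : Cx φ d S p i l₁ l₂) {p' i' : Fin n} (hp' : p' ∈ S) (hi' : i' ∈ S)
    (hne : p' ≠ i') : Cx φ d S p' i' l₁ l₂ :=
  { hK := hx.hK
    hd := hx.hd
    len := hx.len
    h₁ := hx.h₁
    h₂ := hx.h₂
    hp := hp'
    hi := hi'
    ne := hne }

private theorem nc7_in (hx : Cx φ d S p i l₁ l₂) {z : FF n} (hz : z ∈ Av S) (hS : 6 ≤ S.card)
    {t a b : Fin n} {s : MulAut (FF n)} (hs : IsQ t a b s) (ht : t ∈ S) :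
    Commute (CC φ p i l₁ l₂ z) (φ s) := by
  obtain ⟨p', hp', hp1⟩ : ∃ m ∈ S, m ∉ ({t, a, b} : Finset (Fin n)) := by
    refine Finset.exists_mem_notMem_of_card_lt_card ?_
    exact lt_of_le_of_lt Finset.card_le_three (by omega)
  obtain ⟨i', hi', hi1⟩ : ∃ m ∈ S, m ∉ ({p', t, a, b} : Finset (Fin n)) := by
    refine Finset.exists_mem_notMem_of_card_lt_card ?_
    exact lt_of_le_of_lt Finset.card_le_four (by omega)
  simp only [Finset.mem_insert, Finset.mem_singleton, not_or] at hp1 hi1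
  obtain ⟨hpt, hpa, hpb⟩ := hp1
  obtain ⟨hip, hit, hia, hib⟩ := hi1
  rw [← cc_indep hx hz (by omega) hp' hi' (Ne.symm hip)]
  have hx' := nc7_mk hx hp' hi' (Ne.symm hip)
  have hu : lcom (l₁ ++ xx i' :: l₂) ∈ Av {p', t} := gam_le _ _ (u2 hx' ht (Ne.symm hit))
  have hV : ⁅(xx p' : FF n)⁻¹, z⁻¹⁆ ∈ Av {i', t} := gam_le _ _ (v2 hx' hz ht (Ne.symm hpt))
  have h1 : s * Xu p' i' l₁ l₂ * s⁻¹ = Xu p' i' l₁ l₂ := by
    rw [Xu, lam_conj (qg_pr hs hpt hpa hpb) (Av_anti (by simp) hu),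
      qg_fix hs (Av_anti (by simp) hu)]
  have h2 : s * Tv p' i' z * s⁻¹ = Tv p' i' z := by
    rw [Tv, lam_conj (qg_pr hs hit hia hib) (Av_anti (by simp) hV),
      qg_fix hs (Av_anti (by simp) hV)]
  rw [CC]
  refine nc7_conj (e := 1) ?_ ?_ (Commute.one_right _)
  · rw [← map_inv, ← map_mul, ← map_mul, h1]
  · rw [← map_inv, ← map_mul, ← map_mul, h2, mul_one]

private theorem nc7_out (hx : Cx φ d S p i l₁ l₂) {z : FF n} (hz : z ∈ Av S) (hS : 6 ≤ S.card)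
    {t a b : Fin n} {s : MulAut (FF n)} (hs : IsQ t a b s) (ht : t ∉ S) :
    Commute (CC φ p i l₁ l₂ z) (φ s) := by
  obtain ⟨p', hp', hp1⟩ : ∃ m ∈ S, m ∉ ({a, b} : Finset (Fin n)) := by
    refine Finset.exists_mem_notMem_of_card_lt_card ?_
    exact lt_of_le_of_lt Finset.card_le_two (by omega)
  obtain ⟨i', hi', hi1⟩ : ∃ m ∈ S, m ∉ ({p', a, b} : Finset (Fin n)) := by
    refine Finset.exists_mem_notMem_of_card_lt_card ?_
    exact lt_of_le_of_lt Finset.card_le_three (by omega)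
  obtain ⟨l, hl, hl1⟩ : ∃ m ∈ S, m ∉ ({i', p', a, b} : Finset (Fin n)) := by
    refine Finset.exists_mem_notMem_of_card_lt_card ?_
    exact lt_of_le_of_lt Finset.card_le_four (by omega)
  obtain ⟨m, hm, hm1⟩ : ∃ m ∈ S, m ∉ ({l, i', p', a, b} : Finset (Fin n)) := by
    refine Finset.exists_mem_notMem_of_card_lt_card ?_
    exact lt_of_le_of_lt Finset.card_le_five (by omega)
  simp only [Finset.mem_insert, Finset.mem_singleton, not_or] at hp1 hi1 hl1 hm1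
  obtain ⟨hpa, hpb⟩ := hp1
  obtain ⟨hip, hia, hib⟩ := hi1
  obtain ⟨hli, hlp, hla, hlb⟩ := hl1
  obtain ⟨hml, hmi, hmp, hma, hmb⟩ := hm1
  have hpt : p' ≠ t := fun e => ht (e ▸ hp')
  have hit : i' ≠ t := fun e => ht (e ▸ hi')
  rw [← cc_indep hx hz (by omega) hp' hi' (Ne.symm hip)]
  have hx' := nc7_mk hx hp' hi' (Ne.symm hip)
  have hpr := qg_pr hs hpt hpa hpb
  have hpr' := qg_pr hs hit hia hib
  have hu : lcom (l₁ ++ xx i' :: l₂) ∈ gam (Av {p'}) d := u1 hx'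
  have hV : ⁅(xx p' : FF n)⁻¹, z⁻¹⁆ ∈ Av {i'} := gam_le _ _ (v1 hx' hz)
  have hsub : Av S ≤ Av {i', p', l, m} := by
    apply Av_anti
    intro x hx1
    simp only [Finset.mem_insert, Finset.mem_singleton] at hx1
    rcases hx1 with rfl | rfl | rfl | rfl
    · exact hi'
    · exact hp'
    · exact hl
    · exact hm
  have hsub2 : Av S ≤ Av {i', p'} := by
    apply Av_anti
    intro x hx1
    simp only [Finset.mem_insert, Finset.mem_singleton] at hx1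
    rcases hx1 with rfl | rfl
    · exact hi'
    · exact hp'
  have hW : z * (s z)⁻¹ ∈ gam (Av {i', p', l, m}) 1 := by
    have h1 := cong_aut (S := {i', p', l, m}) (α := s) (a := 1)
      (fun j hj => qg_triv hs (by simp [Ne.symm hia, Ne.symm hpa, Ne.symm hla, Ne.symm hma])
        (by simp [Ne.symm hib, Ne.symm hpb, Ne.symm hlb, Ne.symm hmb]) j hj) 0 (hsub hz)
    have h2 := inv_mem h1
    rw [mul_inv_rev, inv_inv] at h2
    exact h2
  have hN := nn_main hx' hl hlp hli hm hmp hmi (Ne.symm hml) hW (inv_mem (hsub2 hz))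
  obtain ⟨hN1, hN2⟩ := mem_NN.1 hN
  rw [CC]
  refine nc7_conj (e := φ (lam i' (z⁻¹ * ⁅(xx p')⁻¹, z * (s z)⁻¹⁆ * z⁻¹⁻¹))) ?_ ?_ hN2
  · rw [← map_inv, ← map_mul, ← map_mul, Xu, lam_conj hpr (gam_le _ _ hu)]
    refine cg hx.hK true (gam_le _ _ hu) ?_
    have h1 := cong_aut (S := {p'}) (α := s) (a := 1)
      (fun j hj => qg_triv hs (by simpa using Ne.symm hpa) (by simpa using Ne.symm hpb) j hj) d hu
    rw [add_comm] at h1
    exact h1
  · rw [← map_inv, ← map_mul, ← map_mul, ← map_mul, Tv, lam_conj hpr' hV,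
      ← lam_mul hV (gam_le _ _ hN1), ← nc7_alg, inv_mul_cancel_left, map_commutatorElement,
      map_inv, map_inv, hpr.fix]

theorem cc_cen (hx : Cx φ d S p i l₁ l₂) {z : FF n} (hz : z ∈ Av S) (hS : 6 ≤ S.card) :
    Cq φ (CC φ p i l₁ l₂ z) := by
  refine cq_gens fun t a b s hs => ?_
  by_cases ht : t ∈ S
  · exact nc7_in hx hz hS hs ht
  · exact nc7_out hx hz hS hs ht

end Pool.Agent.Work.MP_d3656f_al.GB
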