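import Mathlib
import Pool.Agent.Work.MP_d3656f_al.GB.Nc7

/-!
# GB/Nc8 : the same for `rho i`

Let `X = Xu p i l₁ l₂`, `V = ⁅(xx p)⁻¹, z⁻¹⁆ ∈ Av {i}`, `ι = flp i`. `rho i V = ι * lam i V * ι⁻¹`
(`flp_lam`). `ι⁻¹ X ι = ι X ι⁻¹ = lam p (ι u)` (`ι` is `Pr p`; `flp_inv`), `ι u = lcom (l₁ ++
(xx i)⁻¹ :: l₂)` (`xu_map`, `flp_fix`), so `φ (ι⁻¹ X ι) = (φ X)⁻¹` (`xu_inv`, `cg`). Therefore
`⁅φ X, φ (rho i V)⁆ = φ ι * ⁅(φ X)⁻¹, φ T⁆ * (φ ι)⁻¹` with `T = lam i V = Tv p i z`, and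
`⁅x⁻¹, t⁆ = x⁻¹ * ⁅x, t⁆⁻¹ * x`. `cc_cen`, `cq_inv`, `cq_conj'`, `cq_conj`.
-/

set_option autoImplicit false

namespace Pool.Agent.Work.MP_d3656f_al.GB

open scoped commutatorElement

variable {n : ℕ} {M : Type} [Group M] {φ : MulAut (FF n) →* M} {d : ℕ}
  {S : Finset (Fin n)} {p i : Fin n} {l₁ l₂ : List (FF n)}

private theorem nc8_pr {n : ℕ} {i m : Fin n} (h : i ≠ m) : Pr i (flp m : MulAut (FF n)) := by
  have h1 : ∀ j, j ≠ i → (flp m : MulAut (FF n)) (xx j) ∈ Av {i} := by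
    intro j hj
    by_cases hm : j = m
    · subst hm
      rw [flp_self]
      exact inv_mem (xx_mem_Av (by simpa using hj))
    · rw [flp_ne hm]
      exact xx_mem_Av (by simpa using hj)
  refine pr_of_gens (flp_ne h) h1 ?_
  rw [flp_inv]
  exact h1

private theorem nc8_alg {Q : Type} [Group Q] (x t g : Q) (h : g * x⁻¹ * g⁻¹ = x) :
    ⁅x, g * t * g⁻¹⁆ = g * (x⁻¹ * ⁅x, t⁆⁻¹ * x) * g⁻¹ := by
  have e : ⁅x, g * t * g⁻¹⁆ = ⁅g * x⁻¹ * g⁻¹, g * t * g⁻¹⁆ := by rw [h]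
  rw [e]
  simp only [commutatorElement_def]
  group

theorem cc_rho (hQ : (Qs n).Normal) (hx : Cx φ d S p i l₁ l₂) {z : FF n} (hz : z ∈ Av S)
    (hS : 6 ≤ S.card) :
    Cq φ ⁅φ (Xu p i l₁ l₂), φ (rho i ⁅(xx p)⁻¹, z⁻¹⁆)⁆ := by
  have hV : ⁅(xx p : FF n)⁻¹, z⁻¹⁆ ∈ Av {i} := gam_le _ _ (v1 hx hz)
  have hsubp : Av S ≤ Av {p} := Av_anti (by simpa using hx.hp)
  have hsubi : Av S ≤ Av {i} := Av_anti (by simpa using hx.hi)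
  have hu : lcom (l₁ ++ xx i :: l₂) ∈ Av {p} := gam_le _ _ (u1 hx)
  have hip : (xx i : FF n) ∈ Av {p} := xx_mem_Av (by simpa using hx.ne.symm)
  have e1 : φ (flp i) * (φ (Xu p i l₁ l₂))⁻¹ * (φ (flp i))⁻¹ = φ (Xu p i l₁ l₂) := by
    have h1 : flp i * Xu p i l₁ l₂ * (flp i)⁻¹ =
        lam p (lcom (l₁ ++ (xx i)⁻¹ :: l₂)) := by
      rw [Xu, lam_conj (nc8_pr hx.ne) hu, xu_map (flp i) (xx i)
        (fun y hy => flp_fix (hsubi (hx.h₁ y hy))) (fun y hy => flp_fix (hsubi (hx.h₂ y hy))),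
        flp_self]
    have h2 : φ (lam p (lcom (l₁ ++ (xx i)⁻¹ :: l₂))) =
        φ (lam p (lcom (l₁ ++ xx i :: l₂))⁻¹) := by
      refine cg hx.hK true (inv_mem hu) ?_
      rw [inv_inv]
      exact xu_inv hx.len (fun y hy => hsubp (hx.h₁ y hy)) (fun y hy => hsubp (hx.h₂ y hy)) hip
    have h3 : φ (flp i) * φ (Xu p i l₁ l₂) * (φ (flp i))⁻¹ = (φ (Xu p i l₁ l₂))⁻¹ := by
      rw [← map_inv, ← map_mul, ← map_mul, h1, h2, lam_inv hu, map_inv]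
      rfl
    have h4 := congrArg (fun y => y⁻¹) h3
    simp only [mul_inv_rev, inv_inv] at h4
    rw [← mul_assoc] at h4
    exact h4
  have e2 : φ (rho i ⁅(xx p)⁻¹, z⁻¹⁆) = φ (flp i) * φ (Tv p i z) * (φ (flp i))⁻¹ := by
    rw [← map_inv, ← map_mul, ← map_mul, Tv, flp_lam hV]
  rw [e2, nc8_alg _ _ _ e1]
  exact cq_conj hQ (cq_conj' hQ (cq_inv (cc_cen hx hz hS)) (Xu p i l₁ l₂)) (flp i)

end Pool.Agent.Work.MP_d3656f_al.GB
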