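import Mathlib
import Pool.Agent.Work.MP_d3656f_al.GB.Nc7
import Pool.Agent.Work.MP_d3656f_al.GB.Ncon

/-!
# GB/Nc9 : the same for `con i (xx p)`

`7 ≤ S.card`: choose `m ∈ S`, `m ≠ p, i`. Put `A = φ (Xu p i l₁ l₂)`, `B = φ (Xu p m l₁ l₂)`,
`s = con i (xx p)`, `g = (lam m (xx i))⁻¹` (so `g (xx m) = xx i * xx m`),
`V = ⁅(xx p)⁻¹, (xx i)⁻¹⁆`, `s' = (lam m V)⁻¹`. Then
* `g * s * g⁻¹ = s' * s` exactly (both map `xx i ↦ (xx p)⁻¹ xx i xx p`, `xx m ↦ V * xx m`),
* `φ g * B * (φ g)⁻¹ = φ (lam p (lcom (l₁ ++ (xx i * xx m) :: l₂))) = A * B` (`xu_mul`, `cg`).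
Let `Z` be the set of all `y` with `Cq φ y`; it is a subgroup, normalised by the `φ α` (`cq_*`).
* `⁅B, φ s⁆ = (φ (con i u'))⁻¹` with `u' = lcom (l₁ ++ xx m :: l₂)` (`t6`), in `Z` by `con_cen`
  for the set `S.erase m` (`u' ∈ gam (Av (S.erase m)) d`),
* conjugating by `φ g`: `⁅A * B, φ s' * φ s⁆ ∈ Z`,
* `⁅B, φ (lam m V)⁆ = CC φ p m l₁ l₂ (xx i)` is in `Z` by `cc_cen` for the set `S.erase i` (card
  at least `6`; `xx i ∈ Av (S.erase i)`), hence `⁅B, φ s'⁆ ∈ Z` too,
* `A` and `φ s'` commute (`t1`: `u ∈ gam (Av {p, m}) d`, `V ∈ gam (Av {m}) 1`).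
Work in the quotient of the group of all elements (the images of `MulAut`) by `Z`, or directly:
modulo `Z` (normalised by everything in sight) `B` commutes with `φ s` and with `φ s'`, `A`
commutes with `φ s'`, `A * B` commutes with `φ s' * φ s`; hence `A` commutes with `φ s`, that is
`⁅A, φ s⁆ ∈ Z`. (Suggestion: replace `M` by `φ.range`; there `Z` is a normal subgroup.)
-/

set_option autoImplicit false

namespace Pool.Agent.Work.MP_d3656f_al.GB

open scoped commutatorElement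

variable {n : ℕ} {M : Type} [Group M] {φ : MulAut (FF n) →* M} {d : ℕ}
  {S : Finset (Fin n)} {p i : Fin n} {l₁ l₂ : List (FF n)}


/-- the automorphisms whose image commutes with the image of `Qs n` -/
private def nc9W (φ : MulAut (FF n) →* M) : Subgroup (MulAut (FF n)) where
  carrier := {α | Cq φ (φ α)}
  mul_mem' := by
    intro α β hα hβ
    show Cq φ (φ (α * β))
    rw [map_mul]
    exact cq_mul hα hβ
  one_mem' := by
    show Cq φ (φ 1)
    rw [map_one]
    exact cq_one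
  inv_mem' := by
    intro α hα
    show Cq φ (φ α⁻¹)
    rw [map_inv]
    exact cq_inv hα

private theorem nc9_norm (hQ : (Qs n).Normal) (φ : MulAut (FF n) →* M) : (nc9W φ).Normal := by
  refine ⟨fun α hα g => ?_⟩
  show Cq φ (φ (g * α * g⁻¹))
  rw [map_mul, map_mul, map_inv]
  exact cq_conj hQ hα g

private theorem nc9_core {Q : Type} [Group Q] {A B s s' g : Q} (h1 : g * s * g⁻¹ = s' * s)
    (h2 : g * B * g⁻¹ = A * B) (h3 : Commute B s) (h4 : Commute B s') (h5 : Commute A s') :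
    Commute A s := by
  have h6 : Commute (g * B * g⁻¹) (g * s * g⁻¹) := by
    rw [Commute, SemiconjBy]
    have := h3.eq
    calc g * B * g⁻¹ * (g * s * g⁻¹) = g * (B * s) * g⁻¹ := by group
      _ = g * (s * B) * g⁻¹ := by rw [this]
      _ = g * s * g⁻¹ * (g * B * g⁻¹) := by group
  rw [h1, h2] at h6
  have h7 : Commute B (s' * s) := h4.mul_right h3
  have h8 : Commute A (s' * s) := by
    have h9 := h6.mul_left h7.inv_left
    rwa [mul_inv_cancel_right] at h9
  have h10 := h5.inv_right.mul_right h8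
  rwa [inv_mul_cancel_left] at h10

theorem cc_con (hQ : (Qs n).Normal) (hx : Cx φ d S p i l₁ l₂) (hS : 7 ≤ S.card) :
    Cq φ ⁅φ (Xu p i l₁ l₂), φ (con i (xx p))⁆ := by
  haveI := nc9_norm hQ φ
  obtain ⟨m, hm, hmp, hmi⟩ : ∃ m ∈ S, m ≠ p ∧ m ≠ i := by
    have hc : ((S.erase p).erase i).Nonempty := by
      rw [← Finset.card_pos]
      have h1 := Finset.pred_card_le_card_erase (s := S) (a := p)
      have h2 := Finset.pred_card_le_card_erase (s := S.erase p) (a := i)
      omega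
    obtain ⟨m, hm⟩ := hc
    rw [Finset.mem_erase, Finset.mem_erase] at hm
    exact ⟨m, hm.2.2, hm.2.1, hm.1⟩
  have hpi := hx.ne
  have hx' : Cx φ d S p m l₁ l₂ := hx.swi hm hmp
  set π := QuotientGroup.mk' (nc9W φ) with hπ
  -- Translation
  have htr : ∀ α β : MulAut (FF n), Cq φ ⁅φ α, φ β⁆ ↔ Commute (π α) (π β) := by
    intro α β
    have h1 : ⁅φ α, φ β⁆ = φ ⁅α, β⁆ := (map_commutatorElement φ α β).symm
    rw [h1, ← commutatorElement_eq_one_iff_commute, ← map_commutatorElement]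
    exact (QuotientGroup.eq_one_iff (N := nc9W φ) ⁅α, β⁆).symm
  have heq : ∀ α β : MulAut (FF n), φ α = φ β → π α = π β := by
    intro α β h
    have h1 : α⁻¹ * β ∈ nc9W φ := by
      show Cq φ (φ (α⁻¹ * β))
      rw [map_mul, map_inv, h, inv_mul_cancel]
      exact cq_one
    exact QuotientGroup.eq.2 h1
  have hcm : ∀ α β : MulAut (FF n), Commute (φ α) (φ β) → Commute (π α) (π β) := by
    intro α β h
    rw [← htr, commutatorElement_eq_one_iff_commute.2 h]
    exact cq_one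
  rw [htr]
  set V : FF n := ⁅(xx p)⁻¹, (xx i)⁻¹⁆ with hV
  have hpm : (xx p : FF n) ∈ Av {m} := xx_mem_Av (by simpa using hmp.symm)
  have him : (xx i : FF n) ∈ Av {m} := xx_mem_Av (by simpa using hmi.symm)
  have hVm1 : V ∈ gam (Av {m}) 1 :=
    Subgroup.commutator_mem_commutator (inv_mem hpm) (inv_mem him)
  have hVm : V ∈ Av {m} := gam_le _ _ hVm1
  have hpi' : (xx p : FF n) ∈ Av {i} := xx_mem_Av (by simpa using hpi)
  -- the exact relation
  have e1 : (lam m (xx i))⁻¹ * con i (xx p) * (lam m (xx i))⁻¹⁻¹ =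
      (lam m V)⁻¹ * con i (xx p) := by
    rw [inv_inv, ← lam_inv him, ← lam_inv hVm]
    apply aut_ext
    intro j
    by_cases hjm : j = m
    · subst hjm
      rw [MulAut.mul_apply, MulAut.mul_apply, MulAut.mul_apply, lam_self him, map_mul, map_mul,
        map_inv, map_inv, con_self hpi', con_ne _ hmi, lam_self (inv_mem him),
        lam_self (inv_mem hVm), inv_inv, inv_inv, map_mul, map_mul, map_inv,
        lam_ne _ hmp.symm, lam_ne _ hmi.symm, hV, commutatorElement_def]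
      group
    · rw [MulAut.mul_apply, MulAut.mul_apply, MulAut.mul_apply, lam_ne _ hjm]
      by_cases hji : j = i
      · subst hji
        rw [con_self hpi', map_mul, map_mul, map_inv, lam_ne _ hmp.symm, lam_ne _ hjm, map_mul,
          map_mul, map_inv, lam_ne _ hmp.symm, lam_ne _ hjm]
      · rw [con_ne _ hji, lam_ne _ hjm, lam_ne _ hjm]
  have hum : lcom (l₁ ++ xx i :: l₂) ∈ gam (Av {p, m}) d := u2 hx hm hmi
  -- the second relation
  have e2 : φ ((lam m (xx i))⁻¹ * Xu p m l₁ l₂ * (lam m (xx i))⁻¹⁻¹) =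
      φ (Xu p i l₁ l₂ * Xu p m l₁ l₂) := by
    have h1 := x_lam hx' (m := i) hx.hi hpi.symm hmi.symm
    have h2 : Commute (Xu p i l₁ l₂) (lam m (xx i)) :=
      t3 hmp.symm (gam_le _ _ hum) (xx_mem_Av (by simp [hpi.symm, hmi.symm])) true true
    have h3 : Commute (φ (Xu p i l₁ l₂)) (φ (lam m (xx i))) := h2.map φ
    rw [map_mul, map_mul, map_inv] at h1
    rw [inv_inv, map_mul, map_mul, map_mul, map_inv]
    have h4 : φ (Xu p i l₁ l₂) * (φ (lam m (xx i)) * φ (Xu p m l₁ l₂) * (φ (lam m (xx i)))⁻¹) =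
        φ (Xu p m l₁ l₂) := by
      rw [h1, mul_inv_cancel_left]
    have h5 := h3.eq
    calc (φ (lam m (xx i)))⁻¹ * φ (Xu p m l₁ l₂) * φ (lam m (xx i))
        = (φ (lam m (xx i)))⁻¹ * (φ (Xu p i l₁ l₂) * (φ (lam m (xx i)) * φ (Xu p m l₁ l₂) *
          (φ (lam m (xx i)))⁻¹)) * φ (lam m (xx i)) := by rw [h4]
      _ = (φ (lam m (xx i)))⁻¹ * (φ (Xu p i l₁ l₂) * φ (lam m (xx i))) * φ (Xu p m l₁ l₂) := by
          group
      _ = φ (Xu p i l₁ l₂) * φ (Xu p m l₁ l₂) := by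
          rw [h5]
          group
  -- `B` and `s`
  have hu' : lcom (l₁ ++ xx m :: l₂) ∈ gam (Av {p, i}) d := u2 hx' hx.hi hmi.symm
  have e3 : Commute (π (Xu p m l₁ l₂)) (π (con i (xx p))) := by
    rw [← htr]
    have h1 := t6 hpi (gam_le _ _ hu')
    have h2 : ⁅φ (Xu p m l₁ l₂), φ (con i (xx p))⁆ =
        (φ (con i (lcom (l₁ ++ xx m :: l₂))))⁻¹ := by
      rw [← map_commutatorElement, ← map_inv]
      congr 1
      rw [commutatorElement_def]
      show lam p (lcom (l₁ ++ xx m :: l₂)) * con i (xx p) *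
        (lam p (lcom (l₁ ++ xx m :: l₂)))⁻¹ * (con i (xx p))⁻¹ = _
      rw [h1, mul_inv_cancel_right]
    rw [h2]
    refine cq_inv (con_cen hx.hK (S := S.erase m) ?_ ?_ (u0 hx'))
    · have := Finset.pred_card_le_card_erase (s := S) (a := m)
      omega
    · exact Finset.mem_erase.2 ⟨hmi.symm, hx.hi⟩
  -- `B` and `s'`
  have e4 : Commute (π (Xu p m l₁ l₂)) (π (lam m V)⁻¹) := by
    rw [map_inv]
    apply Commute.inv_right
    rw [← htr]
    have hsub : Av S ≤ Av (S.erase i) := Av_anti (Finset.erase_subset i S)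
    have hc : Cx φ d (S.erase i) p m l₁ l₂ :=
      { hK := hx.hK
        hd := hx.hd
        len := hx.len
        h₁ := fun y hy => hsub (hx.h₁ y hy)
        h₂ := fun y hy => hsub (hx.h₂ y hy)
        hp := Finset.mem_erase.2 ⟨hpi, hx.hp⟩
        hi := Finset.mem_erase.2 ⟨hmi, hm⟩
        ne := hmp.symm }
    exact cc_cen hc (z := xx i) (xx_mem_Av (by simp)) (by
      have := Finset.pred_card_le_card_erase (s := S) (a := i)
      omega)
  -- `A` and `s'`
  have e5 : Commute (π (Xu p i l₁ l₂)) (π (lam m V)⁻¹) := by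
    rw [map_inv]
    apply Commute.inv_right
    exact hcm _ _ (t1 hx.hK hmp.symm hum hVm1 true true)
  refine nc9_core (g := π (lam m (xx i))⁻¹) (B := π (Xu p m l₁ l₂)) (s' := π (lam m V)⁻¹)
    ?_ ?_ e3 e4 e5
  · rw [← map_inv, ← map_mul, ← map_mul, e1, map_mul]
  · rw [← map_inv, ← map_mul, ← map_mul, ← map_mul]
    exact heq _ _ e2

end Pool.Agent.Work.MP_d3656f_al.GB
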