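import Mathlib
import Pool.Agent.Work.MP_d3656f_al.GB.Nc8
import Pool.Agent.Work.MP_d3656f_al.GB.Nc9

/-!
# GB/Nc10 : the commutators with all generators are central

Let `u = lcom (L.map xx) ∈ gam (Av {p}) d`, `X = lam p u`.
1. Let `s` be a generator, `IsQ t a b s`. Claim `Cq φ ⁅φ X, φ s⁆`.
* `t = p`: `φ X` commutes with `φ s` (`t4`; `con p w = lam p w * rho p w`).
* `t ≠ p`, `t ∉ L`: `u ∈ gam (Av {p, t}) d`. `s = tr b' t V` with `V ∈ gam (Av {t}) 1`: `t1`.
  `s = con t (xx a)`, `a ≠ p`: `t5`. `a = p`: `t6` gives `⁅X, s⁆ = (con t u)⁻¹`, `con_cen` for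
  `S = {j | j ∉ L}` (`card = n - (d+1) ≥ 4`), `cq_inv`.
* `t ∈ L`: `L = L₁ ++ t :: L₂`, `X = Xu p t (L₁.map xx) (L₂.map xx)`, and `t ∉ L₁, L₂`
  (`L.Nodup`). Let `S = {j | j ∉ L₁, j ∉ L₂}`, of cardinality at least `n - d ≥ 7`; it contains
  `p` and `t`. `s = con t (xx a)`: `a ≠ p` `t5`; `a = p` `cc_con`. `s = tr b' t ⁅(xx a)⁻¹,
  (xx b)⁻¹⁆`: if `a, b ≠ p` then `t2`; if `a = b` the word is `1`; if `a = p ≠ b` then `cc_cen`
  or `cc_rho` for the set `S.erase b` (card at least `6`) and `z = xx b`; if `b = p ≠ a` the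
  word is the inverse of the one with `a`, `b` exchanged and
  `⁅x, t⁻¹⁆ = t⁻¹ * ⁅x, t⁆⁻¹ * t` (`cq_inv`, `cq_conj'`).
2. `⁅x, s s'⁆ = ⁅x, s⁆ * (s * ⁅x, s'⁆ * s⁻¹)` and `⁅x, s⁻¹⁆ = s⁻¹ * ⁅x, s⁆⁻¹ * s`: closure
induction (`cq_mul`, `cq_inv`, `cq_conj`, `cq_conj'`).
-/

set_option autoImplicit false

namespace Pool.Agent.Work.MP_d3656f_al.GB

open scoped commutatorElement

variable {n : ℕ} {M : Type} [Group M] {φ : MulAut (FF n) →* M} {d : ℕ}
  {S : Finset (Fin n)} {p i : Fin n} {l₁ l₂ : List (FF n)}


/-- the automorphisms whose image commutes with the image of `Qs n` -/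
private def nc10W (φ : MulAut (FF n) →* M) : Subgroup (MulAut (FF n)) where
  carrier := {α | Cq φ (φ α)}
  mul_mem' := by
    intro α β hα hβ
    show Cq φ (φ (α * β))
    rw [map_mul]
    exact cq_mul hα hβ
  one_mem' := by
    show Cq φ (φ 1)
    rw [map_one]
    exact cq_one
  inv_mem' := by
    intro α hα
    show Cq φ (φ α⁻¹)
    rw [map_inv]
    exact cq_inv hα

private theorem nc10_norm (hQ : (Qs n).Normal) (φ : MulAut (FF n) →* M) : (nc10W φ).Normal := by
  refine ⟨fun α hα g => ?_⟩
  show Cq φ (φ (g * α * g⁻¹))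
  rw [map_mul, map_mul, map_inv]
  exact cq_conj hQ hα g

private theorem nc10_gam {L : List (Fin n)} (hlen : L.length = d + 1) {T : Finset (Fin n)}
    (hT : ∀ j ∈ L, j ∉ T) : lcom (L.map xx) ∈ gam (Av T) d := by
  have h := lcom_mem (H := Av T) (l := L.map xx) (by
    intro y hy
    obtain ⟨j, hj, rfl⟩ := List.mem_map.1 hy
    exact xx_mem_Av (hT j hj))
  rwa [List.length_map, hlen, Nat.add_sub_cancel] at h

theorem x_cen (hQ : (Qs n).Normal) (hK : HK φ (d + 1)) (hd : 1 ≤ d) (hn : d + 7 ≤ n)
    {L : List (Fin n)} (hL : L.Nodup) (hlen : L.length = d + 1) (hp : p ∉ L)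
    {s : MulAut (FF n)} (hs : s ∈ Qs n) :
    Cq φ ⁅φ (lam p (lcom (L.map xx))), φ s⁆ := by
  haveI := nc10_norm hQ φ
  set π := QuotientGroup.mk' (nc10W φ) with hπ
  have htr : ∀ α β : MulAut (FF n), Cq φ ⁅φ α, φ β⁆ ↔ Commute (π α) (π β) := by
    intro α β
    have h1 : ⁅φ α, φ β⁆ = φ ⁅α, β⁆ := (map_commutatorElement φ α β).symm
    rw [h1, ← commutatorElement_eq_one_iff_commute, ← map_commutatorElement]
    exact (QuotientGroup.eq_one_iff (N := nc10W φ) ⁅α, β⁆).symm
  have hcm : ∀ α β : MulAut (FF n), Commute (φ α) (φ β) → Commute (π α) (π β) := by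
    intro α β h
    rw [← htr, commutatorElement_eq_one_iff_commute.2 h]
    exact cq_one
  set u : FF n := lcom (L.map xx) with hu
  have hup : u ∈ gam (Av {p}) d := nc10_gam hlen (by
    intro j hj h
    rw [Finset.mem_singleton] at h
    exact hp (h ▸ hj))
  have hV : ∀ (t a b : Fin n), a ≠ t → b ≠ t → (⁅(xx a)⁻¹, (xx b)⁻¹⁆ : FF n) ∈ gam (Av {t}) 1 :=
    fun t a b ha hb => Subgroup.commutator_mem_commutator
      (inv_mem (xx_mem_Av (by simpa using ha))) (inv_mem (xx_mem_Av (by simpa using hb)))
  -- the generators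
  have hgen : ∀ (t a b : Fin n), a ≠ t → b ≠ t →
      (∀ b' : Bool, Commute (π (lam p u)) (π (tr b' t ⁅(xx a)⁻¹, (xx b)⁻¹⁆))) ∧
      Commute (π (lam p u)) (π (con t (xx a))) := by
    intro t a b ha hb
    have hxa : (xx a : FF n) ∈ Av {t} := xx_mem_Av (by simpa using ha)
    by_cases htp : t = p
    · subst htp
      refine ⟨fun b' => hcm _ _ (t4 hK hup (gam_le _ _ (hV t a b ha hb)) true b'), ?_⟩
      rw [con, map_mul]
      exact (hcm _ _ (t4 hK hup hxa true true)).mul_right (hcm _ _ (t4 hK hup hxa true false))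
    · have hpt : p ≠ t := Ne.symm htp
      have hcon : a ≠ p → Commute (π (lam p u)) (π (con t (xx a))) := fun hap =>
        hcm _ _ (t5 hK hpt hup (xx_mem_Av (by simp [hap, ha])) true)
      by_cases htL : t ∈ L
      · obtain ⟨L₁, L₂, rfl⟩ := List.append_of_mem htL
        have hnd := hL
        rw [List.nodup_append, List.nodup_cons] at hnd
        have ht1 : t ∉ L₁ := fun h => hnd.2.2 t h t (List.mem_cons_self) rfl
        have ht2 : t ∉ L₂ := hnd.2.1.1
        have hp1 : p ∉ L₁ := fun h => hp (List.mem_append_left _ h)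
        have hp2 : p ∉ L₂ := fun h => hp (List.mem_append_right _ (List.mem_cons_of_mem _ h))
        have hlen' : L₁.length + L₂.length = d := by
          rw [List.length_append, List.length_cons] at hlen
          omega
        set T : Finset (Fin n) := (L₁ ++ L₂).toFinsetᶜ with hT
        have hTm : ∀ j, j ∈ T ↔ j ∉ L₁ ∧ j ∉ L₂ := by
          intro j
          rw [hT, Finset.mem_compl, List.mem_toFinset, List.mem_append, not_or]
        have hcard : 7 ≤ T.card := by
          rw [hT, Finset.card_compl, Fintype.card_fin]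
          have h1 := List.toFinset_card_le (L₁ ++ L₂)
          rw [List.length_append] at h1
          omega
        have hux : u = lcom (L₁.map xx ++ xx t :: L₂.map xx) := by
          rw [hu, List.map_append, List.map_cons]
        have hXu : lam p u = Xu p t (L₁.map xx) (L₂.map xx) := by
          rw [hux]
          rfl
        have hcx : ∀ T' : Finset (Fin n), T' ⊆ T → p ∈ T' → t ∈ T' →
            Cx φ d T' p t (L₁.map xx) (L₂.map xx) := by
          intro T' hT' hpT htT
          refine ⟨hK, hd, by rw [List.length_map, List.length_map, hlen'], ?_, ?_, hpT, htT, hpt⟩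
          · intro y hy
            obtain ⟨j, hj, rfl⟩ := List.mem_map.1 hy
            exact xx_mem_Av fun h => ((hTm j).1 (hT' h)).1 hj
          · intro y hy
            obtain ⟨j, hj, rfl⟩ := List.mem_map.1 hy
            exact xx_mem_Av fun h => ((hTm j).1 (hT' h)).2 hj
        have hpT : p ∈ T := (hTm p).2 ⟨hp1, hp2⟩
        have htT : t ∈ T := (hTm t).2 ⟨ht1, ht2⟩
        have hone : ∀ (b' : Bool) (c : Fin n), c ≠ t →
            Commute (π (lam p u)) (π (tr b' t ⁅(xx p)⁻¹, (xx c)⁻¹⁆)) := by
          intro b' c hct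
          by_cases hcp : c = p
          · subst hcp
            rw [commutatorElement_self, tr_one, map_one]
            exact Commute.one_right _
          · rw [← htr, hXu]
            have hc := hcx (T.erase c) (Finset.erase_subset _ _)
              (Finset.mem_erase.2 ⟨Ne.symm hcp, hpT⟩) (Finset.mem_erase.2 ⟨Ne.symm hct, htT⟩)
            have hc6 : 6 ≤ (T.erase c).card := by
              have := Finset.pred_card_le_card_erase (s := T) (a := c)
              omega
            cases b'
            · exact cc_rho hQ hc (z := xx c) (xx_mem_Av (by simp)) hc6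
            · exact cc_cen hc (z := xx c) (xx_mem_Av (by simp)) hc6
        refine ⟨fun b' => ?_, ?_⟩
        · by_cases hap : a = p
          · rw [hap]
            exact hone b' b hb
          · by_cases hbp : b = p
            · rw [hbp, ← commutatorElement_inv, tr_inv b' (gam_le _ _ (hV t p a hpt ha)), map_inv]
              exact (hone b' a ha).inv_right
            · refine hcm _ _ (t2 hK hpt hup ?_ true b')
              exact Subgroup.commutator_mem_commutator
                (inv_mem (xx_mem_Av (by simp [hap, ha]))) (inv_mem (xx_mem_Av (by simp [hbp, hb])))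
        · by_cases hap : a = p
          · rw [← htr, hap, hXu]
            exact cc_con hQ (hcx T (Finset.Subset.refl _) hpT htT) hcard
          · exact hcon hap
      · have hupt : u ∈ gam (Av {p, t}) d := nc10_gam hlen (by
          intro j hj h
          rw [Finset.mem_insert, Finset.mem_singleton] at h
          rcases h with h | h
          · exact hp (h ▸ hj)
          · exact htL (h ▸ hj))
        refine ⟨fun b' => hcm _ _ (t1 hK hpt hupt (hV t a b ha hb) true b'), ?_⟩
        by_cases hap : a = p
        · rw [← htr, hap]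
          have h1 := t6 hpt (gam_le _ _ hupt)
          have h2 : ⁅φ (lam p u), φ (con t (xx p))⁆ = (φ (con t u))⁻¹ := by
            rw [← map_commutatorElement, ← map_inv]
            congr 1
            rw [commutatorElement_def, h1, mul_inv_cancel_right]
          rw [h2]
          have hcard : 4 ≤ (L.toFinsetᶜ : Finset (Fin n)).card := by
            rw [Finset.card_compl, Fintype.card_fin]
            have h3 := List.toFinset_card_le L
            omega
          refine cq_inv (con_cen hK hcard ?_ (nc10_gam hlen ?_))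
          · rw [Finset.mem_compl, List.mem_toFinset]
            exact htL
          · intro j hj
            rw [Finset.mem_compl, List.mem_toFinset, not_not]
            exact hj
        · exact hcon hap
  rw [htr]
  have hle : Qs n ≤ (Subgroup.centralizer {π (lam p u)}).comap π := by
    refine (Subgroup.closure_le _).2 ?_
    rintro s ⟨t, a, b, ha, hb, h⟩
    have hg := hgen t a b ha hb
    have hc : Commute (π (lam p u)) (π s) := by
      rcases h with rfl | rfl | rfl
      · exact hg.1 true
      · exact hg.1 false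
      · exact hg.2
    show π s ∈ Subgroup.centralizer {π (lam p u)}
    rw [Subgroup.mem_centralizer_singleton_iff]
    exact hc.symm.eq
  have h := hle hs
  have h' : π s ∈ Subgroup.centralizer {π (lam p u)} := h
  rw [Subgroup.mem_centralizer_singleton_iff] at h'
  exact (show Commute (π s) (π (lam p u)) from h').symm

end Pool.Agent.Work.MP_d3656f_al.GB
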