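import Mathlib

/-!
# GB/NielA : cancellation of reduced words and a weight (for Nielsen's theorem)
-/

set_option autoImplicit false

namespace Pool.Agent.Work.MP_d3656f_al.GB

open FreeGroup

section Split

variable {β : Type} [DecidableEq β]

theorem isReduced_left {A B L : List (β × Bool)} (h : IsReduced L) (e : A ++ B = L) :
    IsReduced A := by
  subst e
  exact List.IsChain.left_of_append h

theorem isReduced_right {A B L : List (β × Bool)} (h : IsReduced L) (e : A ++ B = L) :
    IsReduced B := by
  subst e
  exact List.IsChain.right_of_append h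

theorem isReduced_append {A B : List (β × Bool)} (hA : IsReduced A) (hB : IsReduced B)
    (h : ∀ x ∈ A.getLast?, ∀ y ∈ B.head?, x.1 = y.1 → x.2 = y.2) : IsReduced (A ++ B) := by
  unfold FreeGroup.IsReduced at *
  rw [List.isChain_append]
  exact ⟨hA, hB, h⟩

theorem split_lists : ∀ (L₁ L₂ : List (β × Bool)), IsReduced L₁ → IsReduced L₂ →
    ∃ A C B : List (β × Bool), L₁ = A ++ C ∧ L₂ = invRev C ++ B ∧ IsReduced (A ++ B) := by
  intro L₁
  induction L₁ using List.reverseRecOn with
  | nil => exact fun L₂ _ h => ⟨[], [], L₂, rfl, rfl, h⟩
  | append_singleton L x ih =>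
    intro L₂ h1 h2
    cases L₂ with
    | nil => exact ⟨L ++ [x], [], [], by simp, rfl, by simpa using h1⟩
    | cons y M =>
      by_cases hxy : x.1 = y.1 → x.2 = y.2
      · refine ⟨L ++ [x], [], y :: M, by simp, rfl, isReduced_append h1 h2 ?_⟩
        intro a ha b hb
        simp at ha hb
        subst ha hb
        exact hxy
      · push Not at hxy
        have hL : IsReduced L := isReduced_left (B := [x]) h1 (by simp)
        have hM : IsReduced M := isReduced_right (A := [y]) h2 (by simp)
        obtain ⟨A, C, B, rfl, rfl, hAB⟩ := ih M hL hM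
        refine ⟨A, C ++ [x], B, by simp, ?_, hAB⟩
        have hy : y = (x.1, !x.2) := by
          refine Prod.ext hxy.1.symm ?_
          have := hxy.2
          revert this
          cases x.2 <;> cases y.2 <;> simp
        rw [hy]
        simp [invRev]

theorem toWord_mk_of_reduced {L : List (β × Bool)} (h : IsReduced L) : (mk L).toWord = L := by
  rw [toWord_mk, h.reduce_eq]

theorem split (a b : FreeGroup β) : ∃ A C B : List (β × Bool), a.toWord = A ++ C ∧
    b.toWord = invRev C ++ B ∧ (a * b).toWord = A ++ B := by
  obtain ⟨A, C, B, h1, h2, h3⟩ := split_lists a.toWord b.toWord isReduced_toWord isReduced_toWord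
  refine ⟨A, C, B, h1, h2, ?_⟩
  have ha : a = mk A * mk C := by rw [mul_mk, ← h1, mk_toWord]
  have hb : b = (mk C)⁻¹ * mk B := by rw [inv_mk, mul_mk, ← h2, mk_toWord]
  have : a * b = mk (A ++ B) := by
    rw [ha, hb, ← mul_mk]
    group
  rw [this, toWord_mk_of_reduced h3]

theorem eq_nil_of_invRev {D : List (β × Bool)} (hD : IsReduced D) (h : invRev D = D) : D = [] := by
  have h1 : (mk D)⁻¹ = mk D := by rw [inv_mk, h]
  have h2 : (mk D) ^ 2 = 1 := by
    rw [pow_two]
    nth_rewrite 1 [← h1]
    exact inv_mul_cancel _
  have h3 : mk D = 1 := by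
    have := pow_left_injective (M := FreeGroup β) (n := 2) (by norm_num)
    exact this (by simpa using h2)
  rw [← toWord_mk_of_reduced hD, h3, toWord_one]

theorem self_cancel {v : FreeGroup β} (hv : v ≠ 1) {A C B : List (β × Bool)}
    (h1 : v.toWord = A ++ C) (h2 : v.toWord = invRev C ++ B) : 2 * C.length < v.toWord.length := by
  by_contra hlt
  have hlen : v.toWord.length = A.length + C.length := by rw [h1, List.length_append]
  have hAC : A.length ≤ C.length := by omega
  have hred : IsReduced v.toWord := isReduced_toWord
  have hCred : IsReduced C := isReduced_right (A := A) hred (by simp [h1])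
  have key : A = invRev C := by
    have h3 : A ++ C = invRev C ++ B := by rw [← h1, h2]
    rcases List.append_eq_append_iff.1 h3 with ⟨D, hD1, hD2⟩ | ⟨D, hD1, hD2⟩
    · have h4 : C = invRev D ++ invRev A := by
        rw [← invRev_append, ← hD1, invRev_invRev]
      have h5 : D ++ B = invRev D ++ invRev A := by rw [← hD2, ← h4]
      have h6 : D = invRev D := (List.append_inj h5 (by rw [invRev_length])).1
      have hDred : IsReduced D := isReduced_left (B := B) hCred (by simp [← hD2])
      have h7 := eq_nil_of_invRev hDred h6.symm
      rw [hD1, h7, List.append_nil]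
    · have h4 : D.length = 0 := by
        have h5 := congrArg List.length hD1
        rw [List.length_append, invRev_length] at h5
        omega
      rw [List.length_eq_zero_iff] at h4
      rw [hD1, h4, List.append_nil]
  apply hv
  rw [← mk_toWord (x := v), h1, key, ← mul_mk, ← inv_mk, inv_mul_cancel]

end Split

section Weight

variable {n : ℕ}

/-- digit of a letter -/
def dg (p : Fin n × Bool) : ℕ := 2 * p.1.1 + (if p.2 then 1 else 0)

theorem dg_lt (p : Fin n × Bool) : dg p < 2 * n + 2 := by
  have := p.1.2
  unfold dg
  split_ifs <;> omega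

theorem dg_inj : Function.Injective (dg : Fin n × Bool → ℕ) := by
  rintro ⟨i, a⟩ ⟨j, b⟩ h
  unfold dg at h
  cases a <;> cases b <;> simp at h ⊢ <;> omega

/-- numerical value of a word -/
def code (l : List (Fin n × Bool)) : ℕ := Nat.ofDigits (2 * n + 2) ((l.map dg).reverse)

theorem code_append (q r : List (Fin n × Bool)) :
    code (q ++ r) = code r + (2 * n + 2) ^ r.length * code q := by
  unfold code
  rw [List.map_append, List.reverse_append, Nat.ofDigits_append, List.length_reverse,
    List.length_map]

theorem code_inj {p q : List (Fin n × Bool)} (hl : p.length = q.length) (h : code p = code q) :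
    p = q := by
  unfold code at h
  have h1 := Nat.ofDigits_inj_of_len_eq (b := 2 * n + 2) (by omega) (by simp [hl])
    (by
      intro l hl
      simp only [List.mem_reverse, List.mem_map] at hl
      obtain ⟨a, -, rfl⟩ := hl
      exact dg_lt a)
    (by
      intro l hl
      simp only [List.mem_reverse, List.mem_map] at hl
      obtain ⟨a, -, rfl⟩ := hl
      exact dg_lt a) h
  exact (List.map_injective_iff.2 dg_inj) (List.reverse_injective h1)

/-- the weight of an element -/
def hf (w : FreeGroup (Fin n)) : ℕ :=
  code (w.toWord.take ((w.norm + 1) / 2)) + code ((w⁻¹).toWord.take ((w.norm + 1) / 2))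

theorem hf_inv (w : FreeGroup (Fin n)) : hf w⁻¹ = hf w := by
  unfold hf
  rw [norm_inv_eq, inv_inv, add_comm]

theorem hf_lt {w w' : FreeGroup (Fin n)} {P Q B : List (Fin n × Bool)} (hw : w.toWord = Q ++ B)
    (hw' : w'.toWord = P ++ B) (hl : P.length = Q.length) (hB : Q.length ≤ B.length)
    (hc : code P < code Q) : hf w' < hf w := by
  have hn : w.norm = Q.length + B.length := by rw [FreeGroup.norm, hw, List.length_append]
  have hn' : w'.norm = Q.length + B.length := by rw [FreeGroup.norm, hw', List.length_append, hl]
  obtain ⟨k, hk⟩ : ∃ k, k = (Q.length + B.length + 1) / 2 := ⟨_, rfl⟩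
  have hk1 : Q.length ≤ k := by omega
  have hk2 : k ≤ B.length ∨ B.length = Q.length ∧ k = B.length := by omega
  have hk3 : k ≤ B.length := by omega
  unfold hf
  rw [hn, hn', ← hk]
  have e1 : w.toWord.take k = Q ++ B.take (k - Q.length) := by
    rw [hw, List.take_append, List.take_of_length_le hk1]
  have e2 : w'.toWord.take k = P ++ B.take (k - Q.length) := by
    rw [hw', List.take_append, List.take_of_length_le (by omega), hl]
  have e3 : (w⁻¹).toWord.take k = (invRev B).take k := by
    rw [toWord_inv, hw, invRev_append, List.take_append_of_le_length (by rw [invRev_length]; exact hk3)]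
  have e4 : (w'⁻¹).toWord.take k = (invRev B).take k := by
    rw [toWord_inv, hw', invRev_append,
      List.take_append_of_le_length (by rw [invRev_length]; exact hk3)]
  rw [e1, e2, e3, e4, code_append, code_append]
  have h5 : 0 < (2 * n + 2) ^ (B.take (k - Q.length)).length := by positivity
  have h6 := Nat.mul_lt_mul_of_pos_left hc h5
  omega

end Weight

end Pool.Agent.Work.MP_d3656f_al.GB
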