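import Mathlib
import Pool.Agent.Work.MP_d3656f_al.GB.Defs

/-!
# GB/NielB : elementary moves (for Nielsen's theorem)
-/

set_option autoImplicit false

namespace Pool.Agent.Work.MP_d3656f_al.GB

open FreeGroup

/-- the signed basis element -/
def sg {n : ℕ} (s : Fin n × Bool) : FF n := FreeGroup.mk [s]

/-- the opposite signed index -/
def op {n : ℕ} (s : Fin n × Bool) : Fin n × Bool := (s.1, !s.2)

theorem sg_true {n : ℕ} (i : Fin n) : sg (i, true) = xx i := rfl

theorem sg_op {n : ℕ} (s : Fin n × Bool) : sg (op s) = (sg s)⁻¹ := by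
  unfold sg op
  rw [inv_mk]
  simp [invRev]

theorem sg_false {n : ℕ} (i : Fin n) : sg (i, false) = (xx i)⁻¹ := by
  rw [← sg_true, ← sg_op]
  rfl

theorem op_op {n : ℕ} (s : Fin n × Bool) : op (op s) = s := by
  unfold op
  simp

theorem op_ne {n : ℕ} (s : Fin n × Bool) : op s ≠ s := by
  unfold op
  intro h
  have := congrArg Prod.snd h
  simp at this

/-- the endomorphism inverting one basis element -/
def invE {n : ℕ} (i : Fin n) : FF n →* FF n :=
  FreeGroup.lift fun j => if j = i then (xx i)⁻¹ else xx j

theorem invE_self {n : ℕ} (i : Fin n) : invE i (xx i) = (xx i)⁻¹ := by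
  simp [invE]

theorem invE_ne {n : ℕ} {i j : Fin n} (h : j ≠ i) : invE i (xx j) = xx j := by
  simp [invE, h]

theorem invE_comp {n : ℕ} (i : Fin n) : (invE i).comp (invE i) = MonoidHom.id (FF n) := by
  ext j
  by_cases h : j = i
  · subst h
    rw [MonoidHom.comp_apply, invE_self, _root_.map_inv, invE_self, inv_inv]
    rfl
  · rw [MonoidHom.comp_apply, invE_ne h, invE_ne h]
    rfl

/-- the automorphism inverting one basis element -/
def inva {n : ℕ} (i : Fin n) : MulAut (FF n) :=
  MonoidHom.toMulEquiv (invE i) (invE i) (invE_comp i) (invE_comp i)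

theorem inva_self {n : ℕ} (i : Fin n) : inva i (xx i) = (xx i)⁻¹ := invE_self i

theorem inva_ne {n : ℕ} {i j : Fin n} (h : j ≠ i) : inva i (xx j) = xx j := invE_ne h

theorem inva_mem {n : ℕ} (i : Fin n) : inva i ∈ Subgroup.closure (El n) :=
  Subgroup.subset_closure (Or.inr (Or.inl ⟨i, inva_self i, fun _ h => inva_ne h⟩))

theorem inva_mul {n : ℕ} (i : Fin n) : inva i * inva i = (1 : MulAut (FF n)) := by
  apply aut_ext
  intro j
  by_cases h : j = i
  · subst h
    rw [MulAut.mul_apply, inva_self, _root_.map_inv, inva_self, inv_inv]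
    rfl
  · rw [MulAut.mul_apply, inva_ne h, inva_ne h]
    rfl

theorem inva_fix {n : ℕ} (i : Fin n) {y : FF n} (hy : y ∈ Av {i}) : inva i y = y := by
  have := hom_eqOn (f := invE i) (f' := MonoidHom.id _) (S := {i})
    (fun j hj => by rw [invE_ne (by simpa using hj)]; rfl) hy
  exact this

theorem sg_mem_Av {n : ℕ} {i : Fin n} {t : Fin n × Bool} (h : t.1 ≠ i) : sg t ∈ Av {i} := by
  obtain ⟨j, b⟩ := t
  have hj : xx j ∈ Av {i} := xx_mem_Av (by simpa using h)
  cases b
  · rw [sg_false]
    exact inv_mem hj
  · exact hj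

theorem lam_mem {n : ℕ} {i : Fin n} {t : Fin n × Bool} (h : t.1 ≠ i) :
    lam i (sg t) ∈ Subgroup.closure (El n) := by
  obtain ⟨j, b⟩ := t
  have hj : xx j ∈ Av {i} := xx_mem_Av (by simpa using h)
  have h1 : lam i (xx j) ∈ Subgroup.closure (El n) := by
    refine Subgroup.subset_closure (Or.inr (Or.inr ⟨i, j, fun h' => h h'.symm, lam_self hj, ?_⟩))
    exact fun k hk => lam_ne _ hk
  cases b
  · rw [sg_false, lam_inv hj]
    exact inv_mem h1
  · exact h1

theorem rho_eq {n : ℕ} {i : Fin n} {w : FF n} (hw : w ∈ Av {i}) :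
    rho i w = inva i * lam i w * inva i := by
  apply aut_ext
  intro j
  rw [MulAut.mul_apply, MulAut.mul_apply]
  by_cases h : j = i
  · subst h
    rw [rho_self hw, inva_self, _root_.map_inv, lam_self hw, _root_.map_inv, _root_.map_mul, _root_.map_inv, inva_self,
      inva_fix j hw]
    group
  · rw [rho_ne _ h, inva_ne h, lam_ne _ h, inva_ne h]

theorem rho_mem {n : ℕ} {i : Fin n} {t : Fin n × Bool} (h : t.1 ≠ i) :
    rho i (sg t) ∈ Subgroup.closure (El n) := by
  rw [rho_eq (sg_mem_Av h)]
  exact mul_mem (mul_mem (inva_mem i) (lam_mem h)) (inva_mem i)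

/-- An elementary move: multiply the signed basis element `s` on the left by `t`. -/
theorem move {n : ℕ} {s t : Fin n × Bool} (h : t.1 ≠ s.1) :
    ∃ ε ∈ Subgroup.closure (El n), ε (sg s) = sg t * sg s ∧ ∀ j, j ≠ s.1 → ε (xx j) = xx j := by
  obtain ⟨i, b⟩ := s
  have h' : (op t).1 ≠ i := h
  cases b
  · refine ⟨rho i (sg (op t)), rho_mem h', ?_, fun j hj => rho_ne _ hj⟩
    rw [sg_false, _root_.map_inv, rho_self (sg_mem_Av h'), sg_op]
    group
  · refine ⟨lam i (sg (op t)), lam_mem h', ?_, fun j hj => lam_ne _ hj⟩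
    rw [sg_true, lam_self (sg_mem_Av h'), sg_op, inv_inv]

/-- An automorphism which permutes the basis elements up to signs is in the closure. -/
theorem signed_mem {n : ℕ} (α : MulAut (FF n)) (σ : Equiv.Perm (Fin n)) (e : Fin n → Bool)
    (h : ∀ i, α (xx i) = sg (σ i, e i)) : α ∈ Subgroup.closure (El n) := by
  classical
  obtain ⟨k, hk⟩ : ∃ k, k = (Finset.univ.filter fun i => e i = false).card := ⟨_, rfl⟩
  induction k generalizing α e with
  | zero =>
    refine Subgroup.subset_closure (Or.inl ⟨σ, fun i => ?_⟩)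
    have h0 := Finset.card_eq_zero.1 hk.symm
    have h1 : e i = true := by
      by_contra h2
      have h3 : i ∈ (Finset.univ.filter fun i => e i = false) := by
        simpa using h2
      rw [h0] at h3
      simp at h3
    rw [h i, h1, sg_true]
  | succ k ih =>
    obtain ⟨i, hi⟩ : (Finset.univ.filter fun i => e i = false).Nonempty := by
      rw [← Finset.card_pos]
      omega
    rw [Finset.mem_filter] at hi
    have h1 : (α * inva i) ∈ Subgroup.closure (El n) := by
      refine ih (α * inva i) (Function.update e i true) (fun j => ?_) ?_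
      · by_cases hj : j = i
        · subst hj
          rw [MulAut.mul_apply, inva_self, _root_.map_inv, h j, hi.2, Function.update_self, sg_true,
            sg_false, inv_inv]
        · rw [MulAut.mul_apply, inva_ne hj, h j, Function.update_of_ne hj]
      · have h2 : (Finset.univ.filter fun j => Function.update e i true j = false) =
            (Finset.univ.filter fun j => e j = false).erase i := by
          ext j
          by_cases hj : j = i
          · subst hj
            simp
          · simp [hj, Function.update_of_ne hj]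
        rw [h2, Finset.card_erase_of_mem (by simpa using hi.2), ← hk]
        rfl
    have h3 : α = (α * inva i) * inva i := by
      rw [mul_assoc, inva_mul, mul_one]
    rw [h3]
    exact mul_mem h1 (inva_mem i)

end Pool.Agent.Work.MP_d3656f_al.GB
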