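import Mathlib
import Pool.Agent.Work.MP_d3656f_al.GB.NielA
import Pool.Agent.Work.MP_d3656f_al.GB.NielB

/-!
# GB/NielC : Nielsen reduced automorphisms are signed permutations
-/

set_option autoImplicit false

namespace Pool.Agent.Work.MP_d3656f_al.GB

open FreeGroup

variable {n : ℕ}

/-- length -/
abbrev ln (w : FF n) : ℕ := w.toWord.length

/-- the image of a signed basis element -/
def vv (α : MulAut (FF n)) (s : Fin n × Bool) : FF n := α (sg s)

theorem vv_op (α : MulAut (FF n)) (s : Fin n × Bool) : vv α (op s) = (vv α s)⁻¹ := by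
  unfold vv
  rw [sg_op, _root_.map_inv]

theorem sg_ne_one (s : Fin n × Bool) : sg s ≠ 1 := by
  obtain ⟨i, b⟩ := s
  cases b
  · rw [sg_false]
    exact fun h => of_ne_one i (by simpa using h)
  · exact of_ne_one i

theorem vv_ne_one (α : MulAut (FF n)) (s : Fin n × Bool) : vv α s ≠ 1 := by
  intro h
  apply sg_ne_one s
  apply α.injective
  rw [_root_.map_one]
  exact h

theorem ln_inv (w : FF n) : ln w⁻¹ = ln w := by
  unfold ln
  rw [toWord_inv, invRev_length]

theorem ln_pos {w : FF n} (h : w ≠ 1) : 0 < ln w := by
  rw [List.length_pos_iff]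
  intro h'
  exact h (toWord_eq_nil_iff.1 h')

/-- first reduction property -/
def N1 (α : MulAut (FF n)) : Prop :=
  ∀ s t, t ≠ op s → ln (vv α s) ≤ ln (vv α s * vv α t) ∧ ln (vv α t) ≤ ln (vv α s * vv α t)

/-- second reduction property -/
def N2 (α : MulAut (FF n)) : Prop :=
  ∀ s t r, t ≠ op s → r ≠ op t →
    ln (vv α s * vv α t) ≠ ln (vv α s) ∨ ln (vv α t * vv α r) ≠ ln (vv α r)

theorem isReduced_ne {s t : Fin n × Bool} {L : List (Fin n × Bool)}
    (h : FreeGroup.IsReduced (s :: t :: L)) : t ≠ op s := by
  rw [isReduced_cons_cons] at h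
  intro h'
  have h1 := h.1 (by rw [h']; rfl)
  rw [h'] at h1
  unfold op at h1
  simp at h1

theorem prod_len {α : MulAut (FF n)} (h1 : N1 α) (h2 : N2 α) :
    ∀ (L : List (Fin n × Bool)) (s : Fin n × Bool), FreeGroup.IsReduced (s :: L) →
      ∃ X Y Z : List (Fin n × Bool), (α (FreeGroup.mk (s :: L))).toWord = X ++ Y ∧ X ≠ [] ∧
        L.length ≤ Y.length ∧ (vv α s).toWord = X ++ Z ∧ (L = [] → Z = []) ∧
        ∀ t L', L = t :: L' → ln (vv α s) + ln (vv α t) = ln (vv α s * vv α t) + 2 * Z.length := by
  intro L
  induction L with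
  | nil =>
    intro s _
    refine ⟨(vv α s).toWord, [], [], by simp [vv, sg], ?_, le_refl _, by simp, fun _ => rfl, ?_⟩
    · intro h
      exact vv_ne_one α s (toWord_eq_nil_iff.1 h)
    · intro t L' h
      simp at h
  | cons s L ih =>
    intro r hr
    have hs : s ≠ op r := isReduced_ne hr
    have hsL : FreeGroup.IsReduced (s :: L) := isReduced_right (A := [r]) hr (by simp)
    obtain ⟨X, Y, Z, e1, hX, hY, e2, hZ0, hZ⟩ := ih s hsL
    obtain ⟨A, C, B, f1, f2, f3⟩ := split (vv α r) (vv α s)
    obtain ⟨g1, g2⟩ := h1 r s hs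
    have l1 : ln (vv α r) = A.length + C.length := by rw [ln, f1, List.length_append]
    have l2 : ln (vv α s) = C.length + B.length := by
      rw [ln, f2, List.length_append, invRev_length]
    have l3 : ln (vv α r * vv α s) = A.length + B.length := by rw [ln, f3, List.length_append]
    have l4 : ln (vv α s) = X.length + Z.length := by rw [ln, e2, List.length_append]
    have hspos := ln_pos (vv_ne_one α s)
    have hrpos := ln_pos (vv_ne_one α r)
    have key : C.length < X.length := by
      cases L with
      | nil =>
        have hz := hZ0 rfl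
        rw [hz] at l4
        simp at l4
        omega
      | cons t L' =>
        have hz := hZ t L' rfl
        have ht : t ≠ op s := isReduced_ne hsL
        obtain ⟨g3, g4⟩ := h1 s t ht
        rcases h2 r s t hs ht with h | h <;> omega
    -- decompose X
    have hsplit : ∃ X', X = invRev C ++ X' ∧ B = X' ++ Z := by
      have h3 : invRev C ++ B = X ++ Z := by rw [← f2, e2]
      rcases List.append_eq_append_iff.1 h3 with ⟨D, hD1, hD2⟩ | ⟨D, hD1, hD2⟩
      · exact ⟨D, hD1, hD2⟩
      · exfalso
        have h5 := congrArg List.length hD1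
        rw [List.length_append, invRev_length] at h5
        omega
    obtain ⟨X', hX1, hX2⟩ := hsplit
    have hX' : X' ≠ [] := by
      intro h
      rw [h, List.append_nil] at hX1
      rw [hX1, invRev_length] at key
      omega
    have hred : FreeGroup.IsReduced (A ++ X' ++ Y) := by
      refine FreeGroup.IsReduced.append_overlap ?_ ?_ hX'
      · have : FreeGroup.IsReduced (A ++ B) := by
          rw [← f3]
          exact isReduced_toWord
        exact isReduced_left (B := Z) this (by simp [hX2])
      · have : FreeGroup.IsReduced (X ++ Y) := by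
          rw [← e1]
          exact isReduced_toWord
        exact isReduced_right (A := invRev C) this (by simp [hX1])
    have hprod : α (FreeGroup.mk (r :: s :: L)) = FreeGroup.mk (A ++ X' ++ Y) := by
      have h3 : (FreeGroup.mk (r :: s :: L) : FF n) = sg r * FreeGroup.mk (s :: L) := by
        unfold sg
        rw [mul_mk]
        rfl
      rw [h3, _root_.map_mul]
      have h4 : α (sg r) = FreeGroup.mk A * FreeGroup.mk C := by
        rw [mul_mk, ← f1, mk_toWord]
        rfl
      have h5 : α (FreeGroup.mk (s :: L)) =
          (FreeGroup.mk C)⁻¹ * FreeGroup.mk X' * FreeGroup.mk Y := by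
        rw [inv_mk, mul_mk, mul_mk, ← hX1, ← e1, mk_toWord]
      rw [h4, h5, ← mul_mk, ← mul_mk]
      group
    refine ⟨A, X' ++ Y, C, ?_, ?_, ?_, f1, ?_, ?_⟩
    · rw [hprod, toWord_mk_of_reduced hred, List.append_assoc]
    · intro h
      rw [h] at l1 l3
      simp at l1 l3
      omega
    · rw [List.length_append, List.length_cons]
      have := List.length_pos_iff.2 hX'
      omega
    · intro h
      simp at h
    · intro t L' h
      have ht : s = t := (List.cons.inj h).1
      subst ht
      omega

/-- A Nielsen reduced automorphism is in the closure of the elementary ones. -/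
theorem reduced_mem {α : MulAut (FF n)} (h1 : N1 α) (h2 : N2 α) :
    α ∈ Subgroup.closure (El n) := by
  have key : ∀ k : Fin n, ∃ s : Fin n × Bool, α (sg s) = xx k := by
    intro k
    obtain ⟨L, hL⟩ : ∃ L, L = (α⁻¹ (xx k)).toWord := ⟨_, rfl⟩
    have hLr : FreeGroup.IsReduced L := by
      rw [hL]
      exact isReduced_toWord
    have hLm : α (FreeGroup.mk L) = xx k := by
      rw [hL, mk_toWord, ← MulAut.mul_apply, mul_inv_cancel]
      rfl
    cases L with
    | nil =>
      exfalso
      have h3 : (FreeGroup.mk [] : FF n) = 1 := rfl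
      rw [h3, _root_.map_one] at hLm
      exact one_ne_of k hLm
    | cons s L =>
      obtain ⟨X, Y, Z, e1, hX, hY, -, -, -⟩ := prod_len h1 h2 L s hLr
      rw [hLm, toWord_of] at e1
      have h3 := congrArg List.length e1
      rw [List.length_append] at h3
      simp only [List.length_cons, List.length_nil] at h3
      have h4 := List.length_pos_iff.2 hX
      have h5 : L = [] := by
        rw [← List.length_eq_zero_iff]
        omega
      rw [h5] at hLm
      exact ⟨s, hLm⟩
  choose s hs using key
  have hinj : Function.Injective fun k => (s k).1 := by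
    intro k l hkl
    have hkl' : (s k).1 = (s l).1 := hkl
    by_cases h : (s k).2 = (s l).2
    · have h3 : s k = s l := Prod.ext hkl' h
      have h4 : (xx k : FF n) = xx l := by rw [← hs k, ← hs l, h3]
      exact of_injective h4
    · exfalso
      have h3 : s k = op (s l) := by
        refine Prod.ext hkl' ?_
        unfold op
        revert h
        cases (s k).2 <;> cases (s l).2 <;> simp
      have h4 : (xx k : FF n) = (xx l)⁻¹ := by
        rw [← hs k, ← hs l, h3, sg_op, _root_.map_inv]
      have h5 := congrArg FreeGroup.toWord h4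
      rw [toWord_inv, toWord_of, toWord_of] at h5
      simp [invRev] at h5
  have hbij : Function.Bijective fun k => (s k).1 :=
    Finite.injective_iff_bijective.1 hinj
  let τ : Equiv.Perm (Fin n) := Equiv.ofBijective _ hbij
  have hτ : ∀ k, τ k = (s k).1 := fun k => rfl
  refine signed_mem α τ.symm (fun i => (s (τ.symm i)).2) (fun i => ?_)
  have h3 := hs (τ.symm i)
  have h4 : (s (τ.symm i)).1 = i := by rw [← hτ, Equiv.apply_symm_apply]
  obtain ⟨b, hb⟩ : ∃ b, b = (s (τ.symm i)).2 := ⟨_, rfl⟩
  have h5 : s (τ.symm i) = (i, b) := Prod.ext h4 hb.symm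
  rw [← hb]
  rw [h5] at h3
  cases b
  · rw [sg_false] at h3 ⊢
    rw [← h3, _root_.map_inv, inv_inv]
  · rw [sg_true] at h3 ⊢
    exact h3

end Pool.Agent.Work.MP_d3656f_al.GB
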