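import Mathlib

/-!
# GB/Nil2 : a finitely generated group of class two generated by torsion elements is finite

Let `S` generate `G`, all elements of `S` of finite order, all commutators central, and let `G`
be finitely generated. Then some finite subset `T` of `S` generates `G` (every element of a finite
generating set is a product of finitely many elements of `S` and inverses).
`⁅·, ·⁆` is bimultiplicative, so `commutator G` is generated by the finitely many elements
`⁅s, s'⁆`, `s, s' ∈ T`, which are central and of finite order (`⁅s, s'⁆^k = ⁅s^k, s'⁆`): it is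
a finitely generated commutative torsion group, hence finite
(`CommGroup.finite_of_fg_torsion` or similar). The abelianization is finitely generated
commutative, generated by elements of finite order, hence finite.
-/

set_option autoImplicit false

namespace Pool.Agent.Work.MP_d3656f_al.GB

open scoped commutatorElement

private theorem nil2_abFin {G : Type} [Group G] (hfg : Group.FG G) (S : Set G)
    (hS : Subgroup.closure S = ⊤) (ho : ∀ s ∈ S, IsOfFinOrder s) : Finite (Abelianization G) := by
  have := hfg
  have : Group.FG (Abelianization G) :=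
    Group.fg_of_surjective (f := (Abelianization.of : G →* Abelianization G))
      QuotientGroup.mk_surjective
  refine CommGroup.finite_of_fg_isMulTorsion (Abelianization G) ?_
  intro x
  obtain ⟨g, rfl⟩ : ∃ g : G, Abelianization.of g = x := QuotientGroup.mk_surjective x
  have hg : g ∈ Subgroup.closure S := by rw [hS]; exact Subgroup.mem_top g
  induction hg using Subgroup.closure_induction with
  | mem x hx => exact MonoidHom.isOfFinOrder _ (ho x hx)
  | one => rw [map_one]; exact IsOfFinOrder.one
  | mul x y _ _ hx hy => rw [map_mul]; exact (Commute.all _ _).isOfFinOrder_mul hx hy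
  | inv x _ hx => rw [map_inv]; exact hx.inv

theorem nil2_fin {G : Type} [Group G] (hfg : Group.FG G) (S : Set G)
    (hS : Subgroup.closure S = ⊤) (ho : ∀ s ∈ S, IsOfFinOrder s)
    (hc : ∀ a b c : G, Commute ⁅a, b⁆ c) : Finite G := by
  have hA : Finite (Abelianization G) := nil2_abFin hfg S hS ho
  have hle : ∀ z ∈ commutator G, ∀ c : G, Commute z c := by
    intro z hz c
    rw [commutator_eq_closure] at hz
    induction hz using Subgroup.closure_induction with
    | mem x hx =>
      obtain ⟨a, b, rfl⟩ := hx
      exact hc a b c
    | one => exact Commute.one_left c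
    | mul x y _ _ hx hy => exact hx.mul_left hy
    | inv x _ hx => exact hx.inv_left
  have hset : Finite (commutatorSet G) := by
    have hsub : commutatorSet G ⊆ Set.range
        (fun p : Abelianization G × Abelianization G => ⁅Quotient.out p.1, Quotient.out p.2⁆) := by
      rintro _ ⟨a, b, rfl⟩
      refine ⟨(Abelianization.of a, Abelianization.of b), ?_⟩
      obtain ⟨c, hc', hcc⟩ : ∃ c, (∀ w : G, Commute c w) ∧
          (Quotient.out (Abelianization.of a : Abelianization G) : G) = a * c := by
        obtain ⟨h, hh⟩ := QuotientGroup.mk_out_eq_mul (commutator G) a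
        exact ⟨h, hle _ h.2, hh⟩
      obtain ⟨d, hd', hdd⟩ : ∃ c, (∀ w : G, Commute c w) ∧
          (Quotient.out (Abelianization.of b : Abelianization G) : G) = b * c := by
        obtain ⟨h, hh⟩ := QuotientGroup.mk_out_eq_mul (commutator G) b
        exact ⟨h, hle _ h.2, hh⟩
      show ⁅Quotient.out (Abelianization.of a : Abelianization G),
        Quotient.out (Abelianization.of b : Abelianization G)⁆ = ⁅a, b⁆
      rw [hcc, hdd, commutatorElement_def, commutatorElement_def, mul_inv_rev, mul_inv_rev]
      have h1 : a * c * (b * d) = a * b * (c * d) := by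
        rw [mul_assoc, ← mul_assoc c b d, (hc' b).eq]
        group
      have h2 : (c⁻¹ * a⁻¹) * (d⁻¹ * b⁻¹) = (d * c)⁻¹ * (a⁻¹ * b⁻¹) := by
        rw [mul_assoc, ← mul_assoc a⁻¹ d⁻¹ b⁻¹, ((hd' a⁻¹).inv_left).eq.symm, mul_inv_rev]
        group
      calc a * c * (b * d) * (c⁻¹ * a⁻¹) * (d⁻¹ * b⁻¹)
          = (a * c * (b * d)) * ((c⁻¹ * a⁻¹) * (d⁻¹ * b⁻¹)) := by group
        _ = (a * b * (c * d)) * ((d * c)⁻¹ * (a⁻¹ * b⁻¹)) := by rw [h1, h2]
        _ = (a * b * (c * d)) * ((c * d)⁻¹ * (a⁻¹ * b⁻¹)) := by rw [(hc' d).eq]
        _ = _ := by group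
    exact (Set.finite_range _).subset hsub
  have : Finite (commutator G) := inferInstance
  have : Finite (G ⧸ commutator G) := hA
  exact Finite.of_subgroup_quotient (commutator G)

end Pool.Agent.Work.MP_d3656f_al.GB
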