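import Mathlib
import Pool.Agent.Work.MP_d3656f_al.GB.Nt
import Pool.Agent.Work.MP_d3656f_al.GB.Ga5

/-!
# GB/Ord : elements of `gam d` have finite order

Let `A u = φ (lam p u)` for `u ∈ Av {p}` (a homomorphism, `trH`). On `gam (Av {p}) d` it is
commutative (`⁅gam d, gam d⁆ ≤ gam (d+1)`: `gam_comm`), so the `u ∈ gam (Av {p}) d` with
`IsOfFinOrder (A u)` form a subgroup (`Commute.isOfFinOrder_mul` or similar). `d = 0`: generated
by the `xx j`, `j ≠ p`. `d = e + 1`: `gam (Av {p}) (e+1)` is generated by the `⁅v, y⁆`,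
`v ∈ gam (Av {p}) e`, `y ∈ Av {p}`. For fixed `v` the set of `y ∈ Av {p}` with `A ⁅v, y⁆` of finite
order is a subgroup, since `A ⁅v, y y'⁆ = A ⁅v, y⁆ * A ⁅v, y'⁆` (`A` of `gam (Av {p}) d` commutes
with `A` of `Av {p}`), so let `y = xx j`. `A (xx j)` has finite order `r > 0`, and
`(A ⁅v, xx j⁆)^r = A ⁅v, (xx j)^r⁆ = ⁅A v, (A (xx j))^r⁆ = 1`.
-/

set_option autoImplicit false

namespace Pool.Agent.Work.MP_d3656f_al.GB

open scoped commutatorElement

variable {n : ℕ} {M : Type} [Group M] {φ : MulAut (FF n) →* M} {d : ℕ}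


private theorem ord_lam_comm (hK : HK φ (d + 1)) {p : Fin n} {u w : FF n}
    (hu : u ∈ gam (Av {p}) d) (hw : w ∈ Av {p}) : Commute (φ (lam p u)) (φ (lam p w)) :=
  t4 hK hu hw true true

private theorem ord_mul (hK : HK φ (d + 1)) {p : Fin n} {u v : FF n}
    (hu : u ∈ gam (Av {p}) d) (hv : v ∈ gam (Av {p}) d)
    (h1 : IsOfFinOrder (φ (lam p u))) (h2 : IsOfFinOrder (φ (lam p v))) :
    IsOfFinOrder (φ (lam p (u * v))) := by
  rw [lam_mul (gam_le _ _ hu) (gam_le _ _ hv), map_mul]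
  exact (ord_lam_comm hK hu (gam_le _ _ hv)).isOfFinOrder_mul h1 h2

private theorem ord_inv {p : Fin n} {u : FF n} (hu : u ∈ Av {p})
    (h1 : IsOfFinOrder (φ (lam p u))) : IsOfFinOrder (φ (lam p u⁻¹)) := by
  rw [lam_inv hu, map_inv]
  exact h1.inv

private theorem ord_pow {G : Type*} [Group G] {V t : G} (hc : Commute ⁅V, t⁆ t)
    (ht : IsOfFinOrder t) : IsOfFinOrder ⁅V, t⁆ := by
  obtain ⟨r, hr, hrt⟩ := isOfFinOrder_iff_pow_eq_one.1 ht
  refine isOfFinOrder_iff_pow_eq_one.2 ⟨r, hr, ?_⟩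
  have e : V * t * V⁻¹ = ⁅V, t⁆ * t := by
    rw [commutatorElement_def]
    group
  have h2 : (V * t * V⁻¹) ^ r = ⁅V, t⁆ ^ r * t ^ r := by
    rw [e, hc.mul_pow]
  rw [conj_pow, hrt, mul_one, mul_one, mul_inv_cancel] at h2
  exact h2.symm

theorem ord_gam (hK : HK φ (d + 1)) (ht : ∀ i j : Fin n, i ≠ j → IsOfFinOrder (φ (lam i (xx j))))
    {p : Fin n} {u : FF n} (hu : u ∈ gam (Av {p}) d) : IsOfFinOrder (φ (lam p u)) := by
  have hone : IsOfFinOrder (φ (lam p (1 : FF n))) := by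
    rw [lam_one, map_one]
    exact IsOfFinOrder.one
  cases d with
  | zero =>
    have hu' : u ∈ Subgroup.closure {y : FF n | ∃ j, j ∉ ({p} : Finset (Fin n)) ∧ y = xx j} := hu
    clear hu
    induction hu' using Subgroup.closure_induction with
    | mem x hx =>
      obtain ⟨j, hj, rfl⟩ := hx
      exact ht p j (fun h => hj (by simp [h]))
    | one => exact hone
    | mul x y hx hy h1 h2 => exact ord_mul hK hx hy h1 h2
    | inv x hx h1 => exact ord_inv hx h1
  | succ e =>
    have hu' : u ∈ Subgroup.closure {z : FF n | ∃ v ∈ gam (Av {p}) e, ∃ w ∈ Av {p}, ⁅v, w⁆ = z} :=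
      hu
    clear hu
    induction hu' using Subgroup.closure_induction with
    | mem x hx =>
      obtain ⟨v, hv, w, hw, rfl⟩ := hx
      have hv0 : v ∈ Av {p} := gam_le _ _ hv
      have hmem : ∀ w ∈ Av {p}, ⁅v, w⁆ ∈ gam (Av {p}) (e + 1) := fun w hw =>
        gam_comm (Av {p}) hv (b := 0) hw
      have hw' : w ∈ Subgroup.closure {y : FF n | ∃ j, j ∉ ({p} : Finset (Fin n)) ∧ y = xx j} := hw
      clear hw
      induction hw' using Subgroup.closure_induction with
      | mem x hx =>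
        obtain ⟨j, hj, rfl⟩ := hx
        have hxj : (xx j : FF n) ∈ Av {p} := xx_mem_Av hj
        have e1 : φ (lam p ⁅v, xx j⁆) = ⁅φ (lam p v), φ (lam p (xx j))⁆ := by
          rw [commutatorElement_def, commutatorElement_def,
            lam_mul (mul_mem (mul_mem hv0 hxj) (inv_mem hv0)) (inv_mem hxj),
            lam_mul (mul_mem hv0 hxj) (inv_mem hv0), lam_mul hv0 hxj, lam_inv hv0, lam_inv hxj,
            map_mul, map_mul, map_mul, map_inv, map_inv]
        have hcm := ord_lam_comm hK (hmem _ hxj) hxj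
        rw [e1] at hcm ⊢
        exact ord_pow hcm (ht p j (fun h => hj (by simp [h])))
      | one =>
        rw [commutatorElement_one_right]
        exact hone
      | mul x y hx hy h1 h2 =>
        have hx0 : x ∈ Av {p} := hx
        have hy0 : y ∈ Av {p} := hy
        have e1 : ⁅v, x * y⁆ = ⁅v, x⁆ * (x * ⁅v, y⁆ * x⁻¹) := by
          simp only [commutatorElement_def]
          group
        have hg : x * ⁅v, y⁆ * x⁻¹ ∈ gam (Av {p}) (e + 1) := gam_norm _ _ hx0 (hmem y hy0)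
        have e2 : φ (lam p (x * ⁅v, y⁆ * x⁻¹)) = φ (lam p ⁅v, y⁆) := by
          have hc := ord_lam_comm hK (hmem y hy0) hx0
          rw [lam_mul (mul_mem hx0 (gam_le _ _ (hmem y hy0))) (inv_mem hx0),
            lam_mul hx0 (gam_le _ _ (hmem y hy0)), lam_inv hx0, map_mul, map_mul, map_inv,
            ← hc.eq, mul_inv_cancel_right]
        rw [e1]
        exact ord_mul hK (hmem x hx0) hg h1 (by rw [e2]; exact h2)
      | inv x hx h1 =>
        have hx0 : x ∈ Av {p} := hx
        have e1 : ⁅v, x⁻¹⁆ = x⁻¹ * ⁅v, x⁆⁻¹ * x := by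
          simp only [commutatorElement_def]
          group
        have hm := gam_le _ _ (hmem x hx0)
        have hc := ord_lam_comm hK (hmem x hx0) hx0
        have e2 : φ (lam p (x⁻¹ * ⁅v, x⁆⁻¹ * x)) = (φ (lam p ⁅v, x⁆))⁻¹ := by
          rw [lam_mul (mul_mem (inv_mem hx0) (inv_mem hm)) hx0,
            lam_mul (inv_mem hx0) (inv_mem hm), lam_inv hx0, lam_inv hm, map_mul, map_mul,
            map_inv, map_inv, mul_assoc, hc.inv_left.eq, inv_mul_cancel_left]
        rw [e1, e2]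
        exact h1.inv
    | one => exact hone
    | mul x y hx hy h1 h2 => exact ord_mul hK hx hy h1 h2
    | inv x hx h1 => exact ord_inv (gam_le (Av {p}) (e + 1) hx) h1

end Pool.Agent.Work.MP_d3656f_al.GB
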