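import Mathlib
import Pool.Agent.Work.MP_d3656f_al.GB.Gn
import Pool.Agent.Work.MP_d3656f_al.GB.Nc10
import Pool.Agent.Work.MP_d3656f_al.GB.Mg3

/-!
# GB/Rr1 : the normal closure of `gam d`

`RR φ d` is the normal closure in `M` of all `φ (lam p u)`, `u ∈ gam (Av {p}) d`.
`rr_cen`: Let `Z` be the set of `r` with `Cq φ ⁅r, φ q⁆` for all `q ∈ Qs n`. It is closed under
products and inverses (`⁅r r', q⁆ = r ⁅r', q⁆ r⁻¹ * ⁅r, q⁆`; here `r = φ α` for some `α` by
surjectivity, `cq_conj`) and under conjugation by `φ α` (`Qs n` is normal: `qs_normal`,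
`cq_conj`). So it suffices that `φ (lam p u) ∈ Z` for `u ∈ gam (Av {p}) d`. By `gn` and
`lam_mul`, and since `φ (lam p u) = 1` for `u ∈ gam (Av {p}) (d+1)`, it suffices to take
`u = α (lcom (L.map xx))` with `Pr p α`: then `lam p u = α * lam p (lcom (L.map xx)) * α⁻¹`,
`x_cen`.
`rr_le`: `qs_tr` (`gam d ≤ gam 1` as `d ≥ 1`) and normality of the image of `Qs n`
(`Subgroup.normalClosure_le_normal`; `φ` is surjective).
`rr_cls`: `b = φ q` with `q ∈ Qs n` by `rr_le`, `c = φ q'`.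
-/

set_option autoImplicit false

namespace Pool.Agent.Work.MP_d3656f_al.GB

open scoped commutatorElement

/-- The normal closure of all `φ (lam p u)`, `u ∈ gam (Av {p}) d`. -/
def RR {n : ℕ} {M : Type} [Group M] (φ : MulAut (FF n) →* M) (d : ℕ) : Subgroup M :=
  Subgroup.normalClosure {y | ∃ (p : Fin n) (u : FF n), u ∈ gam (Av {p}) d ∧ y = φ (lam p u)}

variable {n : ℕ} {M : Type} [Group M] {φ : MulAut (FF n) →* M} {d : ℕ}


/-- the elements whose commutators with the image of `Qs n` commute with that image -/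
private def rrZ (hs : Function.Surjective φ) : Subgroup M where
  carrier := {r | ∀ q ∈ Qs n, Cq φ ⁅r, φ q⁆}
  mul_mem' := by
    intro r r' hr hr' q hq
    obtain ⟨α, rfl⟩ := hs r
    have h : ⁅φ α * r', φ q⁆ = φ α * ⁅r', φ q⁆ * (φ α)⁻¹ * ⁅φ α, φ q⁆ := by
      simp only [commutatorElement_def]
      group
    rw [h]
    exact cq_mul (cq_conj (qs_normal n) (hr' q hq) α) (hr q hq)
  one_mem' := by
    intro q _
    rw [commutatorElement_one_left]
    exact cq_one
  inv_mem' := by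
    intro r hr q hq
    obtain ⟨α, rfl⟩ := hs r
    have h : ⁅(φ α)⁻¹, φ q⁆ = (φ α)⁻¹ * ⁅φ α, φ q⁆⁻¹ * φ α := by
      simp only [commutatorElement_def]
      group
    rw [h]
    exact cq_conj' (qs_normal n) (cq_inv (hr q hq)) α

private theorem rrZ_mem (hs : Function.Surjective φ) {r : M} :
    r ∈ rrZ hs ↔ ∀ q ∈ Qs n, Cq φ ⁅r, φ q⁆ := Iff.rfl

private theorem rrZ_conj (hs : Function.Surjective φ) {r : M} (hr : r ∈ rrZ hs) (g : M) :
    g * r * g⁻¹ ∈ rrZ hs := by
  intro q hq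
  obtain ⟨α, rfl⟩ := hs g
  have h1 : α⁻¹ * q * α ∈ Qs n := by
    have := (qs_normal n).conj_mem q hq α⁻¹
    rwa [inv_inv] at this
  have h : ⁅φ α * r * (φ α)⁻¹, φ q⁆ = φ α * ⁅r, φ (α⁻¹ * q * α)⁆ * (φ α)⁻¹ := by
    simp only [commutatorElement_def, map_mul, map_inv]
    group
  rw [h]
  exact cq_conj (qs_normal n) (hr _ h1) α

private theorem rrZ_normal (hs : Function.Surjective φ) : (rrZ hs).Normal :=
  ⟨fun _ hr g => rrZ_conj hs hr g⟩

/-- the words `u` with `φ (lam p u)` in `rrZ` -/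
private def rrU (hs : Function.Surjective φ) (p : Fin n) : Subgroup (FF n) where
  carrier := {u | u ∈ Av {p} ∧ φ (lam p u) ∈ rrZ hs}
  mul_mem' := by
    rintro u v ⟨hu, hu'⟩ ⟨hv, hv'⟩
    refine ⟨mul_mem hu hv, ?_⟩
    rw [lam_mul hu hv, map_mul]
    exact mul_mem hu' hv'
  one_mem' := by
    refine ⟨one_mem _, ?_⟩
    rw [lam_one, map_one]
    exact one_mem _
  inv_mem' := by
    rintro u ⟨hu, hu'⟩
    refine ⟨inv_mem hu, ?_⟩
    rw [lam_inv hu, map_inv]
    exact inv_mem hu'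

private theorem rr_gen (hs : Function.Surjective φ) (hK : HK φ (d + 1)) (hd : 1 ≤ d)
    (hn : d + 7 ≤ n) {p : Fin n} {u : FF n} (hu : u ∈ gam (Av {p}) d) : φ (lam p u) ∈ rrZ hs := by
  have hle : gam (Av {p}) d ≤ rrU hs p := by
    refine (gn (by omega)).trans (sup_le ?_ ?_)
    · refine (Subgroup.closure_le _).2 ?_
      rintro _ ⟨α, L, hα, hL, hlen, hp, rfl⟩
      have hw : lcom (L.map xx) ∈ Av {p} := by
        refine gam_le _ _ (lcom_mem (l := L.map xx) ?_)
        intro y hy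
        obtain ⟨j, hj, rfl⟩ := List.mem_map.1 hy
        refine xx_mem_Av ?_
        rw [Finset.mem_singleton]
        exact fun h => hp (h ▸ hj)
      refine ⟨hα.map _ hw, ?_⟩
      rw [← lam_conj hα hw, map_mul, map_mul, map_inv]
      refine rrZ_conj hs ?_ _
      intro q hq
      exact x_cen (qs_normal n) hK hd hn hL hlen hp hq
    · intro v hv
      refine ⟨gam_le _ _ hv, ?_⟩
      have h := hK true p v hv
      rw [tr_true] at h
      rw [h]
      exact one_mem _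
  exact (hle hu).2

theorem rr_cen (hs : Function.Surjective φ) (hK : HK φ (d + 1)) (hd : 1 ≤ d) (hn : d + 7 ≤ n)
    {r : M} (hr : r ∈ RR φ d) {q : MulAut (FF n)} (hq : q ∈ Qs n) : Cq φ ⁅r, φ q⁆ := by
  haveI := rrZ_normal hs
  have hle : RR φ d ≤ rrZ hs := by
    refine Subgroup.normalClosure_le_normal ?_
    rintro _ ⟨p, u, hu, rfl⟩
    exact rr_gen hs hK hd hn hu
  exact hle hr q hq

theorem rr_le (hs : Function.Surjective φ) (hd : 1 ≤ d) : RR φ d ≤ (Qs n).map φ := by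
  haveI : ((Qs n).map φ).Normal := (qs_normal n).map φ hs
  refine Subgroup.normalClosure_le_normal ?_
  rintro _ ⟨p, u, hu, rfl⟩
  rw [← tr_true]
  exact Subgroup.mem_map_of_mem φ (qs_tr true (gam_anti _ hd hu))

theorem rr_cls (hs : Function.Surjective φ) (hK : HK φ (d + 1)) (hd : 1 ≤ d) (hn : d + 7 ≤ n)
    {a b c : M} (ha : a ∈ RR φ d) (hb : b ∈ RR φ d) (hc : c ∈ RR φ d) :
    Commute ⁅a, b⁆ c := by
  obtain ⟨q, hq, rfl⟩ := rr_le hs hd hb
  obtain ⟨q', hq', rfl⟩ := rr_le hs hd hc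
  exact rr_cen hs hK hd hn ha hq q' hq'

end Pool.Agent.Work.MP_d3656f_al.GB
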