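import Mathlib
import Pool.Agent.Work.MP_d3656f_al.GB.Rr1
import Pool.Agent.Work.MP_d3656f_al.GB.Ord
import Pool.Agent.Work.MP_d3656f_al.GB.Nil2
import Pool.Agent.Work.MP_d3656f_al.GB.Bs5

/-!
# GB/Nind : the nilpotency theorem

Induction on `d`, for all `M` and `φ`. `d = 0`: `base2`. `d ≥ 1`, `d + 7 ≤ n`: let `R = RR φ d`
(normal), `ψ = (QuotientGroup.mk' R).comp φ`. `HK ψ d`: for `b = true` by definition of `R`; for
`b = false`, `rho i w = flp i * lam i w * (flp i)⁻¹` (`flp_lam`). The images of the transvections have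
finite order. By the induction hypothesis for `d - 1` (`d - 1 = 0` or `d - 1 + 7 ≤ n`) `M ⧸ R` is
finite. `M` is finitely generated (`nielsen`, `El n` is finite: `elf`), so `R` is finitely
generated (`Subgroup.fg_of_index_ne_zero` or similar). As a group `R` is generated by the conjugates of the
`φ (lam p u)`, which have finite order (`ord_gam`); commutators in `R` are central in `R`
(`rr_cls`). `nil2_fin`: `R` is finite, so `M` is finite.
`elf`: the map `α ↦ (α (xx i))_i` is injective (`aut_ext`) and takes finitely many values on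
`El n`.
-/

set_option autoImplicit false

namespace Pool.Agent.Work.MP_d3656f_al.GB

open scoped commutatorElement

theorem elf (n : ℕ) : (El n).Finite := by
  have hT : (Set.range (fun q : Fin n × Fin n => (xx q.2 : FF n)⁻¹ * xx q.1) ∪
      (Set.range (fun j : Fin n => (xx j : FF n)⁻¹) ∪
        Set.range (fun j : Fin n => (xx j : FF n)))).Finite :=
    (Set.finite_range _).union ((Set.finite_range _).union (Set.finite_range _))
  refine Set.Finite.of_injOn (f := fun (α : MulAut (FF n)) (i : Fin n) => α (xx i))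
    (t := {f | ∀ i, f i ∈ (Set.range (fun q : Fin n × Fin n => (xx q.2 : FF n)⁻¹ * xx q.1) ∪
      (Set.range (fun j : Fin n => (xx j : FF n)⁻¹) ∪
        Set.range (fun j : Fin n => (xx j : FF n))))}) ?_ ?_ (Set.Finite.pi' fun _ => hT)
  · intro α hα k
    rcases hα with ⟨σ, hσ⟩ | ⟨i, h1, h2⟩ | ⟨i, j, _, h1, h2⟩
    · exact Or.inr (Or.inr ⟨σ k, (hσ k).symm⟩)
    · by_cases h : k = i
      · subst h
        exact Or.inr (Or.inl ⟨k, h1.symm⟩)
      · exact Or.inr (Or.inr ⟨k, (h2 k h).symm⟩)
    · by_cases h : k = i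
      · subst h
        exact Or.inl ⟨(k, j), h1.symm⟩
      · exact Or.inr (Or.inr ⟨k, (h2 k h).symm⟩)
  · intro α _ β _ h
    exact aut_ext fun j => congrFun h j

theorem nil_fin {n : ℕ} (hn : 4 ≤ n) (d : ℕ) (hd : d = 0 ∨ d + 7 ≤ n) {M : Type} [Group M]
    (φ : MulAut (FF n) →* M) (hs : Function.Surjective φ)
    (ht : ∀ i j : Fin n, i ≠ j → IsOfFinOrder (φ (lam i (xx j)))) (hK : HK φ (d + 1)) :
    Finite M := by
  induction d generalizing M with
  | zero => exact base2 hn φ hs ht hK
  | succ k ih =>
    have hn7 : (k + 1) + 7 ≤ n := by omega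
    have hd1 : 1 ≤ k + 1 := by omega
    -- the quotient is finite
    have hRn : (RR φ (k + 1)).Normal := Subgroup.normalClosure_normal
    have hq : Finite (M ⧸ RR φ (k + 1)) := by
      refine ih (by omega) ((QuotientGroup.mk' (RR φ (k + 1))).comp φ)
        ((QuotientGroup.mk'_surjective _).comp hs) (fun i j hij => ?_) ?_
      · exact MonoidHom.isOfFinOrder (QuotientGroup.mk' (RR φ (k + 1))) (ht i j hij)
      · intro b i w hw
        rw [MonoidHom.comp_apply, QuotientGroup.mk'_apply, QuotientGroup.eq_one_iff]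
        have h1 : φ (lam i w) ∈ RR φ (k + 1) := Subgroup.subset_normalClosure ⟨i, w, hw, rfl⟩
        cases b
        · rw [tr_false, ← flp_lam (gam_le _ _ hw), map_mul, map_mul, map_inv]
          exact hRn.conj_mem _ h1 _
        · exact h1
    -- finite generation
    have hA : Group.FG (MulAut (FF n)) := Group.fg_iff.mpr ⟨El n, nielsen n, elf n⟩
    have hM : Group.FG M := Group.fg_of_surjective hs
    have hfi : (RR φ (k + 1)).FiniteIndex := Subgroup.finiteIndex_of_finite_quotient
    have hR : Group.FG (RR φ (k + 1)) := Subgroup.fg_of_index_ne_zero _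
    have hfin : Finite (RR φ (k + 1)) := by
      refine nil2_fin hR (((↑) : RR φ (k + 1) → M) ⁻¹' (Group.conjugatesOfSet
        {y | ∃ (p : Fin n) (u : FF n), u ∈ gam (Av {p}) (k + 1) ∧ y = φ (lam p u)}))
        Subgroup.closure_closure_coe_preimage ?_ ?_
      · intro s hs'
        rw [Set.mem_preimage, Group.mem_conjugatesOfSet_iff] at hs'
        obtain ⟨a, ⟨p, u, hu, rfl⟩, hc⟩ := hs'
        obtain ⟨c, hc⟩ := isConj_iff.mp hc
        rw [← (RR φ (k + 1)).subtype_injective.isOfFinOrder_iff, Subgroup.subtype_apply, ← hc]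
        exact MonoidHom.isOfFinOrder (MulAut.conj c).toMonoidHom (ord_gam hK ht hu)
      · intro a b c
        have h := rr_cls hs hK hd1 hn7 a.2 b.2 c.2
        exact Subtype.ext h.eq
    exact Finite.of_equiv _ (Subgroup.groupEquivQuotientProdSubgroup (s := RR φ (k + 1))).symm

end Pool.Agent.Work.MP_d3656f_al.GB
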