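import Mathlib

/-!
# GB/NlA : common initial segments in free groups

`cp g h` is the length of the longest common initial segment of the reduced words of `g` and `h`.
-/

set_option autoImplicit false

namespace Pool.Agent.Work.MP_d3656f_al.GB

section lists

variable {β : Type*} [DecidableEq β]

/-- The length of the longest common initial segment. -/
def lcp : List β → List β → ℕ
  | a :: l, b :: m => if a = b then lcp l m + 1 else 0
  | _, _ => 0

theorem le_lcp_iff (k : ℕ) (l m : List β) :
    k ≤ lcp l m ↔ k ≤ l.length ∧ k ≤ m.length ∧ l.take k = m.take k := by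
  induction l generalizing k m with
  | nil => 
    cases k <;> simp [lcp]
  | cons a l ih =>
    cases m with
    | nil => cases k <;> simp [lcp]
    | cons b m =>
      cases k with
      | zero => simp
      | succ k =>
        by_cases h : a = b
        · simp [lcp, h, ih]
        · simp [lcp, h]

theorem lcp_comm (l m : List β) : lcp l m = lcp m l := by
  apply le_antisymm
  · have h := (le_lcp_iff _ l m).1 le_rfl
    exact (le_lcp_iff _ m l).2 ⟨h.2.1, h.1, h.2.2.symm⟩
  · have h := (le_lcp_iff _ m l).1 le_rfl
    exact (le_lcp_iff _ l m).2 ⟨h.2.1, h.1, h.2.2.symm⟩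

theorem lcp_ultra (l k m : List β) : min (lcp l k) (lcp k m) ≤ lcp l m := by
  have h1 := (le_lcp_iff (min (lcp l k) (lcp k m)) l k).1 (min_le_left _ _)
  have h2 := (le_lcp_iff (min (lcp l k) (lcp k m)) k m).1 (min_le_right _ _)
  exact (le_lcp_iff _ l m).2 ⟨h1.1, h2.2.1, h1.2.2.trans h2.2.2⟩

theorem lcp_head (l m : List β) : ∀ a ∈ (l.drop (lcp l m)).head?, ∀ b ∈ (m.drop (lcp l m)).head?,
    a ≠ b := by
  induction l generalizing m with
  | nil => simp
  | cons a l ih =>
    cases m with
    | nil => simp
    | cons b m =>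
      by_cases h : a = b
      · simpa [lcp, h] using ih m
      · simp [lcp, h]

end lists

section free

private theorem bool_aux (p q : Bool) (h : ¬ (!p) = q) : p = q := by
  revert h
  cases p <;> cases q <;> simp

variable {α : Type*} [DecidableEq α]

open FreeGroup

/-- The length of the longest common initial segment of the reduced words. -/
def cp (g h : FreeGroup α) : ℕ := lcp g.toWord h.toWord

theorem cp_comm (g h : FreeGroup α) : cp g h = cp h g := lcp_comm _ _

theorem cp_ultra (g k h : FreeGroup α) : min (cp g k) (cp k h) ≤ cp g h := lcp_ultra _ _ _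

theorem cp_le_left (g h : FreeGroup α) : cp g h ≤ norm g := ((le_lcp_iff _ _ _).1 le_rfl).1

theorem norm_mk_of_reduced {L : List (α × Bool)} (h : IsReduced L) : norm (mk L) = L.length := by
  rw [FreeGroup.norm, toWord_mk, h.reduce_eq]

theorem isReduced_invRev {L : List (α × Bool)} (h : IsReduced L) : IsReduced (invRev L) := by
  rw [isReduced_iff_reduce_eq, reduce_invRev, h.reduce_eq]

theorem norm_cp (g h : FreeGroup α) : norm (g⁻¹ * h) + 2 * cp g h = norm g + norm h := by
  have hc := (le_lcp_iff (cp g h) g.toWord h.toWord).1 le_rfl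
  obtain ⟨c, hcc⟩ : ∃ c, c = cp g h := ⟨_, rfl⟩
  rw [← hcc] at hc
  have hg : g.toWord = g.toWord.take c ++ g.toWord.drop c := (List.take_append_drop c _).symm
  have hh : h.toWord = g.toWord.take c ++ h.toWord.drop c := by
    rw [hc.2.2]
    exact (List.take_append_drop c _).symm
  obtain ⟨P, hP⟩ : ∃ P, P = g.toWord.take c := ⟨_, rfl⟩
  obtain ⟨A, hA⟩ : ∃ A, A = g.toWord.drop c := ⟨_, rfl⟩
  obtain ⟨B, hB⟩ : ∃ B, B = h.toWord.drop c := ⟨_, rfl⟩
  rw [← hP, ← hA] at hg
  rw [← hP, ← hB] at hh
  have hAr : IsReduced A := by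
    have hq := isReduced_toWord (x := g)
    rw [hg] at hq
    exact List.IsChain.right_of_append hq
  have hBr : IsReduced B := by
    have hq := isReduced_toWord (x := h)
    rw [hh] at hq
    exact List.IsChain.right_of_append hq
  have hred : IsReduced (invRev A ++ B) := by
    unfold FreeGroup.IsReduced
    rw [List.isChain_append]
    refine ⟨isReduced_invRev hAr, hBr, ?_⟩
    intro x hx y hy
    have hne := lcp_head g.toWord h.toWord
    have hcc' : lcp g.toWord h.toWord = c := hcc.symm
    rw [hcc', ← hA, ← hB] at hne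
    have hx' : ∃ a ∈ A.head?, x = (a.1, !a.2) := by
      cases A with
      | nil => simp [invRev] at hx
      | cons a A' =>
        refine ⟨a, rfl, ?_⟩
        simp [invRev] at hx
        exact hx.symm
    obtain ⟨a, ha, rfl⟩ := hx'
    have h1 := hne a ha y hy
    intro h2
    simp only at h2 ⊢
    by_contra h3
    apply h1
    ext
    · exact h2
    · exact bool_aux _ _ h3
  have h1 : g⁻¹ * h = mk (invRev A ++ B) := by
    have e1 : g = mk P * mk A := by
      rw [mul_mk, ← hg, mk_toWord]
    have e2 : h = mk P * mk B := by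
      rw [mul_mk, ← hh, mk_toWord]
    rw [← mul_mk, ← inv_mk, e1, e2]
    group
  rw [h1, norm_mk_of_reduced hred]
  have h2 : norm g = c + A.length := by
    rw [FreeGroup.norm, hg, List.length_append, hP, List.length_take, min_eq_left hc.1]
  have h3 : norm h = c + B.length := by
    rw [FreeGroup.norm, hh, List.length_append, hP, List.length_take, min_eq_left hc.1]
  rw [h2, h3, List.length_append, invRev_length, ← hcc]
  ring

/-- The length of a product. -/
theorem norm_mul_cp (g h : FreeGroup α) : norm (g * h) + 2 * cp g⁻¹ h = norm g + norm h := by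
  have := norm_cp g⁻¹ h
  rwa [inv_inv, norm_inv_eq] at this

theorem cp_mul (g h : FreeGroup α) : cp g (g * h) + cp g⁻¹ h = norm g := by
  have h1 := norm_cp g (g * h)
  rw [inv_mul_cancel_left] at h1
  have h2 := norm_mul_cp g h
  omega

theorem norm_sq (g : FreeGroup α) (hg : g ≠ 1) : norm g < norm (g * g) := by
  have h1 := reduceCyclically.reduce_flatten_replicate_succ (isReduced_toWord (x := g)) 1
  have h2 := reduceCyclically.conj_conjugator_reduceCyclically g.toWord
  obtain ⟨C, hC⟩ : ∃ C, C = reduceCyclically.conjugator g.toWord := ⟨_, rfl⟩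
  obtain ⟨R, hR⟩ : ∃ R, R = reduceCyclically g.toWord := ⟨_, rfl⟩
  rw [← hC, ← hR] at h1 h2
  have h3 : norm (g * g) = (C ++ (List.replicate 2 R).flatten ++ invRev C).length := by
    rw [FreeGroup.norm, toWord_mul, ← h1]
    simp [List.replicate]
  have h4 : norm g = (C ++ R ++ invRev C).length := by
    rw [h2, FreeGroup.norm]
  have h5 : R ≠ [] := by
    intro h0
    apply hg
    rw [h0, List.append_nil] at h2
    rw [← mk_toWord (x := g), ← h2, ← mul_mk, ← inv_mk]
    group
  have h6 : 0 < R.length := List.length_pos_iff.2 h5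
  rw [h3, h4]
  simp [List.replicate]
  omega

end free

end Pool.Agent.Work.MP_d3656f_al.GB
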