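import Pool.Agent.Work.MP_d3656f_al.GB.NlA

/-!
# GB/NlB : length of products of Nielsen reduced elements
-/

set_option autoImplicit false

namespace Pool.Agent.Work.MP_d3656f_al.GB

open FreeGroup

variable {α : Type*} [DecidableEq α]

/-- The Nielsen conditions. -/
structure NRed (U : Set (FreeGroup α)) : Prop where
  n0 : ∀ v ∈ U, v ≠ 1
  n1 : ∀ v ∈ U, ∀ w ∈ U, v * w ≠ 1 →
    2 * cp v⁻¹ w ≤ norm v ∧ 2 * cp v⁻¹ w ≤ norm w
  n2 : ∀ v ∈ U, ∀ w ∈ U, ∀ z ∈ U, v * w ≠ 1 → w * z ≠ 1 →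
    cp v⁻¹ w + cp w⁻¹ z < norm w

theorem nred_prod {U : Set (FreeGroup α)} (hU : NRed U) (v : FreeGroup α)
    (l : List (FreeGroup α)) (h : ∀ x ∈ v :: l, x ∈ U)
    (hc : (v :: l).IsChain (fun a b => a * b ≠ 1)) :
    l.length + 1 ≤ norm (v :: l).prod ∧ ∀ z ∈ U, z * v ≠ 1 →
      cp z⁻¹ (v :: l).prod = cp z⁻¹ v ∧ l.length + 1 + cp z⁻¹ v ≤ norm (v :: l).prod := by
  induction l generalizing v with
  | nil =>
    have hv : v ∈ U := h v (by simp)
    have h1 : 0 < norm v := by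
      rw [Nat.pos_iff_ne_zero]
      intro h0
      exact hU.n0 v hv (norm_eq_zero.1 h0)
    simp only [List.prod_cons, List.prod_nil, mul_one, List.length_nil, zero_add]
    refine ⟨h1, fun z hz hzv => ⟨by trivial, ?_⟩⟩
    have h2 := (hU.n1 z hz v hv hzv).2
    omega
  | cons w l ih =>
    have hv : v ∈ U := h v (by simp)
    have hw : w ∈ U := h w (by simp)
    rw [List.isChain_cons_cons] at hc
    obtain ⟨i1, i2⟩ := ih w (fun x hx => h x (by simp at hx ⊢; tauto)) hc.2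
    obtain ⟨i3, i4⟩ := i2 v hv hc.1
    obtain ⟨W, hW⟩ : ∃ W, W = (w :: l).prod := ⟨_, rfl⟩
    have e : (v :: w :: l).prod = v * W := by rw [hW]; simp
    rw [← hW] at i1 i3 i4
    rw [e]
    have h1 := norm_mul_cp v W
    have h2 := (hU.n1 v hv w hw hc.1).1
    have h3 : 0 < norm v := by
      rw [Nat.pos_iff_ne_zero]
      intro h0
      exact hU.n0 v hv (norm_eq_zero.1 h0)
    have h4 := cp_mul v W
    rw [i3] at h1 h4
    simp only [List.length_cons]
    refine ⟨by omega, fun z hz hzv => ?_⟩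
    have h5 := hU.n2 z hz v hv w hw hzv hc.1
    have h6 := cp_ultra z⁻¹ v (v * W)
    have h7 := cp_ultra z⁻¹ (v * W) v
    rw [cp_comm (v * W) v] at h7
    have h8 : cp z⁻¹ (v * W) = cp z⁻¹ v := by omega
    exact ⟨h8, by omega⟩

end Pool.Agent.Work.MP_d3656f_al.GB
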