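import Pool.Agent.Work.MP_d3656f_al.GB.NlB

/-!
# GB/NlC : minimal tuples are Nielsen reduced
-/

set_option autoImplicit false

namespace Pool.Agent.Work.MP_d3656f_al.GB

open FreeGroup

variable {n : ℕ}

/-- The digit of a letter. -/
def encl (a : Fin n × Bool) : ℕ := 2 * (a.1 : ℕ) + (if a.2 then 1 else 0)

theorem encl_lt (a : Fin n × Bool) : encl a < 2 * n + 2 := by
  have := a.1.2
  unfold encl
  split_ifs <;> omega

theorem encl_inj : Function.Injective (encl (n := n)) := by
  intro a b h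
  unfold encl at h
  ext
  · split_ifs at h <;> omega
  · cases h1 : a.2 <;> cases h2 : b.2 <;> simp [h1, h2] at h ⊢ <;> omega

/-- The code of a word. -/
def code (l : List (Fin n × Bool)) : ℕ := Nat.ofDigits (2 * n + 2) (l.map encl)

theorem code_append (l m : List (Fin n × Bool)) :
    code (l ++ m) = code l + (2 * n + 2) ^ l.length * code m := by
  unfold code
  rw [List.map_append, Nat.ofDigits_append, List.length_map]

theorem code_inj {l m : List (Fin n × Bool)} (hl : l.length = m.length) (h : code l = code m) :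
    l = m := by
  have h1 := Nat.ofDigits_inj_of_len_eq (b := 2 * n + 2) (by omega)
    (L1 := l.map encl) (L2 := m.map encl) (by simpa using hl)
    (by
      intro x hx
      obtain ⟨a, -, rfl⟩ := List.mem_map.1 hx
      exact encl_lt a)
    (by
      intro x hx
      obtain ⟨a, -, rfl⟩ := List.mem_map.1 hx
      exact encl_lt a) h
  exact List.map_injective_iff.2 encl_inj h1

/-- The weight of an element. -/
def hwt (g : FreeGroup (Fin n)) : ℕ :=
  code (g.toWord.take ((norm g + 1) / 2)) + code (g⁻¹.toWord.take ((norm g + 1) / 2))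

theorem hwt_inv (g : FreeGroup (Fin n)) : hwt g⁻¹ = hwt g := by
  unfold hwt
  rw [norm_inv_eq, inv_inv, add_comm]

theorem hwt_lt {v v' : FreeGroup (Fin n)} {P Q B : List (Fin n × Bool)} (hv : v.toWord = Q ++ B)
    (hv' : v'.toWord = P ++ B) (hl : P.length = Q.length) (hB : Q.length ≤ B.length)
    (hc : code P < code Q) : hwt v' < hwt v := by
  have h1 : norm v = Q.length + B.length := by
    rw [FreeGroup.norm, hv, List.length_append]
  have h2 : norm v' = Q.length + B.length := by
    rw [FreeGroup.norm, hv', List.length_append, hl]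
  obtain ⟨k, hk⟩ : ∃ k, k = (Q.length + B.length + 1) / 2 := ⟨_, rfl⟩
  unfold hwt
  rw [h1, h2, ← hk]
  have e1 : v.toWord.take k = Q ++ B.take (k - Q.length) := by
    rw [hv, List.take_append, List.take_of_length_le (by omega)]
  have e2 : v'.toWord.take k = P ++ B.take (k - Q.length) := by
    rw [hv', List.take_append, List.take_of_length_le (by omega), hl]
  have e3 : v⁻¹.toWord.take k = (invRev B).take k := by
    rw [toWord_inv, hv]
    have : invRev (Q ++ B) = invRev B ++ invRev Q := by simp [invRev]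
    rw [this, List.take_append_of_le_length (by rw [invRev_length]; omega)]
  have e4 : v'⁻¹.toWord.take k = (invRev B).take k := by
    rw [toWord_inv, hv']
    have : invRev (P ++ B) = invRev B ++ invRev P := by simp [invRev]
    rw [this, List.take_append_of_le_length (by rw [invRev_length]; omega)]
  rw [e1, e2, e3, e4, code_append, code_append, hl]
  omega

/-- Minimal tuples. -/
structure NMin (u : Fin n → FreeGroup (Fin n)) : Prop where
  ne : ∀ i, u i ≠ 1
  len : ∀ i j, i ≠ j → ∀ v w, (v = u i ∨ v = (u i)⁻¹) → (w = u j ∨ w = (u j)⁻¹) →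
    norm v ≤ norm (w * v)
  wt : ∀ i j, i ≠ j → ∀ v w, (v = u i ∨ v = (u i)⁻¹) → (w = u j ∨ w = (u j)⁻¹) →
    norm (w * v) = norm v → hwt v ≤ hwt (w * v)

/-- The set of the elements of the tuple and their inverses. -/
def Us (u : Fin n → FreeGroup (Fin n)) : Set (FreeGroup (Fin n)) :=
  {v | ∃ i, v = u i ∨ v = (u i)⁻¹}

theorem Us_inv {u : Fin n → FreeGroup (Fin n)} {v : FreeGroup (Fin n)} (h : v ∈ Us u) :
    v⁻¹ ∈ Us u := by
  obtain ⟨i, rfl | rfl⟩ := h
  · exact ⟨i, Or.inr rfl⟩
  · exact ⟨i, Or.inl (by simp)⟩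

theorem toWord_of_norm {L : List (Fin n × Bool)} (h : norm (mk L) = L.length) :
    (mk L).toWord = L := by
  rw [toWord_mk]
  refine List.Sublist.eq_of_length (reduce.red (L := L)).sublist ?_
  rw [FreeGroup.norm, toWord_mk] at h
  exact h

theorem Us_cases {u : Fin n → FreeGroup (Fin n)} {w z : FreeGroup (Fin n)} (hw : w ∈ Us u)
    (hz : z ∈ Us u) (hwz : w * z ≠ 1) : w = z ∨ ∃ i j, i ≠ j ∧ (z = u i ∨ z = (u i)⁻¹) ∧
      (w = u j ∨ w = (u j)⁻¹) := by
  obtain ⟨j, hj⟩ := hw
  obtain ⟨i, hi⟩ := hz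
  by_cases hij : i = j
  · subst hij
    left
    rcases hj with rfl | rfl <;> rcases hi with rfl | rfl <;> simp at hwz ⊢
  · exact Or.inr ⟨i, j, hij, hi, hj⟩

private theorem nl_half {u : Fin n → FreeGroup (Fin n)} (hu : NMin u)
    {w z : FreeGroup (Fin n)} (hw : w ∈ Us u) (hz : z ∈ Us u) (hwz : w * z ≠ 1)
    {P Q B : List (Fin n × Bool)} (hP : w.toWord = P ++ invRev Q) (hQ : z.toWord = Q ++ B)
    (hl : P.length = Q.length) (hB : Q.length ≤ B.length) (hne : P ≠ Q)
    (hn : norm (w * z) = norm z) : ¬ code P < code Q := by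
  intro hc
  have h1 : w * z = mk (P ++ B) := by
    rw [← mk_toWord (x := w), ← mk_toWord (x := z), hP, hQ, ← mul_mk, ← mul_mk, ← mul_mk,
      ← inv_mk]
    group
  have h2 : (w * z).toWord = P ++ B := by
    rw [h1]
    apply toWord_of_norm
    rw [← h1, hn, FreeGroup.norm, hQ, List.length_append, List.length_append, hl]
  have h3 := hwt_lt hQ h2 hl hB hc
  rcases Us_cases hw hz hwz with h4 | ⟨i, j, hij, hi, hj⟩
  · apply hne
    have h5 : P ++ invRev Q = Q ++ B := by rw [← hP, ← hQ, h4]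
    exact List.append_inj_left h5 hl
  · exact absurd (hu.wt i j hij z w hi hj hn) (not_le.2 h3)

theorem nred_of_nmin {u : Fin n → FreeGroup (Fin n)} (hu : NMin u) : NRed (Us u) := by
  have n0 : ∀ v ∈ Us u, v ≠ 1 := by
    rintro v ⟨i, rfl | rfl⟩
    · exact hu.ne i
    · exact inv_ne_one.2 (hu.ne i)
  have n1 : ∀ v ∈ Us u, ∀ w ∈ Us u, v * w ≠ 1 →
      2 * cp v⁻¹ w ≤ norm v ∧ 2 * cp v⁻¹ w ≤ norm w := by
    intro v hv w hw hvw
    have h1 := norm_mul_cp v w
    rcases Us_cases hv hw hvw with h2 | ⟨i, j, hij, hi, hj⟩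
    · subst h2
      have h3 := norm_sq v (n0 v hv)
      omega
    · have h3 := hu.len i j hij w v hi hj
      have h4 := hu.len j i (Ne.symm hij) v⁻¹ w⁻¹ (by
        rcases hj with rfl | rfl
        · exact Or.inr rfl
        · exact Or.inl (by simp)) (by
        rcases hi with rfl | rfl
        · exact Or.inr rfl
        · exact Or.inl (by simp))
      rw [← mul_inv_rev, norm_inv_eq, norm_inv_eq] at h4
      omega
  refine ⟨n0, n1, ?_⟩
  intro v hv w hw z hz hvw hwz
  by_contra hcon
  obtain ⟨a1, a2⟩ := n1 v hv w hw hvw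
  obtain ⟨a3, a4⟩ := n1 w hw z hz hwz
  obtain ⟨γ, hγ⟩ : ∃ γ, γ = cp v⁻¹ w := ⟨_, rfl⟩
  have b1 : cp w⁻¹ z = γ := by omega
  have b2 : norm w = 2 * γ := by omega
  have c1 := (le_lcp_iff γ v⁻¹.toWord w.toWord).1 hγ.le
  have c2 := (le_lcp_iff γ w⁻¹.toWord z.toWord).1 b1.ge
  obtain ⟨P, hPd⟩ : ∃ P, P = w.toWord.take γ := ⟨_, rfl⟩
  obtain ⟨Q, hQd⟩ : ∃ Q, Q = z.toWord.take γ := ⟨_, rfl⟩
  have lw : w.toWord.length = 2 * γ := b2
  have lP : P.length = γ := by rw [hPd, List.length_take]; omega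
  have lQ : Q.length = γ := by rw [hQd, List.length_take]; omega
  have d1 : w.toWord = P ++ invRev Q := by
    have e1 : Q = invRev (w.toWord.drop γ) := by
      rw [hQd, ← c2.2.2, toWord_inv]
      unfold invRev
      rw [List.take_reverse, List.length_map, lw, List.map_drop]
      congr 2
      omega
    rw [e1, invRev_invRev, hPd, List.take_append_drop]
  have d2 : w⁻¹.toWord = Q ++ invRev P := by
    rw [toWord_inv, d1]
    have : invRev (P ++ invRev Q) = invRev (invRev Q) ++ invRev P := by simp [invRev]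
    rw [this, invRev_invRev]
  have d3 : z.toWord = Q ++ z.toWord.drop γ := by rw [hQd, List.take_append_drop]
  have d4 : v⁻¹.toWord = P ++ v⁻¹.toWord.drop γ := by
    rw [hPd, ← c1.2.2, List.take_append_drop]
  have f1 := norm_mul_cp v w
  have f2 := norm_mul_cp w z
  have f3 : norm (w⁻¹ * v⁻¹) = norm v⁻¹ := by
    rw [← mul_inv_rev, norm_inv_eq, norm_inv_eq]
    omega
  have hne : P ≠ Q := by
    intro h0
    apply n0 w hw
    rw [← mk_toWord (x := w), d1, h0, ← mul_mk, ← inv_mk, mul_inv_cancel]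
  have lz : z.toWord.length = norm z := rfl
  have lv : v⁻¹.toWord.length = norm v := by
    rw [← norm_inv_eq (x := v)]
    rfl
  have g1 := nl_half hu hw hz hwz d1 d3 (lP.trans lQ.symm) (by rw [List.length_drop]; omega) hne
    (by omega)
  have g2 := nl_half hu (Us_inv hw) (Us_inv hv) (by
    rw [← mul_inv_rev]
    exact inv_ne_one.2 hvw) d2 d4 (lQ.trans lP.symm) (by rw [List.length_drop]; omega)
    hne.symm f3
  exact hne (code_inj (lP.trans lQ.symm) (le_antisymm (not_lt.1 g2) (not_lt.1 g1)))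

end Pool.Agent.Work.MP_d3656f_al.GB
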