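import Mathlib
import Pool.Agent.Work.MP_d3656f_al.GB.DefsC
import Pool.Agent.Work.MP_d3656f_al.GB.Ga1

/-!
# GB/Up0 : symmetry

* `pm_Av`: `aut_mem`. `pm_tr`: `aut_ext`; `pm σ` maps `xx j` to `xx (σ j)` and its inverse is
  `pm σ⁻¹` (check on the basis).
* `pm_gam`: `gam_map` (`gam` of the image subgroup) and `pm_Av` for `σ` and `σ⁻¹`.
* `pr_pm`: `pr_of_gens`.
* `hk_one`: let `b' = b`: for an index `i'` take `σ = swap i i'`; `w ∈ gam (Av {i'}) e` gives
  `pm σ w ∈ gam (Av {i}) e` and `tr b i' w = (pm σ)⁻¹ * tr b i (pm σ w) * pm σ`, so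
  `φ (tr b i' w) = 1`. For `b' = !b` conjugate by `flp i'` (`flp_lam`, `flp_rho`).
-/

set_option autoImplicit false

namespace Pool.Agent.Work.MP_d3656f_al.GB

open scoped commutatorElement

private theorem up0_ai {n : ℕ} (σ : Equiv.Perm (Fin n)) (j : Fin n) : σ (σ⁻¹ j) = j :=
  Equiv.apply_symm_apply σ j

private theorem up0_ia {n : ℕ} (σ : Equiv.Perm (Fin n)) (j : Fin n) : σ⁻¹ (σ j) = j :=
  Equiv.symm_apply_apply σ j

theorem pm_inv {n : ℕ} (σ : Equiv.Perm (Fin n)) : (pm σ)⁻¹ = pm σ⁻¹ := by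
  rw [inv_eq_iff_mul_eq_one]
  apply aut_ext
  intro j
  rw [MulAut.mul_apply, pm_apply, pm_apply, MulAut.one_apply, up0_ai]

theorem pm_Av {n : ℕ} (σ : Equiv.Perm (Fin n)) {S : Finset (Fin n)} {w : FF n} (hw : w ∈ Av S) :
    pm σ w ∈ Av (S.map σ.toEmbedding) := by
  refine aut_mem (fun j hj => ?_) hw
  rw [pm_apply]
  refine xx_mem_Av fun h => hj ?_
  rw [Finset.mem_map] at h
  obtain ⟨a, ha, hja⟩ := h
  have : a = j := σ.injective hja
  rwa [this] at ha

private theorem pm_Av1 {n : ℕ} (σ : Equiv.Perm (Fin n)) {i : Fin n} {w : FF n}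
    (hw : w ∈ Av {i}) : pm σ w ∈ Av {σ i} := by
  have := pm_Av σ hw
  rwa [Finset.map_singleton] at this

theorem pm_tr {n : ℕ} (σ : Equiv.Perm (Fin n)) (b : Bool) {i : Fin n} {w : FF n}
    (hw : w ∈ Av {i}) : pm σ * tr b i w * (pm σ)⁻¹ = tr b (σ i) (pm σ w) := by
  have hw' := pm_Av1 σ hw
  rw [pm_inv]
  apply aut_ext
  intro j
  rw [MulAut.mul_apply, MulAut.mul_apply, pm_apply]
  by_cases h : j = σ i
  · subst h
    rw [up0_ia]
    cases b
    · rw [tr_false, tr_false, rho_self hw, rho_self hw', map_mul, pm_apply]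
    · rw [tr_true, tr_true, lam_self hw, lam_self hw', map_mul, map_inv, pm_apply]
  · have h2 : σ⁻¹ j ≠ i := by
      intro h3
      apply h
      rw [← h3, up0_ai]
    rw [tr_ne b _ h2, tr_ne b _ h, pm_apply, up0_ai]

theorem pm_gam {n : ℕ} (σ : Equiv.Perm (Fin n)) {i : Fin n} {e : ℕ} {w : FF n}
    (hw : w ∈ gam (Av {i}) e) : pm σ w ∈ gam (Av {σ i}) e := by
  have h1 : (pm σ).toMonoidHom w ∈ (gam (Av {i}) e).map (pm σ).toMonoidHom :=
    Subgroup.mem_map_of_mem _ hw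
  rw [gam_map] at h1
  have h2 : (Av {i} : Subgroup (FF n)).map (pm σ).toMonoidHom ≤ Av {σ i} := by
    rintro _ ⟨y, hy, rfl⟩
    exact pm_Av1 σ hy
  exact gam_mono h2 e h1

theorem pr_pm {n : ℕ} {σ : Equiv.Perm (Fin n)} {i : Fin n} (h : σ i = i) : Pr i (pm σ) := by
  have h' : σ⁻¹ i = i := by
    rw [Equiv.Perm.inv_eq_iff_eq]
    exact h.symm
  refine pr_of_gens (by rw [pm_apply, h]) (fun j hj => ?_) (fun j hj => ?_)
  · rw [pm_apply]
    refine xx_mem_Av fun h2 => hj ?_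
    rw [Finset.mem_singleton] at h2
    exact σ.injective (h2.trans h.symm)
  · rw [pm_inv, pm_apply]
    refine xx_mem_Av fun h2 => hj ?_
    rw [Finset.mem_singleton] at h2
    exact σ⁻¹.injective (h2.trans h'.symm)

theorem hk_one {n : ℕ} {M : Type} [Group M] {φ : MulAut (FF n) →* M} {e : ℕ} (b : Bool)
    (i : Fin n) (h : ∀ w ∈ gam (Av {i}) e, φ (tr b i w) = 1) : HK φ e := by
  have h1 : ∀ (i' : Fin n), ∀ w ∈ gam (Av {i'}) e, φ (tr b i' w) = 1 := by
    intro i' w hw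
    have hw' : w ∈ Av {i'} := gam_le _ _ hw
    have h2 := pm_gam (Equiv.swap i' i) hw
    rw [Equiv.swap_apply_left] at h2
    have h3 := pm_tr (Equiv.swap i' i) b hw'
    rw [Equiv.swap_apply_left] at h3
    have h4 := congrArg φ h3
    rw [h _ h2, map_mul, map_mul, map_inv, mul_inv_eq_one, mul_eq_left] at h4
    exact h4
  intro b' i' w hw
  have hw' : w ∈ Av {i'} := gam_le _ _ hw
  by_cases hb : b' = b
  · subst hb
    exact h1 i' w hw
  · have h2 := h1 i' w hw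
    have h3 : φ (flp i' * tr b i' w * (flp i')⁻¹) = 1 := by
      rw [map_mul, map_mul, h2, mul_one, ← map_mul, mul_inv_cancel, map_one]
    cases b
    · cases b'
      · exact absurd rfl hb
      · rw [tr_false, flp_rho hw'] at h3
        exact h3
    · cases b'
      · rw [tr_true, flp_lam hw'] at h3
        exact h3
      · exact absurd rfl hb

end Pool.Agent.Work.MP_d3656f_al.GB
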