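import Mathlib
import Pool.Agent.Work.MP_d3656f_al.GB.Up0
import Pool.Agent.Work.MP_d3656f_al.Defs

/-!
# GB/Up1 : the finiteness input

`sub2 n` is generated by the letters with index `< n - 2`. Let `last = n - 1`, `pre = n - 2`. For
`i ∈ S`, `m ∈ S`, `m ≠ i` choose a permutation `σ` with `σ i = last`, `σ m = pre`
(`Equiv.swap`s). By `pm_tr` `pm σ * tr b i w * (pm σ)⁻¹ = tr b last (pm σ w)` and
`pm σ w ∈ Av (S.map σ) ≤ Av {last, pre} = sub2 n` (`pm_Av`, `Av_anti`). The automorphism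
`tr b last z`, `z ∈ sub2 n`, is in the set of the hypothesis (with `w = 1`): it maps `xx last` to
`z⁻¹ * xx last * 1` or `1 * xx last * z`, and fixes the other letters. So
`φ (tr b i w)` is in the finite set `(φ (pm σ))⁻¹ * F * φ (pm σ)`.
-/

set_option autoImplicit false

namespace Pool.Agent.Work.MP_d3656f_al.GB

open scoped commutatorElement

private theorem up1_mem {n : ℕ} {S : Finset (Fin n)} (hS : ∀ j : Fin n, j ∉ S → (j : ℕ) + 2 < n)
    {w : FF n} (hw : w ∈ Av S) : w ∈ sub2 n := by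
  have : Av S ≤ sub2 n := by
    refine (Subgroup.closure_le _).2 ?_
    rintro y ⟨j, hj, rfl⟩
    exact Subgroup.subset_closure ⟨j, hS j hj, rfl⟩
  exact this hw

theorem up_fin {n : ℕ} (hn : 2 ≤ n) {M : Type} [Group M] (φ : MulAut (FF n) →* M)
    (h : (φ '' {α : MulAut (FreeGroup (Fin n)) | ∃ w ∈ sub2 n,
      (∀ i : Fin n, (i : ℕ) + 2 < n → α (FreeGroup.of i) = w * FreeGroup.of i * w⁻¹) ∧
      ∀ i : Fin n, n ≤ (i : ℕ) + 2 →
        ∃ u ∈ sub2 n, ∃ v ∈ sub2 n, α (FreeGroup.of i) = u * FreeGroup.of i * v}).Finite)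
    (b : Bool) (i : Fin n) (S : Finset (Fin n)) (hi : i ∈ S) (hS : 2 ≤ S.card) :
    (φ '' {α | ∃ w ∈ Av S, α = tr b i w}).Finite := by
  obtain ⟨m, hmS, hmi⟩ : ∃ m ∈ S, m ≠ i := by
    by_contra hcon
    push Not at hcon
    have h1 : S ⊆ {i} := fun x hx => by
      rw [Finset.mem_singleton]
      exact hcon x hx
    have h2 := Finset.card_le_card h1
    rw [Finset.card_singleton] at h2
    omega
  set last : Fin n := ⟨n - 1, by omega⟩ with hlast
  set pre : Fin n := ⟨n - 2, by omega⟩ with hpre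
  have hlp : last ≠ pre := by
    intro h1
    have := congrArg Fin.val h1
    simp only [hlast, hpre] at this
    omega
  set σ₁ : Equiv.Perm (Fin n) := Equiv.swap i last with hσ₁
  have h1i : σ₁ i = last := Equiv.swap_apply_left _ _
  have h1m : σ₁ m ≠ last := by
    intro h2
    exact hmi (σ₁.injective (h2.trans h1i.symm))
  set σ : Equiv.Perm (Fin n) := Equiv.swap (σ₁ m) pre * σ₁ with hσ
  have hσi : σ i = last := by
    rw [hσ, Equiv.Perm.mul_apply, h1i]
    exact Equiv.swap_apply_of_ne_of_ne h1m.symm hlp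
  have hσm : σ m = pre := by
    rw [hσ, Equiv.Perm.mul_apply]
    exact Equiv.swap_apply_left _ _
  refine (h.image (fun y => (φ (pm σ))⁻¹ * y * φ (pm σ))).subset ?_
  rintro _ ⟨α, ⟨w, hw, rfl⟩, rfl⟩
  have hwi : w ∈ Av {i} := Av_anti (by simpa using hi) hw
  have hz : pm σ w ∈ sub2 n := by
    refine up1_mem (S := S.map σ.toEmbedding) (fun j hj => ?_) (pm_Av σ hw)
    have hjl : j ≠ last := by
      rintro rfl
      exact hj (Finset.mem_map.2 ⟨i, hi, hσi⟩)
    have hjp : j ≠ pre := by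
      rintro rfl
      exact hj (Finset.mem_map.2 ⟨m, hmS, hσm⟩)
    have h3 : (j : ℕ) ≠ n - 1 := fun h4 => hjl (Fin.ext h4)
    have h5 : (j : ℕ) ≠ n - 2 := fun h4 => hjp (Fin.ext h4)
    have h6 := j.2
    omega
  have hzl : pm σ w ∈ Av {last} := by
    have := pm_Av σ hwi
    rw [Finset.map_singleton] at this
    rw [← hσi]
    exact this
  refine ⟨φ (tr b last (pm σ w)), ⟨tr b last (pm σ w), ⟨1, one_mem _, fun j hj => ?_,
    fun j hj => ?_⟩, rfl⟩, ?_⟩
  · have hjl : j ≠ last := by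
      rintro rfl
      simp only [hlast] at hj
      omega
    have := tr_ne b (pm σ w) hjl
    rw [one_mul, inv_one, mul_one]
    exact this
  · by_cases hjl : j = last
    · subst hjl
      cases b
      · refine ⟨1, one_mem _, pm σ w, hz, ?_⟩
        rw [tr_false, one_mul]
        exact rho_self hzl
      · refine ⟨(pm σ w)⁻¹, inv_mem hz, 1, one_mem _, ?_⟩
        rw [tr_true, mul_one]
        exact lam_self hzl
    · refine ⟨1, one_mem _, 1, one_mem _, ?_⟩
      have := tr_ne b (pm σ w) hjl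
      rw [one_mul, mul_one]
      exact this
  · have h7 := pm_tr σ b hwi
    rw [hσi] at h7
    show (φ (pm σ))⁻¹ * φ (tr b last (pm σ w)) * φ (pm σ) = φ (tr b i w)
    rw [← h7, map_mul, map_mul, map_inv]
    group

end Pool.Agent.Work.MP_d3656f_al.GB
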