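import Mathlib
import Pool.Agent.Work.MP_d3656f_al.GB.Up0
import Pool.Agent.Work.MP_d3656f_al.GB.Ga1

/-!
# GB/Up2 : extension of automorphisms

`ext_ex`: the endomorphism `E β` of `FF (k + 1)` with `xx j.castSucc ↦ emb (β (xx j))` and
`xx last ↦ xx last` (`Fin.lastCases`) satisfies `E β (emb w) = emb (β w)`, and `E β`, `E β⁻¹` are
inverse to each other. `Pr (Fin.last k)`: `emb_mem`, `pr_of_gens`.
`emb_surj`: `Av {last}` is generated by the `xx j.castSucc = emb (xx j)`; the range of `emb` is a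
subgroup. `emb_surj'`: `Lw (k+1) m` is generated by the `xx j`, `j < m ≤ k`.
`pp_conj`: `rho_conj` with `Pr`. `chr_pp`: `pp_conj` with `ext_ex`. `chr_rr`: `(pp φ).rangeRestrict`
has the same kernel.
`emb_gam`: `gam_map` and `Av {last} = ⊤.map emb`.
-/

set_option autoImplicit false

namespace Pool.Agent.Work.MP_d3656f_al.GB

open scoped commutatorElement

variable {k : ℕ} {M : Type} [Group M] {φ : MulAut (FF (k + 1)) →* M}

/-- the extended endomorphism -/
private noncomputable def up2E (β : MulAut (FF k)) : FF (k + 1) →* FF (k + 1) :=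
  FreeGroup.lift (Fin.lastCases (xx (Fin.last k)) (fun j => emb (β (xx j))))

private theorem up2E_last (β : MulAut (FF k)) : up2E β (xx (Fin.last k)) = xx (Fin.last k) := by
  simp [up2E]

private theorem up2E_cast (β : MulAut (FF k)) (j : Fin k) :
    up2E β (xx j.castSucc) = emb (β (xx j)) := by
  simp [up2E]

private theorem up2E_emb (β : MulAut (FF k)) (w : FF k) : up2E β (emb w) = emb (β w) := by
  have h : (up2E β).comp emb = (emb : FF k →* FF (k + 1)).comp β.toMonoidHom := by
    ext j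
    show up2E β (emb (xx j)) = emb (β (xx j))
    rw [emb_xx, up2E_cast]
  exact DFunLike.congr_fun h w

private theorem up2E_inv (α β : MulAut (FF k)) (h : α * β = 1) :
    (up2E α).comp (up2E β) = MonoidHom.id _ := by
  ext j
  show up2E α (up2E β (xx j)) = xx j
  induction j using Fin.lastCases with
  | last => rw [up2E_last, up2E_last]
  | cast j => rw [up2E_cast, up2E_emb, ← MulAut.mul_apply, h, MulAut.one_apply, emb_xx]

theorem ext_ex (β : MulAut (FF k)) : ∃ γ : MulAut (FF (k + 1)), Pr (Fin.last k) γ ∧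
    ∀ w, γ (emb w) = emb (β w) := by
  refine ⟨MonoidHom.toMulEquiv (up2E β) (up2E β⁻¹) (up2E_inv _ _ (inv_mul_cancel β))
    (up2E_inv _ _ (mul_inv_cancel β)), ?_, fun w => up2E_emb β w⟩
  refine pr_of_gens (up2E_last β) (fun j hj => ?_) (fun j hj => ?_)
  · show up2E β (xx j) ∈ _
    induction j using Fin.lastCases with
    | last => exact absurd rfl hj
    | cast j =>
      rw [up2E_cast]
      exact emb_mem _
  · show up2E β⁻¹ (xx j) ∈ _
    induction j using Fin.lastCases with
    | last => exact absurd rfl hj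
    | cast j =>
      rw [up2E_cast]
      exact emb_mem _

private theorem up2_top : (Av {Fin.last k} : Subgroup (FF (k + 1))) ≤ (⊤ : Subgroup (FF k)).map emb := by
  refine (Subgroup.closure_le _).2 ?_
  rintro y ⟨j, hj, rfl⟩
  induction j using Fin.lastCases with
  | last => exact absurd (Finset.mem_singleton_self _) hj
  | cast j => exact ⟨xx j, Subgroup.mem_top _, emb_xx j⟩

theorem emb_surj {y : FF (k + 1)} (hy : y ∈ Av {Fin.last k}) : ∃ w : FF k, y = emb w := by
  obtain ⟨w, _, hw⟩ := up2_top hy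
  exact ⟨w, hw.symm⟩

theorem emb_surj' {m : ℕ} (hm : m ≤ k) {y : FF (k + 1)} (hy : y ∈ Lw (k + 1) m) :
    ∃ w ∈ Lw k m, y = emb w := by
  have h : Lw (k + 1) m ≤ (Lw k m).map emb := by
    refine Lw_le fun j hj => ?_
    induction j using Fin.lastCases with
    | last =>
      exfalso
      rw [Fin.val_last] at hj
      omega
    | cast j => exact ⟨xx j, xx_mem_Lw (by simpa using hj), emb_xx j⟩
  obtain ⟨w, hw, hw'⟩ := h hy
  exact ⟨w, hw, hw'.symm⟩

theorem emb_gam {e : ℕ} {y : FF (k + 1)} (hy : y ∈ gam (Av {Fin.last k}) e) :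
    ∃ w ∈ gam (⊤ : Subgroup (FF k)) e, y = emb w := by
  have h := gam_mono up2_top e hy
  rw [← gam_map] at h
  obtain ⟨w, hw, hw'⟩ := h
  exact ⟨w, hw, hw'.symm⟩

theorem pp_conj {γ : MulAut (FF (k + 1))} (hγ : Pr (Fin.last k) γ) {v w : FF k}
    (h : γ (emb w) = emb v) : φ γ * pp φ w * (φ γ)⁻¹ = pp φ v := by
  rw [pp_apply, pp_apply, ← map_inv, ← map_mul, ← map_mul, rho_conj hγ (emb_mem w), h]

theorem chr_pp : Chr (pp φ) := by
  intro α w hw
  obtain ⟨γ, hγ, hγw⟩ := ext_ex α
  have h := pp_conj (φ := φ) hγ (hγw w)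
  rw [hw, mul_one, mul_inv_cancel] at h
  exact h.symm

theorem chr_rr : Chr (pp φ).rangeRestrict := by
  intro α w hw
  have h1 : pp φ w = 1 := congrArg Subtype.val hw
  exact Subtype.ext (chr_pp α w h1)

end Pool.Agent.Work.MP_d3656f_al.GB
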