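import Mathlib
import Pool.Agent.Work.MP_d3656f_al.GB.DefsC

/-!
# GB/Up3 : the finite subgroup

* `sup_fin`: `A ⊔ B` is the set `A * B` (`A` normalises `B`), the image of the finite `A × B`.
* `us_fin`: for `j < k` let `G_j` be the set of all `φ (lam j w * rho j v)` with `w ∈ Lw (k+1) j`,
  `v ∈ Lw (k+1) (min j (k - 2))` (index `j.castSucc`). It is a subgroup (`lam_comm_rho`, `lam_mul`,
  `rho_mul`) and finite: `w, v ∈ Av {j.castSucc, last}`, so the set of the `φ (lam j w)` and the set
  of the `φ (rho j v)` are finite (`hf` with `S = {j.castSucc, last}`). Let `G_k` be the group of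
  all `φ (lam last w)`, `w ∈ Lw (k+1) (k-1)`, finite by `hf` with `S = {last, k - 1}`.
  For `i < j ≤ k` every element of `G_i` normalises `G_j`: let
  `γ = lam i u * rho i v'` with `u, v' ∈ Lw (k+1) i`; if `j < k` then `Pr j γ` (`pr_lam`,
  `pr_rho`; `u`, `v'` avoid `i` and `j`), so by `lam_conj`, `rho_conj` conjugation by `γ` maps
  `lam j w * rho j v` to `lam j (γ w) * rho j (γ v)`, and `γ` maps `Lw (k+1) j` to itself (the
  letters `< j`, `i < j`) and `Lw (k+1) (min j (k-2))` to itself (if `i < min j (k-2)` as before,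
  otherwise `γ` fixes it pointwise). For `j = k` the same with `Lw (k+1) (k-1)`: if
  `i < k - 1` it is mapped to itself, if `i = k - 1` it is fixed pointwise.
  So `G_0 ⊔ … ⊔ G_j` is finite for all `j ≤ k` by induction (`sup_fin`; the join of subgroups
  which normalise `G_{j+1}` normalises it), and `US φ` is contained in the union of the
  `G_j`, `j ≤ k`.
-/

set_option autoImplicit false

namespace Pool.Agent.Work.MP_d3656f_al.GB

open scoped commutatorElement

/-- Generators of a finite subgroup. -/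
def US {k : ℕ} {M : Type} [Group M] (φ : MulAut (FF (k + 1)) →* M) : Set M :=
  {y | (∃ j : Fin k, ∃ w ∈ Lw (k + 1) j, ∃ v ∈ Lw (k + 1) (min j (k - 2)),
      y = φ (lam j.castSucc w * rho j.castSucc v)) ∨
    ∃ w ∈ Lw (k + 1) (k - 1), y = φ (lam (Fin.last k) w)}

theorem sup_fin {M : Type} [Group M] {A B : Subgroup M} (hA : Finite A) (hB : Finite B)
    (h : ∀ a ∈ A, ∀ b ∈ B, a * b * a⁻¹ ∈ B) : Finite ↥(A ⊔ B) := by
  let C : Subgroup M :=
    { carrier := {x | ∃ a ∈ A, ∃ b ∈ B, x = a * b}
      mul_mem' := by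
        rintro _ _ ⟨a, ha, b, hb, rfl⟩ ⟨a', ha', b', hb', rfl⟩
        refine ⟨a * a', mul_mem ha ha', (a'⁻¹ * b * a'⁻¹⁻¹) * b',
          mul_mem (h _ (inv_mem ha') _ hb) hb', ?_⟩
        group
      one_mem' := ⟨1, one_mem _, 1, one_mem _, (mul_one 1).symm⟩
      inv_mem' := by
        rintro _ ⟨a, ha, b, hb, rfl⟩
        refine ⟨a⁻¹, inv_mem ha, a * b⁻¹ * a⁻¹, h _ ha _ (inv_mem hb), ?_⟩
        group }
  have hle : A ⊔ B ≤ C := by
    refine sup_le ?_ ?_
    · intro a ha
      exact ⟨a, ha, 1, one_mem _, (mul_one a).symm⟩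
    · intro b hb
      exact ⟨1, one_mem _, b, hb, (one_mul b).symm⟩
  have hfA : (A : Set M).Finite := hA
  have hfB : (B : Set M).Finite := hB
  have hf : ((fun p : M × M => p.1 * p.2) '' ((A : Set M) ×ˢ (B : Set M))).Finite :=
    (hfA.prod hfB).image _
  refine Set.Finite.subset hf ?_
  intro x hx
  obtain ⟨a, ha, b, hb, rfl⟩ := hle hx
  exact ⟨(a, b), ⟨ha, hb⟩, rfl⟩

variable {k : ℕ} {M : Type} [Group M] {φ : MulAut (FF (k + 1)) →* M}

private theorem up3_chain (K : ℕ → Subgroup M) (hK : ∀ i, Finite (K i))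
    (hn : ∀ i j, i < j → ∀ a ∈ K i, ∀ b ∈ K j, a * b * a⁻¹ ∈ K j) (N : ℕ) :
    Finite ↥((Finset.range N).sup K) := by
  induction N with
  | zero =>
    rw [Finset.range_zero, Finset.sup_empty]
    infer_instance
  | succ N ih =>
    rw [Finset.range_add_one, Finset.sup_insert, sup_comm]
    refine sup_fin ih (hK N) ?_
    let Nz : Subgroup M :=
      { carrier := {a | ∀ b, b ∈ K N ↔ a * b * a⁻¹ ∈ K N}
        mul_mem' := by
          intro a a' ha ha' b
          have e : a * a' * b * (a * a')⁻¹ = a * (a' * b * a'⁻¹) * a⁻¹ := by group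
          rw [e]
          exact (ha' b).trans (ha _)
        one_mem' := by
          intro b
          rw [inv_one, mul_one, one_mul]
        inv_mem' := by
          intro a ha b
          have e : a * (a⁻¹ * b * a⁻¹⁻¹) * a⁻¹ = b := by group
          rw [ha (a⁻¹ * b * a⁻¹⁻¹), e] }
    have h1 : (Finset.range N).sup K ≤ Nz := by
      refine Finset.sup_le fun i hi => ?_
      intro a ha b
      constructor
      · intro hb
        exact hn i N (Finset.mem_range.1 hi) a ha b hb
      · intro hb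
        have h2 := hn i N (Finset.mem_range.1 hi) a⁻¹ (inv_mem ha) _ hb
        have e : a⁻¹ * (a * b * a⁻¹) * a⁻¹⁻¹ = b := by group
        rwa [e] at h2
    intro a ha b hb
    exact (h1 ha b).1 hb

private noncomputable def up3T (φ : MulAut (FF (k + 1)) →* M) (b : Bool) (I : Fin (k + 1))
    (m : ℕ) : Subgroup M where
  carrier := {y | ∃ w, w ∈ Lw (k + 1) m ∧ w ∈ Av {I} ∧ y = φ (tr b I w)}
  mul_mem' := by
    rintro _ _ ⟨v, hv, hv', rfl⟩ ⟨w, hw, hw', rfl⟩
    exact ⟨v * w, mul_mem hv hw, mul_mem hv' hw', by rw [tr_mul b hv' hw', map_mul]⟩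
  one_mem' := ⟨1, one_mem _, one_mem _, by rw [tr_one, map_one]⟩
  inv_mem' := by
    rintro _ ⟨w, hw, hw', rfl⟩
    exact ⟨w⁻¹, inv_mem hw, inv_mem hw', by rw [tr_inv b hw', map_inv]⟩

private def up3bd (k : ℕ) (b : Bool) (i : ℕ) : ℕ := if b = true then min i (k - 1) else min i (k - 2)

private theorem up3bd_le (k : ℕ) (b : Bool) (i : ℕ) : up3bd k b i ≤ i := by
  unfold up3bd
  split_ifs
  · exact min_le_left _ _
  · exact min_le_left _ _

private theorem up3bd_le' (k : ℕ) (b : Bool) (i : ℕ) : up3bd k b i ≤ k - 1 := by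
  unfold up3bd
  split_ifs
  · exact min_le_right _ _
  · exact (min_le_right _ _).trans (by omega)

private noncomputable def up3K (φ : MulAut (FF (k + 1)) →* M) (t : ℕ) : Subgroup M :=
  if h : t / 2 < k + 1 then
    up3T φ (decide (t % 2 = 0)) ⟨t / 2, h⟩ (up3bd k (decide (t % 2 = 0)) (t / 2)) else ⊥

private theorem up3_T_conj {b b' : Bool} {I J : Fin (k + 1)} (hIJ : I < J) {m m' : ℕ}
    (hm : m ≤ I) (x : M) (hx : x ∈ up3T φ b I m) (y : M) (hy : y ∈ up3T φ b' J m') :
    x * y * x⁻¹ ∈ up3T φ b' J m' := by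
  obtain ⟨u, hu, hu', rfl⟩ := hx
  obtain ⟨w, hw, hw', rfl⟩ := hy
  have hne : J ≠ I := ne_of_gt hIJ
  have huJ : u ∈ Av {J, I} := by
    refine Lw_le_Av (m := m) ?_ hu
    intro l hl
    rw [Finset.mem_insert, Finset.mem_singleton] at hl
    rcases hl with rfl | rfl
    · exact hm.trans (le_of_lt (Fin.lt_def.1 hIJ))
    · exact hm
  have hPr : Pr J (tr b I u) := pr_tr b hne huJ
  refine ⟨tr b I u w, ?_, hPr.map _ hw', ?_⟩
  · refine aut_mem (fun l hl => ?_) hw
    have hl' : (l : ℕ) < m' := by simpa using hl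
    by_cases h : l = I
    · subst h
      have hum : u ∈ Lw (k + 1) m' := Lw_mono (hm.trans hl'.le) hu
      cases b
      · show rho l u (xx l) ∈ _
        rw [rho_self hu']
        exact mul_mem (xx_mem_Lw hl') hum
      · show lam l u (xx l) ∈ _
        rw [lam_self hu']
        exact mul_mem (inv_mem hum) (xx_mem_Lw hl')
    · rw [tr_ne b u h]
      exact xx_mem_Lw hl'
  · rw [← tr_conj b' hPr hw', map_mul, map_mul, map_inv]

private theorem up3_K_conj (i j : ℕ) (hij : i < j) (x : M) (hx : x ∈ up3K φ i) (y : M)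
    (hy : y ∈ up3K φ j) : x * y * x⁻¹ ∈ up3K φ j := by
  by_cases h2 : j / 2 < k + 1
  · have h1 : i / 2 < k + 1 := by omega
    rw [up3K, dif_pos h1] at hx
    rw [up3K, dif_pos h2] at hy ⊢
    rcases Nat.lt_or_ge (i / 2) (j / 2) with h3 | h3
    · exact up3_T_conj (Fin.mk_lt_mk.2 h3) (up3bd_le _ _ _) x hx y hy
    · have h4 : i / 2 = j / 2 := by omega
      have h5 : i % 2 = 0 := by omega
      have h6 : ¬ j % 2 = 0 := by omega
      obtain ⟨u, hu, hu', rfl⟩ := hx
      obtain ⟨w, hw, hw', rfl⟩ := hy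
      refine ⟨w, hw, hw', ?_⟩
      have e1 : (⟨i / 2, h1⟩ : Fin (k + 1)) = ⟨j / 2, h2⟩ := Fin.ext h4
      rw [e1] at hu' ⊢
      rw [decide_eq_true h5, decide_eq_false h6, tr_true, tr_false, ← map_mul,
        lam_comm_rho hu' hw', map_mul, mul_inv_cancel_right]
  · rw [up3K, dif_neg h2, Subgroup.mem_bot] at hy ⊢
    rw [hy, mul_one, mul_inv_cancel]

theorem us_fin (hk : 3 ≤ k)
    (hf : ∀ (b : Bool) (i : Fin (k + 1)) (S : Finset (Fin (k + 1))), i ∈ S → 2 ≤ S.card →
      (φ '' {α | ∃ w ∈ Av S, α = tr b i w}).Finite) : Finite (Subgroup.closure (US φ)) := by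
  have hK : ∀ t, Finite (up3K φ t) := by
    intro t
    unfold up3K
    split_ifs with h1
    · have h2 : ∃ o : Fin (k + 1), o ≠ ⟨t / 2, h1⟩ ∧
          up3bd k (decide (t % 2 = 0)) (t / 2) ≤ (o : ℕ) := by
        by_cases h3 : t / 2 < k
        · refine ⟨Fin.last k, ?_, ?_⟩
          · intro h4
            have h5 := congrArg Fin.val h4
            simp only [Fin.val_last] at h5
            omega
          · exact (up3bd_le _ _ _).trans (by rw [Fin.val_last]; omega)
        · refine ⟨⟨k - 1, by omega⟩, ?_, ?_⟩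
          · intro h4
            have h5 := congrArg Fin.val h4
            simp only at h5
            omega
          · exact up3bd_le' _ _ _
      obtain ⟨o, ho1, ho2⟩ := h2
      have h6 := hf (decide (t % 2 = 0)) ⟨t / 2, h1⟩ {⟨t / 2, h1⟩, o} (by simp)
        (by rw [Finset.card_pair (Ne.symm ho1)])
      refine Set.Finite.subset h6 ?_
      rintro _ ⟨w, hw, hw', rfl⟩
      refine ⟨_, ⟨w, ?_, rfl⟩, rfl⟩
      refine Lw_le_Av (m := up3bd k (decide (t % 2 = 0)) (t / 2)) ?_ hw
      intro l hl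
      rw [Finset.mem_insert, Finset.mem_singleton] at hl
      rcases hl with rfl | rfl
      · exact up3bd_le _ _ _
      · exact ho2
    · infer_instance
  have hC := up3_chain (up3K φ) hK up3_K_conj (2 * k + 2)
  have hle : Subgroup.closure (US φ) ≤ (Finset.range (2 * k + 2)).sup (up3K φ) := by
    refine (Subgroup.closure_le _).2 ?_
    have hin : ∀ (b : Bool) (i : ℕ) (hi : i < k + 1) (w : FF (k + 1)),
        w ∈ Lw (k + 1) (up3bd k b i) →
        φ (tr b ⟨i, hi⟩ w) ∈ (Finset.range (2 * k + 2)).sup (up3K φ) := by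
      intro b i hi w hw
      have hwA : w ∈ Av {(⟨i, hi⟩ : Fin (k + 1))} := by
        refine Lw_le_Av (m := up3bd k b i) ?_ hw
        intro l hl
        rw [Finset.mem_singleton] at hl
        subst hl
        exact up3bd_le _ _ _
      cases b
      · have h1 : up3K φ (2 * i + 1) ≤ (Finset.range (2 * k + 2)).sup (up3K φ) :=
          Finset.le_sup (f := up3K φ) (Finset.mem_range.2 (by omega))
        refine h1 ?_
        have h2 : (2 * i + 1) / 2 = i := by omega
        have h3 : ¬ (2 * i + 1) % 2 = 0 := by omega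
        unfold up3K
        rw [dif_pos (by omega : (2 * i + 1) / 2 < k + 1)]
        have e1 : (⟨(2 * i + 1) / 2, by omega⟩ : Fin (k + 1)) = ⟨i, hi⟩ := Fin.ext h2
        rw [decide_eq_false h3, e1, h2]
        exact ⟨w, hw, hwA, rfl⟩
      · have h1 : up3K φ (2 * i) ≤ (Finset.range (2 * k + 2)).sup (up3K φ) :=
          Finset.le_sup (f := up3K φ) (Finset.mem_range.2 (by omega))
        refine h1 ?_
        have h2 : (2 * i) / 2 = i := by omega
        have h3 : (2 * i) % 2 = 0 := by omega
        unfold up3K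
        rw [dif_pos (by omega : (2 * i) / 2 < k + 1)]
        have e1 : (⟨(2 * i) / 2, by omega⟩ : Fin (k + 1)) = ⟨i, hi⟩ := Fin.ext h2
        rw [decide_eq_true h3, e1, h2]
        exact ⟨w, hw, hwA, rfl⟩
    rintro y (⟨j, w, hw, v, hv, rfl⟩ | ⟨w, hw, rfl⟩)
    · rw [map_mul]
      refine mul_mem ?_ ?_
      · have h1 := hin true j (by omega) w (by
          unfold up3bd
          rw [if_pos rfl, min_eq_left (by have := j.2; omega)]
          exact hw)
        exact h1
      · have h1 := hin false j (by omega) v (by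
          unfold up3bd
          rw [if_neg (by decide)]
          exact hv)
        exact h1
    · have h1 := hin true k (by omega) w (by
        unfold up3bd
        rw [if_pos rfl, min_eq_right (by omega)]
        exact hw)
      exact h1
  exact Set.Finite.subset (s := (((Finset.range (2 * k + 2)).sup (up3K φ) : Subgroup M) : Set M))
    hC hle

end Pool.Agent.Work.MP_d3656f_al.GB
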