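import Mathlib
import Pool.Agent.Work.MP_d3656f_al.GB.Up2
import Pool.Agent.Work.MP_d3656f_al.GB.Up3

/-!
# GB/Up4 : the order of the finite subgroup

Let `p = (pp φ).rangeRestrict`. For every family `y j ∈ DD p j` (`j < k`) choose
`w j ∈ Lw k j`, `v j ∈ Lw k (min j (k-2))` with `y j = p ((w j)⁻¹ * xx j * v j)` and put
`β j = lam j.castSucc (emb (w j)) * rho j.castSucc (emb (v j))` and `α = β (k-1) * … * β 1 * β 0`
(existence of such an `α` by induction on the number of factors). `α` satisfies `Pr last α` and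
`α (xx j.castSucc) = emb ((w j)⁻¹ * xx j * v j)` for all `j < k`: the factors `β i`, `i < j`, fix
`xx j`, `β j` maps it to `(w j)⁻¹ * xx j * v j` (embedded), and the factors `β i` with `i > j`
fix this word (its letters have index `≤ j < i`); and `φ α ∈ closure (US φ)` (`emb_Lw`).
For `a ∈ (Lw k (k-1)).map p` choose `u ∈ Lw k (k-1)` with `p u = a`. The element
`e (a, y) = φ (lam last (emb u) * α) ∈ closure (US φ)` determines `(a, y)`:
conjugation by `e` maps `pp φ (xx j) = φ (rho last (xx j.castSucc))` to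
`φ (rho last (emb (w⁻¹ xx j v))) = y j` (`pp_conj` for `α`, `lam_comm_rho`), so `e` determines
all `y j`, hence `α`; then `φ (lam last (emb u))` is determined, and conjugation by `φ (flp last)`
gives `pp φ u` (`flp_lam`), that is `a`. So `(a, y) ↦ e` is injective into the finite group
`closure (US φ)`; count (`Nat.card_pi`, `Nat.card_prod`, `Nat.card_le_card_of_injective`,
`Set.ncard = Nat.card`).
-/

set_option autoImplicit false

namespace Pool.Agent.Work.MP_d3656f_al.GB

open scoped commutatorElement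

variable {k : ℕ} {M : Type} [Group M] {φ : MulAut (FF (k + 1)) →* M}

/-- The product of the first `m` factors. -/
theorem up4_aux (w v : Fin k → FF k) (hw : ∀ j : Fin k, w j ∈ Lw k j)
    (hv : ∀ j : Fin k, v j ∈ Lw k (min j (k - 2))) (m : ℕ) (hm : m ≤ k) :
    ∃ α : MulAut (FF (k + 1)), Pr (Fin.last k) α ∧ φ α ∈ Subgroup.closure (US φ) ∧
      (∀ j : Fin k, (j : ℕ) < m → α (xx j.castSucc) = emb ((w j)⁻¹ * xx j * v j)) ∧
      ∀ j : Fin k, m ≤ (j : ℕ) → α (xx j.castSucc) = xx j.castSucc := by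
  induction m with
  | zero =>
    refine ⟨1, pr_one _, ?_, fun j hj => absurd hj (Nat.not_lt_zero _), fun j _ => rfl⟩
    rw [map_one]
    exact one_mem _
  | succ m ih =>
    obtain ⟨α, hα1, hα2, hα3, hα4⟩ := ih (by omega)
    have hmk : m < k := by omega
    have hw1 : emb (w ⟨m, hmk⟩) ∈ Lw (k + 1) m := emb_Lw (hw ⟨m, hmk⟩)
    have hv1 : emb (v ⟨m, hmk⟩) ∈ Lw (k + 1) (min m (k - 2)) := emb_Lw (hv ⟨m, hmk⟩)
    have hv2 : emb (v ⟨m, hmk⟩) ∈ Lw (k + 1) m := Lw_mono (min_le_left _ _) hv1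
    have hS : Lw (k + 1) m ≤ Av {Fin.last k, (⟨m, hmk⟩ : Fin k).castSucc} := by
      refine Lw_le_Av ?_
      intro j hj
      rw [Finset.mem_insert, Finset.mem_singleton] at hj
      rcases hj with rfl | rfl
      · simp only [Fin.val_last]
        omega
      · simp
    have hA : Lw (k + 1) m ≤ Av {(⟨m, hmk⟩ : Fin k).castSucc} := by
      refine Lw_le_Av ?_
      intro j hj
      rw [Finset.mem_singleton] at hj
      subst hj
      simp
    have hne : Fin.last k ≠ (⟨m, hmk⟩ : Fin k).castSucc := by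
      intro h
      have := congrArg Fin.val h
      simp only [Fin.val_last, Fin.val_castSucc] at this
      omega
    refine ⟨lam (⟨m, hmk⟩ : Fin k).castSucc (emb (w ⟨m, hmk⟩)) *
      rho (⟨m, hmk⟩ : Fin k).castSucc (emb (v ⟨m, hmk⟩)) * α, ?_, ?_, ?_, ?_⟩
    · exact ((pr_lam hne (hS hw1)).mul (pr_rho hne (hS hv2))).mul hα1
    · rw [map_mul]
      refine mul_mem (Subgroup.subset_closure (Or.inl ?_)) hα2
      exact ⟨⟨m, hmk⟩, emb (w ⟨m, hmk⟩), hw1, emb (v ⟨m, hmk⟩), hv1, rfl⟩
    · intro j hj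
      rcases Nat.lt_succ_iff_lt_or_eq.1 hj with hj' | hj'
      · rw [MulAut.mul_apply, hα3 j hj']
        have h1 : emb ((w j)⁻¹ * xx j * v j) ∈ Lw (k + 1) m := by
          refine emb_Lw (mul_mem (mul_mem (inv_mem ?_) ?_) ?_)
          · exact Lw_mono hj'.le (hw j)
          · exact xx_mem_Lw hj'
          · exact Lw_mono ((min_le_left _ _).trans hj'.le) (hv j)
        rw [MulAut.mul_apply, rho_fix _ _ (hA h1), lam_fix _ _ (hA h1)]
      · have hjm : j = ⟨m, hmk⟩ := Fin.ext hj'
        subst hjm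
        rw [MulAut.mul_apply, hα4 _ le_rfl, MulAut.mul_apply, rho_self (hA hv2), map_mul,
          lam_self (hA hw1), lam_fix _ _ (hA hv2), map_mul, map_mul, map_inv, emb_xx]
    · intro j hj
      have hjne : j.castSucc ≠ (⟨m, hmk⟩ : Fin k).castSucc := by
        intro h
        have := congrArg Fin.val h
        simp only [Fin.val_castSucc] at this
        omega
      rw [MulAut.mul_apply, hα4 j (by omega), MulAut.mul_apply, rho_ne _ hjne, lam_ne _ hjne]

/-- `φ (lam last (emb u))` determines `pp φ u`. -/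
theorem up4_flp (u : FF k) :
    φ (flp (Fin.last k)) * φ (lam (Fin.last k) (emb u)) * (φ (flp (Fin.last k)))⁻¹ = pp φ u := by
  rw [← map_mul, ← map_inv, ← map_mul, flp_lam (emb_mem u), pp_apply]

/-- `φ (lam last (emb u))` commutes with the image of `pp φ`. -/
theorem up4_comm (u z : FF k) :
    φ (lam (Fin.last k) (emb u)) * pp φ z * (φ (lam (Fin.last k) (emb u)))⁻¹ = pp φ z := by
  rw [pp_apply, ← map_mul, lam_comm_rho (emb_mem u) (emb_mem z), map_mul, mul_inv_cancel_right]

theorem up_card (hk : 3 ≤ k) (hE : Finite (Subgroup.closure (US φ))) :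
    Nat.card ((Lw k (k - 1)).map (pp φ).rangeRestrict) *
      ∏ j : Fin k, (DD (pp φ).rangeRestrict j).ncard ≤ Nat.card (Subgroup.closure (US φ)) := by
  have hα : ∀ y : (∀ j : Fin k, DD (pp φ).rangeRestrict j), ∃ α : MulAut (FF (k + 1)),
      φ α ∈ Subgroup.closure (US φ) ∧
      ∀ j : Fin k, φ α * pp φ (xx j) * (φ α)⁻¹ = ((y j : (pp φ).range) : M) := by
    intro y
    have h1 : ∀ j : Fin k, ∃ w ∈ Lw k j, ∃ v ∈ Lw k (min j (k - 2)),
        (y j : (pp φ).range) = (pp φ).rangeRestrict (w⁻¹ * xx j * v) := fun j => (y j).2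
    choose w hw v hv hy using h1
    obtain ⟨α, hα1, hα2, hα3, -⟩ := up4_aux (φ := φ) w v hw hv k le_rfl
    refine ⟨α, hα2, fun j => ?_⟩
    rw [pp_conj hα1 (v := (w j)⁻¹ * xx j * v j) (w := xx j)
      (by rw [emb_xx]; exact hα3 j j.2), hy j, MonoidHom.coe_rangeRestrict]
  choose α hα1 hα2 using hα
  have hu : ∀ a : ((Lw k (k - 1)).map (pp φ).rangeRestrict), ∃ u ∈ Lw k (k - 1),
      (pp φ).rangeRestrict u = a := fun a => Subgroup.mem_map.1 a.2
  choose u hu1 hu2 using hu
  let F : ((Lw k (k - 1)).map (pp φ).rangeRestrict) × (∀ j : Fin k, DD (pp φ).rangeRestrict j) →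
      Subgroup.closure (US φ) := fun z =>
    ⟨φ (lam (Fin.last k) (emb (u z.1))) * φ (α z.2), mul_mem
      (Subgroup.subset_closure (Or.inr ⟨emb (u z.1), emb_Lw (hu1 z.1), rfl⟩)) (hα1 z.2)⟩
  have hF : Function.Injective F := by
    rintro ⟨a, y⟩ ⟨a', y'⟩ h
    have h0 : φ (lam (Fin.last k) (emb (u a))) * φ (α y) =
        φ (lam (Fin.last k) (emb (u a'))) * φ (α y') := congrArg Subtype.val h
    have key : ∀ (a : ((Lw k (k - 1)).map (pp φ).rangeRestrict))
        (y : (∀ j : Fin k, DD (pp φ).rangeRestrict j)) (j : Fin k),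
        (φ (lam (Fin.last k) (emb (u a))) * φ (α y)) * pp φ (xx j) *
          (φ (lam (Fin.last k) (emb (u a))) * φ (α y))⁻¹ = ((y j : (pp φ).range) : M) := by
      intro a y j
      have e1 := hα2 y j
      obtain ⟨z, hz⟩ : ∃ z, pp φ z = ((y j : (pp φ).range) : M) := (y j : (pp φ).range).2
      have e2 := up4_comm (φ := φ) (u a) z
      rw [hz] at e2
      calc (φ (lam (Fin.last k) (emb (u a))) * φ (α y)) * pp φ (xx j) *
          (φ (lam (Fin.last k) (emb (u a))) * φ (α y))⁻¹
          = φ (lam (Fin.last k) (emb (u a))) * (φ (α y) * pp φ (xx j) * (φ (α y))⁻¹) *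
            (φ (lam (Fin.last k) (emb (u a))))⁻¹ := by group
        _ = _ := by rw [e1, e2]
    have hy : y = y' := by
      funext j
      apply Subtype.ext
      apply Subtype.ext
      rw [← key a y j, ← key a' y' j, h0]
    subst hy
    have h1 : φ (lam (Fin.last k) (emb (u a))) = φ (lam (Fin.last k) (emb (u a'))) :=
      mul_right_cancel h0
    have h2 : pp φ (u a) = pp φ (u a') := by
      rw [← up4_flp, ← up4_flp, h1]
    have h3 : a = a' := by
      apply Subtype.ext
      rw [← hu2 a, ← hu2 a']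
      apply Subtype.ext
      rw [MonoidHom.coe_rangeRestrict, MonoidHom.coe_rangeRestrict, h2]
    rw [h3]
  have h4 := Nat.card_le_card_of_injective F hF
  rw [Nat.card_prod, Nat.card_pi] at h4
  simpa only [Nat.card_coe_set_eq] using h4

end Pool.Agent.Work.MP_d3656f_al.GB
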