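import Mathlib
import Pool.Agent.Work.MP_d3656f_al.GB.Up2

/-!
# GB/Up5 : consequences

* `up_hk`: `hk_one` with `b = false`, `i = last`: `w ∈ gam (Av {last}) e` is `emb w'` with
  `w' ∈ gam ⊤ e` (`emb_gam`), and `(pp φ).rangeRestrict w' ∈ gam ⊤ e = ⊥` (`gam_map`,
  the image of `⊤` is `⊤` or `≤ ⊤` with `gam_mono`), so `pp φ w' = 1`.
* `up_low`: by `hf` with `b = false`, `i = last`, `S = {last, k - 1}`: `emb` maps `Lw k (k-1)` into
  `Av S`.
* `up_ord`: choose `m ≠ i, j` (`3 ≤ n`). The powers of `tr true i (xx j)` are the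
  `tr true i ((xx j)^r)`, `xx j ∈ Av {i, m}`; by `hf` with `S = {i, m}` two different powers have the
  same image (`trH`, `isOfFinOrder_iff_pow_eq_one`, `Set.Finite` and injectivity).
-/

set_option autoImplicit false

namespace Pool.Agent.Work.MP_d3656f_al.GB

open scoped commutatorElement

variable {k : ℕ} {M : Type} [Group M] {φ : MulAut (FF (k + 1)) →* M}

theorem up_hk {e : ℕ} (h : gam (⊤ : Subgroup (pp φ).range) e = ⊥) : HK φ e := by
  refine hk_one false (Fin.last k) fun w hw => ?_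
  obtain ⟨w', hw', rfl⟩ := emb_gam hw
  have h1 : (pp φ).rangeRestrict w' ∈ (gam (⊤ : Subgroup (FF k)) e).map (pp φ).rangeRestrict :=
    Subgroup.mem_map_of_mem _ hw'
  rw [gam_map] at h1
  have h2 := gam_mono (le_top : (⊤ : Subgroup (FF k)).map (pp φ).rangeRestrict ≤ ⊤) e h1
  rw [h, Subgroup.mem_bot] at h2
  have h3 := congrArg Subtype.val h2
  exact h3

theorem up_low (hk : 3 ≤ k)
    (hf : ∀ (b : Bool) (i : Fin (k + 1)) (S : Finset (Fin (k + 1))), i ∈ S → 2 ≤ S.card →
      (φ '' {α | ∃ w ∈ Av S, α = tr b i w}).Finite) :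
    Finite ((Lw k (k - 1)).map (pp φ).rangeRestrict) := by
  set q : Fin (k + 1) := ⟨k - 1, by omega⟩ with hq
  have hne : Fin.last k ≠ q := by
    intro h
    have := congrArg Fin.val h
    simp only [hq, Fin.val_last] at this
    omega
  have hfin := hf false (Fin.last k) {Fin.last k, q} (by simp) (by
    rw [Finset.card_pair hne])
  have hfin' : Finite (φ '' {α | ∃ w ∈ Av {Fin.last k, q}, α = tr false (Fin.last k) w}) := hfin
  have key : ∀ x : (Lw k (k - 1)).map (pp φ).rangeRestrict, ((x : (pp φ).range) : M) ∈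
      φ '' {α | ∃ w ∈ Av {Fin.last k, q}, α = tr false (Fin.last k) w} := by
    rintro ⟨x, hx⟩
    obtain ⟨w, hw, rfl⟩ := Subgroup.mem_map.mp hx
    refine ⟨rho (Fin.last k) (emb w), ⟨emb w, Lw_le_Av (m := k - 1) ?_ (emb_Lw hw), rfl⟩, rfl⟩
    intro j hj
    simp only [Finset.mem_insert, Finset.mem_singleton] at hj
    rcases hj with hj | hj
    · rw [hj, Fin.val_last]
      omega
    · rw [hj]
  refine Finite.of_injective (fun x : (Lw k (k - 1)).map (pp φ).rangeRestrict =>
    (⟨_, key x⟩ : φ '' {α | ∃ w ∈ Av {Fin.last k, q}, α = tr false (Fin.last k) w})) ?_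
  intro x y hxy
  have h1 := congrArg Subtype.val hxy
  exact Subtype.ext (Subtype.ext h1)

theorem up_ord {n : ℕ} (hn : 3 ≤ n) {φ : MulAut (FF n) →* M}
    (hf : ∀ (b : Bool) (i : Fin n) (S : Finset (Fin n)), i ∈ S → 2 ≤ S.card →
      (φ '' {α | ∃ w ∈ Av S, α = tr b i w}).Finite) {i j : Fin n} (hij : i ≠ j) :
    IsOfFinOrder (φ (lam i (xx j))) := by
  obtain ⟨m, hm⟩ : ∃ m : Fin n, m ∉ ({i, j} : Finset (Fin n)) := by
    by_contra hc
    push Not at hc
    have h1 : (Finset.univ : Finset (Fin n)) ⊆ {i, j} := fun x _ => hc x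
    have h2 := Finset.card_le_card h1
    rw [Finset.card_univ, Fintype.card_fin, Finset.card_pair hij] at h2
    omega
  simp only [Finset.mem_insert, Finset.mem_singleton, not_or] at hm
  obtain ⟨hmi, hmj⟩ := hm
  have hxj : (xx j : FF n) ∈ Av {i, m} := xx_mem_Av (by
    simp only [Finset.mem_insert, Finset.mem_singleton, not_or]
    exact ⟨Ne.symm hij, Ne.symm hmj⟩)
  have hxj' : (xx j : FF n) ∈ Av {i} := xx_mem_Av (by simpa using Ne.symm hij)
  have hfin := hf true i {i, m} (by simp) (by rw [Finset.card_pair (Ne.symm hmi)])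
  have hpow : ∀ r : ℕ, tr true i ((xx j : FF n) ^ r) = (lam i (xx j)) ^ r := by
    intro r
    induction r with
    | zero => rw [pow_zero, pow_zero, tr_one]
    | succ r ih => rw [pow_succ, pow_succ, tr_mul true (pow_mem hxj' r) hxj', ih, tr_true]
  rw [← finite_powers]
  refine hfin.subset ?_
  rintro y ⟨r, rfl⟩
  refine ⟨tr true i ((xx j : FF n) ^ r), ⟨(xx j) ^ r, pow_mem hxj r, rfl⟩, ?_⟩
  rw [hpow, map_pow]

end Pool.Agent.Work.MP_d3656f_al.GB
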