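import Mathlib
import Pool.Agent.Work.MP_d3656f_al.GB.Up0

/-!
# GB/Up6 : one commutator of different letters suffices

Let `A w = φ (lam i w)` for `w ∈ Av {i}` (a homomorphism). Put
`K 0 = {w ∈ Av {i} | A w = 1}` and `K (t+1) = {w ∈ Av {i} | ∀ y ∈ Av {i}, ⁅w, y⁆ ∈ K t}`
(a sequence of sets; recursively defined). By induction on `t`: `K t` is a subgroup, `y w y⁻¹ ∈ K t` for
`w ∈ K t`, `y ∈ Av {i}`, and `α w ∈ K t` for `w ∈ K t` and `Pr i α` (`lam_conj`; for the step use
that `α` maps `Av {i}` onto itself; `⁅w w', y⁆ = w ⁅w', y⁆ w⁻¹ * ⁅w, y⁆`).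
Let `u s = lcom ((L.take s).map xx)`, `c = e + 2 = L.length`. Claim: `u (c - t) ∈ K t` for `t < c`.
`t = 0`: hypothesis. Step: `u (s + 1) = ⁅u s, xx l⁆ ∈ K t`, `l = L[s]`, `s ≥ 1`; `u s` does not
involve the letter `l` (`L.Nodup`), nor `i`. For `w ∈ Av {i, l}` apply `rho l w` (`Pr i`,
`xx l ↦ xx l * w`): `⁅u s, xx l * w⁆ = ⁅u s, xx l⁆ * (xx l * ⁅u s, w⁆ * (xx l)⁻¹) ∈ K t`, so
`⁅u s, w⁆ ∈ K t`. The set of all `y ∈ Av {i}` with `⁅u s, y⁆ ∈ K t` is a subgroup (`K t` normal), it
contains `xx l` and all `xx j`, `j ≠ i, l`, so it is `Av {i}` and `u s ∈ K (t + 1)`.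
For `t = c - 1`: `xx l₁ ∈ K (c - 1)` (`l₁` the first entry), and by the permutation automorphisms
(`pr_pm`) all letters `xx j`, `j ≠ i`, so `Av {i} ≤ K (c - 1)`. Then
`gam (Av {i}) s ≤ K (c - 1 - s)` by induction on `s`, so `gam (Av {i}) (c - 1) ≤ K 0`; `c - 1 = e + 1`.
Now `hk_one` with `b = true`.
-/

set_option autoImplicit false

namespace Pool.Agent.Work.MP_d3656f_al.GB

open scoped commutatorElement

private theorem lcom_snoc' {G : Type*} [Group G] (l : List G) (hl : l ≠ []) (b : G) :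
    lcom (l ++ [b]) = ⁅lcom l, b⁆ := by
  cases l with
  | nil => exact absurd rfl hl
  | cons a l =>
    show (l ++ [b]).foldl (fun u b => ⁅u, b⁆) a = _
    rw [List.foldl_append]
    rfl

private theorem com_mem {G : Type*} [Group G] {H : Subgroup G} {a b : G} (ha : a ∈ H)
    (hb : b ∈ H) : ⁅a, b⁆ ∈ H := by
  rw [commutatorElement_def]
  exact mul_mem (mul_mem (mul_mem ha hb) (inv_mem ha)) (inv_mem hb)

private theorem foldl_mem {G : Type*} [Group G] {H : Subgroup G} (l : List G) :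
    ∀ a ∈ H, (∀ y ∈ l, y ∈ H) → l.foldl (fun u b => ⁅u, b⁆) a ∈ H := by
  induction l with
  | nil =>
    intro a ha _
    exact ha
  | cons b l ih =>
    intro a ha h
    rw [List.foldl_cons]
    exact ih _ (com_mem ha (h b (by simp))) (fun y hy => h y (by simp [hy]))

private theorem lcom_mem' {G : Type*} [Group G] {H : Subgroup G} {l : List G}
    (h : ∀ y ∈ l, y ∈ H) : lcom l ∈ H := by
  cases l with
  | nil => exact one_mem H
  | cons a l => exact foldl_mem l a (h a (by simp)) (fun y hy => h y (by simp [hy]))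

/-- A subgroup of `Av {i}`, normal in `Av {i}` and invariant. -/
private structure KP {n : ℕ} (i : Fin n) (H : Subgroup (FF n)) : Prop where
  le : H ≤ Av {i}
  nrm : ∀ y ∈ Av {i}, ∀ w ∈ H, y * w * y⁻¹ ∈ H
  aut : ∀ α : MulAut (FF n), Pr i α → ∀ w ∈ H, α w ∈ H

private theorem KP.next {n : ℕ} {i : Fin n} {H : Subgroup (FF n)} (h : KP i H) :
    ∃ H' : Subgroup (FF n), KP i H' ∧ ∀ w, w ∈ H' ↔ w ∈ Av {i} ∧ ∀ y ∈ Av {i}, ⁅w, y⁆ ∈ H := by
  let H' : Subgroup (FF n) :=
    { carrier := {w | w ∈ Av {i} ∧ ∀ y ∈ Av {i}, ⁅w, y⁆ ∈ H}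
      one_mem' := ⟨one_mem _, fun y _ => by
        rw [commutatorElement_one_left]
        exact one_mem H⟩
      mul_mem' := by
        rintro w w' ⟨hw, hw1⟩ ⟨hw', hw1'⟩
        refine ⟨mul_mem hw hw', fun y hy => ?_⟩
        have e : ⁅w * w', y⁆ = w * ⁅w', y⁆ * w⁻¹ * ⁅w, y⁆ := by
          simp only [commutatorElement_def]
          group
        rw [e]
        exact mul_mem (h.nrm w hw _ (hw1' y hy)) (hw1 y hy)
      inv_mem' := by
        rintro w ⟨hw, hw1⟩
        refine ⟨inv_mem hw, fun y hy => ?_⟩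
        have e : ⁅w⁻¹, y⁆ = w⁻¹ * ⁅w, y⁆⁻¹ * w⁻¹⁻¹ := by
          simp only [commutatorElement_def]
          group
        rw [e]
        exact h.nrm _ (inv_mem hw) _ (inv_mem (hw1 y hy)) }
  refine ⟨H', ⟨fun w hw => hw.1, ?_, ?_⟩, fun w => Iff.rfl⟩
  · rintro y hy w ⟨hw, hw1⟩
    refine ⟨mul_mem (mul_mem hy hw) (inv_mem hy), fun x hx => ?_⟩
    have e : ⁅y * w * y⁻¹, x⁆ = y * ⁅w, y⁻¹ * x * y⁆ * y⁻¹ := by
      simp only [commutatorElement_def]
      group
    rw [e]
    exact h.nrm y hy _ (hw1 _ (mul_mem (mul_mem (inv_mem hy) hx) hy))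
  · rintro α hα w ⟨hw, hw1⟩
    refine ⟨hα.map w hw, fun y hy => ?_⟩
    have e : ⁅α w, y⁆ = α ⁅w, α⁻¹ y⁆ := by
      have e1 : α (α⁻¹ y) = y := by rw [← MulAut.mul_apply, mul_inv_cancel, MulAut.one_apply]
      rw [map_commutatorElement, e1]
    rw [e]
    exact h.aut α hα _ (hw1 _ (hα.inv y hy))

private theorem crit_aux {n : ℕ} {i : Fin n} {L : List (Fin n)} (hL : L.Nodup) (hi : i ∉ L)
    (s : ℕ) : s + 1 ≤ L.length → ∀ H : Subgroup (FF n), KP i H →
      lcom ((L.take (s + 1)).map xx) ∈ H → gam (Av {i}) s ≤ H := by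
  induction s with
  | zero =>
    intro hs H hH hu
    cases L with
    | nil => simp at hs
    | cons a L =>
      have h1 : (xx a : FF n) ∈ H := by
        simpa [lcom] using hu
      have hai : a ≠ i := by
        intro h
        apply hi
        simp [h]
      show Av {i} ≤ H
      refine (Subgroup.closure_le _).2 ?_
      rintro y ⟨j, hj, rfl⟩
      have hji : j ≠ i := by simpa using hj
      have h2 : Pr i (pm (Equiv.swap a j)) :=
        pr_pm (Equiv.swap_apply_of_ne_of_ne hai.symm hji.symm)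
      have h3 := hH.aut _ h2 _ h1
      rw [pm_apply, Equiv.swap_apply_left] at h3
      exact h3
  | succ s ih =>
    intro hs H hH hu
    have hs1 : s + 1 < L.length := by omega
    set l := L[s + 1] with hl
    have hil : i ≠ l := by
      intro h
      apply hi
      rw [h]
      exact List.getElem_mem hs1
    have hlt : l ∉ L.take (s + 1) := by
      intro h
      rw [List.mem_take_iff_getElem] at h
      obtain ⟨j, hj, hj1⟩ := h
      rw [hl] at hj1
      have h2 := (hL.getElem_inj_iff).1 hj1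
      omega
    set u := lcom ((L.take (s + 1)).map (xx : Fin n → FF n)) with hu0
    have e1 : lcom ((L.take (s + 1 + 1)).map (xx : Fin n → FF n)) = ⁅u, xx l⁆ := by
      rw [List.take_succ_eq_append_getElem hs1, List.map_append, List.map_cons, List.map_nil,
        lcom_snoc']
      intro h
      rw [List.map_eq_nil_iff] at h
      have h1 := congrArg List.length h
      rw [List.length_take, List.length_nil] at h1
      omega
    rw [e1] at hu
    have hu2 : u ∈ Av {i, l} := by
      refine lcom_mem' ?_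
      intro y hy
      rw [List.mem_map] at hy
      obtain ⟨j, hj, rfl⟩ := hy
      apply xx_mem_Av
      simp only [Finset.mem_insert, Finset.mem_singleton, not_or]
      refine ⟨?_, ?_⟩
      · intro h
        rw [h] at hj
        exact hi (List.mem_of_mem_take hj)
      · intro h
        rw [h] at hj
        exact hlt hj
    have hui : u ∈ Av {i} := Av_anti (by simp) hu2
    have hul : u ∈ Av {l} := Av_anti (by simp) hu2
    have hxl : (xx l : FF n) ∈ Av {i} := xx_mem_Av (by simpa using hil.symm)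
    have h3 : ∀ w ∈ Av {i, l}, ⁅u, w⁆ ∈ H := by
      intro w hw
      have hwl : w ∈ Av {l} := Av_anti (by simp) hw
      have h4 := hH.aut _ (pr_rho hil hw) _ hu
      rw [map_commutatorElement, rho_fix l w hul, rho_self hwl] at h4
      have e2 : ⁅u, w⁆ = (xx l)⁻¹ * (⁅u, xx l⁆⁻¹ * ⁅u, xx l * w⁆) * (xx l)⁻¹⁻¹ := by
        simp only [commutatorElement_def]
        group
      rw [e2]
      exact hH.nrm _ (inv_mem hxl) _ (mul_mem (inv_mem hu) h4)
    obtain ⟨H', hH', hH1⟩ := hH.next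
    have h5 : u ∈ H' := by
      rw [hH1]
      refine ⟨hui, ?_⟩
      intro y hy
      refine Subgroup.closure_induction (p := fun y _ => ⁅u, y⁆ ∈ H) ?_ ?_ ?_ ?_ hy
      · rintro x ⟨j, hj, rfl⟩
        by_cases hjl : j = l
        · rw [hjl]
          exact hu
        · apply h3
          apply xx_mem_Av
          simp only [Finset.mem_insert, Finset.mem_singleton, not_or]
          exact ⟨by simpa using hj, hjl⟩
      · rw [commutatorElement_one_right]
        exact one_mem H
      · intro x z hx hz px pz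
        have e2 : ⁅u, x * z⁆ = ⁅u, x⁆ * (x * ⁅u, z⁆ * x⁻¹) := by
          simp only [commutatorElement_def]
          group
        rw [e2]
        exact mul_mem px (hH.nrm x hx _ pz)
      · intro x hx px
        have e2 : ⁅u, x⁻¹⁆ = x⁻¹ * ⁅u, x⁆⁻¹ * x⁻¹⁻¹ := by
          simp only [commutatorElement_def]
          group
        rw [e2]
        exact hH.nrm _ (inv_mem hx) _ (inv_mem px)
    have h6 := ih (by omega) H' hH' h5
    show ⁅gam (Av {i}) s, Av {i}⁆ ≤ H
    rw [Subgroup.commutator_le]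
    intro g₁ hg₁ g₂ hg₂
    exact ((hH1 g₁).1 (h6 hg₁)).2 g₂ hg₂

theorem crit {n : ℕ} {M : Type} [Group M] {φ : MulAut (FF n) →* M} {e : ℕ} {i : Fin n}
    {L : List (Fin n)} (hL : L.Nodup) (hl : L.length = e + 2) (hi : i ∉ L)
    (h : φ (lam i (lcom (L.map xx))) = 1) : HK φ (e + 1) := by
  let H0 : Subgroup (FF n) :=
    { carrier := {w | w ∈ Av {i} ∧ φ (lam i w) = 1}
      one_mem' := ⟨one_mem _, by rw [lam_one, map_one]⟩
      mul_mem' := by
        rintro w w' ⟨hw, hw1⟩ ⟨hw', hw1'⟩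
        exact ⟨mul_mem hw hw', by rw [lam_mul hw hw', map_mul, hw1, hw1', mul_one]⟩
      inv_mem' := by
        rintro w ⟨hw, hw1⟩
        exact ⟨inv_mem hw, by rw [lam_inv hw, map_inv, hw1, inv_one]⟩ }
  have hH0 : KP i H0 := by
    refine ⟨fun w hw => hw.1, ?_, ?_⟩
    · rintro y hy w ⟨hw, hw1⟩
      refine ⟨mul_mem (mul_mem hy hw) (inv_mem hy), ?_⟩
      rw [lam_mul (mul_mem hy hw) (inv_mem hy), lam_mul hy hw, map_mul, map_mul, hw1,
        lam_inv hy, map_inv, mul_one, mul_inv_cancel]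
    · rintro α hα w ⟨hw, hw1⟩
      refine ⟨hα.map w hw, ?_⟩
      rw [← lam_conj hα hw, map_mul, map_mul, hw1, map_inv, mul_one, mul_inv_cancel]
  have h1 : lcom ((L.take (e + 1 + 1)).map (xx : Fin n → FF n)) ∈ H0 := by
    rw [List.take_of_length_le (by omega)]
    refine ⟨lcom_mem' ?_, h⟩
    intro y hy
    rw [List.mem_map] at hy
    obtain ⟨j, hj, rfl⟩ := hy
    apply xx_mem_Av
    intro h2
    rw [Finset.mem_singleton] at h2
    rw [h2] at hj
    exact hi hj
  have h2 := crit_aux hL hi (e + 1) (by omega) H0 hH0 h1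
  exact hk_one true i (fun w hw => (h2 hw).2)

end Pool.Agent.Work.MP_d3656f_al.GB
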