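import Mathlib
import Pool.Agent.Work.MP_d3656f_al.GB.Up0

/-!
# GB/Vb1 : transvections are commutators

Let `n ≥ 3`, `i ≠ j`, choose `m ≠ i, j`. `lam m (xx j)` satisfies `Pr i` (`pr_lam`) and maps `xx m` to
`(xx j)⁻¹ * xx m`, so by `lam_conj`
`lam m (xx j) * lam i (xx m) * (lam m (xx j))⁻¹ = lam i ((xx j)⁻¹ * xx m) =
(lam i (xx j))⁻¹ * lam i (xx m)`; hence
`(lam i (xx j))⁻¹ = ⁅lam m (xx j), lam i (xx m)⁆` is in the commutator subgroup. The set of
`w ∈ Av {i}` with `lam i w ∈ commutator _` is a subgroup (`lam_mul`, `lam_inv`; e.g.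
`Subgroup.closure_induction`), so it is `Av {i}`. `rho i w = flp i * lam i w * (flp i)⁻¹`
(`flp_lam`), and the commutator subgroup is normal.
-/

set_option autoImplicit false

namespace Pool.Agent.Work.MP_d3656f_al.GB

open scoped commutatorElement

private theorem vb_gen {n : ℕ} (hn : 3 ≤ n) {i j : Fin n} (hj : j ≠ i) :
    lam i (xx j) ∈ commutator (MulAut (FF n)) := by
  obtain ⟨m, hmi, hmj⟩ := Fin.exists_ne_and_ne_of_two_lt i j (by omega)
  have a1 : (xx j : FF n) ∈ Av {i, m} := xx_mem_Av (by simp [hj, hmj.symm])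
  have a2 : (xx j : FF n) ∈ Av {i} := xx_mem_Av (by simpa using hj)
  have a3 : (xx j : FF n) ∈ Av {m} := xx_mem_Av (by simpa using hmj.symm)
  have a4 : (xx m : FF n) ∈ Av {i} := xx_mem_Av (by simpa using hmi)
  have h1 : Pr i (lam m (xx j)) := pr_lam hmi.symm a1
  have h2 := lam_conj h1 a4
  rw [lam_self a3, lam_mul (inv_mem a2) a4, lam_inv a2] at h2
  have h3 : (lam i (xx j))⁻¹ = ⁅lam m (xx j), lam i (xx m)⁆ := by
    rw [commutatorElement_def, h2]
    group
  have h4 : (lam i (xx j))⁻¹ ∈ commutator (MulAut (FF n)) := by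
    rw [h3, commutator_def]
    exact Subgroup.commutator_mem_commutator (Subgroup.mem_top _) (Subgroup.mem_top _)
  have h5 := inv_mem h4
  rwa [inv_inv] at h5

private theorem vb_lam {n : ℕ} (hn : 3 ≤ n) (i : Fin n) {w : FF n} (hw : w ∈ Av {i}) :
    lam i w ∈ commutator (MulAut (FF n)) := by
  have hw' : w ∈ Subgroup.closure {y : FF n | ∃ j, j ∉ ({i} : Finset (Fin n)) ∧ y = xx j} := hw
  induction hw' using Subgroup.closure_induction with
  | mem x hx =>
    obtain ⟨j, hj, rfl⟩ := hx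
    exact vb_gen hn (by simpa using hj)
  | one => rw [lam_one]; exact one_mem _
  | mul x y hx hy ihx ihy =>
    rw [lam_mul hx hy]
    exact mul_mem (ihx hx) (ihy hy)
  | inv x hx ihx =>
    rw [lam_inv hx]
    exact inv_mem (ihx hx)

theorem tr_comm {n : ℕ} (hn : 3 ≤ n) (b : Bool) (i : Fin n) {w : FF n} (hw : w ∈ Av {i}) :
    tr b i w ∈ commutator (MulAut (FF n)) := by
  cases b
  · rw [tr_false, ← flp_lam hw]
    have hN : (commutator (MulAut (FF n))).Normal := inferInstance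
    exact hN.conj_mem _ (vb_lam hn i hw) _
  · exact vb_lam hn i hw

end Pool.Agent.Work.MP_d3656f_al.GB
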