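import Mathlib
import Pool.Agent.Work.MP_d3656f_al.GB.Lb3
import Pool.Agent.Work.MP_d3656f_al.GB.Up2
import Pool.Agent.Work.MP_d3656f_al.GB.Up3
import Pool.Agent.Work.MP_d3656f_al.GB.Vb1

/-!
# GB/Vb2 : a larger finite subgroup

Let `p = (pp φ).rangeRestrict`, `Q = (pp φ).range`, `E₁ = closure (US φ)` (finite), and let `R` be the
group of all `φ (rho last v)`, `v ∈ Lw (k+1) (k-1)`; it is finite (`hf` with `b = false`,
`i = last`, `S = {last, k - 1}`; a subgroup by `rho_mul`). `E₁` normalises `R`: the generator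
`γ = lam j w * rho j v` (`j < k`, `w, v ∈ Lw (k+1) j`) satisfies `Pr last γ` and maps
`Lw (k+1) (k-1)` into itself (if `j < k - 1` because `w, v ∈ Lw (k+1) (k-1)`, if `j = k - 1` it
fixes this group pointwise), and `γ * rho last z * γ⁻¹ = rho last (γ z)`; the same for the inverse of `γ`;
`lam last w` commutes with `rho last z` (`lam_comm_rho`). Let `E = E₁ ⊔ R`, finite by `sup_fin`.
All generators are in the image of the commutator subgroup (`tr_comm`).
Counting: all elements of `E₁` commute with `q₀ = φ (rho last (xx 0))` (check the generators: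
`j = 0`: `w, v ∈ Lw (k+1) 0 = ⊥`; `j ≥ 1`: `γ` fixes `xx 0`; `lam last w` commutes). Let
`σ = swap 0 (k-2)` on `Fin k` and `V₁ = (Lw k (k-2)).map (pm σ)`; it is contained in
`Lw k (k-1)` and in `Av {0}`. If `v ∈ V₁` and `pp φ v ∈ E₁` then `p v` commutes with `p (xx 0)`; for
every `w ∈ Av {0}` apply `rho 0 w` to `p (v * xx 0 * v⁻¹) = p (xx 0)` (`chr_rr`, `Chr.eq`):
`p (v * xx 0 * w * v⁻¹) = p (xx 0 * w)`, so `p v` commutes with `p w`; hence `p v` is central in `Q`
(all letters; `p` is surjective onto `Q`). So with `R₁ = V₁.map (pp φ) ≤ R ≤ E`: two elements of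
`R₁` in the same coset of `E₁` have the same image in `Q ⧸ center Q`; so `E` contains at least
`|V₁ in Q ⧸ center Q|` cosets of `E₁`, each with `|E₁|` elements. Finally the images of `V₁` and of
`Lw k (k-2)` in `Q ⧸ center Q` have the same cardinality: the kernel of the map `FF k → Q ⧸ center Q`
is characteristic (`chr_quot`), so `pm σ` induces a bijection between them.
-/

set_option autoImplicit false

namespace Pool.Agent.Work.MP_d3656f_al.GB

open scoped commutatorElement

section vb2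

variable {k : ℕ} {M : Type} [Group M] {φ : MulAut (FF (k + 1)) →* M}

private theorem vb2_notin {n m : ℕ} {l : Fin n}
    (h : l ∉ Finset.univ.filter (fun j : Fin n => m ≤ (j : ℕ))) : (l : ℕ) < m := by
  simpa using h

private theorem vb2_lwA {w : FF (k + 1)} {j : Fin k} (hw : w ∈ Lw (k + 1) j) :
    w ∈ Av {Fin.last k, j.castSucc} := by
  refine Lw_le_Av (m := j) ?_ hw
  intro l hl
  rw [Finset.mem_insert, Finset.mem_singleton] at hl
  rcases hl with rfl | rfl
  · rw [Fin.val_last]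
    exact j.2.le
  · rw [Fin.val_castSucc]

private theorem vb2_lwB {w : FF (k + 1)} {j : Fin k} (hw : w ∈ Lw (k + 1) j) :
    w ∈ Av {j.castSucc} := by
  refine Lw_le_Av (m := j) ?_ hw
  intro l hl
  rw [Finset.mem_singleton] at hl
  subst hl
  rw [Fin.val_castSucc]

private theorem vb2_lwC {w : FF (k + 1)} (hw : w ∈ Lw (k + 1) (k - 1)) : w ∈ Av {Fin.last k} := by
  refine Lw_le_Av (m := k - 1) ?_ hw
  intro l hl
  rw [Finset.mem_singleton] at hl
  subst hl
  rw [Fin.val_last]
  omega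

/-- the generators of `US` are inverted inside `US` -/
private theorem vb2_inv {y : M} (hy : y ∈ US φ) : y⁻¹ ∈ US φ := by
  rcases hy with ⟨j, w, hw, v, hv, rfl⟩ | ⟨w, hw, rfl⟩
  · left
    have hv' : v ∈ Lw (k + 1) j := Lw_mono (min_le_left _ _) hv
    refine ⟨j, w⁻¹, inv_mem hw, v⁻¹, inv_mem hv, ?_⟩
    rw [← map_inv, mul_inv_rev, lam_inv (vb2_lwB hw), rho_inv (vb2_lwB hv')]
    congr 1
    rw [← lam_inv (vb2_lwB hw), ← rho_inv (vb2_lwB hv'),
      lam_comm_rho (inv_mem (vb2_lwB hw)) (inv_mem (vb2_lwB hv'))]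
  · right
    refine ⟨w⁻¹, inv_mem hw, ?_⟩
    rw [← map_inv, lam_inv (vb2_lwC hw)]

private theorem vb2_conj {y : M} (hy : y ∈ US φ) {z : FF k} (hz : z ∈ Lw k (k - 1)) :
    ∃ z' ∈ Lw k (k - 1), y * pp φ z * y⁻¹ = pp φ z' := by
  rcases hy with ⟨j, w, hw, v, hv, rfl⟩ | ⟨w, hw, rfl⟩
  · have hv' : v ∈ Lw (k + 1) j := Lw_mono (min_le_left _ _) hv
    have hne : Fin.last k ≠ j.castSucc := (Fin.castSucc_lt_last j).ne'
    have hPr : Pr (Fin.last k) (lam j.castSucc w * rho j.castSucc v) :=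
      (pr_lam hne (vb2_lwA hw)).mul (pr_rho hne (vb2_lwA hv'))
    have hmap : (lam j.castSucc w * rho j.castSucc v) (emb z) ∈ Lw (k + 1) (k - 1) := by
      refine aut_mem (fun l hl => ?_) (emb_Lw hz)
      have hl' : (l : ℕ) < k - 1 := vb2_notin hl
      rw [MulAut.mul_apply]
      by_cases h : l = j.castSucc
      · subst h
        have hle : (j : ℕ) ≤ k - 1 := by
          rw [Fin.val_castSucc] at hl'
          omega
        rw [rho_self (vb2_lwB hv'), map_mul, lam_self (vb2_lwB hw), lam_fix _ _ (vb2_lwB hv')]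
        exact mul_mem (mul_mem (inv_mem (Lw_mono hle hw)) (xx_mem_Lw hl')) (Lw_mono hle hv')
      · rw [rho_ne v h, lam_ne w h]
        exact xx_mem_Lw hl'
    obtain ⟨z', hz', he⟩ := emb_surj' (by omega : k - 1 ≤ k) hmap
    exact ⟨z', hz', pp_conj hPr he⟩
  · refine ⟨z, hz, ?_⟩
    rw [pp_apply, ← map_mul, lam_comm_rho (vb2_lwC hw) (emb_mem z), map_mul,
      mul_inv_cancel_right]

private theorem vb2_norm (a : M) (ha : a ∈ Subgroup.closure (US φ)) :
    ∀ b, b ∈ (Lw k (k - 1)).map (pp φ) ↔ a * b * a⁻¹ ∈ (Lw k (k - 1)).map (pp φ) := by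
  have hgen : ∀ y ∈ US φ, ∀ b ∈ (Lw k (k - 1)).map (pp φ),
      y * b * y⁻¹ ∈ (Lw k (k - 1)).map (pp φ) := by
    rintro y hy _ ⟨z, hz, rfl⟩
    obtain ⟨z', hz', h⟩ := vb2_conj hy hz
    rw [h]
    exact ⟨z', hz', rfl⟩
  refine Subgroup.closure_induction (p := fun a _ => ∀ b, b ∈ (Lw k (k - 1)).map (pp φ) ↔
    a * b * a⁻¹ ∈ (Lw k (k - 1)).map (pp φ)) ?_ ?_ ?_ ?_ ha
  · intro y hy b
    refine ⟨hgen y hy b, fun h => ?_⟩
    have h2 := hgen _ (vb2_inv hy) _ h
    have e : y⁻¹ * (y * b * y⁻¹) * y⁻¹⁻¹ = b := by group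
    rwa [e] at h2
  · intro b
    rw [one_mul, inv_one, mul_one]
  · intro x y _ _ hx hy b
    have e : x * y * b * (x * y)⁻¹ = x * (y * b * y⁻¹) * x⁻¹ := by group
    rw [e]
    exact (hy b).trans (hx _)
  · intro x _ hx b
    have e : x * (x⁻¹ * b * x⁻¹⁻¹) * x⁻¹ = b := by group
    rw [hx (x⁻¹ * b * x⁻¹⁻¹), e]

private theorem vb2_lw0 {w : FF (k + 1)} (hw : w ∈ Lw (k + 1) 0) : w = 1 := by
  have h : Lw (k + 1) 0 ≤ ⊥ := Lw_le fun j hj => absurd hj (Nat.not_lt_zero _)
  exact (Subgroup.mem_bot).1 (h hw)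

/-- everything in the first group commutes with the image of the letter `0` -/
private theorem vb2_cent (h0 : 0 < k) (a : M) (ha : a ∈ Subgroup.closure (US φ)) :
    a * pp φ (xx ⟨0, h0⟩) = pp φ (xx ⟨0, h0⟩) * a := by
  refine Subgroup.closure_induction (p := fun a _ => a * pp φ (xx ⟨0, h0⟩) =
    pp φ (xx ⟨0, h0⟩) * a) ?_ ?_ ?_ ?_ ha
  · rintro _ (⟨j, w, hw, v, hv, rfl⟩ | ⟨w, hw, rfl⟩)
    · have hv' : v ∈ Lw (k + 1) j := Lw_mono (min_le_left _ _) hv
      by_cases hj : (j : ℕ) = 0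
      · rw [hj] at hw hv'
        rw [vb2_lw0 hw, vb2_lw0 hv', lam_one, rho_one, mul_one, map_one, one_mul, mul_one]
      · have hne : Fin.last k ≠ j.castSucc := (Fin.castSucc_lt_last j).ne'
        have hPr : Pr (Fin.last k) (lam j.castSucc w * rho j.castSucc v) :=
          (pr_lam hne (vb2_lwA hw)).mul (pr_rho hne (vb2_lwA hv'))
        have hne0 : (⟨0, h0⟩ : Fin k).castSucc ≠ j.castSucc := by
          intro h
          apply hj
          have := congrArg Fin.val h
          simp only [Fin.val_castSucc] at this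
          exact this.symm
        have hfix : (lam j.castSucc w * rho j.castSucc v) (emb (xx ⟨0, h0⟩)) =
            emb (xx ⟨0, h0⟩) := by
          rw [emb_xx, MulAut.mul_apply, rho_ne v hne0, lam_ne w hne0]
        have := pp_conj (φ := φ) hPr hfix
        rwa [mul_inv_eq_iff_eq_mul] at this
    · rw [pp_apply, ← map_mul, lam_comm_rho (vb2_lwC hw) (emb_mem _), map_mul]
  · rw [one_mul, mul_one]
  · intro x y _ _ hx hy
    rw [mul_assoc, hy, ← mul_assoc, hx, mul_assoc]
  · intro x _ hx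
    rw [inv_mul_eq_iff_eq_mul, ← mul_assoc, hx, mul_inv_cancel_right]

/-- a letter free of `0` whose image is in the first group is central -/
private theorem vb2_central (h0 : 0 < k) {v : FF k} (hv : v ∈ Av {(⟨0, h0⟩ : Fin k)})
    (hE : pp φ v ∈ Subgroup.closure (US φ)) :
    (pp φ).rangeRestrict v ∈ Subgroup.center (pp φ).range := by
  set p := (pp φ).rangeRestrict with hp
  have hC : Chr p := chr_rr
  have hs : Function.Surjective p := MonoidHom.rangeRestrict_surjective _
  have hx0 : p v * p (xx ⟨0, h0⟩) = p (xx ⟨0, h0⟩) * p v :=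
    Subtype.ext (vb2_cent h0 _ hE)
  have key : ∀ w ∈ Av {(⟨0, h0⟩ : Fin k)}, p v * p w = p w * p v := by
    intro w hw
    have h1 : p (v * xx ⟨0, h0⟩) = p (xx ⟨0, h0⟩ * v) := by
      rw [map_mul, map_mul, hx0]
    have h2 := hC.eq (rho ⟨0, h0⟩ w) h1
    simp only [map_mul, rho_self hw, rho_fix _ w hv] at h2
    have h3 : p (xx ⟨0, h0⟩) * (p v * p w) = p (xx ⟨0, h0⟩) * (p w * p v) := by
      calc p (xx ⟨0, h0⟩) * (p v * p w) = (p (xx ⟨0, h0⟩) * p v) * p w := by group
        _ = p v * (p (xx ⟨0, h0⟩) * p w) := by rw [← hx0]; group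
        _ = p (xx ⟨0, h0⟩) * p w * p v := h2
        _ = _ := by group
    exact mul_left_cancel h3
  have hj : ∀ j : Fin k, p v * p (xx j) = p (xx j) * p v := by
    intro j
    by_cases hjm : j = ⟨0, h0⟩
    · rw [hjm]
      exact hx0
    · exact key _ (xx_mem_Av (by simpa using hjm))
  rw [Subgroup.mem_center_iff]
  intro q
  obtain ⟨z, rfl⟩ := hs q
  have hz : Commute (p v) (p z) := by
    induction z using FreeGroup.induction_on with
    | C1 => rw [map_one]; exact Commute.one_right _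
    | of x => exact hj x
    | inv_of x hx => rw [map_inv]; exact hx.inv_right
    | mul x y hx hy => rw [map_mul]; exact hx.mul_right hy
  exact hz.eq.symm

end vb2

theorem us_big {k : ℕ} {M : Type} [Group M] {φ : MulAut (FF (k + 1)) →* M} (hk : 3 ≤ k)
    (hf : ∀ (b : Bool) (i : Fin (k + 1)) (S : Finset (Fin (k + 1))), i ∈ S → 2 ≤ S.card →
      (φ '' {α | ∃ w ∈ Av S, α = tr b i w}).Finite) (hE : Finite (Subgroup.closure (US φ))) :
    ∃ E : Subgroup M, Finite E ∧ E ≤ (commutator (MulAut (FF (k + 1)))).map φ ∧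
      Nat.card (Subgroup.closure (US φ)) * Nat.card ((Lw k (k - 2)).map
        ((QuotientGroup.mk' (Subgroup.center (pp φ).range)).comp (pp φ).rangeRestrict)) ≤
          Nat.card E := by
  classical
  have h0 : 0 < k := by omega
  -- the finite group `R`
  have hR : Finite ((Lw k (k - 1)).map (pp φ)) := by
    have hcard : 2 ≤ ({Fin.last k, (⟨k - 1, by omega⟩ : Fin (k + 1))} :
        Finset (Fin (k + 1))).card := by
      rw [Finset.card_pair]
      intro h
      have h1 := congrArg Fin.val h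
      simp only [Fin.val_last] at h1
      omega
    have h1 := hf false (Fin.last k) {Fin.last k, (⟨k - 1, by omega⟩ : Fin (k + 1))} (by simp) hcard
    refine Set.Finite.subset h1 ?_
    rintro _ ⟨z, hz, rfl⟩
    refine ⟨rho (Fin.last k) (emb z), ⟨emb z, ?_, rfl⟩, rfl⟩
    refine Lw_le_Av (m := k - 1) ?_ (emb_Lw hz)
    intro l hl
    rw [Finset.mem_insert, Finset.mem_singleton] at hl
    rcases hl with rfl | rfl
    · rw [Fin.val_last]
      omega
    · exact le_rfl
  have hfin : Finite ↥(Subgroup.closure (US φ) ⊔ (Lw k (k - 1)).map (pp φ)) :=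
    sup_fin hE hR fun a ha b hb => (vb2_norm a ha b).1 hb
  refine ⟨Subgroup.closure (US φ) ⊔ (Lw k (k - 1)).map (pp φ), hfin, ?_, ?_⟩
  · have hn : 3 ≤ k + 1 := by omega
    refine sup_le ((Subgroup.closure_le _).2 ?_) ?_
    · rintro _ (⟨j, w, hw, v, hv, rfl⟩ | ⟨w, hw, rfl⟩)
      · have hv' : v ∈ Lw (k + 1) j := Lw_mono (min_le_left _ _) hv
        refine ⟨_, mul_mem ?_ ?_, rfl⟩
        · exact tr_comm hn true j.castSucc (vb2_lwB hw)
        · exact tr_comm hn false j.castSucc (vb2_lwB hv')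
      · exact ⟨_, tr_comm hn true (Fin.last k) (vb2_lwC hw), rfl⟩
    · rintro _ ⟨z, _, rfl⟩
      exact ⟨_, tr_comm hn false (Fin.last k) (emb_mem z), rfl⟩
  · set q := (QuotientGroup.mk' (Subgroup.center (pp φ).range)).comp (pp φ).rangeRestrict with hq
    have hs : Function.Surjective (pp φ).rangeRestrict := MonoidHom.rangeRestrict_surjective _
    have hCq : Chr q := chr_quot hs chr_rr
    set σ : Equiv.Perm (Fin k) := Equiv.swap ⟨0, h0⟩ ⟨k - 2, by omega⟩ with hσ
    have hlt : ∀ l : Fin k, (l : ℕ) < k - 2 → ((σ l : Fin k) : ℕ) < k - 1 ∧ σ l ≠ ⟨0, h0⟩ := by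
      intro l hl
      by_cases hl0 : l = ⟨0, h0⟩
      · rw [hl0, hσ, Equiv.swap_apply_left]
        refine ⟨by simp only; omega, fun h => ?_⟩
        have := congrArg Fin.val h
        simp only at this
        omega
      · have hl2 : l ≠ ⟨k - 2, by omega⟩ := by
          intro h
          rw [h] at hl
          simp only at hl
          omega
        rw [hσ, Equiv.swap_apply_of_ne_of_ne hl0 hl2]
        exact ⟨by omega, hl0⟩
    have hV1 : ∀ w ∈ Lw k (k - 2), pm σ w ∈ Lw k (k - 1) := fun w hw =>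
      aut_mem (fun l hl => by
        rw [pm_apply]
        exact xx_mem_Lw (hlt l (vb2_notin hl)).1) hw
    have hV0 : ∀ w ∈ Lw k (k - 2), pm σ w ∈ Av {(⟨0, h0⟩ : Fin k)} := fun w hw =>
      aut_mem (fun l hl => by
        rw [pm_apply]
        refine xx_mem_Av ?_
        simpa using (hlt l (vb2_notin hl)).2) hw
    have hex : ∀ c : ↥((Lw k (k - 2)).map q), ∃ w ∈ Lw k (k - 2), q w = c := fun c => c.2
    choose g hg1 hg2 using hex
    let f : ↥(Subgroup.closure (US φ)) × ↥((Lw k (k - 2)).map q) →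
        ↥(Subgroup.closure (US φ) ⊔ (Lw k (k - 1)).map (pp φ)) := fun t =>
      ⟨pp φ (pm σ (g t.2)) * t.1, mul_mem
        ((le_sup_right : (Lw k (k - 1)).map (pp φ) ≤ _) ⟨_, hV1 _ (hg1 t.2), rfl⟩)
        ((le_sup_left : Subgroup.closure (US φ) ≤ _) t.1.2)⟩
    have hinj : Function.Injective f := by
      rintro ⟨e, c⟩ ⟨e', c'⟩ h
      have h1 : pp φ (pm σ (g c)) * e = pp φ (pm σ (g c')) * e' := congrArg Subtype.val h
      have h2 : pp φ (pm σ ((g c')⁻¹ * g c)) = (e' : M) * (e : M)⁻¹ := by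
        rw [map_mul, map_inv, map_mul, map_inv, inv_mul_eq_iff_eq_mul, ← mul_assoc, ← h1,
          mul_inv_cancel_right]
      have hu : (g c')⁻¹ * g c ∈ Lw k (k - 2) := mul_mem (inv_mem (hg1 c')) (hg1 c)
      have h3 : pp φ (pm σ ((g c')⁻¹ * g c)) ∈ Subgroup.closure (US φ) := by
        rw [h2]
        exact mul_mem e'.2 (inv_mem e.2)
      have h4 := vb2_central h0 (hV0 _ hu) h3
      have h5 : q (pm σ ((g c')⁻¹ * g c)) = 1 := by
        rw [hq, MonoidHom.comp_apply, QuotientGroup.mk'_apply, QuotientGroup.eq_one_iff]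
        exact h4
      have h6 := hCq (pm σ)⁻¹ _ h5
      rw [← MulAut.mul_apply, inv_mul_cancel, MulAut.one_apply, map_mul, map_inv,
        inv_mul_eq_one, hg2, hg2] at h6
      have h7 : c' = c := Subtype.ext h6
      subst h7
      have h8 : (e : M) = e' := mul_left_cancel h1
      rw [Subtype.ext h8]
    have := Nat.card_le_card_of_injective f hinj
    rwa [Nat.card_prod] at this

end Pool.Agent.Work.MP_d3656f_al.GB
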