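import Mathlib
import Pool.Agent.Work.MP_d3656f_al.GB.Lb5

/-!
# GB/Vb3 : the improved numerical bound (PURE arithmetic)

`k = 3`: `e = 1`: `sb 1 1 = 1`, the sum is `9`: `10 ≥ 10` (evaluate). `k ≥ 4`: `sb (k-2) e ≥
C(k-2, 1) = k - 2 ≥ 2` (`e ≥ 1`) and `sb_num`.
-/

set_option autoImplicit false

namespace Pool.Agent.Work.MP_d3656f_al.GB

open scoped commutatorElement

theorem sb_num2 {k : ℕ} (hk : 3 ≤ k) {e : ℕ} (he : e + 1 = max 2 (k - 4)) :
    2 ^ k + 2 ≤ sb (k - 1) (e + 1) + ∑ j : Fin k, (sb j (e + 1) + sb (min j (k - 2)) e) +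
      sb (k - 2) e := by
  rcases Nat.lt_or_ge k 4 with h | h
  · have hk3 : k = 3 := by omega
    subst hk3
    have he1 : e = 1 := by
      have : max 2 (3 - 4) = 2 := by norm_num
      omega
    subst he1
    decide
  · have h1 := sb_num hk he
    have he1 : 1 ≤ e := by
      have := le_max_left 2 (k - 4)
      omega
    have h2 : k - 2 ≤ sb (k - 2) e := by
      have h3 := Finset.single_le_sum (f := fun j => (k - 2).choose j)
        (s := Finset.Icc 1 e) (fun _ _ => Nat.zero_le _) (Finset.mem_Icc.2 ⟨le_rfl, he1⟩)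
      rw [Nat.choose_one_right] at h3
      exact h3
    omega

end Pool.Agent.Work.MP_d3656f_al.GB
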